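import Pool.Agent.CTab.Defs

/-!
Basic facts. `IsCh` is a class function, `f x⁻¹ = conj (f x)` (ρ(x) has finite order, eigenvalues are roots of
unity; or unitarise), `IsIr` iff `IsCh` and norm one (Mathlib: `FDRep.simple_iff_char_is_norm_one`), zero and degree.
Note that sums over `G` of functions supported on `A` are sums over `A`.
-/

set_option autoImplicit false

namespace Pool.Agent.CTab

open scoped Classical

variable {G : Type} [Group G] [Fintype G]

open scoped ComplexOrder in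
theorem b01_conj {A : Type} [Group A] [Fintype A] (V : FDRep ℂ A) (a : A) :
    (starRingEnd ℂ) (V.character a) = V.character a⁻¹ := by
  obtain ⟨b⟩ : Nonempty (Module.Basis (Fin (Module.finrank ℂ V)) ℂ V) :=
    ⟨Module.finBasis ℂ V⟩
  obtain ⟨r, hr⟩ : ∃ r : A → Matrix (Fin (Module.finrank ℂ V)) (Fin (Module.finrank ℂ V)) ℂ,
      ∀ g, r g = LinearMap.toMatrix b b (V.ρ g) := ⟨_, fun _ => rfl⟩
  have hmul : ∀ g h, r (g * h) = r g * r h := by
    intro g h
    rw [hr, hr, hr, map_mul]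
    exact LinearMap.toMatrix_mul b (V.ρ g) (V.ρ h)
  have hone : r 1 = 1 := by
    rw [hr, map_one]
    exact LinearMap.toMatrix_one b
  have htr : ∀ g, V.character g = Matrix.trace (r g) := by
    intro g
    rw [hr]
    exact LinearMap.trace_eq_matrix_trace ℂ b (V.ρ g)
  obtain ⟨H, hH⟩ : ∃ H, H = ∑ g, (r g).conjTranspose * r g := ⟨_, rfl⟩
  have hpos : H.PosDef := by
    have h1 : H = 1 + ∑ g ∈ Finset.univ.erase (1 : A), (r g).conjTranspose * r g := by
      rw [hH, ← Finset.add_sum_erase Finset.univ (fun g => (r g).conjTranspose * r g)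
        (Finset.mem_univ (1 : A)), hone]
      simp
    rw [h1]
    refine Matrix.PosDef.add_posSemidef Matrix.PosDef.one ?_
    exact Matrix.posSemidef_sum _ (fun g _ => Matrix.posSemidef_conjTranspose_mul_self _)
  have hinv : (r a).conjTranspose * H * r a = H := by
    have h2 : (r a).conjTranspose * H * r a =
        ∑ g, (r (g * a)).conjTranspose * r (g * a) := by
      rw [hH, Finset.mul_sum, Finset.sum_mul]
      refine Finset.sum_congr rfl fun g _ => ?_
      rw [hmul, Matrix.conjTranspose_mul]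
      simp only [Matrix.mul_assoc]
    rw [h2, hH]
    exact Fintype.sum_equiv (Equiv.mulRight a) _ _ (fun g => rfl)
  have hinv2 : (r a).conjTranspose * H = H * r a⁻¹ := by
    have h3 : r a * r a⁻¹ = 1 := by rw [← hmul, mul_inv_cancel, hone]
    calc (r a).conjTranspose * H = (r a).conjTranspose * H * (r a * r a⁻¹) := by
          rw [h3, Matrix.mul_one]
      _ = (r a).conjTranspose * H * r a * r a⁻¹ := by simp only [Matrix.mul_assoc]
      _ = H * r a⁻¹ := by rw [hinv]
  have hu : IsUnit H := hpos.isUnit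
  have hdet : IsUnit H.det := (Matrix.isUnit_iff_isUnit_det H).mp hu
  have hfin : r a⁻¹ = H⁻¹ * ((r a).conjTranspose * H) := by
    rw [hinv2, ← Matrix.mul_assoc, Matrix.nonsing_inv_mul H hdet, Matrix.one_mul]
  rw [htr, htr, hfin, ← Matrix.mul_assoc, Matrix.trace_mul_comm, ← Matrix.mul_assoc,
    Matrix.mul_nonsing_inv H hdet, Matrix.one_mul, Matrix.trace_conjTranspose]
  rfl

theorem b01_sum {A : Subgroup G} (F : G → ℂ) (hF : ∀ x, x ∉ A → F x = 0) :
    ∑ x, F x = ∑ a : A, F a := by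
  have h1 : ∑ a : A, F a = ∑ x ∈ Finset.univ.filter (fun x => x ∈ A), F x := by
    rw [Finset.sum_subtype (Finset.univ.filter (fun x => x ∈ A)) (p := fun x => x ∈ A)
      (by intro x; simp)]
  rw [h1]
  symm
  refine Finset.sum_subset (Finset.filter_subset _ _) ?_
  intro x _ hx
  apply hF
  intro hxA
  exact hx (by simp [hxA])

theorem IsIr.isCh {A : Subgroup G} {f : G → ℂ} (h : IsIr A f) : IsCh A f := by
  obtain ⟨h0, V, _, hV⟩ := h
  exact ⟨h0, V, hV⟩

theorem IsCh.cls {A : Subgroup G} {f : G → ℂ} (h : IsCh A f) : Cls A f := by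
  obtain ⟨h0, V, hV⟩ := h
  refine ⟨h0, fun a ha x => ?_⟩
  by_cases hx : x ∈ A
  · have hm : a * x * a⁻¹ ∈ A := A.mul_mem (A.mul_mem ha hx) (A.inv_mem ha)
    have h1 := hV ⟨a * x * a⁻¹, hm⟩
    have h2 := hV ⟨x, hx⟩
    have h3 : (⟨a * x * a⁻¹, hm⟩ : A) = (⟨a, ha⟩ : A) * ⟨x, hx⟩ * (⟨a, ha⟩ : A)⁻¹ := rfl
    rw [h3, FDRep.char_conj, h2] at h1
    exact h1.symm
  · have hm : a * x * a⁻¹ ∉ A := by
      intro hm
      apply hx
      have h4 := A.mul_mem (A.mul_mem (A.inv_mem ha) hm) ha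
      have h5 : a⁻¹ * (a * x * a⁻¹) * a = x := by group
      rwa [h5] at h4
    rw [h0 _ hm, h0 _ hx]

theorem IsCh.conj {A : Subgroup G} {f : G → ℂ} (h : IsCh A f) (x : G) :
    (starRingEnd ℂ) (f x) = f x⁻¹ := by
  obtain ⟨h0, V, hV⟩ := h
  by_cases hx : x ∈ A
  · have h1 := hV ⟨x, hx⟩
    have h2 := hV (⟨x, hx⟩ : A)⁻¹
    have h3 := b01_conj V ⟨x, hx⟩
    rw [h1, h2] at h3
    exact h3
  · have hm : x⁻¹ ∉ A := by
      intro hm
      exact hx (by simpa using A.inv_mem hm)
    rw [h0 _ hx, h0 _ hm, map_zero]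

theorem b01_ip {A : Subgroup G} {f : G → ℂ} (h0 : ∀ x, x ∉ A → f x = 0) (V : FDRep ℂ A)
    (hV : ∀ a : A, V.character a = f a) :
    ip A f f = (Nat.card A : ℂ)⁻¹ * ∑ a : A, V.character a * V.character a⁻¹ := by
  unfold ip
  congr 1
  rw [b01_sum (A := A) (fun x => f x * (starRingEnd ℂ) (f x))
    (fun x hx => by simp [h0 x hx])]
  refine Finset.sum_congr rfl fun a _ => ?_
  rw [← b01_conj, hV a]

theorem isIr_iff {A : Subgroup G} {f : G → ℂ} : IsIr A f ↔ IsCh A f ∧ ip A f f = 1 := by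
  have hc : (Nat.card A : ℂ) ≠ 0 := by
    exact_mod_cast Nat.card_pos.ne'
  constructor
  · rintro ⟨h0, V, hs, hV⟩
    refine ⟨⟨h0, V, hV⟩, ?_⟩
    rw [b01_ip h0 V hV, (FDRep.simple_iff_char_is_norm_one V).mp hs, inv_mul_cancel₀ hc]
  · rintro ⟨⟨h0, V, hV⟩, hn⟩
    refine ⟨h0, V, ?_, hV⟩
    rw [b01_ip h0 V hV] at hn
    rw [FDRep.simple_iff_char_is_norm_one]
    have := congrArg (fun z => (Nat.card A : ℂ) * z) hn
    simp only [mul_one] at this
    rw [← mul_assoc, mul_inv_cancel₀ hc, one_mul] at this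
    exact this

/-- the degree is a natural number; degree zero means `f = 0` -/
theorem IsCh.deg {A : Subgroup G} {f : G → ℂ} (h : IsCh A f) :
    ∃ m : ℕ, f 1 = m ∧ (m = 0 → f = 0) := by
  obtain ⟨h0, V, hV⟩ := h
  refine ⟨Module.finrank ℂ V, ?_, ?_⟩
  · have h1 := hV 1
    rw [FDRep.char_one] at h1
    simpa using h1.symm
  · intro hm
    funext x
    by_cases hx : x ∈ A
    · have h1 := hV ⟨x, hx⟩
      have h2 : Subsingleton V := Module.finrank_zero_iff.mp hm
      have h3 : V.ρ (⟨x, hx⟩ : A) = 0 := by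
        ext v
        exact Subsingleton.elim _ _
      have h4 : V.character (⟨x, hx⟩ : A) = 0 := by
        unfold FDRep.character
        rw [h3, map_zero]
      rw [h4] at h1
      simpa using h1.symm
    · simpa using h0 x hx

end Pool.Agent.CTab
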