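import Pool.Agent.CTab.Defs
import Pool.Agent.CTab.B01

/-!
Orthogonality of irreducible characters (Mathlib: `FDRep.char_orthonormal`, `FDRep.char_iso`) and inner products of
characters are natural numbers (`FDRep.scalar_product_char_eq_finrank_equivariant`).
-/

set_option autoImplicit false

namespace Pool.Agent.CTab

open scoped Classical

variable {G : Type} [Group G] [Fintype G]

namespace B02Aux

theorem sum_supp {A : Subgroup G} {F : G → ℂ} (hF : ∀ x, x ∉ A → F x = 0) :
    ∑ x, F x = ∑ a : A, F a := by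
  rw [← Finset.sum_filter_of_ne (s := Finset.univ) (p := fun x => x ∈ A) (f := F)
    (fun x _ hx => by by_contra h; exact hx (hF x h))]
  exact Finset.sum_subtype _ (fun x => by simp) F

theorem ip_eq {A : Subgroup G} {f g : G → ℂ} (hf : ∀ x, x ∉ A → f x = 0) (hg : IsCh A g) :
    ip A f g = (Nat.card A : ℂ)⁻¹ * ∑ a : A, f a * g ((a⁻¹ : A) : G) := by
  unfold ip
  rw [sum_supp (A := A) (F := fun x => f x * (starRingEnd ℂ) (g x))
    (fun x hx => by simp [hf x hx])]
  congr 1
  refine Finset.sum_congr rfl fun a _ => ?_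
  rw [hg.conj]
  rfl

theorem ip_sum {A : Subgroup G} {ι : Type} (s : Finset ι) (c : ι → ℂ) (v : ι → G → ℂ)
    (g : G → ℂ) : ip A (∑ i ∈ s, c i • v i) g = ∑ i ∈ s, c i * ip A (v i) g := by
  unfold ip
  simp only [Finset.sum_apply, Pi.smul_apply, smul_eq_mul, Finset.sum_mul, Finset.mul_sum]
  rw [Finset.sum_comm]
  refine Finset.sum_congr rfl fun i _ => Finset.sum_congr rfl fun x _ => ?_
  ring

end B02Aux

open B02Aux

theorem ip_irr {A : Subgroup G} {χ ψ : G → ℂ} (hχ : IsIr A χ) (hψ : IsIr A ψ) :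
    ip A χ ψ = if χ = ψ then 1 else 0 := by
  by_cases h : χ = ψ
  · subst h
    rw [if_pos rfl]
    exact (isIr_iff.1 hχ).2
  · rw [if_neg h, ip_eq hχ.1 hψ.isCh]
    obtain ⟨hχ0, V, hV, hVc⟩ := hχ
    obtain ⟨hψ0, W, hW, hWc⟩ := hψ
    have : Invertible (Nat.card A : ℂ) := invertibleOfNonzero (by
      exact_mod_cast Nat.card_pos.ne')
    have h1 := FDRep.char_orthonormal V W
    rw [if_neg] at h1
    · rw [← h1]
      congr 1
      refine Finset.sum_congr rfl fun a _ => ?_
      rw [hVc, hWc]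
    · rintro ⟨i⟩
      apply h
      have h2 := FDRep.char_iso i
      funext x
      by_cases hx : x ∈ A
      · have h3 := congrFun h2 ⟨x, hx⟩
        rw [hVc, hWc] at h3
        exact h3
      · rw [hχ0 x hx, hψ0 x hx]

theorem ip_nat {A : Subgroup G} {f g : G → ℂ} (hf : IsCh A f) (hg : IsCh A g) :
    ∃ n : ℕ, ip A f g = n := by
  rw [ip_eq hf.1 hg]
  obtain ⟨hf0, V, hVc⟩ := hf
  obtain ⟨hg0, W, hWc⟩ := hg
  have : Invertible (Nat.card A : ℂ) := invertibleOfNonzero (by
    exact_mod_cast Nat.card_pos.ne')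
  refine ⟨Module.finrank ℂ (W ⟶ V), ?_⟩
  rw [← FDRep.scalar_product_char_eq_finrank_equivariant W V]
  congr 1
  refine Finset.sum_congr rfl fun a _ => ?_
  rw [hVc, hWc]

/-- the set of irreducible characters of `A` is finite (it is orthonormal), hence `irr A` is what it should be -/
theorem mem_irr {A : Subgroup G} {χ : G → ℂ} : χ ∈ irr A ↔ IsIr A χ := by
  have hfin : {f : G → ℂ | IsIr A f}.Finite := by
    have hli : LinearIndependent ℂ (fun f : {f : G → ℂ | IsIr A f} => (f : G → ℂ)) := by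
      rw [linearIndependent_iff']
      intro s c hs i hi
      have h1 := ip_sum (A := A) s c (fun f : {f : G → ℂ | IsIr A f} => (f : G → ℂ)) i
      rw [hs] at h1
      have h2 : ip A 0 (i : G → ℂ) = 0 := by
        unfold ip
        simp
      rw [h2, Finset.sum_eq_single i] at h1
      · rw [ip_irr i.2 i.2, if_pos rfl, mul_one] at h1
        exact h1.symm
      · intro j _ hj
        rw [ip_irr j.2 i.2, if_neg (fun h => hj (Subtype.ext h)), mul_zero]
      · intro h
        exact absurd hi h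
    have hff : Finite {f : G → ℂ | IsIr A f} := hli.finite
    exact Set.toFinite _
  unfold irr
  rw [dif_pos hfin, Set.Finite.mem_toFinset]
  rfl

theorem ip_self_eq_zero {A : Subgroup G} {f : G → ℂ} (hf : ∀ x, x ∉ A → f x = 0)
    (h : ip A f f = 0) : f = 0 := by
  unfold ip at h
  have hc : (Nat.card A : ℂ)⁻¹ ≠ 0 := inv_ne_zero (by exact_mod_cast Nat.card_pos.ne')
  have h1 := (mul_eq_zero.1 h).resolve_left hc
  have h2 : ∑ x, ‖f x‖ ^ 2 = 0 := by
    have h3 : ((∑ x, ‖f x‖ ^ 2 : ℝ) : ℂ) = 0 := by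
      rw [← h1]
      push_cast
      refine Finset.sum_congr rfl fun x _ => ?_
      rw [Complex.mul_conj, Complex.normSq_eq_norm_sq]
      push_cast
      rfl
    exact_mod_cast h3
  funext x
  have h3 := (Finset.sum_eq_zero_iff_of_nonneg (fun x _ => sq_nonneg ‖f x‖)).1 h2 x
    (Finset.mem_univ x)
  simpa using h3

end Pool.Agent.CTab
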