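import Pool.Agent.CTab.Defs
import Pool.Agent.CTab.B01
import Pool.Agent.CTab.B02

/-!
Closure properties of characters: zero, trivial character, sums, products (tensor product), restriction,
natural multiples. The last statement: an ℕ-combination of irreducible characters is a character.
-/

set_option autoImplicit false

namespace Pool.Agent.CTab

open scoped Classical

variable {G : Type} [Group G] [Fintype G]

theorem isCh_zero (A : Subgroup G) : IsCh A (fun _ => 0) := by
  refine ⟨fun _ _ => rfl, FDRep.of (1 : Representation ℂ A PUnit.{1}), fun a => ?_⟩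
  change LinearMap.trace ℂ PUnit.{1} (1 : PUnit.{1} →ₗ[ℂ] PUnit.{1}) = 0
  rw [LinearMap.trace_one, Module.finrank_zero_of_subsingleton, Nat.cast_zero]

theorem isCh_one (A : Subgroup G) : IsCh A (res A (fun _ => 1)) := by
  refine ⟨fun x hx => if_neg hx, FDRep.of (1 : Representation ℂ A ℂ), fun a => ?_⟩
  change LinearMap.trace ℂ ℂ (1 : ℂ →ₗ[ℂ] ℂ) = if (a : G) ∈ A then 1 else 0
  rw [LinearMap.trace_one, Module.finrank_self, Nat.cast_one, if_pos a.2]

theorem IsCh.add {A : Subgroup G} {f g : G → ℂ} (hf : IsCh A f) (hg : IsCh A g) :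
    IsCh A (fun x => f x + g x) := by
  obtain ⟨hf0, V, hV⟩ := hf
  obtain ⟨hg0, W, hW⟩ := hg
  refine ⟨fun x hx => by simp only [hf0 x hx, hg0 x hx, add_zero],
    FDRep.of (Representation.prod V.ρ W.ρ), fun a => ?_⟩
  simp only
  rw [← hV a, ← hW a]
  exact LinearMap.trace_prodMap' (V.ρ a) (W.ρ a)

theorem IsCh.mul {A : Subgroup G} {f g : G → ℂ} (hf : IsCh A f) (hg : IsCh A g) :
    IsCh A (fun x => f x * g x) := by
  obtain ⟨hf0, V, hV⟩ := hf
  obtain ⟨hg0, W, hW⟩ := hg
  refine ⟨fun x hx => by simp only [hf0 x hx, zero_mul],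
    FDRep.of (Representation.tprod V.ρ W.ρ), fun a => ?_⟩
  simp only
  rw [← hV a, ← hW a]
  exact LinearMap.trace_tensorProduct' (V.ρ a) (W.ρ a)

/-- the dual representation -/
theorem IsCh.dual {A : Subgroup G} {f : G → ℂ} (hf : IsCh A f) :
    IsCh A (fun x => (starRingEnd ℂ) (f x)) := by
  have hc := hf.conj
  obtain ⟨hf0, V, hV⟩ := hf
  refine ⟨fun x hx => by simp only [hf0 x hx, map_zero],
    FDRep.of (Representation.dual V.ρ), fun a => ?_⟩
  simp only
  rw [hc, FDRep.char_dual, hV]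
  rfl

theorem IsCh.res {A B : Subgroup G} {f : G → ℂ} (hf : IsCh A f) (hB : B ≤ A) :
    IsCh B (res B f) := by
  obtain ⟨hf0, V, hV⟩ := hf
  refine ⟨fun x hx => if_neg hx,
    FDRep.of (V.ρ.comp (Subgroup.inclusion hB) : Representation ℂ B V), fun b => ?_⟩
  have h1 : Pool.Agent.CTab.res B f (b : G) = f (b : G) := if_pos b.2
  rw [h1]
  exact hV (Subgroup.inclusion hB b)

theorem isCh_of_nat {A : Subgroup G} (n : (G → ℂ) → ℕ) :
    IsCh A (∑ χ ∈ irr A, (n χ : ℂ) • χ) := by
  have h1 : ∀ (m : ℕ) (χ : G → ℂ), IsCh A χ → IsCh A ((m : ℂ) • χ) := by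
    intro m χ hχ
    induction m with
    | zero =>
      have h2 : ((0 : ℕ) : ℂ) • χ = fun _ => 0 := by
        rw [Nat.cast_zero, zero_smul]
        rfl
      rw [h2]
      exact isCh_zero A
    | succ m ih =>
      have h2 : ((m + 1 : ℕ) : ℂ) • χ = fun x => ((m : ℂ) • χ) x + χ x := by
        rw [Nat.cast_add, Nat.cast_one, add_smul, one_smul]
        rfl
      rw [h2]
      exact ih.add hχ
  have h2 : ∀ s : Finset (G → ℂ), (∀ χ ∈ s, IsCh A χ) → IsCh A (∑ χ ∈ s, (n χ : ℂ) • χ) := by
    intro s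
    induction s using Finset.induction_on with
    | empty =>
      intro _
      rw [Finset.sum_empty]
      exact isCh_zero A
    | insert χ s hχ ih =>
      intro hs
      rw [Finset.sum_insert hχ]
      exact (h1 (n χ) χ (hs χ (Finset.mem_insert_self χ s))).add
        (ih fun ψ hψ => hs ψ (Finset.mem_insert_of_mem hψ))
  exact h2 _ fun χ hχ => (mem_irr.1 hχ).isCh

end Pool.Agent.CTab
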