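import Pool.Agent.CTab.Defs
import Pool.Agent.CTab.B01
import Pool.Agent.CTab.B02
import Pool.Agent.CTab.B03

/-!
Linear characters. For `IsLin N μ`: `μ x` is a root of unity on `N`, `‖μ x‖ = 1`, `μ x⁻¹ = conj (μ x)`, `μ` is an
irreducible character, the product of an irreducible character with a linear character is irreducible (norm), products and
powers of linear characters are linear, orthogonality.
-/

set_option autoImplicit false

namespace Pool.Agent.CTab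

open scoped Classical

variable {G : Type} [Group G] [Fintype G]

theorem IsLin.pow_eq {N : Subgroup G} {μ : G → ℂ} (h : IsLin N μ) {x : G} (hx : x ∈ N) (k : ℕ) :
    μ (x ^ k) = μ x ^ k := by
  induction k with
  | zero => rw [pow_zero, pow_zero, h.2.1]
  | succ k ih => rw [pow_succ, pow_succ, h.2.2 _ (N.pow_mem hx k) _ hx, ih]

theorem IsLin.pow_card {N : Subgroup G} {μ : G → ℂ} (h : IsLin N μ) {x : G} (hx : x ∈ N) :
    μ x ^ Nat.card N = 1 := by
  rw [← h.pow_eq hx]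
  have h1 : (⟨x, hx⟩ : N) ^ Nat.card N = 1 := pow_card_eq_one'
  have h2 : x ^ Nat.card N = 1 := congrArg Subtype.val h1
  rw [h2, h.2.1]

theorem IsLin.norm {N : Subgroup G} {μ : G → ℂ} (h : IsLin N μ) {x : G} (hx : x ∈ N) : ‖μ x‖ = 1 :=
  Complex.norm_eq_one_of_pow_eq_one (h.pow_card hx) Nat.card_pos.ne'

theorem IsLin.mul_conj {N : Subgroup G} {μ : G → ℂ} (h : IsLin N μ) {x : G} (hx : x ∈ N) :
    μ x * (starRingEnd ℂ) (μ x) = 1 := by
  rw [Complex.mul_conj, Complex.normSq_eq_norm_sq, h.norm hx]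
  norm_num

theorem IsLin.inv {N : Subgroup G} {μ : G → ℂ} (h : IsLin N μ) (x : G) :
    μ x⁻¹ = (starRingEnd ℂ) (μ x) := by
  by_cases hx : x ∈ N
  · have h1 : μ x * μ x⁻¹ = 1 := by
      rw [← h.2.2 x hx _ (N.inv_mem hx), mul_inv_cancel, h.2.1]
    have h2 := h.mul_conj hx
    have h3 : μ x ≠ 0 := by
      intro h0
      rw [h0, zero_mul] at h1
      exact zero_ne_one h1
    exact mul_left_cancel₀ h3 (h1.trans h2.symm)
  · rw [h.1 x hx, h.1 x⁻¹ fun h' => hx (by simpa using N.inv_mem h'), map_zero]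

theorem IsLin.sum_self {N : Subgroup G} {μ : G → ℂ} (h : IsLin N μ) :
    ∑ x, μ x * (starRingEnd ℂ) (μ x) = (Nat.card N : ℂ) := by
  have h1 : ∀ x, μ x * (starRingEnd ℂ) (μ x) = if x ∈ N then 1 else 0 := by
    intro x
    by_cases hx : x ∈ N
    · rw [if_pos hx, h.mul_conj hx]
    · rw [if_neg hx, h.1 x hx, zero_mul]
  simp only [h1]
  rw [Finset.sum_boole, Nat.card_eq_fintype_card, Fintype.card_subtype]

theorem IsLin.isIr {N : Subgroup G} {μ : G → ℂ} (h : IsLin N μ) : IsIr N μ := by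
  rw [isIr_iff]
  refine ⟨⟨h.1, ?_⟩, ?_⟩
  · let ρ : Representation ℂ N ℂ :=
      { toFun := fun a => μ a • (1 : ℂ →ₗ[ℂ] ℂ)
        map_one' := by
          show μ ((1 : N) : G) • (1 : ℂ →ₗ[ℂ] ℂ) = 1
          rw [Subgroup.coe_one, h.2.1, one_smul]
        map_mul' := by
          intro a b
          show μ ((a * b : N) : G) • (1 : ℂ →ₗ[ℂ] ℂ) =
            (μ a • (1 : ℂ →ₗ[ℂ] ℂ)) * (μ b • (1 : ℂ →ₗ[ℂ] ℂ))
          rw [Subgroup.coe_mul, h.2.2 a a.2 b b.2, smul_mul_smul_comm, mul_one] }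
    refine ⟨FDRep.of ρ, fun a => ?_⟩
    change LinearMap.trace ℂ ℂ (μ a • (1 : ℂ →ₗ[ℂ] ℂ)) = μ a
    rw [map_smul, LinearMap.trace_one, Module.finrank_self, Nat.cast_one, smul_eq_mul, mul_one]
  · unfold ip
    rw [h.sum_self, inv_mul_cancel₀]
    exact Nat.cast_ne_zero.mpr Nat.card_pos.ne'

theorem isLin_of_deg {N : Subgroup G} {μ : G → ℂ} (h : IsCh N μ) (h1 : μ 1 = 1) : IsLin N μ := by
  obtain ⟨h0, V, hV⟩ := h
  refine ⟨h0, h1, ?_⟩
  have hfr : Module.finrank ℂ V = 1 := by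
    have h2 := V.char_one
    rw [hV 1, Subgroup.coe_one, h1] at h2
    exact_mod_cast h2.symm
  have hsc : ∀ a : N, ∃ c : ℂ, V.ρ a = c • LinearMap.id := fun a =>
    (LinearMap.existsUnique_eq_smul_id_of_finrank_eq_one hfr (V.ρ a)).exists
  have htr : ∀ (a : N) (c : ℂ), V.ρ a = c • LinearMap.id → μ a = c := by
    intro a c hc
    rw [← hV a]
    change LinearMap.trace ℂ V (V.ρ a) = c
    rw [hc, map_smul, LinearMap.trace_id, hfr, Nat.cast_one, smul_eq_mul, mul_one]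
  intro x hx y hy
  obtain ⟨c, hc⟩ := hsc ⟨x, hx⟩
  obtain ⟨d, hd⟩ := hsc ⟨y, hy⟩
  have h2 : V.ρ (⟨x, hx⟩ * ⟨y, hy⟩) = (c * d) • LinearMap.id := by
    rw [map_mul, hc, hd]
    ext v
    show c • d • v = (c * d) • v
    rw [mul_smul]
  have h3 := htr _ _ h2
  have h4 := htr _ _ hc
  have h5 := htr _ _ hd
  rw [show μ (x * y) = c * d from h3, show μ x = c from h4, show μ y = d from h5]

theorem IsLin.mul {N : Subgroup G} {μ ν : G → ℂ} (h : IsLin N μ) (h' : IsLin N ν) :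
    IsLin N (fun x => μ x * ν x) := by
  refine ⟨fun x hx => ?_, ?_, fun x hx y hy => ?_⟩
  · show μ x * ν x = 0
    rw [h.1 x hx, zero_mul]
  · show μ 1 * ν 1 = 1
    rw [h.2.1, h'.2.1, one_mul]
  · show μ (x * y) * ν (x * y) = μ x * ν x * (μ y * ν y)
    rw [h.2.2 x hx y hy, h'.2.2 x hx y hy]
    ring

theorem IsLin.pow {N : Subgroup G} {μ : G → ℂ} (h : IsLin N μ) (k : ℕ) :
    IsLin N (res N (fun x => μ x ^ k)) := by
  refine ⟨fun x hx => if_neg hx, ?_, fun x hx y hy => ?_⟩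
  · show (if (1 : G) ∈ N then μ 1 ^ k else 0) = 1
    rw [if_pos N.one_mem, h.2.1, one_pow]
  · show (if x * y ∈ N then μ (x * y) ^ k else 0) = (if x ∈ N then μ x ^ k else 0) *
      (if y ∈ N then μ y ^ k else 0)
    rw [if_pos hx, if_pos hy, if_pos (N.mul_mem hx hy), h.2.2 x hx y hy, mul_pow]

theorem IsLin.dual {N : Subgroup G} {μ : G → ℂ} (h : IsLin N μ) :
    IsLin N (fun x => (starRingEnd ℂ) (μ x)) := by
  refine ⟨fun x hx => ?_, ?_, fun x hx y hy => ?_⟩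
  · show (starRingEnd ℂ) (μ x) = 0
    rw [h.1 x hx, map_zero]
  · show (starRingEnd ℂ) (μ 1) = 1
    rw [h.2.1, map_one]
  · show (starRingEnd ℂ) (μ (x * y)) = (starRingEnd ℂ) (μ x) * (starRingEnd ℂ) (μ y)
    rw [h.2.2 x hx y hy, map_mul]

theorem IsLin.res {N B : Subgroup G} {μ : G → ℂ} (h : IsLin N μ) (hB : B ≤ N) :
    IsLin B (res B μ) := by
  refine ⟨fun x hx => if_neg hx, ?_, fun x hx y hy => ?_⟩
  · show (if (1 : G) ∈ B then μ 1 else 0) = 1
    rw [if_pos B.one_mem, h.2.1]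
  · show (if x * y ∈ B then μ (x * y) else 0) = (if x ∈ B then μ x else 0) *
      (if y ∈ B then μ y else 0)
    rw [if_pos hx, if_pos hy, if_pos (B.mul_mem hx hy), h.2.2 x (hB hx) y (hB hy)]

theorem IsIr.mul_lin {A : Subgroup G} {f μ : G → ℂ} (hf : IsIr A f) (h : IsLin A μ) :
    IsIr A (fun x => f x * μ x) := by
  have hf' := isIr_iff.1 hf
  refine isIr_iff.2 ⟨hf'.1.mul h.isIr.isCh, ?_⟩
  rw [← hf'.2]
  unfold ip
  congr 1
  refine Finset.sum_congr rfl fun x _ => ?_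
  show f x * μ x * (starRingEnd ℂ) (f x * μ x) = f x * (starRingEnd ℂ) (f x)
  by_cases hx : x ∈ A
  · rw [map_mul, mul_mul_mul_comm, h.mul_conj hx, mul_one]
  · rw [hf.1 x hx, zero_mul, map_zero, zero_mul]

/-- orthogonality of linear characters -/
theorem lin_orth {N : Subgroup G} {μ ν : G → ℂ} (h : IsLin N μ) (h' : IsLin N ν) :
    ∑ n, μ n * (starRingEnd ℂ) (ν n) = if μ = ν then (Nat.card N : ℂ) else 0 := by
  by_cases hμν : μ = ν
  · subst hμν
    rw [if_pos rfl, h.sum_self]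
  · rw [if_neg hμν]
    have h1 := ip_irr h.isIr h'.isIr
    rw [if_neg hμν] at h1
    unfold ip at h1
    rcases mul_eq_zero.1 h1 with h2 | h2
    · exact absurd (inv_eq_zero.1 h2) (Nat.cast_ne_zero.mpr Nat.card_pos.ne')
    · exact h2

end Pool.Agent.CTab
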