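import Pool.Agent.CTab.Defs
import Pool.Agent.CTab.B01
import Pool.Agent.CTab.B02
import Pool.Agent.CTab.B03

/-!
Complete reducibility (Maschke) in character form: every character of `A` is the sum of irreducible characters, with
multiplicities `ip A f χ`. Induction on the degree: a non-simple non-zero representation splits (Mathlib Maschke,
`Representation.IsSemisimpleRepresentation` / `Subrepresentation`, or `FDRep` version), so `f = f₁ + f₂` with characters of
smaller degree. Second statement: strict decomposition of a non-irreducible character.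
-/

set_option autoImplicit false

namespace Pool.Agent.CTab

open scoped Classical

variable {G : Type} [Group G] [Fintype G]

namespace B04Aux

/-- the zero-extended character of a representation of the subgroup `A` -/
noncomputable def ext0 (A : Subgroup G) {V : Type} [AddCommGroup V] [Module ℂ V]
    (ρ : Representation ℂ A V) : G → ℂ := fun x => if h : x ∈ A then ρ.character ⟨x, h⟩ else 0

theorem ext0_coe {A : Subgroup G} {V : Type} [AddCommGroup V] [Module ℂ V]
    (ρ : Representation ℂ A V) (a : A) : ext0 A ρ a = ρ.character a := by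
  unfold ext0
  rw [dif_pos a.2]

theorem isCh_ext0 {A : Subgroup G} {V : Type} [AddCommGroup V] [Module ℂ V]
    [FiniteDimensional ℂ V] (ρ : Representation ℂ A V) : IsCh A (ext0 A ρ) := by
  refine ⟨fun x hx => dif_neg hx, FDRep.of ρ, fun a => ?_⟩
  rw [ext0_coe]
  rfl

theorem isIr_ext0 {A : Subgroup G} {V : Type} [AddCommGroup V] [Module ℂ V]
    [FiniteDimensional ℂ V] (ρ : Representation ℂ A V) [Representation.IsIrreducible ρ] :
    IsIr A (ext0 A ρ) := by
  refine ⟨fun x hx => dif_neg hx, FDRep.of ρ, ?_, fun a => ?_⟩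
  · rw [FDRep.simple_iff_char_is_norm_one]
    have hc : (Nat.card A : ℂ) ≠ 0 := by
      exact_mod_cast Nat.card_pos.ne'
    have := invertibleOfNonzero hc
    have h1 := Representation.char_orthonormal ρ ρ
    rw [if_pos ⟨Representation.Equiv.refl ρ⟩] at h1
    have h2 : ∑ g : A, ρ.character g * ρ.character g⁻¹ = Nat.card A := by
      field_simp at h1
      exact h1
    exact h2
  · rw [ext0_coe]
    rfl

/-- the character of a representation is the sum of the characters of two complementary
subrepresentations -/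
theorem char_compl {A : Subgroup G} {V : Type} [AddCommGroup V] [Module ℂ V]
    [FiniteDimensional ℂ V] (ρ : Representation ℂ A V) (σ τ : Subrepresentation ρ)
    (h : IsCompl σ τ) (a : A) :
    ρ.character a = σ.toRepresentation.character a + τ.toRepresentation.character a := by
  have hc : IsCompl σ.toSubmodule τ.toSubmodule := by
    refine ⟨?_, ?_⟩
    · rw [disjoint_iff, ← Subrepresentation.toSubmodule_inf, h.inf_eq_bot]
      rfl
    · rw [codisjoint_iff, ← Subrepresentation.toSubmodule_sup, h.sup_eq_top]
      rfl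
  have key : (Submodule.prodEquivOfIsCompl _ _ hc).conj
      (LinearMap.prodMap (σ.toRepresentation a) (τ.toRepresentation a)) = ρ a := by
    apply LinearMap.ext
    intro v
    obtain ⟨w, rfl⟩ := (Submodule.prodEquivOfIsCompl _ _ hc).surjective v
    rw [LinearEquiv.conj_apply_apply, LinearEquiv.symm_apply_apply]
    obtain ⟨w1, w2⟩ := w
    simp only [LinearMap.prodMap_apply, Submodule.coe_prodEquivOfIsCompl', map_add]
    rfl
  unfold Representation.character
  rw [← key, LinearMap.trace_conj', LinearMap.trace_prodMap']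

theorem split {A : Subgroup G} (n : ℕ) : ∀ (V : Type) [AddCommGroup V] [Module ℂ V]
    [FiniteDimensional ℂ V] (ρ : Representation ℂ A V), Module.finrank ℂ V = n → 0 < n →
    ∃ χ f', IsIr A χ ∧ IsCh A f' ∧ ext0 A ρ = fun x => χ x + f' x := by
  induction n using Nat.strong_induction_on with
  | _ n ih =>
    intro V _ _ _ ρ hV hn
    by_cases hirr : Representation.IsIrreducible ρ
    · exact ⟨ext0 A ρ, fun _ => 0, isIr_ext0 ρ, isCh_zero A, by funext x; rw [add_zero]⟩
    · have hnt : Nontrivial V := Module.nontrivial_of_finrank_pos (R := ℂ) (hV ▸ hn)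
      have hnt2 : Nontrivial (Subrepresentation ρ) := by
        refine ⟨⟨⊥, ⊤, fun h => ?_⟩⟩
        have h2 : (⊥ : Submodule ℂ V) = ⊤ := congrArg Subrepresentation.toSubmodule h
        exact bot_ne_top h2
      obtain ⟨σ, h1, h2⟩ : ∃ σ : Subrepresentation ρ, σ ≠ ⊥ ∧ σ ≠ ⊤ := by
        by_contra hcon
        push Not at hcon
        exact hirr ⟨fun σ => by
          by_cases h : σ = ⊥
          · exact Or.inl h
          · exact Or.inr (hcon σ h)⟩
      have hne : NeZero (Nat.card A : ℂ) := ⟨by exact_mod_cast Nat.card_pos.ne'⟩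
      obtain ⟨τ, hτ⟩ := exists_isCompl σ
      have hb : σ.toSubmodule ≠ ⊥ := fun h => h1 (Subrepresentation.toSubmodule_injective h)
      have ht : σ.toSubmodule ≠ ⊤ := fun h => h2 (Subrepresentation.toSubmodule_injective h)
      have hpos : 0 < Module.finrank ℂ σ.toSubmodule := by
        haveI : Nontrivial σ.toSubmodule := (Submodule.nontrivial_iff_ne_bot).2 hb
        exact Module.finrank_pos
      have hlt : Module.finrank ℂ σ.toSubmodule < n := by
        rw [← hV]
        exact Submodule.finrank_lt ht
      obtain ⟨χ, f', hχ, hf', he⟩ := ih _ hlt σ.toSubmodule σ.toRepresentation rfl hpos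
      refine ⟨χ, fun x => f' x + ext0 A τ.toRepresentation x, hχ, hf'.add (isCh_ext0 _), ?_⟩
      funext x
      have he' := congrFun he x
      simp only at he' ⊢
      rw [← add_assoc, ← he']
      by_cases hx : x ∈ A
      · have := char_compl ρ σ τ hτ ⟨x, hx⟩
        unfold ext0
        rw [dif_pos hx, dif_pos hx, dif_pos hx]
        exact this
      · unfold ext0
        rw [dif_neg hx, dif_neg hx, dif_neg hx, add_zero]

theorem ip_add {A : Subgroup G} (f g h : G → ℂ) :
    ip A (fun x => f x + g x) h = ip A f h + ip A g h := by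
  unfold ip
  rw [← mul_add, ← Finset.sum_add_distrib]
  congr 1
  refine Finset.sum_congr rfl fun x _ => ?_
  ring

end B04Aux

open B04Aux

/-- a nonzero character has an irreducible constituent, and the rest is a character -/
theorem exists_constituent {A : Subgroup G} {f : G → ℂ} (hf : IsCh A f) (h0 : f ≠ 0) :
    ∃ χ f', IsIr A χ ∧ IsCh A f' ∧ f = fun x => χ x + f' x := by
  obtain ⟨hf0, V, hV⟩ := hf
  have hfe : f = ext0 A (V.ρ : Representation ℂ A V) := by
    funext x
    by_cases hx : x ∈ A
    · unfold ext0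
      rw [dif_pos hx]
      exact (hV ⟨x, hx⟩).symm
    · unfold ext0
      rw [hf0 x hx, dif_neg hx]
  have hpos : 0 < Module.finrank ℂ V := by
    by_contra hcon
    have hz : Module.finrank ℂ V = 0 := by omega
    apply h0
    funext x
    by_cases hx : x ∈ A
    · rw [Pi.zero_apply, ← hV ⟨x, hx⟩]
      haveI : Subsingleton V := Module.finrank_zero_iff.1 hz
      have h1 : V.ρ ⟨x, hx⟩ = 0 := by
        apply LinearMap.ext
        intro v
        exact Subsingleton.elim _ _
      unfold FDRep.character
      rw [h1, map_zero]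
    · exact hf0 x hx
  obtain ⟨χ, f', h1, h2, h3⟩ := split (A := A) _ V (V.ρ : Representation ℂ A V) rfl hpos
  exact ⟨χ, f', h1, h2, hfe.trans h3⟩

theorem decomp {A : Subgroup G} {f : G → ℂ} (hf : IsCh A f) :
    f = ∑ χ ∈ irr A, (ip A f χ) • χ := by
  obtain ⟨n, hn, -⟩ := hf.deg
  induction n using Nat.strong_induction_on generalizing f with
  | _ n ih =>
    by_cases h0 : f = 0
    · rw [h0]
      symm
      refine Finset.sum_eq_zero fun χ _ => ?_
      have : ip A (0 : G → ℂ) χ = 0 := by
        unfold ip
        simp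
      rw [this, zero_smul]
    · obtain ⟨χ, f', hχ, hf', he⟩ := exists_constituent hf h0
      obtain ⟨m, hm, hm0⟩ := hχ.isCh.deg
      obtain ⟨m', hm', -⟩ := hf'.deg
      have hmpos : m ≠ 0 := by
        intro h
        have h1 := hm0 h
        have h2 := ip_irr hχ hχ
        rw [if_pos rfl, h1] at h2
        have h3 : ip A (0 : G → ℂ) 0 = 0 := by
          unfold ip
          simp
        rw [h3] at h2
        exact zero_ne_one h2
      have hsum : n = m + m' := by
        have h1 : f 1 = χ 1 + f' 1 := congrFun he 1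
        rw [hn, hm, hm'] at h1
        exact_mod_cast h1
      have h1 := ih m' (by omega) hf' hm'
      have h2 : ∀ ψ, ip A f ψ = ip A χ ψ + ip A f' ψ := by
        intro ψ
        rw [he]
        exact ip_add χ f' ψ
      have h3 : ∑ ψ ∈ irr A, (ip A χ ψ) • ψ = χ := by
        rw [Finset.sum_eq_single χ]
        · rw [ip_irr hχ hχ, if_pos rfl, one_smul]
        · intro ψ hψ hne
          rw [ip_irr hχ (mem_irr.1 hψ), if_neg (Ne.symm hne), zero_smul]
        · intro h
          exact absurd (mem_irr.2 hχ) h
      have h4 : ∑ ψ ∈ irr A, (ip A f ψ) • ψ = χ + f' := by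
        rw [Finset.sum_congr rfl fun ψ _ => by rw [h2 ψ, add_smul], Finset.sum_add_distrib, h3,
          ← h1]
      rw [h4]
      exact he

/-- subtracting a constituent leaves a character -/
theorem sub_constituent {A : Subgroup G} {f χ : G → ℂ} (hf : IsCh A f) (hχ : IsIr A χ)
    (h : ip A f χ ≠ 0) : IsCh A (fun x => f x - χ x) := by
  have hn : ∀ ψ : G → ℂ, ∃ m : ℕ, IsIr A ψ → ip A f ψ = m := by
    intro ψ
    by_cases hψ : IsIr A ψ
    · obtain ⟨m, hm⟩ := ip_nat hf hψ.isCh
      exact ⟨m, fun _ => hm⟩
    · exact ⟨0, fun h => absurd h hψ⟩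
  choose n hn using hn
  have hpos : 1 ≤ n χ := by
    rcases Nat.eq_zero_or_pos (n χ) with h1 | h1
    · exact absurd (by rw [hn χ hχ, h1, Nat.cast_zero]) h
    · exact h1
  have key : (fun x => f x - χ x) =
      ∑ ψ ∈ irr A, ((if ψ = χ then n ψ - 1 else n ψ : ℕ) : ℂ) • ψ := by
    have h1 : f = ∑ ψ ∈ irr A, (n ψ : ℂ) • ψ := by
      conv_lhs => rw [decomp hf]
      refine Finset.sum_congr rfl fun ψ hψ => ?_
      rw [hn ψ (mem_irr.1 hψ)]
    have h2 : χ = ∑ ψ ∈ irr A, (if ψ = χ then (1 : ℂ) else 0) • ψ := by
      rw [Finset.sum_eq_single χ]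
      · rw [if_pos rfl, one_smul]
      · intro ψ _ hne
        rw [if_neg hne, zero_smul]
      · intro h
        exact absurd (mem_irr.2 hχ) h
    have h3 : (fun x => f x - χ x) = f - χ := rfl
    rw [h3]
    conv_lhs => rw [h1]
    rw [sub_eq_iff_eq_add]
    have h4 : ∑ ψ ∈ irr A, ((if ψ = χ then n ψ - 1 else n ψ : ℕ) : ℂ) • ψ + χ =
        ∑ ψ ∈ irr A, ((if ψ = χ then n ψ - 1 else n ψ : ℕ) : ℂ) • ψ +
          ∑ ψ ∈ irr A, (if ψ = χ then (1 : ℂ) else 0) • ψ := by
      rw [← h2]
    rw [h4, ← Finset.sum_add_distrib]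
    refine Finset.sum_congr rfl fun ψ _ => ?_
    rw [← add_smul]
    by_cases hψ : ψ = χ
    · subst hψ
      rw [if_pos rfl, if_pos rfl, Nat.cast_sub hpos, Nat.cast_one, sub_add_cancel]
    · rw [if_neg hψ, if_neg hψ, add_zero]
  rw [key]
  exact isCh_of_nat _

end Pool.Agent.CTab
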