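import Pool.Agent.CTab.Defs
import Pool.Agent.CTab.B01
import Pool.Agent.CTab.B02
import Pool.Agent.CTab.B03
import Pool.Agent.CTab.B04

/-!
Completeness: a class function of `A` is the combination of the irreducible characters with coefficients
`ip A f χ`. Proof: it is enough that a class function `f` with `ip A f χ = 0` for all irreducible `χ` is zero. The operator
`T = Σ_a conj(f a) ρ(a)` commutes with an irreducible `ρ`, hence is a scalar (Schur), and its trace is
`|A| * conj (ip A f χ) = 0`; so `T = 0` on every irreducible, hence on every representation (Maschke), in particular on the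
regular representation, where `T δ_1 = Σ conj(f a) δ_a`; so `f = 0`. (The matrix version of Schur is in B08.)
-/

set_option autoImplicit false

namespace Pool.Agent.CTab

open scoped Classical

variable {G : Type} [Group G] [Fintype G]

/-- an irreducible representation gives an irreducible (zero-extended) character -/
theorem isIr_of_rep {A : Subgroup G} {V : Type} [AddCommGroup V] [Module ℂ V]
    [FiniteDimensional ℂ V] (ρ : Representation ℂ A V) [Representation.IsIrreducible ρ] :
    IsIr A (fun x => if h : x ∈ A then ρ.character ⟨x, h⟩ else 0) := by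
  refine ⟨fun x hx => dif_neg hx, FDRep.of ρ, ?_, fun a => ?_⟩
  · rw [FDRep.simple_iff_char_is_norm_one]
    have hc : (Nat.card A : ℂ) ≠ 0 := by
      exact_mod_cast Nat.card_pos.ne'
    haveI := invertibleOfNonzero hc
    have h1 := Representation.char_orthonormal ρ ρ
    rw [if_pos ⟨Representation.Equiv.refl ρ⟩] at h1
    have h2 : ∑ g : A, ρ.character g * ρ.character g⁻¹ = Nat.card A := by
      field_simp at h1
      exact h1
    exact h2
  · simp only [SetLike.coe_mem, dif_pos]
    rfl

theorem cls_smul_zero {A : Subgroup G} {f : G → ℂ} (hf : Cls A f)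
    (h : ∀ χ, IsIr A χ → ip A f χ = 0) {V : Type} [AddCommGroup V] [Module ℂ V]
    [FiniteDimensional ℂ V] (ρ : Representation ℂ A V) [Representation.IsIrreducible ρ] :
    ∑ a : A, (starRingEnd ℂ) (f a) • ρ a = 0 := by
  set T : V →ₗ[ℂ] V := ∑ a : A, (starRingEnd ℂ) (f a) • ρ a with hT
  have hcomm : ∀ b : A, T ∘ₗ ρ b = ρ b ∘ₗ T := by
    intro b
    ext v
    simp only [hT, LinearMap.comp_apply, LinearMap.sum_apply, LinearMap.smul_apply, map_sum,
      map_smul]
    refine Fintype.sum_equiv (MulAut.conj b⁻¹).toEquiv _ _ fun a => ?_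
    have h1 : f ((MulAut.conj b⁻¹).toEquiv a : A) = f a := by
      have := hf.2 (b⁻¹ : A) (b⁻¹ : A).2 a
      simpa [MulAut.conj_apply] using this
    rw [h1]
    have h2 : ρ a (ρ b v) = ρ b (ρ ((MulAut.conj b⁻¹).toEquiv a) v) := by
      rw [← Module.End.mul_apply, ← Module.End.mul_apply, ← map_mul, ← map_mul]
      congr 2
      simp [MulAut.conj_apply, mul_assoc]
    rw [h2]
  obtain ⟨c, hc⟩ := (Representation.IsIrreducible.algebraMap_intertwiningMap_bijective_of_isAlgClosed
    (ρ := ρ)).2 ⟨T, fun b => hcomm b⟩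
  have hcT : T = c • LinearMap.id := by
    have := congrArg (fun F : Representation.IntertwiningMap ρ ρ => F.toLinearMap) hc
    simp only at this
    rw [← this]
    rfl
  have htr : LinearMap.trace ℂ V T = 0 := by
    rw [hT, map_sum]
    simp only [map_smul, smul_eq_mul]
    have h2 := h _ (isIr_of_rep ρ)
    unfold ip at h2
    have hc : ((Nat.card A : ℂ)⁻¹) ≠ 0 := inv_ne_zero (by exact_mod_cast Nat.card_pos.ne')
    have h3 := (mul_eq_zero.1 h2).resolve_left hc
    have h4 : ∑ a : A, f a * (starRingEnd ℂ) (ρ.character a) = 0 := by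
      rw [← h3]
      rw [← Finset.sum_subset (Finset.subset_univ (Finset.univ.filter (fun x : G => x ∈ A)))]
      · refine Finset.sum_bij (fun (a : A) _ => (a : G)) ?_ ?_ ?_ ?_
        · intro a _
          simp
        · intro a _ b _ hab
          exact Subtype.ext hab
        · intro x hx
          exact ⟨⟨x, (Finset.mem_filter.1 hx).2⟩, Finset.mem_univ _, rfl⟩
        · intro a _
          simp only [SetLike.coe_mem, dif_pos]
      · intro x _ hx
        have hxA : x ∉ A := fun hxA => hx (Finset.mem_filter.2 ⟨Finset.mem_univ _, hxA⟩)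
        rw [hf.1 x hxA, zero_mul]
    have h5 := congrArg (starRingEnd ℂ) h4
    rw [map_sum, map_zero] at h5
    rw [← h5]
    refine Finset.sum_congr rfl fun a _ => ?_
    rw [map_mul, Complex.conj_conj]
    rfl
  rw [hcT, map_smul, LinearMap.trace_id, smul_eq_mul] at htr
  have hnt : Nontrivial V := by
    have : Nontrivial (Subrepresentation ρ) := inferInstance
    by_contra hcon
    rw [not_nontrivial_iff_subsingleton] at hcon
    obtain ⟨p, q, hpq⟩ := this
    apply hpq
    ext v
    have hv : v = 0 := Subsingleton.elim _ _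
    rw [hv]
    exact ⟨fun _ => q.toSubmodule.zero_mem, fun _ => p.toSubmodule.zero_mem⟩
  have hfr : (Module.finrank ℂ V : ℂ) ≠ 0 := by
    exact_mod_cast (Module.finrank_pos).ne'
  have hc0 : c = 0 := (mul_eq_zero.1 htr).resolve_right hfr
  rw [hcT, hc0, zero_smul]

theorem cls_eq_zero {A : Subgroup G} {f : G → ℂ} (hf : Cls A f)
    (h : ∀ χ, IsIr A χ → ip A f χ = 0) : f = fun _ => 0 := by
  classical
  set z : MonoidAlgebra ℂ A := ∑ a : A, MonoidAlgebra.single a ((starRingEnd ℂ) (f a)) with hz
  have hsimple : ∀ S : Submodule (MonoidAlgebra ℂ A) (MonoidAlgebra ℂ A),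
      IsSimpleModule (MonoidAlgebra ℂ A) S → ∀ s ∈ S, z * s = 0 := by
    intro S hS s hs
    have hfin1 : Module.Finite ℂ (MonoidAlgebra ℂ A) :=
      Module.Finite.equiv (MonoidAlgebra.coeffLinearEquiv ℂ).symm
    have hfin2 : FiniteDimensional ℂ S :=
      FiniteDimensional.of_injective (S.subtype.restrictScalars ℂ) Subtype.val_injective
    let ρ : Representation ℂ A S := Representation.ofModule' (k := ℂ) (G := A) S
    have hirr : Representation.IsIrreducible ρ := by
      rw [Representation.irreducible_iff_isSimpleModule_asModule]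
      have e : ρ.asModule ≃ₗ[MonoidAlgebra ℂ A] S :=
        { toFun := ρ.asModuleEquiv
          invFun := ρ.asModuleEquiv.symm
          left_inv := fun x => ρ.asModuleEquiv.symm_apply_apply x
          right_inv := fun x => ρ.asModuleEquiv.apply_symm_apply x
          map_add' := fun x y => map_add ρ.asModuleEquiv x y
          map_smul' := by
            intro r x
            rw [Representation.asModuleEquiv_map_smul]
            have h1 : ρ.asAlgebraHom = Algebra.lsmul ℂ ℂ S := by
              change MonoidAlgebra.lift ℂ _ A ((MonoidAlgebra.lift ℂ (S →ₗ[ℂ] S) A).symm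
                (Algebra.lsmul ℂ ℂ S)) = _
              rw [Equiv.apply_symm_apply]
            rw [h1]
            rfl }
      exact IsSimpleModule.congr e
    have h0 := cls_smul_zero hf h ρ
    have h1 := congrArg (fun F : S →ₗ[ℂ] S => F ⟨s, hs⟩) h0
    simp only [LinearMap.sum_apply, LinearMap.smul_apply, LinearMap.zero_apply] at h1
    have h3 : ∀ a : A, (starRingEnd ℂ) (f a) • ρ a (⟨s, hs⟩ : S)
        = MonoidAlgebra.single a ((starRingEnd ℂ) (f a)) • (⟨s, hs⟩ : S) := by
      intro a
      have h4 : ρ a (⟨s, hs⟩ : S) = MonoidAlgebra.single a (1 : ℂ) • (⟨s, hs⟩ : S) := rfl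
      rw [h4, ← smul_assoc, MonoidAlgebra.smul_single, smul_eq_mul, mul_one]
    rw [Finset.sum_congr rfl fun a _ => h3 a, ← Finset.sum_smul, ← hz] at h1
    have h6 := congrArg Subtype.val h1
    simpa using h6
  have hcomm : ∀ r : MonoidAlgebra ℂ A, z * r = r * z := by
    intro r
    induction r using MonoidAlgebra.induction_on with
    | of b =>
      rw [MonoidAlgebra.of_apply, hz, Finset.sum_mul, Finset.mul_sum]
      refine Fintype.sum_equiv (MulAut.conj b⁻¹).toEquiv _ _ fun a => ?_
      have h1 : f ((MulAut.conj b⁻¹).toEquiv a : A) = f a := by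
        have := hf.2 (b⁻¹ : A) (b⁻¹ : A).2 a
        simpa [MulAut.conj_apply] using this
      rw [h1, MonoidAlgebra.single_mul_single, MonoidAlgebra.single_mul_single, mul_one, one_mul]
      congr 1
      simp [MulAut.conj_apply]
      group
    | add x y hx hy => rw [mul_add, add_mul, hx, hy]
    | smul c x hx => rw [mul_smul_comm, smul_mul_assoc, hx]
  let K : Submodule (MonoidAlgebra ℂ A) (MonoidAlgebra ℂ A) :=
    { carrier := {r | z * r = 0}
      add_mem' := by
        intro a b ha hb
        change z * (a + b) = 0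
        rw [mul_add, show z * a = 0 from ha, show z * b = 0 from hb, add_zero]
      zero_mem' := mul_zero z
      smul_mem' := by
        intro c x hx
        change z * (c • x) = 0
        rw [smul_eq_mul, ← mul_assoc, hcomm c, mul_assoc, show z * x = 0 from hx, mul_zero] }
  haveI : NeZero (Nat.card A : ℂ) := ⟨by exact_mod_cast Nat.card_pos.ne'⟩
  have htop : (⊤ : Submodule (MonoidAlgebra ℂ A) (MonoidAlgebra ℂ A)) ≤ K := by
    rw [← IsSemisimpleModule.sSup_simples_eq_top (MonoidAlgebra ℂ A) (MonoidAlgebra ℂ A)]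
    exact sSup_le fun S hS s hs => hsimple S hS s hs
  have hz0 : z = 0 := by
    have : (1 : MonoidAlgebra ℂ A) ∈ K := htop trivial
    have h1 : z * 1 = 0 := this
    rwa [mul_one] at h1
  funext x
  by_cases hx : x ∈ A
  · have h1 : z.coeff ⟨x, hx⟩ = 0 := by rw [hz0]; rfl
    have h2 : z.coeff ⟨x, hx⟩ = (starRingEnd ℂ) (f x) := by
      rw [hz, MonoidAlgebra.coeff_sum, Finsupp.finset_sum_apply,
        Finset.sum_eq_single (⟨x, hx⟩ : A)]
      · rw [MonoidAlgebra.coeff_single, Finsupp.single_apply, if_pos rfl]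
      · intro b _ hb
        rw [MonoidAlgebra.coeff_single, Finsupp.single_apply, if_neg hb]
      · intro hcon
        exact absurd (Finset.mem_univ _) hcon
    rw [h1] at h2
    have h3 := congrArg (starRingEnd ℂ) h2
    rw [map_zero, Complex.conj_conj] at h3
    exact h3.symm
  · exact hf.1 x hx

theorem cls_expand {A : Subgroup G} {f : G → ℂ} (hf : Cls A f) :
    f = ∑ χ ∈ irr A, (ip A f χ) • χ := by
  have hlin : ∀ χ : G → ℂ, IsIr A χ →
      ip A (fun x => f x - (∑ ψ ∈ irr A, (ip A f ψ) • ψ) x) χ = 0 := by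
    intro χ hχ
    have h1 : ip A (fun x => f x - (∑ ψ ∈ irr A, (ip A f ψ) • ψ) x) χ
        = ip A f χ - ∑ ψ ∈ irr A, ip A f ψ * ip A ψ χ := by
      unfold ip
      have h2 : ∀ x, (∑ ψ ∈ irr A, ((Nat.card A : ℂ)⁻¹ * ∑ x, f x * (starRingEnd ℂ) (ψ x)) • ψ) x
          = ∑ ψ ∈ irr A, ((Nat.card A : ℂ)⁻¹ * ∑ x, f x * (starRingEnd ℂ) (ψ x)) * ψ x := by
        intro x
        rw [Finset.sum_apply]
        rfl
      simp only [h2, sub_mul, Finset.sum_sub_distrib, mul_sub]
      congr 1
      rw [Finset.mul_sum]
      simp only [Finset.sum_mul, Finset.mul_sum]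
      rw [Finset.sum_comm]
      refine Finset.sum_congr rfl fun ψ _ => ?_
      refine Finset.sum_congr rfl fun x _ => ?_
      refine Finset.sum_congr rfl fun y _ => ?_
      ring
    rw [h1, Finset.sum_eq_single χ]
    · rw [ip_irr hχ hχ, if_pos rfl, mul_one, sub_self]
    · intro ψ hψ hne
      rw [ip_irr (mem_irr.1 hψ) hχ, if_neg hne, mul_zero]
    · intro hcon
      exact absurd (mem_irr.2 hχ) hcon
  have hcls : Cls A (fun x => f x - (∑ ψ ∈ irr A, (ip A f ψ) • ψ) x) := by
    refine ⟨fun x hx => ?_, fun a ha x => ?_⟩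
    · simp only [Finset.sum_apply, Pi.smul_apply, smul_eq_mul]
      rw [hf.1 x hx, Finset.sum_eq_zero, sub_zero]
      intro ψ hψ
      rw [(mem_irr.1 hψ).1 x hx, mul_zero]
    · simp only [Finset.sum_apply, Pi.smul_apply, smul_eq_mul]
      rw [hf.2 a ha x]
      congr 1
      refine Finset.sum_congr rfl fun ψ hψ => ?_
      rw [(mem_irr.1 hψ).isCh.cls.2 a ha x]
  have h0 := cls_eq_zero hcls hlin
  funext x
  exact sub_eq_zero.1 (congrFun h0 x)

end Pool.Agent.CTab
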