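import Pool.Agent.CTab.Defs
import Pool.Agent.CTab.B01
import Pool.Agent.CTab.B02
import Pool.Agent.CTab.B03
import Pool.Agent.CTab.B04
import Pool.Agent.CTab.B05

/-!
Frobenius reciprocity (pure sums, Fubini), the induced class function is a class function, and induction of characters:
`ind A B f` is a class function whose inner products with the irreducible characters of `A` are natural numbers (Frobenius
and `ip_nat`), so it is a character by `cls_expand` and `isCh_of_nat`.
-/

set_option autoImplicit false

namespace Pool.Agent.CTab

open scoped Classical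

variable {G : Type} [Group G] [Fintype G]

theorem ind_cls {A B : Subgroup G} {f : G → ℂ} (hB : B ≤ A) (hf : ∀ x, x ∉ B → f x = 0) :
    Cls A (ind A B f) := by
  sorry

theorem frob {A B : Subgroup G} {f g : G → ℂ} (hB : B ≤ A) (hf : ∀ x, x ∉ B → f x = 0)
    (hg : Cls A g) : ip A (ind A B f) g = ip B f (res B g) := by
  sorry

theorem IsCh.ind {A B : Subgroup G} {f : G → ℂ} (hB : B ≤ A) (hf : IsCh B f) :
    IsCh A (ind A B f) := by
  sorry

/-- degree of an induced character: `|B| * ind(1) = |A| * f(1)` -/
theorem ind_one {A B : Subgroup G} {f : G → ℂ} (hB : B ≤ A) :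
    (Nat.card B : ℂ) * ind A B f 1 = (Nat.card A : ℂ) * f 1 := by
  sorry

end Pool.Agent.CTab
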