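import Pool.Agent.CTab.Defs
import Pool.Agent.CTab.B01
import Pool.Agent.CTab.B02

/-!
Matrix realisations and Schur's lemma. `IsMRep L r` only concerns the values of `r` on `L` (`r x` for `x ∉ L` is
arbitrary), `(fun x => (r x).trace)` is restricted to `L` by `res`.
-/

set_option autoImplicit false

namespace Pool.Agent.CTab

open scoped Classical

variable {G : Type} [Group G] [Fintype G]

/-- the representation of a matrix representation -/
private noncomputable def B08rho {A : Subgroup G} {d : ℕ} {r : G → Matrix (Fin d) (Fin d) ℂ}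
    (hr : IsMRep A r) : Representation ℂ A (Fin d → ℂ) where
  toFun a := Matrix.toLin' (r a)
  map_one' := by
    rw [Subgroup.coe_one, hr.1, Matrix.toLin'_one]
    rfl
  map_mul' a b := by
    rw [Subgroup.coe_mul, hr.2 a a.2 b b.2, Matrix.toLin'_mul]
    rfl

private theorem B08char {A : Subgroup G} {d : ℕ} {r : G → Matrix (Fin d) (Fin d) ℂ}
    (hr : IsMRep A r) (a : A) :
    (FDRep.of (B08rho hr)).character a = res A (fun x => (r x).trace) a := by
  unfold res
  rw [if_pos a.2]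
  exact Matrix.trace_toLin'_eq (r a)

private theorem B08simple {A : Subgroup G} {f : G → ℂ} (h0 : ∀ x, x ∉ A → f x = 0)
    (V : FDRep ℂ A) (hV : ∀ a : A, V.character a = f a) (hn : ip A f f = 1) :
    CategoryTheory.Simple V := by
  have hc : (Nat.card A : ℂ) ≠ 0 := by
    exact_mod_cast Nat.card_pos.ne'
  rw [b01_ip h0 V hV] at hn
  rw [FDRep.simple_iff_char_is_norm_one]
  have := congrArg (fun z => (Nat.card A : ℂ) * z) hn
  simp only [mul_one] at this
  rw [← mul_assoc, mul_inv_cancel₀ hc, one_mul] at this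
  exact this

private theorem B08res0 (A : Subgroup G) (f : G → ℂ) : ∀ x, x ∉ A → res A f x = 0 := by
  intro x hx
  unfold res
  rw [if_neg hx]

theorem exists_mrep {A : Subgroup G} {f : G → ℂ} (hf : IsCh A f) :
    ∃ (d : ℕ) (r : G → Matrix (Fin d) (Fin d) ℂ), f 1 = d ∧ IsMRep A r ∧ ∀ x ∈ A, (r x).trace = f x := by
  obtain ⟨h0, V, hV⟩ := hf
  obtain ⟨b⟩ : Nonempty (Module.Basis (Fin (Module.finrank ℂ V)) ℂ V) :=
    ⟨Module.finBasis ℂ V⟩
  refine ⟨Module.finrank ℂ V,
    fun x => if h : x ∈ A then LinearMap.toMatrix b b (V.ρ ⟨x, h⟩) else 1, ?_, ⟨?_, ?_⟩, ?_⟩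
  · have h1 := hV 1
    rw [FDRep.char_one] at h1
    exact h1.symm
  · simp only [dif_pos A.one_mem]
    have h2 : (⟨1, A.one_mem⟩ : A) = 1 := rfl
    rw [h2, map_one]
    exact LinearMap.toMatrix_one b
  · intro x hx y hy
    simp only [dif_pos hx, dif_pos hy, dif_pos (A.mul_mem hx hy)]
    have h2 : (⟨x * y, A.mul_mem hx hy⟩ : A) = ⟨x, hx⟩ * ⟨y, hy⟩ := rfl
    rw [h2, map_mul]
    exact LinearMap.toMatrix_mul b _ _
  · intro x hx
    simp only [dif_pos hx]
    rw [← hV ⟨x, hx⟩]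
    exact (LinearMap.trace_eq_matrix_trace ℂ b (V.ρ ⟨x, hx⟩)).symm

theorem isCh_of_mrep {A : Subgroup G} {d : ℕ} {r : G → Matrix (Fin d) (Fin d) ℂ}
    (hr : IsMRep A r) : IsCh A (res A (fun x => (r x).trace)) := by
  exact ⟨B08res0 A _, FDRep.of (B08rho hr), B08char hr⟩

/-- Schur's lemma -/
theorem schur {A : Subgroup G} {d : ℕ} {r : G → Matrix (Fin d) (Fin d) ℂ}
    (hr : IsMRep A r) (hi : IsIr A (res A (fun x => (r x).trace)))
    (T : Matrix (Fin d) (Fin d) ℂ) (hT : ∀ a ∈ A, T * r a = r a * T) :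
    ∃ c : ℂ, T = c • (1 : Matrix (Fin d) (Fin d) ℂ) := by
  have hinv : Invertible (Nat.card A : ℂ) := invertibleOfNonzero (by
    exact_mod_cast Nat.card_pos.ne')
  have h1 := (isIr_iff.1 hi).2
  rw [b01_ip hi.1 (FDRep.of (B08rho hr)) (B08char hr)] at h1
  have h2 := Representation.card_inv_mul_sum_char_mul_char_eq_finrank (B08rho hr) (B08rho hr)
  have h3 : Module.finrank ℂ (Representation.IntertwiningMap (B08rho hr) (B08rho hr)) = 1 := by
    have h4 : ((Module.finrank ℂ
        (Representation.IntertwiningMap (B08rho hr) (B08rho hr)) : ℕ) : ℂ) = 1 := by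
      rw [← h2]
      exact h1
    exact_mod_cast h4
  let I : Representation.IntertwiningMap (B08rho hr) (B08rho hr) :=
    { toLinearMap := LinearMap.id
      isIntertwining' := fun g => rfl }
  let T' : Representation.IntertwiningMap (B08rho hr) (B08rho hr) :=
    { toLinearMap := Matrix.toLin' T
      isIntertwining' := fun g => by
        change Matrix.toLin' T ∘ₗ Matrix.toLin' (r g) = Matrix.toLin' (r g) ∘ₗ Matrix.toLin' T
        rw [← Matrix.toLin'_mul, ← Matrix.toLin'_mul, hT g g.2] }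
  rw [finrank_eq_one_iff'] at h3
  obtain ⟨v, hv, hw⟩ := h3
  obtain ⟨c0, hc0⟩ := hw I
  obtain ⟨c1, hc1⟩ := hw T'
  have e0 : c0 • v.toLinearMap = LinearMap.id :=
    congrArg Representation.IntertwiningMap.toLinearMap hc0
  have e1 : c1 • v.toLinearMap = Matrix.toLin' T :=
    congrArg Representation.IntertwiningMap.toLinearMap hc1
  have hc : c0 ≠ 0 := by
    intro hc
    rw [hc, zero_smul] at e0
    have h5 : ∀ x : Fin d → ℂ, x = 0 := fun x => (LinearMap.congr_fun e0 x).symm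
    apply hv
    have h6 : v.toLinearMap = 0 := by
      refine LinearMap.ext fun x => ?_
      exact h5 _
    have h7 : (0 : Representation.IntertwiningMap (B08rho hr) (B08rho hr)).toLinearMap = 0 := rfl
    cases v
    rename_i vl vh
    simp only at h6
    subst h6
    rfl
  refine ⟨c1 * c0⁻¹, ?_⟩
  have e2 : Matrix.toLin' T = Matrix.toLin' ((c1 * c0⁻¹) • (1 : Matrix (Fin d) (Fin d) ℂ)) := by
    rw [map_smul, Matrix.toLin'_one, ← e0, smul_smul, mul_assoc, inv_mul_cancel₀ hc, mul_one, e1]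
  exact Matrix.toLin'.injective e2

/-- irreducible matrix representations with the same character are equivalent -/
theorem mrep_iso {A : Subgroup G} {d : ℕ} {r r' : G → Matrix (Fin d) (Fin d) ℂ}
    (hr : IsMRep A r) (hr' : IsMRep A r') (hi : IsIr A (res A (fun x => (r x).trace)))
    (he : ∀ a ∈ A, (r a).trace = (r' a).trace) :
    ∃ T : GL (Fin d) ℂ, ∀ a ∈ A, (T : Matrix (Fin d) (Fin d) ℂ) * r a = r' a * T := by
  have hinv : Invertible (Nat.card A : ℂ) := invertibleOfNonzero (by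
    exact_mod_cast Nat.card_pos.ne')
  have hcar : ∀ a : A, (FDRep.of (B08rho hr')).character a =
      res A (fun x => (r x).trace) a := by
    intro a
    rw [B08char hr' a]
    unfold res
    rw [if_pos a.2, if_pos a.2]
    exact (he a a.2).symm
  have hn := (isIr_iff.1 hi).2
  have hsV := B08simple hi.1 _ (B08char hr) hn
  have hsW := B08simple hi.1 _ hcar hn
  have h1 := FDRep.char_orthonormal (FDRep.of (B08rho hr)) (FDRep.of (B08rho hr'))
  have h2 : (Nat.card A : ℂ)⁻¹ * ∑ g : A, (FDRep.of (B08rho hr)).character g *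
      (FDRep.of (B08rho hr')).character g⁻¹ = 1 := by
    rw [b01_ip hi.1 _ (B08char hr)] at hn
    rw [← hn]
    congr 1
    refine Finset.sum_congr rfl fun g _ => ?_
    rw [hcar, B08char hr g⁻¹]
  rw [h2] at h1
  have h3 : Nonempty (FDRep.of (B08rho hr) ≅ FDRep.of (B08rho hr')) := by
    by_contra h4
    rw [if_neg h4] at h1
    exact one_ne_zero h1
  obtain ⟨i⟩ := h3
  let e : (Fin d → ℂ) ≃ₗ[ℂ] (Fin d → ℂ) := FDRep.isoToLinearEquiv i
  have h4 : ∀ a : A, Matrix.toLin' (r' a) = e.conj (Matrix.toLin' (r a)) :=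
    fun a => FDRep.Iso.conj_ρ i a
  have h5 : LinearMap.toMatrix' (e : (Fin d → ℂ) →ₗ[ℂ] (Fin d → ℂ)) *
      LinearMap.toMatrix' (e.symm : (Fin d → ℂ) →ₗ[ℂ] (Fin d → ℂ)) = 1 := by
    rw [← LinearMap.toMatrix'_comp, LinearEquiv.comp_symm, LinearMap.toMatrix'_id]
  have h6 : LinearMap.toMatrix' (e.symm : (Fin d → ℂ) →ₗ[ℂ] (Fin d → ℂ)) *
      LinearMap.toMatrix' (e : (Fin d → ℂ) →ₗ[ℂ] (Fin d → ℂ)) = 1 := by
    rw [← LinearMap.toMatrix'_comp, LinearEquiv.symm_comp, LinearMap.toMatrix'_id]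
  refine ⟨⟨_, _, h5, h6⟩, fun a ha => ?_⟩
  change LinearMap.toMatrix' (e : (Fin d → ℂ) →ₗ[ℂ] (Fin d → ℂ)) * r a =
    r' a * LinearMap.toMatrix' (e : (Fin d → ℂ) →ₗ[ℂ] (Fin d → ℂ))
  have h7 := h4 ⟨a, ha⟩
  apply Matrix.toLin'.injective
  rw [Matrix.toLin'_mul, Matrix.toLin'_mul, Matrix.toLin'_toMatrix']
  change _ = Matrix.toLin' (r' ((⟨a, ha⟩ : A) : G)) ∘ₗ _
  rw [h7]
  refine LinearMap.ext fun x => ?_
  simp [LinearEquiv.conj_apply]

end Pool.Agent.CTab
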