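import Pool.Agent.CTab.Defs
import Pool.Agent.CTab.B01
import Pool.Agent.CTab.B08

/-!
Schur orthogonality for the matrix coefficients. For fixed `S T`, the operator
`E(M) = Σ_a r(a) M r(a⁻¹)` commutes with `r(A)`, so it is `(|A|/d) tr(M) • 1`; expand `tr(S r(a)) tr(r(a⁻¹) T)` in matrix
entries.
-/

set_option autoImplicit false

namespace Pool.Agent.CTab

open scoped Classical

variable {G : Type} [Group G] [Fintype G]

theorem schur_avg {A : Subgroup G} {d : ℕ} {r : G → Matrix (Fin d) (Fin d) ℂ}
    (hr : IsMRep A r) (hi : IsIr A (res A (fun x => (r x).trace)))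
    (M : Matrix (Fin d) (Fin d) ℂ) :
    ∑ a, (if a ∈ A then r a * M * r a⁻¹ else 0) =
      ((Nat.card A : ℂ) / d * M.trace) • (1 : Matrix (Fin d) (Fin d) ℂ) := by
  rcases Nat.eq_zero_or_pos d with h0 | hd
  · subst h0
    ext i
    exact i.elim0
  set E := ∑ a, (if a ∈ A then r a * M * r a⁻¹ else 0) with hE
  have hcomm : ∀ b ∈ A, E * r b = r b * E := by
    intro b hb
    rw [hE, Finset.sum_mul, Finset.mul_sum]
    refine (Fintype.sum_equiv (Equiv.mulLeft b)
      (fun a => r b * (if a ∈ A then r a * M * r a⁻¹ else 0))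
      (fun a => (if a ∈ A then r a * M * r a⁻¹ else 0) * r b) (fun a => ?_)).symm
    show r b * (if a ∈ A then r a * M * r a⁻¹ else 0) =
      (if b * a ∈ A then r (b * a) * M * r (b * a)⁻¹ else 0) * r b
    by_cases ha : a ∈ A
    · rw [if_pos (A.mul_mem hb ha), if_pos ha]
      have h1 : r (b * a) = r b * r a := hr.2 b hb a ha
      have h2 : r (b * a)⁻¹ * r b = r a⁻¹ := by
        rw [← hr.2 _ (A.inv_mem (A.mul_mem hb ha)) b hb]
        congr 1
        group
      rw [h1, Matrix.mul_assoc (r b * r a * M), h2]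
      simp only [Matrix.mul_assoc]
    · have hba : b * a ∉ A := fun h => ha (by
        have := A.mul_mem (A.inv_mem hb) h
        rwa [inv_mul_cancel_left] at this)
      rw [if_neg hba, if_neg ha]
      simp
  obtain ⟨c, hc⟩ := schur hr hi E hcomm
  have htr : E.trace = (Nat.card A : ℂ) * M.trace := by
    rw [hE, Matrix.trace_sum]
    have h1 : ∀ a : G, (if a ∈ A then r a * M * r a⁻¹ else 0).trace =
        if a ∈ A then M.trace else 0 := by
      intro a
      by_cases ha : a ∈ A
      · rw [if_pos ha, if_pos ha, Matrix.mul_assoc, Matrix.trace_mul_comm, Matrix.mul_assoc,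
          ← hr.2 _ (A.inv_mem ha) a ha, inv_mul_cancel, hr.1, Matrix.mul_one]
      · rw [if_neg ha, if_neg ha, Matrix.trace_zero]
    rw [Finset.sum_congr rfl fun a _ => h1 a, ← Finset.sum_filter, Finset.sum_const,
      nsmul_eq_mul]
    congr 2
    rw [Nat.card_eq_fintype_card, Fintype.card_subtype]
  have hd' : (d : ℂ) ≠ 0 := by exact_mod_cast hd.ne'
  rw [hc]
  rw [hc, Matrix.trace_smul, Matrix.trace_one, Fintype.card_fin, smul_eq_mul] at htr
  congr 1
  field_simp
  exact htr

theorem schur_entry {A : Subgroup G} {d : ℕ} {r : G → Matrix (Fin d) (Fin d) ℂ}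
    (hr : IsMRep A r) (hi : IsIr A (res A (fun x => (r x).trace))) (i j k l : Fin d) :
    ∑ a, (if a ∈ A then r a j i * r a⁻¹ k l else 0) =
      (Nat.card A : ℂ) / d * ((if i = k then 1 else 0) * (if j = l then 1 else 0)) := by
  have h := congrFun (congrFun (schur_avg hr hi (Matrix.single i k 1)) j) l
  rw [Matrix.sum_apply] at h
  have h1 : ∀ a : G, (if a ∈ A then r a * Matrix.single i k 1 * r a⁻¹ else 0 :
      Matrix (Fin d) (Fin d) ℂ) j l =
      if a ∈ A then r a j i * r a⁻¹ k l else 0 := by
    intro a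
    by_cases ha : a ∈ A
    · rw [if_pos ha, if_pos ha, Matrix.mul_apply, Finset.sum_eq_single k]
      · rw [Matrix.mul_apply, Finset.sum_eq_single i]
        · simp
        · intro b _ hb
          simp [Matrix.single_apply, hb.symm]
        · intro h
          exact absurd (Finset.mem_univ _) h
      · intro b _ hb
        rw [Matrix.mul_apply, Finset.sum_eq_zero]
        · simp
        · intro c _
          simp [Matrix.single_apply, hb.symm]
      · intro h
        exact absurd (Finset.mem_univ _) h
    · rw [if_neg ha, if_neg ha]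
      rfl
  rw [Finset.sum_congr rfl fun a _ => h1 a] at h
  rw [h, Matrix.smul_apply, Matrix.one_apply, smul_eq_mul]
  have h2 : (Matrix.single i k (1 : ℂ)).trace = if i = k then 1 else 0 := by
    by_cases hik : i = k
    · subst hik
      rw [if_pos rfl, Matrix.trace_single_eq_same]
    · rw [if_neg hik, Matrix.trace_single_eq_of_ne _ _ _ hik]
  rw [h2]
  ring

theorem schur_orth {A : Subgroup G} {d : ℕ} {r : G → Matrix (Fin d) (Fin d) ℂ}
    (hr : IsMRep A r) (hi : IsIr A (res A (fun x => (r x).trace)))
    (S T : Matrix (Fin d) (Fin d) ℂ) :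
    ∑ a, (if a ∈ A then (S * r a).trace * (r a⁻¹ * T).trace else 0) =
      (Nat.card A : ℂ) / d * (S * T).trace := by
  have h1 : ∀ a : G, (if a ∈ A then (S * r a).trace * (r a⁻¹ * T).trace else 0) =
      ∑ i, ∑ j, ∑ k, ∑ l, S i j * T l k * (if a ∈ A then r a j i * r a⁻¹ k l else 0) := by
    intro a
    by_cases ha : a ∈ A
    · simp only [if_pos ha]
      have e1 : (S * r a).trace = ∑ i, ∑ j, S i j * r a j i := by
        simp only [Matrix.trace, Matrix.diag_apply, Matrix.mul_apply]
      have e2 : (r a⁻¹ * T).trace = ∑ k, ∑ l, r a⁻¹ k l * T l k := by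
        simp only [Matrix.trace, Matrix.diag_apply, Matrix.mul_apply]
      rw [e1, e2, Finset.sum_mul]
      refine Finset.sum_congr rfl fun i _ => ?_
      rw [Finset.sum_mul]
      refine Finset.sum_congr rfl fun j _ => ?_
      rw [Finset.mul_sum]
      refine Finset.sum_congr rfl fun k _ => ?_
      rw [Finset.mul_sum]
      refine Finset.sum_congr rfl fun l _ => ?_
      ring
    · simp only [if_neg ha, mul_zero, Finset.sum_const_zero]
  rw [Finset.sum_congr rfl fun a _ => h1 a, Finset.sum_comm]
  have h2 : ∀ i : Fin d, (∑ a : G, ∑ j, ∑ k, ∑ l, S i j * T l k *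
      (if a ∈ A then r a j i * r a⁻¹ k l else 0)) =
      ∑ j, (Nat.card A : ℂ) / d * (S i j * T j i) := by
    intro i
    rw [Finset.sum_comm]
    refine Finset.sum_congr rfl fun j _ => ?_
    rw [Finset.sum_comm]
    rw [Finset.sum_eq_single i]
    · rw [Finset.sum_comm, Finset.sum_eq_single j]
      · rw [← Finset.mul_sum, schur_entry hr hi, if_pos rfl, if_pos rfl]
        ring
      · intro l _ hl
        rw [← Finset.mul_sum, schur_entry hr hi, if_neg (Ne.symm hl)]
        ring
      · intro h
        exact absurd (Finset.mem_univ _) h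
    · intro k _ hk
      rw [Finset.sum_comm]
      refine Finset.sum_eq_zero fun l _ => ?_
      rw [← Finset.mul_sum, schur_entry hr hi, if_neg (Ne.symm hk)]
      ring
    · intro h
      exact absurd (Finset.mem_univ _) h
  rw [Finset.sum_congr rfl fun i _ => h2 i]
  simp only [Matrix.trace, Matrix.diag_apply, Matrix.mul_apply, Finset.mul_sum]

end Pool.Agent.CTab
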