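import Pool.Agent.CTab.Defs
import Pool.Agent.CTab.B01
import Pool.Agent.CTab.B08

/-!
Scalars: if `f n = c f(1)` with `|c| = 1` then `n` acts by the scalar `c` (the eigenvalues of `ρ(n)` have absolute
value one and `ρ(n)` is diagonalisable, having finite order; equality case of the triangle inequality), so
`f (x n) = c f(x)`. If `f 1 = 0` then `f = 0`. Determinants give linear characters.
-/

set_option autoImplicit false

namespace Pool.Agent.CTab

open scoped Classical

variable {G : Type} [Group G] [Fintype G]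

/-- the eigenvalues of a matrix of finite order have absolute value one -/
private theorem norm_root {d N : ℕ} (hN : N ≠ 0) {M : Matrix (Fin d) (Fin d) ℂ} (hM : M ^ N = 1)
    {z : ℂ} (hz : z ∈ M.charpoly.roots) : ‖z‖ = 1 := by
  have h1 : z ∈ spectrum ℂ M := by
    rw [Matrix.mem_spectrum_iff_isRoot_charpoly]
    exact (Polynomial.mem_roots'.mp hz).2
  have h2 : z ^ N ∈ spectrum ℂ (M ^ N) := spectrum.pow_mem_pow M N h1
  rw [hM] at h2
  have h3 : z ^ N = 1 := by
    rw [spectrum.mem_iff] at h2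
    by_contra h
    apply h2
    have : (algebraMap ℂ (Matrix (Fin d) (Fin d) ℂ) (z ^ N)) - 1 = algebraMap ℂ _ (z ^ N - 1) := by
      rw [map_sub, map_one]
    rw [this]
    exact (IsUnit.mk0 _ (sub_ne_zero.mpr h)).map (algebraMap ℂ (Matrix (Fin d) (Fin d) ℂ))
  have h4 : ‖z‖ ^ N = 1 := by rw [← norm_pow, h3, norm_one]
  exact (pow_eq_one_iff_of_nonneg (norm_nonneg z) hN).mp h4

private theorem card_roots {d : ℕ} (M : Matrix (Fin d) (Fin d) ℂ) :
    Multiset.card M.charpoly.roots = d := by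
  have h := IsAlgClosed.card_roots_eq_natDegree (p := M.charpoly)
  rw [h, Matrix.charpoly_natDegree_eq_dim, Fintype.card_fin]

private theorem norm_sum_le (s : Multiset ℂ) (h : ∀ z ∈ s, ‖z‖ = 1) : ‖s.sum‖ ≤ Multiset.card s := by
  induction s using Multiset.induction_on with
  | empty => simp
  | cons a s ih =>
    rw [Multiset.sum_cons, Multiset.card_cons]
    have h1 := ih (fun z hz => h z (Multiset.mem_cons_of_mem hz))
    have h2 := h a (Multiset.mem_cons_self a s)
    have h3 := norm_add_le a s.sum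
    push_cast
    linarith

private theorem re_sum_le (s : Multiset ℂ) (h : ∀ z ∈ s, ‖z‖ = 1) : s.sum.re ≤ Multiset.card s :=
  (Complex.re_le_norm _).trans (norm_sum_le s h)

private theorem all_eq_one (s : Multiset ℂ) (h : ∀ z ∈ s, ‖z‖ = 1)
    (e : s.sum.re = Multiset.card s) : ∀ z ∈ s, z = 1 := by
  intro z hz
  obtain ⟨t, rfl⟩ := Multiset.exists_cons_of_mem hz
  have h1 := re_sum_le t (fun z hz => h z (Multiset.mem_cons_of_mem hz))
  have h2 := h z hz
  rw [Multiset.sum_cons, Multiset.card_cons, Complex.add_re] at e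
  push_cast at e
  have h3 : 1 ≤ z.re := by linarith
  have h4 : z.re = ‖z‖ := le_antisymm (Complex.re_le_norm z) (by rw [h2]; exact h3)
  have h5 : z.re = 1 := by rw [h4, h2]
  have h6 : z.im = 0 := by
    have h7 : ‖z‖ ^ 2 = z.re ^ 2 + z.im ^ 2 := by
      rw [← Complex.normSq_eq_norm_sq, Complex.normSq_apply]; ring
    rw [h2, h5] at h7
    have : z.im ^ 2 = 0 := by linarith
    exact pow_eq_zero_iff (two_ne_zero) |>.mp this
  exact Complex.ext (by rw [h5]; rfl) (by rw [h6]; rfl)

private theorem eq_scalar {d N : ℕ} (hN : N ≠ 0) {M : Matrix (Fin d) (Fin d) ℂ} (hM : M ^ N = 1)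
    {c : ℂ} (hc : ‖c‖ = 1) (e : M.trace = c * d) : M = c • (1 : Matrix (Fin d) (Fin d) ℂ) := by
  have hc0 : c ≠ 0 := by
    intro h
    rw [h, norm_zero] at hc
    exact zero_ne_one hc
  -- all roots are `c`
  have h1 : ∀ z ∈ M.charpoly.roots, z = c := by
    have h2 : ∀ w ∈ M.charpoly.roots.map (fun z => c⁻¹ * z), w = 1 := by
      apply all_eq_one
      · intro w hw
        obtain ⟨z, hz, rfl⟩ := Multiset.mem_map.mp hw
        rw [norm_mul, norm_inv, hc, norm_root hN hM hz]; norm_num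
      · rw [Multiset.sum_map_mul_left, Multiset.map_id', ← Matrix.trace_eq_sum_roots_charpoly, e,
          ← mul_assoc, inv_mul_cancel₀ hc0, one_mul, Multiset.card_map, card_roots]
        simp
    intro z hz
    have := h2 _ (Multiset.mem_map_of_mem _ hz)
    field_simp at this
    exact this
  have h3 : M.charpoly = (Polynomial.X - Polynomial.C c) ^ d := by
    have h4 : M.charpoly.roots = Multiset.replicate d c := by
      rw [Multiset.eq_replicate]
      exact ⟨card_roots M, h1⟩
    have h5 := IsAlgClosed.splits M.charpoly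
    have h6 := h5.eq_prod_roots_of_monic (Matrix.charpoly_monic M)
    rw [h6, h4, Multiset.map_replicate, Multiset.prod_replicate]
  have h7 : minpoly ℂ M ∣ (Polynomial.X - Polynomial.C c) ^ d := by
    rw [← h3]; exact Matrix.minpoly_dvd_charpoly M
  obtain ⟨i, hi, ha⟩ := (dvd_prime_pow (Polynomial.prime_X_sub_C c) d).mp h7
  have h8 : minpoly ℂ M ∣ Polynomial.X ^ N - Polynomial.C 1 := by
    apply minpoly.dvd
    simp [hM]
  have hsq : Squarefree (minpoly ℂ M) := by
    have : (Polynomial.X ^ N - Polynomial.C (1 : ℂ)).Separable :=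
      Polynomial.separable_X_pow_sub_C 1 (by exact_mod_cast hN) one_ne_zero
    exact this.squarefree.squarefree_of_dvd h8
  have h9 : minpoly ℂ M ∣ Polynomial.X - Polynomial.C c := by
    have hi1 : i ≤ 1 := by
      by_contra hcon
      push Not at hcon
      have h10 : (Polynomial.X - Polynomial.C c) * (Polynomial.X - Polynomial.C c) ∣ minpoly ℂ M := by
        rw [← pow_two]
        exact (pow_dvd_pow _ hcon).trans ha.symm.dvd
      exact (Polynomial.prime_X_sub_C c).not_isUnit (hsq _ h10)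
    calc minpoly ℂ M ∣ (Polynomial.X - Polynomial.C c) ^ i := ha.dvd
      _ ∣ (Polynomial.X - Polynomial.C c) ^ 1 := pow_dvd_pow _ hi1
      _ = _ := pow_one _
  have h11 : Polynomial.aeval M (Polynomial.X - Polynomial.C c) = 0 := by
    obtain ⟨q, hq⟩ := h9
    rw [hq, map_mul, minpoly.aeval, zero_mul]
  rw [map_sub, Polynomial.aeval_X, Polynomial.aeval_C, sub_eq_zero] at h11
  rw [h11, Algebra.algebraMap_eq_smul_one]

private theorem mrep_pow {d : ℕ} {A : Subgroup G} {r : G → Matrix (Fin d) (Fin d) ℂ}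
    (hr : IsMRep A r) {x : G} (hx : x ∈ A) (k : ℕ) : r (x ^ k) = r x ^ k := by
  induction k with
  | zero => rw [pow_zero, pow_zero]; exact hr.1
  | succ k ih => rw [pow_succ, pow_succ, hr.2 _ (A.pow_mem hx k) _ hx, ih]

private theorem mrep_fin {d : ℕ} {A : Subgroup G} {r : G → Matrix (Fin d) (Fin d) ℂ}
    (hr : IsMRep A r) {x : G} (hx : x ∈ A) : r x ^ (Fintype.card G) = 1 := by
  rw [← mrep_pow hr hx, pow_card_eq_one, hr.1]

private theorem mrep_scalar {A : Subgroup G} {f : G → ℂ} {d : ℕ}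
    {r : G → Matrix (Fin d) (Fin d) ℂ} (hd : f 1 = d) (hr : IsMRep A r)
    (ht : ∀ x ∈ A, (r x).trace = f x) {n : G} (hn : n ∈ A) {c : ℂ}
    (hc : ‖c‖ = 1) (e : f n = c * f 1) : r n = c • (1 : Matrix (Fin d) (Fin d) ℂ) := by
  apply eq_scalar (N := Fintype.card G) Fintype.card_ne_zero (mrep_fin hr hn) hc
  rw [ht n hn, e, hd]

theorem IsCh.scalar {A : Subgroup G} {f : G → ℂ} (h : IsCh A f) {n : G} (hn : n ∈ A) {c : ℂ}
    (hc : ‖c‖ = 1) (e : f n = c * f 1) : ∀ x, f (x * n) = c * f x := by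
  obtain ⟨d, r, hd, hr, ht⟩ := exists_mrep h
  intro x
  by_cases hx : x ∈ A
  · rw [← ht _ (A.mul_mem hx hn), hr.2 x hx n hn, mrep_scalar hd hr ht hn hc e, ← ht x hx]
    rw [mul_smul_comm, mul_one, Matrix.trace_smul, smul_eq_mul]
  · have hxn : x * n ∉ A := fun hh => hx ((Subgroup.mul_mem_cancel_right A hn).mp hh)
    rw [h.1 _ hx, h.1 _ hxn, mul_zero]

theorem IsCh.norm_le {A : Subgroup G} {f : G → ℂ} (h : IsCh A f) (x : G) : ‖f x‖ ≤ ‖f 1‖ := by
  obtain ⟨d, r, hd, hr, ht⟩ := exists_mrep h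
  by_cases hx : x ∈ A
  · rw [← ht x hx, hd, Matrix.trace_eq_sum_roots_charpoly]
    have h1 := norm_sum_le (r x).charpoly.roots
      (fun z hz => norm_root (N := Fintype.card G) Fintype.card_ne_zero (mrep_fin hr hx) hz)
    rw [card_roots] at h1
    rwa [Complex.norm_natCast]
  · rw [h.1 _ hx, norm_zero]; exact norm_nonneg _

theorem IsCh.det {A : Subgroup G} {f : G → ℂ} (h : IsCh A f) :
    ∃ (m : ℕ) (δ : G → ℂ), f 1 = m ∧ IsLin A δ ∧
      ∀ n ∈ A, ∀ c : ℂ, ‖c‖ = 1 → f n = c * f 1 → δ n = c ^ m := by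
  obtain ⟨d, r, hd, hr, ht⟩ := exists_mrep h
  refine ⟨d, fun x => if x ∈ A then (r x).det else 0, hd, ⟨?_, ?_, ?_⟩, ?_⟩
  · intro x hx
    exact if_neg hx
  · show (if (1 : G) ∈ A then (r 1).det else 0) = 1
    rw [if_pos A.one_mem, hr.1, Matrix.det_one]
  · intro x hx y hy
    show (if x * y ∈ A then (r (x * y)).det else 0) =
      (if x ∈ A then (r x).det else 0) * (if y ∈ A then (r y).det else 0)
    rw [if_pos hx, if_pos hy, if_pos (A.mul_mem hx hy), hr.2 x hx y hy, Matrix.det_mul]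
  · intro n hn c hc e
    show (if n ∈ A then (r n).det else 0) = c ^ d
    rw [if_pos hn, mrep_scalar hd hr ht hn hc e, Matrix.det_smul, Matrix.det_one, mul_one,
      Fintype.card_fin]

end Pool.Agent.CTab
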