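import Pool.Agent.CTab.Defs
import Pool.Agent.CTab.B01
import Pool.Agent.CTab.B08
import Pool.Agent.CTab.B09

/-!
The degree of an irreducible character divides the group order. Standard: for a class `C` of `A` with element `g`,
`ω(C) = |C| χ(g)/χ(1)` is an algebraic integer (integrality of the central character), and
`|A|/χ(1) = Σ_C ω(C) conj χ(g_C)` is an algebraic integer, hence an integer. Also: values of characters are algebraic
integers (sums of roots of unity).
-/

set_option autoImplicit false

namespace Pool.Agent.CTab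

open scoped Classical

variable {G : Type} [Group G] [Fintype G]

theorem IsCh.integral {A : Subgroup G} {f : G → ℂ} (h : IsCh A f) (x : G) : IsIntegral ℤ (f x) := by
  by_cases hx : x ∈ A
  · obtain ⟨d, r, -, hr, htr⟩ := exists_mrep h
    rw [← htr x hx, Matrix.trace_eq_sum_roots_charpoly]
    refine IsIntegral.multiset_sum fun μ hμ => ?_
    have hpow : ∀ n : ℕ, r (x ^ n) = r x ^ n := by
      intro n
      induction n with
      | zero => rw [pow_zero, pow_zero, hr.1]
      | succ n ih => rw [pow_succ, pow_succ, hr.2 _ (A.pow_mem hx n) _ hx, ih]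
    have hn := orderOf_pos x
    have h1 : r x ^ orderOf x = 1 := by rw [← hpow, pow_orderOf_eq_one, hr.1]
    have h2 : μ ∈ spectrum ℂ (r x) :=
      Matrix.mem_spectrum_of_isRoot_charpoly (Polynomial.isRoot_of_mem_roots hμ)
    have h3 : μ ^ orderOf x = 1 := by
      by_contra hne
      have h4 := spectrum.pow_mem_pow (r x) (orderOf x) h2
      rw [h1, spectrum.mem_iff] at h4
      apply h4
      have h5 : algebraMap ℂ (Matrix (Fin d) (Fin d) ℂ) (μ ^ orderOf x) - 1 =
          algebraMap ℂ _ (μ ^ orderOf x - 1) := by rw [map_sub, map_one]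
      rw [h5]
      exact (IsUnit.mk0 _ (sub_ne_zero.2 hne)).map _
    exact IsIntegral.of_pow hn (by rw [h3]; exact isIntegral_one)
  · rw [h.1 x hx]
    exact isIntegral_zero

theorem IsIr.deg_dvd {A : Subgroup G} {f : G → ℂ} (h : IsIr A f) :
    ∃ m : ℕ, 0 < m ∧ f 1 = m ∧ m ∣ Nat.card A := by
  have hch := h.isCh
  obtain ⟨d, r, hd, hr, htr⟩ := exists_mrep hch
  have hd0 : 0 < d := by
    rcases Nat.eq_zero_or_pos d with h0 | h0
    · exfalso
      obtain ⟨m, hm, hm0⟩ := hch.deg
      have h1 : m = 0 := by
        have h2 : (m : ℂ) = (d : ℂ) := by rw [← hm, hd]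
        have h3 : m = d := by exact_mod_cast h2
        rw [h3, h0]
      have h4 := (isIr_iff.1 h).2
      rw [hm0 h1] at h4
      simp [ip] at h4
    · exact h0
  have hNe : Nonempty (Fin d) := ⟨⟨0, hd0⟩⟩
  have hres : res A (fun x => (r x).trace) = f := by
    funext x
    unfold res
    by_cases hx : x ∈ A
    · rw [if_pos hx]
      exact htr x hx
    · rw [if_neg hx, h.1 x hx]
  have hi : IsIr A (res A (fun x => (r x).trace)) := by rw [hres]; exact h
  -- the central element
  have hM : ∑ a, (if a ∈ A then f a⁻¹ • r a else 0) =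
      ((Nat.card A : ℂ) / d) • (1 : Matrix (Fin d) (Fin d) ℂ) := by
    rw [Matrix.ext_iff_trace_mul_left]
    intro S
    rw [Finset.mul_sum, Matrix.trace_sum, mul_smul_comm, Matrix.trace_smul, smul_eq_mul,
      ← schur_orth hr hi S 1]
    refine Finset.sum_congr rfl fun a _ => ?_
    by_cases ha : a ∈ A
    · rw [if_pos ha, if_pos ha, mul_smul_comm, Matrix.trace_smul, smul_eq_mul, mul_one,
        htr _ (A.inv_mem ha), mul_comm]
    · rw [if_neg ha, if_neg ha, mul_zero, Matrix.trace_zero]
  have hint : IsIntegral (integralClosure ℤ ℂ) ((Nat.card A : ℂ) / d) := by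
    refine isIntegral_of_smul_mem_submodule
      (Submodule.span (integralClosure ℤ ℂ) (Set.range fun a : A => r a)) ?_
      (Submodule.fg_span (Set.finite_range _)) _ ?_
    · intro h0
      have h1 : r 1 ∈ Submodule.span (integralClosure ℤ ℂ) (Set.range fun a : A => r a) :=
        Submodule.subset_span ⟨1, rfl⟩
      rw [h0, Submodule.mem_bot, hr.1] at h1
      exact one_ne_zero h1
    · intro n hn
      induction hn using Submodule.span_induction with
      | mem n hn =>
        obtain ⟨b, rfl⟩ := hn
        have h1 : ((Nat.card A : ℂ) / d) • r b =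
            ∑ a, (if a ∈ A then f a⁻¹ • r (a * b) else 0) := by
          have h2 : ((Nat.card A : ℂ) / d) • r b =
              (((Nat.card A : ℂ) / d) • (1 : Matrix (Fin d) (Fin d) ℂ)) * r b := by
            rw [smul_mul_assoc, one_mul]
          rw [h2, ← hM, Finset.sum_mul]
          refine Finset.sum_congr rfl fun a _ => ?_
          by_cases ha : a ∈ A
          · rw [if_pos ha, if_pos ha, smul_mul_assoc, hr.2 a ha b b.2]
          · rw [if_neg ha, if_neg ha, zero_mul]
        rw [h1]
        refine Submodule.sum_mem _ fun a _ => ?_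
        by_cases ha : a ∈ A
        · rw [if_pos ha]
          have h3 : r (a * b) ∈
              Submodule.span (integralClosure ℤ ℂ) (Set.range fun a : A => r a) :=
            Submodule.subset_span ⟨⟨a, ha⟩ * b, rfl⟩
          exact Submodule.smul_mem _ (⟨f a⁻¹, hch.integral a⁻¹⟩ : integralClosure ℤ ℂ) h3
        · rw [if_neg ha]
          exact Submodule.zero_mem _
      | zero =>
        rw [smul_zero]
        exact Submodule.zero_mem _
      | add x y _ _ hx hy =>
        rw [smul_add]
        exact Submodule.add_mem _ hx hy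
      | smul t x _ hx =>
        rw [smul_comm]
        exact Submodule.smul_mem _ t hx
  have hint2 : IsIntegral ℤ ((Nat.card A : ℂ) / d) := isIntegral_trans _ hint
  refine ⟨d, hd0, hd, ?_⟩
  have hq : ((Nat.card A : ℂ) / d) = algebraMap ℚ ℂ ((Nat.card A : ℚ) / d) := by
    simp
  rw [hq, isIntegral_algebraMap_iff (algebraMap ℚ ℂ).injective] at hint2
  obtain ⟨z, hz⟩ := IsIntegrallyClosed.isIntegral_iff.1 hint2
  have hd1 : (d : ℚ) ≠ 0 := by exact_mod_cast hd0.ne'
  have h5 : (z : ℚ) * d = Nat.card A := by
    have h6 : (z : ℚ) = (Nat.card A : ℚ) / d := hz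
    rw [h6, div_mul_cancel₀ _ hd1]
  have h7 : z * (d : ℤ) = (Nat.card A : ℤ) := by exact_mod_cast h5
  exact Int.natCast_dvd_natCast.1 ⟨z, by rw [← h7, mul_comm]⟩

end Pool.Agent.CTab
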