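import Pool.Agent.CTab.Defs
import Pool.Agent.CTab.B01
import Pool.Agent.CTab.B02
import Pool.Agent.CTab.B03
import Pool.Agent.CTab.B04
import Pool.Agent.CTab.B08
import Pool.Agent.CTab.B09
import Pool.Agent.CTab.B11

/-!
Clifford theory for a linear character `μ` of a normal subgroup `N` which is invariant in `S`: an irreducible character
`ψ` of `S` lying over `μ` is `Over N μ` (the operator `E = (1/|N|) Σ_n conj(μ n) r(n)` commutes with `r(S)`, is idempotent,
hence `0` or `1` by Schur, and has trace `ip N (res N ψ) μ ≠ 0`; so `r(n) = μ(n)`: indeed `r(m) E = μ(m) E`). Conversely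
`Over` gives `Lies`. The `μ`-isotypic part of a character is a character (decompose into irreducibles; the isotypic part of
an irreducible character is itself or `0`).
-/

set_option autoImplicit false

namespace Pool.Agent.CTab

open scoped Classical

variable {G : Type} [Group G] [Fintype G]

namespace C01

/-- the isotypic projection -/
noncomputable def P (N : Subgroup G) (μ f : G → ℂ) : G → ℂ := fun x =>
  (Nat.card N : ℂ)⁻¹ * ∑ n, (if n ∈ N then (starRingEnd ℂ) (μ n) * f (x * n) else 0)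

theorem card_ne (N : Subgroup G) : (Nat.card N : ℂ) ≠ 0 := by
  have : 0 < Nat.card N := Nat.card_pos
  exact_mod_cast this.ne'

theorem sum_const (N : Subgroup G) (c : ℂ) :
    ∑ n : G, (if n ∈ N then c else 0) = (Nat.card N : ℂ) * c := by
  rw [← Finset.sum_filter, Finset.sum_const, nsmul_eq_mul]
  congr 2
  rw [Nat.card_eq_fintype_card, Fintype.card_subtype]

theorem sum_mulLeft {M : Type} [AddCommMonoid M] (N : Subgroup G) {m : G} (hm : m ∈ N)
    (F : G → M) :
    ∑ n, (if n ∈ N then F (m * n) else 0) = ∑ n, (if n ∈ N then F n else 0) := by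
  refine Fintype.sum_equiv (Equiv.mulLeft m) _ _ (fun n => ?_)
  show (if n ∈ N then F (m * n) else 0) = if m * n ∈ N then F (m * n) else 0
  by_cases h : n ∈ N
  · rw [if_pos h, if_pos (N.mul_mem hm h)]
  · rw [if_neg h, if_neg]
    intro h'
    apply h
    have := N.mul_mem (N.inv_mem hm) h'
    rwa [inv_mul_cancel_left] at this

theorem sum_conj {M : Type} [AddCommMonoid M] {S N : Subgroup G} (hn : Nrm S N) {s : G}
    (hs : s ∈ S) (F : G → M) :
    ∑ n, (if n ∈ N then F (s * n * s⁻¹) else 0) = ∑ n, (if n ∈ N then F n else 0) := by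
  refine Fintype.sum_equiv (MulAut.conj s).toEquiv _ _ (fun n => ?_)
  show (if n ∈ N then F (s * n * s⁻¹) else 0) = if s * n * s⁻¹ ∈ N then F (s * n * s⁻¹) else 0
  by_cases h : n ∈ N
  · rw [if_pos h, if_pos (hn s hs n h)]
  · rw [if_neg h, if_neg]
    intro h'
    apply h
    have := hn s⁻¹ (S.inv_mem hs) _ h'
    have e : s⁻¹ * (s * n * s⁻¹) * s⁻¹⁻¹ = n := by group
    rwa [e] at this

theorem mul_conj {N : Subgroup G} {μ : G → ℂ} (hμ : IsLin N μ) {n : G} (hn : n ∈ N) :
    μ n * (starRingEnd ℂ) (μ n) = 1 := by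
  rw [← hμ.inv n, ← hμ.2.2 n hn n⁻¹ (N.inv_mem hn), mul_inv_cancel, hμ.2.1]

theorem conj_inv_mul {N : Subgroup G} {μ : G → ℂ} (hμ : IsLin N μ) {m n : G} (hm : m ∈ N)
    (hn : m * n ∈ N) :
    (starRingEnd ℂ) (μ n) = μ m * (starRingEnd ℂ) (μ (m * n)) := by
  have h1 : n ∈ N := by
    have := N.mul_mem (N.inv_mem hm) hn
    rwa [inv_mul_cancel_left] at this
  rw [hμ.2.2 m hm n h1, map_mul, ← mul_assoc, mul_conj hμ hm, one_mul]

theorem P_eq_self {S N : Subgroup G} {μ f : G → ℂ} (hμ : IsLin N μ) (ho : Over N μ f) :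
    P N μ f = f := by
  funext x
  unfold P
  have h1 : ∀ n : G, (if n ∈ N then (starRingEnd ℂ) (μ n) * f (x * n) else 0) =
      if n ∈ N then f x else 0 := by
    intro n
    by_cases h : n ∈ N
    · rw [if_pos h, if_pos h, ho x n h, mul_left_comm, mul_comm ((starRingEnd ℂ) (μ n)),
        mul_conj hμ h, mul_one]
    · rw [if_neg h, if_neg h]
  rw [Finset.sum_congr rfl fun n _ => h1 n, sum_const, ← mul_assoc, inv_mul_cancel₀ (card_ne N),
    one_mul]

theorem ip_eq_P {N : Subgroup G} {μ f : G → ℂ} : ip N (res N f) μ = P N μ f 1 := by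
  unfold ip P res
  congr 1
  refine Finset.sum_congr rfl fun n _ => ?_
  by_cases h : n ∈ N
  · rw [if_pos h, if_pos h, one_mul, mul_comm]
  · rw [if_neg h, if_neg h, zero_mul]

theorem dich {S N : Subgroup G} {μ ψ : G → ℂ} (hNS : N ≤ S) (hn : Nrm S N) (hμ : IsLin N μ)
    (hinv : Inv S μ) (hψ : IsIr S ψ) : Over N μ ψ ∨ P N μ ψ = fun _ => 0 := by
  obtain ⟨d, r, hd, hr, htr⟩ := exists_mrep hψ.isCh
  have hres : res S (fun x => (r x).trace) = ψ := by
    funext x
    unfold res
    by_cases hx : x ∈ S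
    · rw [if_pos hx]; exact htr x hx
    · rw [if_neg hx, hψ.1 x hx]
  have hi : IsIr S (res S (fun x => (r x).trace)) := by rw [hres]; exact hψ
  set E : Matrix (Fin d) (Fin d) ℂ :=
    ∑ n, (if n ∈ N then (starRingEnd ℂ) (μ n) • r n else 0) with hE
  have hcomm : ∀ s ∈ S, E * r s = r s * E := by
    intro s hs
    rw [hE, ← sum_conj hn hs (fun n => (starRingEnd ℂ) (μ n) • r n), Finset.sum_mul]
    rw [sum_conj hn hs (fun n => (starRingEnd ℂ) (μ n) • r n), Finset.mul_sum]
    refine Finset.sum_congr rfl fun n _ => ?_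
    by_cases h : n ∈ N
    · rw [if_pos h, if_pos h, hinv s hs n, Matrix.smul_mul, Matrix.mul_smul,
        ← hr.2 _ (hNS (hn s hs n h)) s hs, ← hr.2 s hs n (hNS h)]
      congr 2
      group
    · rw [if_neg h, if_neg h, Matrix.zero_mul, Matrix.mul_zero]
  obtain ⟨c, hc⟩ := schur hr hi E hcomm
  by_cases h0 : c = 0
  · right
    rw [h0, zero_smul] at hc
    funext x
    by_cases hx : x ∈ S
    · have h1 : (r x * E).trace = 0 := by rw [hc, Matrix.mul_zero, Matrix.trace_zero]
      rw [hE, Finset.mul_sum, Matrix.trace_sum] at h1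
      unfold P
      have h2 : ∀ n : G, (r x * (if n ∈ N then (starRingEnd ℂ) (μ n) • r n else 0)).trace =
          if n ∈ N then (starRingEnd ℂ) (μ n) * ψ (x * n) else 0 := by
        intro n
        by_cases h : n ∈ N
        · rw [if_pos h, if_pos h, Matrix.mul_smul, Matrix.trace_smul, ← hr.2 x hx n (hNS h),
            htr _ (S.mul_mem hx (hNS h)), smul_eq_mul]
        · rw [if_neg h, if_neg h, Matrix.mul_zero, Matrix.trace_zero]
      rw [Finset.sum_congr rfl fun n _ => h2 n] at h1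
      rw [h1, mul_zero]
    · unfold P
      rw [Finset.sum_eq_zero, mul_zero]
      intro n _
      by_cases h : n ∈ N
      · rw [if_pos h, hψ.1 (x * n), mul_zero]
        intro h'
        apply hx
        have := S.mul_mem h' (S.inv_mem (hNS h))
        rwa [mul_inv_cancel_right] at this
      · rw [if_neg h]
  · left
    have hsc : ∀ m ∈ N, r m = μ m • (1 : Matrix (Fin d) (Fin d) ℂ) := by
      intro m hm
      have h1 : r m * E = μ m • E := by
        conv_rhs => rw [hE, ← sum_mulLeft N hm (fun n => (starRingEnd ℂ) (μ n) • r n)]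
        rw [hE, Finset.mul_sum, Finset.smul_sum]
        refine Finset.sum_congr rfl fun n _ => ?_
        by_cases h : n ∈ N
        · rw [if_pos h, if_pos h, Matrix.mul_smul, ← hr.2 m (hNS hm) n (hNS h),
            conj_inv_mul hμ hm (N.mul_mem hm h), mul_smul]
        · rw [if_neg h, if_neg h, Matrix.mul_zero, smul_zero]
      rw [hc, Matrix.mul_smul, Matrix.mul_one, smul_comm] at h1
      exact smul_right_injective _ h0 h1
    intro x m hm
    by_cases hx : x ∈ S
    · rw [← htr _ (S.mul_mem hx (hNS hm)), ← htr x hx, hr.2 x hx m (hNS hm), hsc m hm,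
        Matrix.mul_smul, Matrix.trace_smul, Matrix.mul_one, smul_eq_mul, mul_comm]
    · rw [hψ.1 x hx, zero_mul, hψ.1]
      intro h'
      apply hx
      have := S.mul_mem h' (S.inv_mem (hNS hm))
      rwa [mul_inv_cancel_right] at this

end C01

theorem over_of_lies {S N : Subgroup G} {μ ψ : G → ℂ} (hNS : N ≤ S) (hn : Nrm S N) (hμ : IsLin N μ)
    (hinv : Inv S μ) (hψ : IsIr S ψ) (hl : Lies N μ ψ) : Over N μ ψ := by
  rcases C01.dich hNS hn hμ hinv hψ with h | h
  · exact h
  · exfalso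
    apply hl
    rw [C01.ip_eq_P, h]

theorem lies_of_over {S N : Subgroup G} {μ ψ : G → ℂ} (hNS : N ≤ S) (hμ : IsLin N μ)
    (hψ : IsCh S ψ) (h0 : ψ ≠ 0) (ho : Over N μ ψ) : Lies N μ ψ := by
  unfold Lies
  rw [C01.ip_eq_P, C01.P_eq_self (S := S) hμ ho]
  obtain ⟨m, hm, hm0⟩ := hψ.deg
  intro h
  apply h0
  apply hm0
  rw [hm] at h
  exact_mod_cast h

theorem IsCh.iso {A N : Subgroup G} {μ f : G → ℂ} (hf : IsCh A f) (hNA : N ≤ A) (hn : Nrm A N)
    (hμ : IsLin N μ) (hinv : Inv A μ) :
    IsCh A (fun x => (Nat.card N : ℂ)⁻¹ * ∑ n, (if n ∈ N then (starRingEnd ℂ) (μ n) * f (x * n) else 0)) := by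
  show IsCh A (C01.P N μ f)
  have hnat : ∀ χ : G → ℂ, ∃ m : ℕ, IsIr A χ → ip A f χ = m := by
    intro χ
    by_cases h : IsIr A χ
    · obtain ⟨m, hm⟩ := ip_nat hf h.isCh
      exact ⟨m, fun _ => hm⟩
    · exact ⟨0, fun h' => absurd h' h⟩
  choose m hm using hnat
  have key : C01.P N μ f = ∑ χ ∈ irr A, (((if Over N μ χ then m χ else 0 : ℕ) : ℕ) : ℂ) • χ := by
    funext x
    have h1 : C01.P N μ f x = ∑ χ ∈ irr A, (ip A f χ) * C01.P N μ χ x := by
      have hdec := decomp hf
      have h2 : ∀ y, f y = ∑ χ ∈ irr A, (ip A f χ) * χ y := by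
        intro y
        have := congrFun hdec y
        rw [Finset.sum_apply] at this
        rw [this]
        rfl
      unfold C01.P
      simp only [Finset.mul_sum]
      rw [Finset.sum_comm]
      refine Finset.sum_congr rfl fun n _ => ?_
      by_cases h : n ∈ N
      · simp only [if_pos h]
        rw [h2 (x * n), Finset.mul_sum, Finset.mul_sum]
        refine Finset.sum_congr rfl fun χ _ => ?_
        ring
      · simp only [if_neg h, mul_zero, Finset.sum_const_zero]
    rw [h1, Finset.sum_apply]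
    refine Finset.sum_congr rfl fun χ hχ => ?_
    have hχ' := mem_irr.1 hχ
    rw [Pi.smul_apply, smul_eq_mul]
    by_cases ho : Over N μ χ
    · rw [if_pos ho, hm χ hχ', C01.P_eq_self (S := A) hμ ho]
    · rw [if_neg ho]
      rcases C01.dich hNA hn hμ hinv hχ' with h | h
      · exact absurd h ho
      · rw [h]
        simp
  rw [key]
  exact isCh_of_nat _

/-- the isotypic part is `Over` -/
theorem iso_over {A N : Subgroup G} {μ f : G → ℂ} (hf : Cls A f) (hNA : N ≤ A)
    (hμ : IsLin N μ) :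
    Over N μ (fun x => (Nat.card N : ℂ)⁻¹ * ∑ n, (if n ∈ N then (starRingEnd ℂ) (μ n) * f (x * n) else 0)) := by
  intro x m hm
  show (Nat.card N : ℂ)⁻¹ * ∑ n, (if n ∈ N then (starRingEnd ℂ) (μ n) * f (x * m * n) else 0) =
    (Nat.card N : ℂ)⁻¹ * (∑ n, (if n ∈ N then (starRingEnd ℂ) (μ n) * f (x * n) else 0)) * μ m
  rw [mul_assoc]
  congr 1
  rw [← C01.sum_mulLeft N hm (fun n => (starRingEnd ℂ) (μ n) * f (x * n)), Finset.sum_mul]
  refine Finset.sum_congr rfl fun n _ => ?_
  by_cases h : n ∈ N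
  · rw [if_pos h, if_pos h, C01.conj_inv_mul hμ hm (N.mul_mem hm h), mul_assoc x m n]
    ring
  · rw [if_neg h, if_neg h, zero_mul]

/-- the isotypic projection is self-adjoint: pairing with a function which is `Over` -/
theorem ip_iso {A N : Subgroup G} {μ f w : G → ℂ} (hNA : N ≤ A) (hμ : IsLin N μ)
    (hw : Over N μ w) :
    ip A w f = ip A w (fun x => (Nat.card N : ℂ)⁻¹ * ∑ n, (if n ∈ N then (starRingEnd ℂ) (μ n) * f (x * n) else 0)) := by
  unfold ip
  congr 1
  have h1 : ∀ n ∈ N, ∑ x, w x * (μ n * (starRingEnd ℂ) (f (x * n))) =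
      ∑ x, w x * (starRingEnd ℂ) (f x) := by
    intro n hn
    refine Fintype.sum_equiv (Equiv.mulRight n) _ _ (fun x => ?_)
    show w x * (μ n * (starRingEnd ℂ) (f (x * n))) = w (x * n) * (starRingEnd ℂ) (f (x * n))
    rw [hw x n hn]
    ring
  have h2 : ∀ x : G, w x * (starRingEnd ℂ) ((Nat.card N : ℂ)⁻¹ *
      ∑ n, (if n ∈ N then (starRingEnd ℂ) (μ n) * f (x * n) else 0)) =
      (Nat.card N : ℂ)⁻¹ * ∑ n, (if n ∈ N then w x * (μ n * (starRingEnd ℂ) (f (x * n))) else 0) := by
    intro x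
    rw [map_mul, map_inv₀, Complex.conj_natCast, map_sum, mul_left_comm]
    congr 1
    rw [Finset.mul_sum]
    refine Finset.sum_congr rfl fun n _ => ?_
    by_cases h : n ∈ N
    · rw [if_pos h, if_pos h, map_mul, Complex.conj_conj]
    · rw [if_neg h, if_neg h, map_zero, mul_zero]
  rw [Finset.sum_congr rfl fun x _ => h2 x, ← Finset.mul_sum, Finset.sum_comm]
  have h3 : ∀ n : G, ∑ x, (if n ∈ N then w x * (μ n * (starRingEnd ℂ) (f (x * n))) else 0) =
      if n ∈ N then ∑ x, w x * (starRingEnd ℂ) (f x) else 0 := by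
    intro n
    by_cases h : n ∈ N
    · simp only [if_pos h]
      exact h1 n h
    · simp only [if_neg h, Finset.sum_const_zero]
  rw [Finset.sum_congr rfl fun n _ => h3 n, C01.sum_const, ← mul_assoc,
    inv_mul_cancel₀ (C01.card_ne N), one_mul]

end Pool.Agent.CTab
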