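import Pool.Agent.CTab.Defs
import Pool.Agent.CTab.B01
import Pool.Agent.CTab.B02
import Pool.Agent.CTab.B03
import Pool.Agent.CTab.B04
import Pool.Agent.CTab.B10
import Pool.Agent.CTab.B11
import Pool.Agent.CTab.C01
import Pool.Agent.CTab.B07
import Pool.Agent.CTab.B08
import Pool.Agent.CTab.B09
import Pool.Agent.CTab.B12

/-!
Commutative normal subgroups have only linear characters, so every nonzero character `χ` of `A ≥ N` lies over a linear
character of `N`; compatibility with a smaller subgroup `Z ≤ N` on which `χ` is scalar (`Σ_n χ(n) conj(μ n)` is unchanged by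
`n ↦ n z`, so `lam z * conj (μ z) = 1`). Scalars from one value: a character `χ` of `A` with `χ z = lam z χ 1` for `z ∈ Z`
is `Over Z lam`.
-/

set_option autoImplicit false

namespace Pool.Agent.CTab

open scoped Classical

variable {G : Type} [Group G] [Fintype G]

/-- irreducible characters of commutative subgroups are linear -/
private lemma c05_lin {C : Subgroup G} (hC : ∀ a ∈ C, ∀ b ∈ C, a * b = b * a) {χ : G → ℂ}
    (hχ : IsIr C χ) : IsLin C χ := by
  obtain ⟨d, r, hd, hr, htr⟩ := exists_mrep hχ.isCh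
  have hres : res C (fun x => (r x).trace) = χ := by
    funext x
    unfold res
    by_cases hx : x ∈ C
    · rw [if_pos hx]
      exact htr x hx
    · rw [if_neg hx, hχ.isCh.1 x hx]
  have hi : IsIr C (res C (fun x => (r x).trace)) := by rw [hres]; exact hχ
  have hsc : ∀ a ∈ C, ∃ c : ℂ, r a = c • (1 : Matrix (Fin d) (Fin d) ℂ) := by
    intro a ha
    apply schur hr hi
    intro b hb
    rw [← hr.2 a ha b hb, ← hr.2 b hb a ha, hC a ha b hb]
  obtain ⟨m, hm, hm1, _⟩ := hχ.deg_dvd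
  have hdm : d = m := by
    have := hd.symm.trans hm1
    exact_mod_cast this
  have hd1 : d = 1 := by
    by_contra hne
    have h2 : 2 ≤ d := by omega
    have h3 := schur_entry hr hi (⟨0, by omega⟩ : Fin d) (⟨1, by omega⟩ : Fin d)
      (⟨0, by omega⟩ : Fin d) (⟨1, by omega⟩ : Fin d)
    rw [if_pos rfl, if_pos rfl, mul_one, mul_one] at h3
    have h4 : (Nat.card C : ℂ) / d ≠ 0 := by
      apply div_ne_zero
      · exact_mod_cast Nat.card_pos.ne'
      · exact_mod_cast (by omega : d ≠ 0)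
    apply h4
    rw [← h3]
    apply Finset.sum_eq_zero
    intro a _
    by_cases ha : a ∈ C
    · obtain ⟨c, hc⟩ := hsc a ha
      rw [if_pos ha, hc, Matrix.smul_apply, Matrix.one_apply_ne (by simp), smul_zero, zero_mul]
    · rw [if_neg ha]
  apply isLin_of_deg hχ.isCh
  rw [hd, hd1, Nat.cast_one]

private lemma c05_const {C : Subgroup G} (hC : ∀ a ∈ C, ∀ b ∈ C, a * b = b * a) {f : G → ℂ}
    (hf : IsCh C f) (h0 : f ≠ 0) : ∃ μ, IsLin C μ ∧ ip C f μ ≠ 0 := by
  by_contra hcon
  push Not at hcon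
  apply h0
  rw [decomp hf]
  apply Finset.sum_eq_zero
  intro χ hχ
  rw [hcon χ (c05_lin hC (mem_irr.mp hχ)), zero_smul]

theorem exists_lies {A N : Subgroup G} {χ : G → ℂ} (hNA : N ≤ A) (hN : ∀ x ∈ N, ∀ y ∈ N, x * y = y * x)
    (hχ : IsCh A χ) (h0 : χ ≠ 0) : ∃ μ, IsLin N μ ∧ Lies N μ χ := by
  have h1 : IsCh N (res N χ) := hχ.res hNA
  have h2 : res N χ ≠ 0 := by
    intro h3
    obtain ⟨m, hm, hm0⟩ := hχ.deg
    apply h0
    apply hm0
    have h4 : res N χ 1 = χ 1 := by unfold res; rw [if_pos N.one_mem]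
    rw [h3] at h4
    have h5 : (m : ℂ) = 0 := by rw [← hm, ← h4]; rfl
    exact_mod_cast h5
  exact c05_const hN h1 h2

theorem lies_eq {Z N : Subgroup G} {lam μ χ : G → ℂ} (hZN : Z ≤ N) (hlam : IsLin Z lam)
    (hμ : IsLin N μ) (ho : Over Z lam χ) (hl : Lies N μ χ) : ∀ z ∈ Z, μ z = lam z := by
  intro z hz
  have hzN : z ∈ N := hZN hz
  have h1 : ip N (res N χ) μ = ip N (res N χ) μ * (lam z * (starRingEnd ℂ) (μ z)) := by
    have h2 : ∑ x, res N χ x * (starRingEnd ℂ) (μ x) =
        (∑ x, res N χ x * (starRingEnd ℂ) (μ x)) * (lam z * (starRingEnd ℂ) (μ z)) := by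
      conv_lhs => rw [← Equiv.sum_comp (Equiv.mulRight z)]
      rw [Finset.sum_mul]
      apply Finset.sum_congr rfl
      intro x _
      rw [Equiv.coe_mulRight]
      unfold res
      by_cases hx : x ∈ N
      · rw [if_pos (N.mul_mem hx hzN), if_pos hx, ho x z hz, hμ.2.2 x hx z hzN, map_mul]
        ring
      · have hxz : x * z ∉ N := fun h => hx ((Subgroup.mul_mem_cancel_right N hzN).mp h)
        rw [if_neg hx, if_neg hxz, zero_mul, zero_mul, zero_mul]
    unfold ip
    rw [mul_assoc, ← h2]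
  have hl' : ip N (res N χ) μ ≠ 0 := hl
  have h3 : lam z * (starRingEnd ℂ) (μ z) = 1 := by
    have h4 : ip N (res N χ) μ * (lam z * (starRingEnd ℂ) (μ z) - 1) = 0 := by
      rw [mul_sub, ← h1, mul_one, sub_self]
    rcases mul_eq_zero.mp h4 with h5 | h5
    · exact absurd h5 hl'
    · exact sub_eq_zero.mp h5
  have h6 := hμ.mul_conj hzN
  have h7 : (starRingEnd ℂ) (μ z) ≠ 0 := by
    intro h8
    rw [h8, mul_zero] at h3
    exact zero_ne_one h3
  exact mul_right_cancel₀ h7 (h6.trans h3.symm)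

theorem over_of_one {A Z : Subgroup G} {lam χ : G → ℂ} (hZA : Z ≤ A) (hlam : IsLin Z lam)
    (hχ : IsCh A χ) (h : ∀ z ∈ Z, χ z = lam z * χ 1) : Over Z lam χ := by
  intro x z hz
  rw [hχ.scalar (hZA hz) (hlam.norm hz) (h z hz) x, mul_comm]

/-- if the restriction of `χ` to `H ≥ Z` is `Over Z lam`, so is `χ` -/
theorem over_of_res {A H Z : Subgroup G} {lam χ : G → ℂ} (hZH : Z ≤ H) (hHA : H ≤ A)
    (hlam : IsLin Z lam) (hχ : IsCh A χ) (h : Over Z lam (res H χ)) : Over Z lam χ := by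
  apply over_of_one (hZH.trans hHA) hlam hχ
  intro z hz
  have h1 := h 1 z hz
  unfold res at h1
  rw [one_mul, if_pos (hZH hz), if_pos H.one_mem] at h1
  rw [h1, mul_comm]

/-- every linear character of a subgroup of a commutative group extends -/
theorem lin_extend {C L : Subgroup G} {ν : G → ℂ} (hCL : C ≤ L) (hL : ∀ x ∈ L, ∀ y ∈ L, x * y = y * x)
    (hν : IsLin C ν) : ∃ μ, IsLin L μ ∧ ∀ x ∈ C, μ x = ν x := by
  have h1 : IsCh L (ind L C ν) := IsCh.ind hCL hν.isIr.isCh
  have h2 : ind L C ν ≠ 0 := by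
    intro h3
    have h4 := ind_one (f := ν) hCL
    rw [h3, Pi.zero_apply, mul_zero, hν.2.1, mul_one] at h4
    have h5 : (Nat.card L : ℂ) ≠ 0 := by exact_mod_cast Nat.card_pos.ne'
    exact h5 h4.symm
  obtain ⟨μ, hμ, hip⟩ := c05_const hL h1 h2
  refine ⟨μ, hμ, ?_⟩
  rw [frob hCL hν.1 hμ.isIr.isCh.cls] at hip
  have h6 := ip_irr hν.isIr (hμ.res hCL).isIr
  have h7 : ν = res C μ := by
    by_contra hne
    rw [if_neg hne] at h6
    exact hip h6
  intro x hx
  rw [h7]
  unfold res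
  rw [if_pos hx]

end Pool.Agent.CTab
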