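import Pool.Agent.CTab.Defs

/-!
Elementary group theory, coprime action. `coprime_lift`: the `p`-group `P` acts by conjugation on the coset `x W`
(`v (x w) v⁻¹ = x (x⁻¹ v x v⁻¹)(v w v⁻¹)`), whose cardinality is prime to `p`, so there is a fixed point. Facts on `Cpl`.
-/

set_option autoImplicit false

namespace Pool.Agent.CTab

open scoped Classical

variable {G : Type} [Group G] [Fintype G]

theorem coprime_lift {p : ℕ} (hp : p.Prime) {P W : Subgroup G} (hP : IsPGroup p P)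
    (hW : ¬ p ∣ Nat.card W) (hn : Nrm P W) {x : G} (hx : ∀ v ∈ P, x⁻¹ * (v * x * v⁻¹) ∈ W) :
    ∃ w ∈ W, ∀ v ∈ P, v * (x * w) * v⁻¹ = x * w := by
  haveI : Fact p.Prime := ⟨hp⟩
  have key : ∀ v ∈ P, ∀ w ∈ W, x⁻¹ * (v * (x * w) * v⁻¹) ∈ W := by
    intro v hv w hw
    have h1 : x⁻¹ * (v * (x * w) * v⁻¹) = (x⁻¹ * (v * x * v⁻¹)) * (v * w * v⁻¹) := by group
    rw [h1]
    exact W.mul_mem (hx v hv) (hn v hv w hw)
  letI act : MulAction P W :=
    { smul := fun v w => ⟨x⁻¹ * (v * (x * w) * (v : G)⁻¹), key v v.2 w w.2⟩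
      one_smul := by
        intro w
        apply Subtype.ext
        show x⁻¹ * (((1 : P) : G) * (x * w) * ((1 : P) : G)⁻¹) = w
        simp
      mul_smul := by
        intro u v w
        apply Subtype.ext
        show x⁻¹ * (((u * v : P) : G) * (x * w) * ((u * v : P) : G)⁻¹)
          = x⁻¹ * (u * (x * (x⁻¹ * (v * (x * w) * (v : G)⁻¹))) * (u : G)⁻¹)
        rw [Subgroup.coe_mul]
        group }
  obtain ⟨w, hw⟩ := hP.nonempty_fixed_point_of_prime_not_dvd_card W hW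
  refine ⟨w, w.2, fun v hv => ?_⟩
  have h2 : (⟨v, hv⟩ : P) • w = w := hw ⟨v, hv⟩
  have h3 : x⁻¹ * (v * (x * w) * v⁻¹) = w := congrArg Subtype.val h2
  calc v * (x * w) * v⁻¹ = x * (x⁻¹ * (v * (x * w) * v⁻¹)) := by group
    _ = x * w := by rw [h3]

private theorem copr {p : ℕ} (hp : p.Prime) {A H P : Subgroup G} (h : Cpl p A H P) :
    Nat.Coprime (Nat.card H) (Nat.card P) := by
  haveI : Fact p.Prime := ⟨hp⟩
  obtain ⟨n, hn⟩ := (IsPGroup.iff_card).1 h.2.2.1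
  rw [hn]
  exact ((Nat.Prime.coprime_iff_not_dvd hp).2 h.2.2.2.1).symm.pow_right n

theorem Cpl.inf {p : ℕ} (hp : p.Prime) {A H P : Subgroup G} (h : Cpl p A H P) : H ⊓ P = ⊥ :=
  Subgroup.inf_eq_bot_of_coprime (copr hp h)

private theorem inj_mul {H P : Subgroup G} (hb : H ⊓ P = ⊥) {x y u v : G} (hx : x ∈ H) (hy : y ∈ H)
    (hu : u ∈ P) (hv : v ∈ P) (e : x * u = y * v) : x = y ∧ u = v := by
  have h1 : y⁻¹ * x = v * u⁻¹ := by
    calc y⁻¹ * x = y⁻¹ * (x * u) * u⁻¹ := by group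
      _ = y⁻¹ * (y * v) * u⁻¹ := by rw [e]
      _ = v * u⁻¹ := by group
  have h2 : y⁻¹ * x ∈ H ⊓ P := by
    refine ⟨H.mul_mem (H.inv_mem hy) hx, ?_⟩
    show y⁻¹ * x ∈ P
    rw [h1]
    exact P.mul_mem hv (P.inv_mem hu)
  rw [hb, Subgroup.mem_bot] at h2
  have hxy : x = y := by
    have := congrArg (fun z => y * z) h2
    simpa using this
  refine ⟨hxy, ?_⟩
  rw [hxy] at e
  exact mul_left_cancel e

theorem Cpl.mul {p : ℕ} (hp : p.Prime) {A H P : Subgroup G} (h : Cpl p A H P) {a : G} (ha : a ∈ A) :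
    ∃ x ∈ H, ∃ v ∈ P, a = x * v := by
  have hb := h.inf hp
  obtain ⟨h1, h2, h3, h4, h5⟩ := h
  let f : H × P → A := fun z => ⟨z.1 * z.2, A.mul_mem (h1 z.1.2) (h2 z.2.2)⟩
  have hf : Function.Injective f := by
    rintro ⟨x, u⟩ ⟨y, v⟩ e
    have e' : (x : G) * u = y * v := congrArg Subtype.val e
    obtain ⟨e1, e2⟩ := inj_mul hb x.2 y.2 u.2 v.2 e'
    rw [Prod.mk.injEq]
    exact ⟨Subtype.ext e1, Subtype.ext e2⟩
  have hb2 : Function.Bijective f := by
    rw [Nat.bijective_iff_injective_and_card]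
    exact ⟨hf, by rw [Nat.card_prod, h5]⟩
  obtain ⟨⟨x, v⟩, e⟩ := hb2.2 ⟨a, ha⟩
  exact ⟨x, x.2, v, v.2, (congrArg Subtype.val e).symm⟩

/-- `A = H S` for every subgroup `P ≤ S ≤ A` -/
theorem Cpl.mul' {p : ℕ} (hp : p.Prime) {A H P S : Subgroup G} (h : Cpl p A H P) (hPS : P ≤ S)
    {a : G} (ha : a ∈ A) : ∃ x ∈ H, ∃ s ∈ S, a = x * s := by
  obtain ⟨x, hx, v, hv, e⟩ := h.mul hp ha
  exact ⟨x, hx, v, hPS hv, e⟩

theorem Cpl.sub {p : ℕ} (hp : p.Prime) {A H P S : Subgroup G} (h : Cpl p A H P) (hPS : P ≤ S)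
    (hSA : S ≤ A) : Cpl p S (H ⊓ S) P ∧ KK (H ⊓ S) P = KK H P ⊓ S := by
  refine ⟨⟨inf_le_right, hPS, h.2.2.1, ?_, ?_⟩, ?_⟩
  · intro hd
    exact h.2.2.2.1 (hd.trans (Subgroup.card_dvd_of_le inf_le_left))
  · have hb : (H ⊓ S) ⊓ P = ⊥ := by
      apply le_bot_iff.1
      rw [← h.inf hp]
      exact inf_le_inf_right _ inf_le_left
    let f : (H ⊓ S : Subgroup G) × P → S := fun z => ⟨z.1 * z.2, S.mul_mem z.1.2.2 (hPS z.2.2)⟩
    have hf : Function.Bijective f := by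
      constructor
      · rintro ⟨x, u⟩ ⟨y, v⟩ e
        have e' : (x : G) * u = y * v := congrArg Subtype.val e
        obtain ⟨e1, e2⟩ := inj_mul hb x.2 y.2 u.2 v.2 e'
        rw [Prod.mk.injEq]
        exact ⟨Subtype.ext e1, Subtype.ext e2⟩
      · rintro ⟨s, hs⟩
        obtain ⟨x, hx, v, hv, e⟩ := h.mul hp (hSA hs)
        have hxS : x ∈ S := by
          have : x = s * v⁻¹ := by rw [e]; group
          rw [this]
          exact S.mul_mem hs (S.inv_mem (hPS hv))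
        exact ⟨(⟨x, hx, hxS⟩, ⟨v, hv⟩), Subtype.ext e.symm⟩
    rw [← Nat.card_prod]
    exact Nat.card_eq_of_bijective f hf
  · show (H ⊓ S) ⊓ _ = (H ⊓ _) ⊓ S
    exact inf_right_comm _ _ _

private theorem pow_aux {L : Subgroup G} {x l : G} (hx : ∀ m ∈ L, x⁻¹ * m * x ∈ L) (hl : l ∈ L)
    (n : ℕ) : ∃ m ∈ L, (x * l) ^ n = x ^ n * m := by
  induction n with
  | zero => exact ⟨1, L.one_mem, by simp⟩
  | succ n ih =>
    obtain ⟨m, hm, e⟩ := ih
    refine ⟨(x⁻¹ * m * x) * l, L.mul_mem (hx m hm) hl, ?_⟩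
    rw [pow_succ, e, pow_succ]
    group

/-- `y = x l`, `x ^ a = 1`, `|L|` and `a` prime to the order of `y`: then `y = 1` -/
private theorem one_aux {L : Subgroup G} {x l : G} (hx : ∀ m ∈ L, x⁻¹ * m * x ∈ L) (hl : l ∈ L)
    {a b : ℕ} (ha : x ^ a = 1) (hb : (x * l) ^ b = 1) (hab : Nat.Coprime a b)
    (hLb : Nat.Coprime (Nat.card L) b) : x * l = 1 := by
  obtain ⟨m, hm, e⟩ := pow_aux hx hl a
  rw [ha, one_mul] at e
  have h1 : (x * l) ^ (a * Nat.card L) = 1 := by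
    rw [pow_mul, e]
    exact pow_card_eq_one_of_mem hm
  have h2 : orderOf (x * l) ∣ a * Nat.card L := orderOf_dvd_of_pow_eq_one h1
  have h3 : orderOf (x * l) ∣ b := orderOf_dvd_of_pow_eq_one hb
  have h4 : Nat.Coprime (a * Nat.card L) b := Nat.Coprime.mul_left hab hLb
  have h5 : orderOf (x * l) = 1 := Nat.eq_one_of_dvd_coprimes h4 h2 h3
  exact orderOf_eq_one_iff.1 h5
  where
  pow_card_eq_one_of_mem {L : Subgroup G} {m : G} (hm : m ∈ L) : m ^ Nat.card L = 1 := by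
    have := pow_card_eq_one' (x := (⟨m, hm⟩ : L))
    exact congrArg Subtype.val this

private theorem pce {L : Subgroup G} {m : G} (hm : m ∈ L) : m ^ Nat.card L = 1 := by
  have := pow_card_eq_one' (x := (⟨m, hm⟩ : L))
  exact congrArg Subtype.val this

/-- normal `p'`-subgroups are contained in `H` -/
theorem Cpl.le_of_normal {p : ℕ} (hp : p.Prime) {A H P L : Subgroup G} (h : Cpl p A H P)
    (hL : L ≤ A) (hn : Nrm A L) (hpL : ¬ p ∣ Nat.card L) : L ≤ H := by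
  intro l hl
  obtain ⟨x, hx, v, hv, e⟩ := h.mul hp (hL hl)
  have hv' : v = x⁻¹ * l := by rw [e]; group
  have h1 : x⁻¹ * l = 1 := by
    refine one_aux (L := L) (a := Nat.card H) (b := Nat.card P) ?_ hl ?_ ?_ (copr hp h) ?_
    · intro m hm
      have := hn x (h.1 hx) m hm
      simpa using this
    · exact pce (H.inv_mem hx)
    · rw [← hv']
      exact pce hv
    · haveI : Fact p.Prime := ⟨hp⟩
      obtain ⟨n, hn⟩ := (IsPGroup.iff_card).1 h.2.2.1
      rw [hn]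
      exact ((Nat.Prime.coprime_iff_not_dvd hp).2 hpL).symm.pow_right n
  have h2 : l = x := by
    have := congrArg (fun z => x * z) h1
    simpa using this
  rw [h2]
  exact hx

/-- normal `p`-subgroups are contained in `P` -/
theorem Cpl.le_of_normal_p {p : ℕ} (hp : p.Prime) {A H P D : Subgroup G} (h : Cpl p A H P)
    (hD : D ≤ A) (hn : Nrm A D) (hpD : IsPGroup p D) : D ≤ P := by
  intro d hd
  obtain ⟨x, hx, v, hv, e⟩ := h.mul hp (hD hd)
  -- `x = d v⁻¹ = v⁻¹ (v d v⁻¹)`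
  have hx' : x = v⁻¹ * (v * d * v⁻¹) := by rw [e]; group
  have h1 : v⁻¹ * (v * d * v⁻¹) = 1 := by
    refine one_aux (L := D) (a := Nat.card P) (b := Nat.card H) ?_ (hn v (h.2.1 hv) d hd) ?_ ?_
      (copr hp h).symm ?_
    · intro m hm
      have := hn v (h.2.1 hv) m hm
      simpa using this
    · exact pce (P.inv_mem hv)
    · rw [← hx']
      exact pce hx
    · haveI : Fact p.Prime := ⟨hp⟩
      obtain ⟨n, hn⟩ := (IsPGroup.iff_card).1 hpD
      rw [hn]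
      exact ((Nat.Prime.coprime_iff_not_dvd hp).2 h.2.2.2.1).pow_left n
  have h2 : x = 1 := by rw [hx', h1]
  rw [e, h2, one_mul]
  exact hv

end Pool.Agent.CTab
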