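import Pool.Agent.CTab.Defs
import Pool.Agent.CTab.G01

/-!
More on `Cpl` and `KK H P = N_H(P)`. (1) `N_A(P) = P N_H(P)`. (2) elements of a `P`-invariant subgroup `L ≤ H` which
normalise `P` centralise it (`[l, v] ∈ L ∩ P = 1`). (3) if `P ≤ S` and `a P a⁻¹ ≤ S` then `a ∈ S N_H(P)`: both are Sylow
subgroups of `S`. (4) sub-configurations `L K' P'` (`L` normal, `K'` normalising `P'`).
-/

set_option autoImplicit false

namespace Pool.Agent.CTab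

open scoped Classical

variable {G : Type} [Group G] [Fintype G]

theorem Cpl.normalizer_mul {p : ℕ} (hp : p.Prime) {A H P : Subgroup G} (h : Cpl p A H P) {a : G}
    (ha : a ∈ A) (hn : ∀ v ∈ P, a * v * a⁻¹ ∈ P) : ∃ v ∈ P, ∃ k ∈ KK H P, a = v * k := by
  sorry

theorem mem_KK_iff_comm {p : ℕ} (hp : p.Prime) {A H P L : Subgroup G} (h : Cpl p A H P)
    (hL : L ≤ H) (hn : Nrm P L) {l : G} (hl : l ∈ L) : l ∈ KK H P ↔ ∀ v ∈ P, v * l = l * v := by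
  sorry

theorem Cpl.conj_mul {p : ℕ} (hp : p.Prime) {A H P S : Subgroup G} (h : Cpl p A H P) (hPS : P ≤ S)
    (hSA : S ≤ A) {a : G} (ha : a ∈ A) (hn : ∀ v ∈ P, a * v * a⁻¹ ∈ S) :
    ∃ s ∈ S, ∃ k ∈ KK H P, a = s * k := by
  sorry

theorem Cpl.sup {p : ℕ} (hp : p.Prime) {A H P L K' P' : Subgroup G} (h : Cpl p A H P) (hL : L ≤ H)
    (hn : Nrm A L) (hK' : K' ≤ H) (hP' : P' ≤ P) (hKP : Nrm K' P') :
    Cpl p (L ⊔ K' ⊔ P') (L ⊔ K') P' := by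
  sorry

theorem KK_sup {p : ℕ} (hp : p.Prime) {A H P L K' P' : Subgroup G} (h : Cpl p A H P) (hL : L ≤ H)
    (hn : Nrm A L) (hK' : K' ≤ H) (hP' : P' ≤ P) (hKP : Nrm K' P')
    (hC : ∀ l ∈ L, (∀ v ∈ P', v * l = l * v) → l ∈ K') : KK (L ⊔ K') P' = K' := by
  sorry

theorem KK_nrm (H P : Subgroup G) : Nrm (KK H P) P := by
  sorry

end Pool.Agent.CTab
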