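import Pool.Agent.CTab.Defs
import Pool.Agent.CTab.G01
import Pool.Agent.CTab.G02
import Pool.Agent.CTab.B02
import Pool.Agent.CTab.B11
import Pool.Agent.CTab.C05

/-!
The `P`-invariant linear characters of a commutative `p'`-group `L` normalised by `P`, extending `lam`, correspond by
restriction to the linear characters of `C = C_L(P)` extending `lam`. For `l ∈ L` the product `c` of all conjugates
`v l v⁻¹` (`v ∈ P`) is in `C`. Injectivity (also used for the stabilisers): if `μ, μ'` are `P`-invariant and agree on `C`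
then `(μ l)^|P| = μ c = μ' c = (μ' l)^|P|` and the values are `|L|`-th roots of unity with `|L|` prime to `|P|`.
Surjectivity: extend `ν` to a linear character `μ₀` of `L` (`lin_extend`), put `μ = (Π_v μ₀^v)^m` with
`m |P| ≡ 1 mod |L|`.
-/

set_option autoImplicit false

namespace Pool.Agent.CTab

open scoped Classical

variable {G : Type} [Group G] [Fintype G]

/-- `P`-invariant linear characters of `L` extending `lam` -/
def InvSet (P L Z : Subgroup G) (lam : G → ℂ) : Set (G → ℂ) :=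
  {μ | IsLin L μ ∧ (∀ z ∈ Z, μ z = lam z) ∧ Inv P μ}

@[reducible] private def a01C (L : Subgroup G) (hL : ∀ x ∈ L, ∀ y ∈ L, x * y = y * x) : CommGroup L :=
  { (inferInstance : Group L) with
    mul_comm := fun a b => Subtype.ext (hL a a.2 b b.2) }

/-- the norm -/
private noncomputable def a01N (P L : Subgroup G) (hL : ∀ x ∈ L, ∀ y ∈ L, x * y = y * x)
    (hn : Nrm P L) (l : L) : L :=
  letI := a01C L hL
  ∏ v : P, (⟨(v : G) * l * (v : G)⁻¹, hn v v.2 l l.2⟩ : L)

private theorem a01_mul {P L : Subgroup G} (hL : ∀ x ∈ L, ∀ y ∈ L, x * y = y * x)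
    (hn : Nrm P L) (l l' : L) : a01N P L hL hn (l * l') = a01N P L hL hn l * a01N P L hL hn l' := by
  letI := a01C L hL
  unfold a01N
  rw [← Finset.prod_mul_distrib]
  refine Finset.prod_congr rfl fun v _ => ?_
  apply Subtype.ext
  show (v : G) * ((l : G) * l') * (v : G)⁻¹ = (v * l * (v : G)⁻¹) * (v * l' * (v : G)⁻¹)
  group

private theorem a01_one {P L : Subgroup G} (hL : ∀ x ∈ L, ∀ y ∈ L, x * y = y * x)
    (hn : Nrm P L) : a01N P L hL hn 1 = 1 := by
  have h := a01_mul hL hn 1 1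
  rw [mul_one] at h
  exact (mul_eq_left.1 h.symm)

private theorem a01_inv {P L : Subgroup G} (hL : ∀ x ∈ L, ∀ y ∈ L, x * y = y * x)
    (hn : Nrm P L) (l : L) {w : G} (hw : w ∈ P) :
    a01N P L hL hn ⟨w * l * w⁻¹, hn w hw l l.2⟩ = a01N P L hL hn l := by
  letI := a01C L hL
  unfold a01N
  refine Fintype.prod_equiv (Equiv.mulRight (⟨w, hw⟩ : P)) _ _ fun v => ?_
  apply Subtype.ext
  show (v : G) * (w * l * w⁻¹) * (v : G)⁻¹ = (v * w) * l * ((v : G) * w)⁻¹
  group

private theorem a01_conj {P L : Subgroup G} (hL : ∀ x ∈ L, ∀ y ∈ L, x * y = y * x)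
    (hn : Nrm P L) (l : L) {w : G} (hw : w ∈ P) :
    w * (a01N P L hL hn l : G) * w⁻¹ = a01N P L hL hn l := by
  letI := a01C L hL
  let φ : L →* L :=
    { toFun := fun l => ⟨w * l * w⁻¹, hn w hw l l.2⟩
      map_one' := by
        apply Subtype.ext
        show w * 1 * w⁻¹ = 1
        group
      map_mul' := by
        intro a b
        apply Subtype.ext
        show w * ((a : G) * b) * w⁻¹ = (w * a * w⁻¹) * (w * b * w⁻¹)
        group }
  have h1 : φ (a01N P L hL hn l) = a01N P L hL hn l := by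
    unfold a01N
    rw [map_prod]
    refine Fintype.prod_equiv (Equiv.mulLeft (⟨w, hw⟩ : P)) _ _ fun v => ?_
    apply Subtype.ext
    show w * ((v : G) * l * (v : G)⁻¹) * w⁻¹ = (w * v) * l * (w * (v : G))⁻¹
    group
  exact congrArg Subtype.val h1

private theorem a01_val {P L : Subgroup G} (hL : ∀ x ∈ L, ∀ y ∈ L, x * y = y * x)
    (hn : Nrm P L) {μ : G → ℂ} (hμ : IsLin L μ) (hi : Inv P μ) (l : L) :
    μ (a01N P L hL hn l) = μ l ^ Nat.card P := by
  letI := a01C L hL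
  let φ : L →* ℂ :=
    { toFun := fun l => μ l
      map_one' := hμ.2.1
      map_mul' := fun a b => hμ.2.2 a a.2 b b.2 }
  have h1 : φ (a01N P L hL hn l) = φ l ^ Nat.card P := by
    unfold a01N
    rw [map_prod]
    have h2 : ∀ v : P, φ (⟨(v : G) * l * (v : G)⁻¹, hn v v.2 l l.2⟩ : L) = φ l := fun v =>
      hi v v.2 l
    rw [Finset.prod_congr rfl fun v _ => h2 v, Finset.prod_const, Finset.card_univ,
      Nat.card_eq_fintype_card]
  exact h1

private theorem a01_pow {P L : Subgroup G} (hL : ∀ x ∈ L, ∀ y ∈ L, x * y = y * x)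
    (hn : Nrm P L) (l : L) (h : ∀ v ∈ P, v * (l : G) = l * v) :
    a01N P L hL hn l = l ^ Nat.card P := by
  letI := a01C L hL
  unfold a01N
  have h2 : ∀ v : P, (⟨(v : G) * l * (v : G)⁻¹, hn v v.2 l l.2⟩ : L) = l := by
    intro v
    apply Subtype.ext
    show (v : G) * l * (v : G)⁻¹ = l
    rw [h v v.2, mul_inv_cancel_right]
  rw [Finset.prod_congr rfl fun v _ => h2 v, Finset.prod_const, Finset.card_univ,
    Nat.card_eq_fintype_card]

omit [Fintype G] in
private theorem a01_cop [Finite G] {p : ℕ} (hp : p.Prime) {P L : Subgroup G} (hP : IsPGroup p P)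
    (hpL : ¬ p ∣ Nat.card L) : Nat.Coprime (Nat.card P) (Nat.card L) := by
  haveI : Fact p.Prime := ⟨hp⟩
  obtain ⟨n, hn⟩ := (IsPGroup.iff_card).1 hP
  rw [hn]
  exact ((Nat.Prime.coprime_iff_not_dvd hp).2 hpL).pow_left n

theorem inv_injOn {p : ℕ} (hp : p.Prime) {P L C : Subgroup G} (hP : IsPGroup p P)
    (hL : ∀ x ∈ L, ∀ y ∈ L, x * y = y * x) (hpL : ¬ p ∣ Nat.card L) (hn : Nrm P L)
    (hC : ∀ l, l ∈ C ↔ l ∈ L ∧ ∀ v ∈ P, v * l = l * v) {μ μ' : G → ℂ} (hμ : IsLin L μ)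
    (hμ' : IsLin L μ') (hi : Inv P μ) (hi' : Inv P μ') (h : ∀ c ∈ C, μ c = μ' c) : μ = μ' := by
  funext l
  by_cases hl : l ∈ L
  swap
  · rw [hμ.1 l hl, hμ'.1 l hl]
  have hcop := a01_cop hp hP hpL
  have h1 := a01_val hL hn hμ hi ⟨l, hl⟩
  have h2 := a01_val hL hn hμ' hi' ⟨l, hl⟩
  have h3 : ((a01N P L hL hn ⟨l, hl⟩ : L) : G) ∈ C := by
    rw [hC]
    refine ⟨(a01N P L hL hn ⟨l, hl⟩).2, fun v hv => ?_⟩
    exact mul_inv_eq_iff_eq_mul.1 (a01_conj hL hn ⟨l, hl⟩ hv)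
  have h4 := h _ h3
  rw [h1, h2] at h4
  have h5 : μ l ^ Nat.card P = μ' l ^ Nat.card P := h4
  have h6 := hμ.pow_card hl
  have h7 := hμ'.pow_card hl
  have h8 : μ' l ≠ 0 := by
    intro h0
    rw [h0, zero_pow Nat.card_pos.ne'] at h7
    exact zero_ne_one h7
  have h9 : (μ l / μ' l) ^ Nat.card P = 1 := by
    rw [div_pow, h5, div_self (pow_ne_zero _ h8)]
  have h10 : (μ l / μ' l) ^ Nat.card L = 1 := by
    rw [div_pow, h6, h7, div_one]
  have h11 : (μ l / μ' l) ^ (Nat.gcd (Nat.card P) (Nat.card L)) = 1 := by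
    rw [← orderOf_dvd_iff_pow_eq_one] at h9 h10 ⊢
    exact Nat.dvd_gcd h9 h10
  rw [hcop, pow_one, div_eq_one_iff_eq h8] at h11
  exact h11

theorem inv_bijOn {p : ℕ} (hp : p.Prime) {P L C Z : Subgroup G} {lam : G → ℂ} (hP : IsPGroup p P)
    (hL : ∀ x ∈ L, ∀ y ∈ L, x * y = y * x) (hpL : ¬ p ∣ Nat.card L) (hn : Nrm P L)
    (hC : ∀ l, l ∈ C ↔ l ∈ L ∧ ∀ v ∈ P, v * l = l * v) (hZ : Z ≤ C) :
    Set.BijOn (res C) (InvSet P L Z lam) (InvSet ⊥ C Z lam) := by
  have hCL : C ≤ L := fun c hc => ((hC c).1 hc).1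
  refine ⟨?_, ?_, ?_⟩
  · rintro μ ⟨hμ, hZμ, hi⟩
    refine ⟨hμ.res hCL, fun z hz => ?_, ?_⟩
    · rw [← hZμ z hz]
      unfold res
      rw [if_pos (hZ hz)]
    · intro a ha x
      rw [Subgroup.mem_bot] at ha
      rw [ha, one_mul, inv_one, mul_one]
  · rintro μ ⟨hμ, hZμ, hi⟩ μ' ⟨hμ', hZμ', hi'⟩ he
    refine inv_injOn hp hP hL hpL hn hC hμ hμ' hi hi' fun c hc => ?_
    have h1 := congrFun he c
    unfold res at h1
    rwa [if_pos hc, if_pos hc] at h1
  · rintro ν ⟨hν, hZν, -⟩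
    obtain ⟨μ₀, hμ₀, he⟩ := lin_extend hCL hL hν
    have hcop := a01_cop hp hP hpL
    set m : ℕ := Nat.card P ^ (Nat.totient (Nat.card L) - 1) with hm
    have hmP : Nat.card P * m ≡ 1 [MOD Nat.card L] := by
      have h1 := Nat.ModEq.pow_totient hcop
      have h2 : 0 < Nat.totient (Nat.card L) := Nat.totient_pos.2 Nat.card_pos
      have h3 : Nat.card P * m = Nat.card P ^ Nat.totient (Nat.card L) := by
        rw [hm, ← pow_succ', Nat.sub_add_cancel h2]
      rw [h3]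
      exact h1
    set μ : G → ℂ := fun x => if hx : x ∈ L then μ₀ ((a01N P L hL hn ⟨x, hx⟩) ^ m : L) else 0
      with hμd
    have hval : ∀ l : L, μ l = μ₀ ((a01N P L hL hn l) ^ m : L) := by
      intro l
      rw [hμd]
      exact dif_pos l.2
    have hlin : IsLin L μ := by
      refine ⟨fun x hx => dif_neg hx, ?_, ?_⟩
      · have h1 := hval 1
        rw [a01_one, one_pow] at h1
        exact h1.trans hμ₀.2.1
      · intro x hx y hy
        have h1 := hval (⟨x, hx⟩ * ⟨y, hy⟩)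
        have h2 := hval ⟨x, hx⟩
        have h3 := hval ⟨y, hy⟩
        have h4 : ((a01N P L hL hn (⟨x, hx⟩ * ⟨y, hy⟩)) ^ m : L) =
            (a01N P L hL hn ⟨x, hx⟩) ^ m * (a01N P L hL hn ⟨y, hy⟩) ^ m := by
          letI := a01C L hL
          rw [a01_mul]
          exact mul_pow _ _ _
        rw [h4] at h1
        have h5 : μ (x * y) = μ₀ (((a01N P L hL hn ⟨x, hx⟩) ^ m : L) * ((a01N P L hL hn ⟨y, hy⟩) ^ m : L)) := h1
        rw [h5, hμ₀.2.2 _ ((a01N P L hL hn ⟨x, hx⟩) ^ m).2 _ ((a01N P L hL hn ⟨y, hy⟩) ^ m).2, ← h2, ← h3]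
    have hinv : Inv P μ := by
      intro v hv x
      by_cases hx : x ∈ L
      · have h1 := hval ⟨v * x * v⁻¹, hn v hv x hx⟩
        have h2 := hval ⟨x, hx⟩
        have h3 := a01_inv hL hn ⟨x, hx⟩ hv
        have h4 : μ (v * x * v⁻¹) = μ x := by
          rw [show μ (v * x * v⁻¹) = μ₀ ((a01N P L hL hn ⟨v * x * v⁻¹, hn v hv x hx⟩) ^ m : L) from h1,
            show μ x = μ₀ ((a01N P L hL hn ⟨x, hx⟩) ^ m : L) from h2]
          rw [show a01N P L hL hn ⟨v * x * v⁻¹, hn v hv x hx⟩ = a01N P L hL hn ⟨x, hx⟩ from h3]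
        exact h4
      · have h1 : v * x * v⁻¹ ∉ L := by
          intro h1
          apply hx
          have h2 := hn v⁻¹ (P.inv_mem hv) _ h1
          have h3 : v⁻¹ * (v * x * v⁻¹) * v⁻¹⁻¹ = x := by group
          rwa [h3] at h2
        rw [hlin.1 x hx, hlin.1 _ h1]
    have hC' : ∀ c ∈ C, μ c = ν c := by
      intro c hc
      obtain ⟨h1, h2⟩ := (hC c).1 hc
      have h3 := hval ⟨c, h1⟩
      have h4 := a01_pow hL hn ⟨c, h1⟩ h2
      rw [h4, ← pow_mul] at h3
      have h5 : (⟨c, h1⟩ : L) ^ (Nat.card P * m) = ⟨c, h1⟩ := by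
        have h6 : (⟨c, h1⟩ : L) ^ (Nat.card P * m) = (⟨c, h1⟩ : L) ^ 1 := by
          rw [pow_eq_pow_iff_modEq]
          exact hmP.of_dvd (orderOf_dvd_natCard _)
        rw [h6, pow_one]
      rw [h5] at h3
      exact h3.trans (he c hc)
    refine ⟨μ, ⟨hlin, fun z hz => ?_, hinv⟩, ?_⟩
    · rw [hC' z (hZ hz), hZν z hz]
    · funext x
      unfold res
      by_cases hx : x ∈ C
      · rw [if_pos hx, hC' x hx]
      · rw [if_neg hx, hν.1 x hx]

theorem invSet_finite (P L Z : Subgroup G) (lam : G → ℂ) : (InvSet P L Z lam).Finite := by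
  exact (Finset.finite_toSet (irr L)).subset (fun f hf => Finset.mem_coe.2 (mem_irr.2 hf.1.isIr))

end Pool.Agent.CTab
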