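import Pool.Agent.CTab.Defs
import Pool.Agent.CTab.B01
import Pool.Agent.CTab.B07
import Pool.Agent.CTab.B11
import Pool.Agent.CTab.C01

/-!
Clifford correspondence, forward direction. `S = stab A μ`, `ψ` a class function of `S` which is `Over N μ`.
`cliff_proj`: for `x ∈ S`, `(1/|N|) Σ_n conj(μ n) ind(ψ)(x n) = ψ x`: write `a⁻¹ x n a = (a⁻¹ x a)(a⁻¹ n a)` and use
`ψ(y m) = ψ(y) μ(m)`, then `Σ_n conj(μ n) μ(a⁻¹ n a) = |N|` if `a ∈ S` and `0` otherwise (`lin_orth`; the function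
`n ↦ μ(a⁻¹ n a)` is a linear character of `N`). Irreducibility of the induced character: Frobenius, then average over `N`
(`ip_iso`), then `cliff_proj`, so its norm is `ip S ψ ψ = 1`.
-/

set_option autoImplicit false

namespace Pool.Agent.CTab

open scoped Classical

variable {G : Type} [Group G] [Fintype G]

omit [Fintype G] in
private theorem c02_notin {A N : Subgroup G} (hn : Nrm A N) {a x : G} (ha : a ∈ A) (hx : x ∉ N) :
    a * x * a⁻¹ ∉ N := by
  intro h1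
  apply hx
  have h2 := hn a⁻¹ (A.inv_mem ha) _ h1
  have h3 : a⁻¹ * (a * x * a⁻¹) * a⁻¹⁻¹ = x := by group
  rwa [h3] at h2

omit [Fintype G] in
private theorem c02_le {A N : Subgroup G} {μ : G → ℂ} (hNA : N ≤ A) (hn : Nrm A N)
    (hμ : IsLin N μ) : N ≤ stab A μ := by
  intro n hnN
  refine ⟨hNA hnN, fun x => ?_⟩
  by_cases hx : x ∈ N
  · have h1 : μ n * μ n⁻¹ = 1 := by
      rw [← hμ.2.2 n hnN _ (N.inv_mem hnN), mul_inv_cancel, hμ.2.1]
    rw [hμ.2.2 _ (N.mul_mem hnN hx) _ (N.inv_mem hnN), hμ.2.2 n hnN x hx]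
    linear_combination μ x * h1
  · rw [hμ.1 x hx, hμ.1 _ (c02_notin hn (hNA hnN) hx)]

omit [Fintype G] in
private theorem c02_lin {A N : Subgroup G} {μ : G → ℂ} (hn : Nrm A N)
    (hμ : IsLin N μ) {a : G} (ha : a ∈ A) : IsLin N (fun n => μ (a⁻¹ * n * a)) := by
  have ha' := A.inv_mem ha
  have hm : ∀ x ∈ N, a⁻¹ * x * a ∈ N := by
    intro x hx
    have h1 := hn _ ha' x hx
    rwa [inv_inv] at h1
  refine ⟨fun x hx => ?_, ?_, ?_⟩
  · apply hμ.1
    have h1 := c02_notin hn ha' hx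
    rwa [inv_inv] at h1
  · show μ (a⁻¹ * 1 * a) = 1
    rw [mul_one, inv_mul_cancel, hμ.2.1]
  · intro x hx y hy
    show μ (a⁻¹ * (x * y) * a) = μ (a⁻¹ * x * a) * μ (a⁻¹ * y * a)
    rw [← hμ.2.2 _ (hm x hx) _ (hm y hy)]
    congr 1
    group

private theorem c02_sum {A N : Subgroup G} {μ : G → ℂ} (hn : Nrm A N)
    (hμ : IsLin N μ) {a : G} (ha : a ∈ A) :
    ∑ n, μ (a⁻¹ * n * a) * (starRingEnd ℂ) (μ n) = if a ∈ stab A μ then (Nat.card N : ℂ) else 0 := by
  have h1 := lin_orth (c02_lin hn hμ ha) hμ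
  have h2 : ((fun n => μ (a⁻¹ * n * a)) = μ) ↔ a ∈ stab A μ := by
    constructor
    · intro h3
      refine ⟨ha, fun x => ?_⟩
      have h4 := congrFun h3 (a * x * a⁻¹)
      have h5 : a⁻¹ * (a * x * a⁻¹) * a = x := by group
      simp only [h5] at h4
      exact h4.symm
    · intro h3
      funext x
      have h4 := h3.2 (a⁻¹ * x * a)
      have h5 : a * (a⁻¹ * x * a) * a⁻¹ = x := by group
      rw [h5] at h4
      exact h4.symm
  rw [h1]
  by_cases h3 : a ∈ stab A μ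
  · rw [if_pos h3, if_pos (h2.2 h3)]
  · rw [if_neg h3, if_neg (fun h' => h3 (h2.1 h'))]

theorem cliff_proj {A N : Subgroup G} {μ ψ : G → ℂ} (hNA : N ≤ A) (hn : Nrm A N) (hμ : IsLin N μ)
    (hψ : Cls (stab A μ) ψ) (ho : Over N μ ψ) {x : G} (hx : x ∈ stab A μ) :
    (Nat.card N : ℂ)⁻¹ * ∑ n, (if n ∈ N then (starRingEnd ℂ) (μ n) * ind A (stab A μ) ψ (x * n) else 0) = ψ x := by
  have hSA : stab A μ ≤ A := fun y hy => hy.1
  have hxA : x ∈ A := hSA hx
  have hcN : (Nat.card N : ℂ) ≠ 0 := by exact_mod_cast Nat.card_pos.ne'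
  have hcS : (Nat.card (stab A μ) : ℂ) ≠ 0 := by exact_mod_cast Nat.card_pos.ne'
  -- rewrite the inner terms
  have h1 : ∀ n : G, (if n ∈ N then (starRingEnd ℂ) (μ n) * ind A (stab A μ) ψ (x * n) else 0) =
      (Nat.card (stab A μ) : ℂ)⁻¹ * ∑ a, (if a ∈ A then
        ψ (a⁻¹ * x * a) * (μ (a⁻¹ * n * a) * (starRingEnd ℂ) (μ n)) else 0) := by
    intro n
    by_cases hnN : n ∈ N
    · rw [if_pos hnN]
      unfold ind
      rw [if_pos (A.mul_mem hxA (hNA hnN)), ← mul_assoc, mul_comm ((starRingEnd ℂ) (μ n)),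
        mul_assoc, Finset.mul_sum]
      congr 1
      refine Finset.sum_congr rfl fun a _ => ?_
      by_cases ha : a ∈ A
      · rw [if_pos ha, if_pos ha]
        have hm : a⁻¹ * n * a ∈ N := by
          have h1 := hn _ (A.inv_mem ha) n hnN
          rwa [inv_inv] at h1
        have h2 : a⁻¹ * (x * n) * a = (a⁻¹ * x * a) * (a⁻¹ * n * a) := by group
        rw [h2, ho _ _ hm]
        ring
      · rw [if_neg ha, if_neg ha, mul_zero]
    · rw [if_neg hnN]
      have h2 : ∑ a, (if a ∈ A then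
        ψ (a⁻¹ * x * a) * (μ (a⁻¹ * n * a) * (starRingEnd ℂ) (μ n)) else 0) = 0 := by
        apply Finset.sum_eq_zero
        intro a _
        rw [hμ.1 n hnN, map_zero, mul_zero, mul_zero, ite_self]
      rw [h2, mul_zero]
  rw [Finset.sum_congr rfl fun n _ => h1 n, ← Finset.mul_sum, Finset.sum_comm]
  have h2 : ∀ a : G, (∑ n, (if a ∈ A then
        ψ (a⁻¹ * x * a) * (μ (a⁻¹ * n * a) * (starRingEnd ℂ) (μ n)) else 0)) =
      if a ∈ stab A μ then ψ x * (Nat.card N : ℂ) else 0 := by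
    intro a
    by_cases ha : a ∈ A
    · simp only [if_pos ha]
      rw [← Finset.mul_sum, c02_sum hn hμ ha]
      by_cases hs : a ∈ stab A μ
      · rw [if_pos hs, if_pos hs]
        have h3 := hψ.2 a⁻¹ ((stab A μ).inv_mem hs) x
        rw [inv_inv] at h3
        rw [h3]
      · rw [if_neg hs, if_neg hs, mul_zero]
    · simp only [if_neg ha]
      rw [if_neg (fun h' => ha (hSA h')), Finset.sum_const_zero]
  rw [Finset.sum_congr rfl fun a _ => h2 a, ← Finset.sum_filter, Finset.sum_const, nsmul_eq_mul]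
  have h3 : ((Finset.univ.filter fun a => a ∈ stab A μ).card : ℂ) = Nat.card (stab A μ) := by
    rw [Nat.card_eq_fintype_card, Fintype.card_subtype]
  rw [h3]
  field_simp

/-- `ψ` is determined by the induced class function -/
theorem cliff_inj {A N : Subgroup G} {μ ψ ψ' : G → ℂ} (hNA : N ≤ A) (hn : Nrm A N) (hμ : IsLin N μ)
    (hψ : Cls (stab A μ) ψ) (ho : Over N μ ψ) (hψ' : Cls (stab A μ) ψ') (ho' : Over N μ ψ')
    (h : ind A (stab A μ) ψ = ind A (stab A μ) ψ') : ψ = ψ' := by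
  funext x
  by_cases hx : x ∈ stab A μ
  · rw [← cliff_proj hNA hn hμ hψ ho hx, ← cliff_proj hNA hn hμ hψ' ho' hx, h]
  · rw [hψ.1 x hx, hψ'.1 x hx]

/-- norms are preserved -/
theorem cliff_norm {A N : Subgroup G} {μ ψ : G → ℂ} (hNA : N ≤ A) (hn : Nrm A N) (hμ : IsLin N μ)
    (hψ : IsCh (stab A μ) ψ) (ho : Over N μ ψ) :
    ip A (ind A (stab A μ) ψ) (ind A (stab A μ) ψ) = ip (stab A μ) ψ ψ := by
  have hSA : stab A μ ≤ A := fun y hy => hy.1
  have hNS := c02_le hNA hn hμ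
  have key : ∀ x ∈ stab A μ, (Nat.card N : ℂ)⁻¹ * ∑ n, (if n ∈ N then (starRingEnd ℂ) (μ n) *
      res (stab A μ) (ind A (stab A μ) ψ) (x * n) else 0) = ψ x := by
    intro x hx
    have h1 := cliff_proj hNA hn hμ hψ.cls ho hx
    have h2 : ∀ n : G, (if n ∈ N then (starRingEnd ℂ) (μ n) *
        res (stab A μ) (ind A (stab A μ) ψ) (x * n) else 0) =
        (if n ∈ N then (starRingEnd ℂ) (μ n) * ind A (stab A μ) ψ (x * n) else 0) := by
      intro n
      by_cases hnN : n ∈ N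
      · rw [if_pos hnN, if_pos hnN]
        have h3 : res (stab A μ) (ind A (stab A μ) ψ) (x * n) = ind A (stab A μ) ψ (x * n) :=
          if_pos ((stab A μ).mul_mem hx (hNS hnN))
        rw [h3]
      · rw [if_neg hnN, if_neg hnN]
    rw [Finset.sum_congr rfl fun n _ => h2 n]
    exact h1
  have h1 := frob (g := ind A (stab A μ) ψ) hSA hψ.1 (ind_cls hSA hψ.1)
  have h2 := ip_iso (f := res (stab A μ) (ind A (stab A μ) ψ)) hNS hμ ho
  rw [h1, h2]
  unfold ip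
  have h3 : ∀ x : G, ψ x * (starRingEnd ℂ) ((Nat.card N : ℂ)⁻¹ * ∑ n, (if n ∈ N then
      (starRingEnd ℂ) (μ n) * res (stab A μ) (ind A (stab A μ) ψ) (x * n) else 0)) =
      ψ x * (starRingEnd ℂ) (ψ x) := by
    intro x
    by_cases hx : x ∈ stab A μ
    · rw [key x hx]
    · rw [hψ.1 x hx, zero_mul, zero_mul]
  rw [Finset.sum_congr rfl fun x _ => h3 x]

theorem cliff_irr {A N : Subgroup G} {μ ψ : G → ℂ} (hNA : N ≤ A) (hn : Nrm A N) (hμ : IsLin N μ)
    (hψ : IsCh (stab A μ) ψ) (ho : Over N μ ψ) :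
    IsIr (stab A μ) ψ ↔ IsIr A (ind A (stab A μ) ψ) := by
  have hSA : stab A μ ≤ A := fun y hy => hy.1
  rw [isIr_iff, isIr_iff, cliff_norm hNA hn hμ hψ ho]
  constructor
  · rintro ⟨-, h⟩
    exact ⟨IsCh.ind hSA hψ, h⟩
  · rintro ⟨-, h⟩
    exact ⟨hψ, h⟩

theorem cliff_lies {A N : Subgroup G} {μ ψ : G → ℂ} (hNA : N ≤ A) (hn : Nrm A N) (hμ : IsLin N μ)
    (hψ : IsCh (stab A μ) ψ) (h0 : ψ ≠ 0) (ho : Over N μ ψ) : Lies N μ (ind A (stab A μ) ψ) := by
  unfold Lies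
  have h1 := cliff_proj hNA hn hμ hψ.cls ho (stab A μ).one_mem
  rw [C01.ip_eq_P]
  unfold C01.P
  rw [h1]
  obtain ⟨m, hm, hm0⟩ := hψ.deg
  intro h2
  apply h0
  apply hm0
  have h3 : (m : ℂ) = 0 := by rw [← hm, h2]
  exact_mod_cast h3

end Pool.Agent.CTab
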