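import Pool.Agent.CTab.Defs
import Pool.Agent.CTab.B01
import Pool.Agent.CTab.B02
import Pool.Agent.CTab.B03
import Pool.Agent.CTab.B04
import Pool.Agent.CTab.B07
import Pool.Agent.CTab.B11
import Pool.Agent.CTab.C01
import Pool.Agent.CTab.C02

/-!
Clifford correspondence, surjectivity: `χ` irreducible for `A` and lying over `μ`. Decompose `res (stab A μ) χ` into
irreducible characters of `S = stab A μ`; since `ip N (res N χ) μ ≠ 0` one of them, `ψ`, lies over `μ`; `ψ` is `Over N μ`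
(C01); `ind ψ` is irreducible (C02) and `ip A (ind ψ) χ = ip S ψ (res S χ) ≠ 0`, so `ind ψ = χ`. Conjugacy of the
constituents: if `χ = ind ψ` lies over `μ` and `μ'` then (restrict `ind ψ` to `N`: for `n ∈ N`,
`χ n = (1/|S|) Σ_a ψ(a⁻¹ n a) = (ψ 1/|S|) Σ_{a ∈ A} μ(a⁻¹ n a)`) `μ'` is one of the conjugates of `μ`.
-/

set_option autoImplicit false

namespace Pool.Agent.CTab

open scoped Classical

variable {G : Type} [Group G] [Fintype G]

theorem cliff_surj {A N : Subgroup G} {μ χ : G → ℂ} (hNA : N ≤ A) (hn : Nrm A N) (hμ : IsLin N μ)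
    (hχ : IsIr A χ) (hl : Lies N μ χ) :
    ∃ ψ, IsIr (stab A μ) ψ ∧ Over N μ ψ ∧ ind A (stab A μ) ψ = χ := by
  sorry

theorem cliff_conj {A N : Subgroup G} {μ μ' χ : G → ℂ} (hNA : N ≤ A) (hn : Nrm A N) (hμ : IsLin N μ)
    (hμ' : IsLin N μ') (hχ : IsIr A χ) (hl : Lies N μ χ) (hl' : Lies N μ' χ) :
    ∃ a ∈ A, ∀ x, μ' x = μ (a * x * a⁻¹) := by
  sorry

/-- conjugates of a constituent are constituents -/
theorem lies_conj {A N : Subgroup G} {μ χ : G → ℂ} (hNA : N ≤ A) (hn : Nrm A N) (hμ : IsLin N μ)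
    (hχ : Cls A χ) (hl : Lies N μ χ) {a : G} (ha : a ∈ A) :
    IsLin N (fun x => μ (a * x * a⁻¹)) ∧ Lies N (fun x => μ (a * x * a⁻¹)) χ := by
  sorry

end Pool.Agent.CTab
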