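import Pool.Agent.CTab.Defs
import Pool.Agent.CTab.B01
import Pool.Agent.CTab.B02
import Pool.Agent.CTab.B03
import Pool.Agent.CTab.B04
import Pool.Agent.CTab.B07

/-!
Mackey for `A = H S` (only one double coset), and: a character whose restriction is irreducible is irreducible.
Mackey: for `h ∈ H`, `ind A S f h = (1/|S|) Σ_{a ∈ A} f(a⁻¹ h a)`, every `a ∈ A` is `h' s` in exactly `|H ∩ S|` ways and
`f(s⁻¹ y s) = f y`.
-/

set_option autoImplicit false

namespace Pool.Agent.CTab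

open scoped Classical

variable {G : Type} [Group G] [Fintype G]

theorem mackey {A H S : Subgroup G} {f : G → ℂ} (hH : H ≤ A) (hS : S ≤ A)
    (hHS : ∀ a ∈ A, ∃ h ∈ H, ∃ s ∈ S, a = h * s) (hf : Cls S f) :
    res H (ind A S f) = ind H (H ⊓ S) (res (H ⊓ S) f) := by
  have hcS : (Nat.card S : ℂ) ≠ 0 := by exact_mod_cast Nat.card_pos.ne'
  have hcI : (Nat.card (H ⊓ S : Subgroup G) : ℂ) ≠ 0 := by exact_mod_cast Nat.card_pos.ne'
  funext x
  by_cases hx : x ∈ H
  swap
  · unfold res ind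
    rw [if_neg hx, if_neg hx]
  set F : G → ℂ := fun a => f (a⁻¹ * x * a) with hF
  -- number of representations
  have hN : ∀ a : G, (∑ h : G, if h ∈ H ∧ h⁻¹ * a ∈ S then (1 : ℂ) else 0) =
      if a ∈ A then (Nat.card (H ⊓ S : Subgroup G) : ℂ) else 0 := by
    intro a
    by_cases ha : a ∈ A
    · obtain ⟨h₀, hh₀, s₀, hs₀, rfl⟩ := hHS a ha
      rw [if_pos ha, ← Equiv.sum_comp (Equiv.mulLeft h₀)]
      have h1 : ∀ k : G, (if Equiv.mulLeft h₀ k ∈ H ∧ (Equiv.mulLeft h₀ k)⁻¹ * (h₀ * s₀) ∈ S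
          then (1 : ℂ) else 0) = if k ∈ H ⊓ S then 1 else 0 := by
        intro k
        have e1 : (Equiv.mulLeft h₀ k) = h₀ * k := rfl
        have e2 : (h₀ * k)⁻¹ * (h₀ * s₀) = k⁻¹ * s₀ := by group
        rw [e1, e2]
        have e3 : (h₀ * k ∈ H ∧ k⁻¹ * s₀ ∈ S) ↔ k ∈ H ⊓ S := by
          rw [H.mul_mem_cancel_left hh₀, S.mul_mem_cancel_right hs₀, inv_mem_iff,
            Subgroup.mem_inf]
        by_cases hk : k ∈ H ⊓ S
        · rw [if_pos (e3.2 hk), if_pos hk]
        · rw [if_neg (fun h' => hk (e3.1 h')), if_neg hk]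
      rw [Finset.sum_congr rfl fun k _ => h1 k, Finset.sum_boole, Nat.card_eq_fintype_card,
        Fintype.card_subtype]
    · rw [if_neg ha]
      apply Finset.sum_eq_zero
      intro h _
      rw [if_neg]
      rintro ⟨h1, h2⟩
      apply ha
      have h3 := A.mul_mem (hH h1) (hS h2)
      rwa [mul_inv_cancel_left] at h3
  have hkey : (Nat.card (H ⊓ S : Subgroup G) : ℂ) * ∑ a, (if a ∈ A then F a else 0) =
      (Nat.card S : ℂ) * ∑ h, (if h ∈ H then F h else 0) := by
    have h1 : (Nat.card (H ⊓ S : Subgroup G) : ℂ) * ∑ a, (if a ∈ A then F a else 0) =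
        ∑ a, ∑ h : G, (if h ∈ H ∧ h⁻¹ * a ∈ S then F a else 0) := by
      rw [Finset.mul_sum]
      refine Finset.sum_congr rfl fun a _ => ?_
      have h2 : ∀ h : G, (if h ∈ H ∧ h⁻¹ * a ∈ S then F a else 0) =
          (if h ∈ H ∧ h⁻¹ * a ∈ S then (1 : ℂ) else 0) * F a := by
        intro h
        split_ifs
        · rw [one_mul]
        · rw [zero_mul]
      rw [Finset.sum_congr rfl fun h _ => h2 h, ← Finset.sum_mul, hN a]
      split_ifs
      · rfl
      · rw [zero_mul, mul_zero]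
    rw [h1, Finset.sum_comm, Finset.mul_sum]
    refine Finset.sum_congr rfl fun h _ => ?_
    by_cases hh : h ∈ H
    · rw [if_pos hh, ← Equiv.sum_comp (Equiv.mulLeft h)]
      have h2 : ∀ s : G, (if h ∈ H ∧ h⁻¹ * (Equiv.mulLeft h s) ∈ S then F (Equiv.mulLeft h s)
          else 0) = (if s ∈ S then (1 : ℂ) else 0) * F h := by
        intro s
        have e1 : (Equiv.mulLeft h s) = h * s := rfl
        rw [e1, inv_mul_cancel_left]
        by_cases hs : s ∈ S
        · rw [if_pos ⟨hh, hs⟩, if_pos hs, one_mul, hF]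
          show f ((h * s)⁻¹ * x * (h * s)) = f (h⁻¹ * x * h)
          have h3 := hf.2 s⁻¹ (S.inv_mem hs) (h⁻¹ * x * h)
          rw [← h3]
          congr 1
          group
        · rw [if_neg (fun h' => hs h'.2), if_neg hs, zero_mul]
      rw [Finset.sum_congr rfl fun s _ => h2 s, ← Finset.sum_mul, Finset.sum_boole,
        Nat.card_eq_fintype_card, Fintype.card_subtype]
    · rw [if_neg hh, mul_zero]
      apply Finset.sum_eq_zero
      intro a _
      rw [if_neg (fun h' => hh h'.1)]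
  have hl : res H (ind A S f) x = (Nat.card S : ℂ)⁻¹ * ∑ a, (if a ∈ A then F a else 0) := by
    unfold res ind
    rw [if_pos hx, if_pos (hH hx)]
  have hr : ind H (H ⊓ S) (res (H ⊓ S) f) x =
      (Nat.card (H ⊓ S : Subgroup G) : ℂ)⁻¹ * ∑ h, (if h ∈ H then F h else 0) := by
    unfold res ind
    rw [if_pos hx]
    congr 1
    refine Finset.sum_congr rfl fun h _ => ?_
    by_cases hh : h ∈ H
    · rw [if_pos hh, if_pos hh]
      have hm : h⁻¹ * x * h ∈ H := H.mul_mem (H.mul_mem (H.inv_mem hh) hx) hh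
      show (if h⁻¹ * x * h ∈ H ⊓ S then f (h⁻¹ * x * h) else 0) = F h
      by_cases hs : h⁻¹ * x * h ∈ S
      · rw [if_pos (Subgroup.mem_inf.2 ⟨hm, hs⟩)]
      · rw [if_neg (fun h' : h⁻¹ * x * h ∈ H ⊓ S => hs h'.2)]
        exact (hf.1 _ hs).symm
    · rw [if_neg hh, if_neg hh]
  rw [hl, hr]
  field_simp
  linear_combination hkey

theorem isIr_of_res {A B : Subgroup G} {f : G → ℂ} (hB : B ≤ A) (hf : IsCh A f)
    (hr : IsIr B (res B f)) : IsIr A f := by
  have hcA : (Nat.card A : ℂ) ≠ 0 := by exact_mod_cast Nat.card_pos.ne'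
  have hf0 : f ≠ 0 := by
    intro h0
    have h1 := (isIr_iff.1 hr).2
    rw [h0] at h1
    have h2 : res B (0 : G → ℂ) = 0 := by
      funext x
      unfold res
      split_ifs <;> rfl
    rw [h2] at h1
    unfold ip at h1
    simp at h1
  have hdec := decomp hf
  have hnat : ∀ χ : G → ℂ, ∃ m : ℕ, IsIr A χ → ip A f χ = m := by
    intro χ
    by_cases h : IsIr A χ
    · obtain ⟨m, hm⟩ := ip_nat hf h.isCh
      exact ⟨m, fun _ => hm⟩
    · exact ⟨0, fun h' => absurd h' h⟩
  choose m hm using hnat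
  have hdec' : f = ∑ χ ∈ irr A, (m χ : ℂ) • χ := by
    conv_lhs => rw [hdec]
    refine Finset.sum_congr rfl fun χ hχ => ?_
    rw [hm χ (mem_irr.1 hχ)]
  obtain ⟨χ₀, hχ₀, hmχ₀⟩ : ∃ χ₀ ∈ irr A, m χ₀ ≠ 0 := by
    by_contra hcon
    push Not at hcon
    apply hf0
    rw [hdec']
    apply Finset.sum_eq_zero
    intro χ hχ
    rw [hcon χ hχ, Nat.cast_zero, zero_smul]
  have hχi : IsIr A χ₀ := mem_irr.1 hχ₀
  set g : G → ℂ := ∑ χ ∈ irr A, (((m χ - if χ = χ₀ then 1 else 0 : ℕ) : ℕ) : ℂ) • χ with hg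
  have hgc : IsCh A g := isCh_of_nat (A := A) (fun χ => m χ - if χ = χ₀ then 1 else 0)
  have hfg : f = fun x => χ₀ x + g x := by
    have h1 : f = χ₀ + g := by
      have h2 : χ₀ = ∑ χ ∈ irr A, (if χ = χ₀ then (1 : ℂ) else 0) • χ := by
        rw [Finset.sum_eq_single χ₀]
        · rw [if_pos rfl, one_smul]
        · intro χ _ hne
          rw [if_neg hne, zero_smul]
        · intro h'
          exact absurd hχ₀ h'
      conv_rhs => rw [h2]
      rw [hg, ← Finset.sum_add_distrib, hdec']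
      refine Finset.sum_congr rfl fun χ _ => ?_
      rw [← add_smul]
      congr 1
      by_cases hχ : χ = χ₀
      · subst hχ
        rw [if_pos rfl, if_pos rfl, Nat.cast_sub (Nat.one_le_iff_ne_zero.2 hmχ₀)]
        push_cast
        ring
      · rw [if_neg hχ, if_neg hχ, Nat.sub_zero, zero_add]
    exact h1
  -- restrict to `B`
  have hu : IsCh B (res B χ₀) := hχi.isCh.res hB
  have hv : IsCh B (res B g) := hgc.res hB
  have hsum : res B f = fun x => res B χ₀ x + res B g x := by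
    funext x
    unfold res
    split_ifs
    · rw [hfg]
    · rw [add_zero]
  have hu0 : res B χ₀ ≠ 0 := by
    intro h0
    have h1 := congrFun h0 1
    unfold res at h1
    rw [if_pos B.one_mem] at h1
    obtain ⟨k, hk, hk0⟩ := hχi.isCh.deg
    have h2 : (k : ℂ) = 0 := by rw [← hk, h1]; rfl
    have h3 := hk0 (by exact_mod_cast h2)
    have h4 := (isIr_iff.1 hχi).2
    rw [h3] at h4
    unfold ip at h4
    simp at h4
  obtain ⟨a, ha⟩ := ip_nat hu hu
  obtain ⟨b, hb⟩ := ip_nat hu hv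
  obtain ⟨c, hc⟩ := ip_nat hv hu
  obtain ⟨d, hd⟩ := ip_nat hv hv
  have h1 : (a : ℂ) + b + c + d = 1 := by
    rw [← ha, ← hb, ← hc, ← hd, ← (isIr_iff.1 hr).2, hsum]
    unfold ip
    rw [← mul_add, ← mul_add, ← mul_add, ← Finset.sum_add_distrib, ← Finset.sum_add_distrib,
      ← Finset.sum_add_distrib]
    congr 1
    refine Finset.sum_congr rfl fun x _ => ?_
    rw [map_add]
    ring
  have h2 : a + b + c + d = 1 := by exact_mod_cast h1
  have ha0 : a ≠ 0 := by
    intro h0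
    apply hu0
    apply ip_self_eq_zero hu.1
    rw [ha, h0, Nat.cast_zero]
  have hd0 : d = 0 := by omega
  have hg0 : res B g = 0 := by
    apply ip_self_eq_zero hv.1
    rw [hd, hd0, Nat.cast_zero]
  obtain ⟨k, hk, hk0⟩ := hgc.deg
  have h3 : g = 0 := by
    apply hk0
    have h4 := congrFun hg0 1
    unfold res at h4
    rw [if_pos B.one_mem] at h4
    have h5 : (k : ℂ) = 0 := by rw [← hk, h4]; rfl
    exact_mod_cast h5
  have h4 : f = χ₀ := by
    rw [hfg, h3]
    funext x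
    simp
  rw [h4]
  exact hχi

theorem cls_res {A B : Subgroup G} {f : G → ℂ} (hB : B ≤ A) (hf : Cls A f) : Cls B (res B f) := by
  refine ⟨fun x hx => if_neg hx, fun a ha x => ?_⟩
  unfold res
  by_cases hx : x ∈ B
  · rw [if_pos hx, if_pos (B.mul_mem (B.mul_mem ha hx) (B.inv_mem ha))]
    exact hf.2 a (hB ha) x
  · rw [if_neg hx, if_neg]
    intro h'
    apply hx
    have h1 := B.mul_mem (B.mul_mem (B.inv_mem ha) h') ha
    have h2 : a⁻¹ * (a * x * a⁻¹) * a = x := by group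
    rwa [h2] at h1

end Pool.Agent.CTab
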