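import Pool.Agent.CTab.Defs
import Pool.Agent.CTab.A01
import Pool.Agent.CTab.B01
import Pool.Agent.CTab.B02
import Pool.Agent.CTab.B03
import Pool.Agent.CTab.B04
import Pool.Agent.CTab.B07
import Pool.Agent.CTab.B11
import Pool.Agent.CTab.C01
import Pool.Agent.CTab.C02
import Pool.Agent.CTab.C03
import Pool.Agent.CTab.C04
import Pool.Agent.CTab.C05
import Pool.Agent.CTab.G01
import Pool.Agent.CTab.G02

/-!
For a fixed `P`-invariant linear character `μ` of the commutative normal `p'`-subgroup `L`, extending `lam`: the members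
of `TSet A H Z lam` lying over `μ` correspond to `TSet (stab A μ) (H ⊓ stab A μ) L μ` by induction from `H ⊓ stab A μ`
(which is `stab H μ`) to `H`. Forward: if `β = res ψ`, `ψ` irreducible for `stab A μ`, then `ψ` is `Over L μ` (`over_of_res`),
`ind A (stab A μ) ψ` is irreducible and restricts to `ind H (stab H μ) β` by `mackey` (`A = H (stab A μ)` because
`P ≤ stab A μ`: `Cpl.mul'`). Backward: `α = res H χ`; `χ` lies over `μ`, so `χ = ind ψ` (`cliff_surj`), `α = ind β₀` with
`β₀` irreducible for `stab H μ`; Mackey and `cliff_inj` for `H` give `res ψ = β₀`. `Over Z lam` for induced characters: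
`μ = lam` on `Z` and `lam` is `A`-invariant.
-/

set_option autoImplicit false

namespace Pool.Agent.CTab

open scoped Classical

variable {G : Type} [Group G] [Fintype G]

theorem stab_inf {A H : Subgroup G} (hH : H ≤ A) (μ : G → ℂ) : H ⊓ stab A μ = stab H μ := by
  sorry

theorem card_tset_over {p : ℕ} (hp : p.Prime) {A H P L Z : Subgroup G} {lam μ : G → ℂ}
    (h : Cpl p A H P) (hZL : Z ≤ L) (hLH : L ≤ H) (hn : Nrm A L)
    (hL : ∀ x ∈ L, ∀ y ∈ L, x * y = y * x) (hlam : IsLin Z lam) (hinv : Inv A lam)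
    (hμ : μ ∈ InvSet P L Z lam) :
    Nat.card {α : G → ℂ // α ∈ TSet A H Z lam ∧ Lies L μ α} =
      Nat.card (TSet (stab A μ) (H ⊓ stab A μ) L μ) := by
  sorry

end Pool.Agent.CTab
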