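import Pool.Agent.CTab.Defs
import Pool.Agent.CTab.A01
import Pool.Agent.CTab.B01
import Pool.Agent.CTab.B02
import Pool.Agent.CTab.B11
import Pool.Agent.CTab.C01
import Pool.Agent.CTab.C02
import Pool.Agent.CTab.C03
import Pool.Agent.CTab.C05
import Pool.Agent.CTab.G01
import Pool.Agent.CTab.G02

/-!
For a fixed `α ∈ TSet A H Z lam`, `α = res H χ`: the linear characters of `L` below `α` and below `χ` are the same and
form one `H`-orbit `O` (`cliff_conj`, `lies_conj` for `H`, `exists_lies`); `|O|` divides `|H|`, `P` acts on `O` (it is also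
`A`-invariant, `lies_conj` for `χ`), so `O` has a `P`-fixed point. Any two `P`-invariant members are conjugate under `A`
(`cliff_conj` for `χ`), hence under `stab A μ · KK H P` (`Cpl.conj_mul` with `S = stab A μ`), hence under `KK H P`; and
`KK H P` preserves the set of `P`-invariant members. So the `P`-invariant members form one `KK H P`-orbit with stabiliser
`KK H P ⊓ stab A μ`.
-/

set_option autoImplicit false

namespace Pool.Agent.CTab

open scoped Classical

variable {G : Type} [Group G] [Fintype G]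

/-- conjugation action on functions -/
@[reducible] private def a03_act (G : Type) [Group G] : MulAction G (G → ℂ) where
  smul g f := fun x => f (g⁻¹ * x * g)
  one_smul f := by
    funext x
    show f ((1 : G)⁻¹ * x * 1) = f x
    rw [inv_one, one_mul, mul_one]
  mul_smul g h f := by
    funext x
    show f ((g * h)⁻¹ * x * (g * h)) = f (h⁻¹ * (g⁻¹ * x * g) * h)
    congr 1
    group

attribute [local instance] a03_act

omit [Fintype G] in
private theorem a03_smul (g : G) (f : G → ℂ) (x : G) : (g • f) x = f (g⁻¹ * x * g) := rfl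

omit [Fintype G] in
private theorem a03_smul' (g : G) (f : G → ℂ) : g • f = fun x => f (g⁻¹ * x * g⁻¹⁻¹) := by
  funext x
  rw [a03_smul, inv_inv]

theorem card_invSet_below {p : ℕ} (hp : p.Prime) {A H P L Z : Subgroup G} {lam α : G → ℂ}
    (h : Cpl p A H P) (hZL : Z ≤ L) (hLH : L ≤ H) (hn : Nrm A L)
    (hL : ∀ x ∈ L, ∀ y ∈ L, x * y = y * x) (hlam : IsLin Z lam)
    (hα : α ∈ TSet A H Z lam) :
    (∃ μ, μ ∈ InvSet P L Z lam ∧ Lies L μ α) ∧
    ∀ μ, μ ∈ InvSet P L Z lam → Lies L μ α →
      Nat.card {μ' : G → ℂ // μ' ∈ InvSet P L Z lam ∧ Lies L μ' α} *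
        Nat.card (KK H P ⊓ stab A μ : Subgroup G) = Nat.card (KK H P) := by
  obtain ⟨hαi, hαo, χ, hχ, hres⟩ := hα
  have hHA : H ≤ A := h.1
  have hPA : P ≤ A := h.2.1
  have hLA : L ≤ A := hLH.trans hHA
  have hnH : Nrm H L := fun a ha l hl => hn a (hHA ha) l hl
  -- the same constituents
  have hsame : ∀ μ : G → ℂ, Lies L μ α ↔ Lies L μ χ := by
    intro μ
    have h1 : res L α = res L χ := by
      rw [← hres]
      funext x
      unfold res
      by_cases hx : x ∈ L
      · rw [if_pos hx, if_pos hx, if_pos (hLH hx)]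
      · rw [if_neg hx, if_neg hx]
    unfold Lies
    rw [h1]
  have hclsH : Cls H α := hαi.isCh.cls
  have hclsA : Cls A χ := hχ.isCh.cls
  have hα0 : α ≠ 0 := by
    intro h0
    have h1 := (isIr_iff.1 hαi).2
    rw [h0] at h1
    unfold ip at h1
    simp at h1
  constructor
  · obtain ⟨μ₀, hμ₀, hl₀⟩ := exists_lies hLH hL hαi.isCh hα0
    -- the orbit
    have horb : ∀ μ : G → ℂ, μ ∈ MulAction.orbit H μ₀ ↔ IsLin L μ ∧ Lies L μ α := by
      intro μ
      constructor
      · rintro ⟨k, rfl⟩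
        have h1 := lies_conj hLH hnH hμ₀ hclsH hl₀ (H.inv_mem k.2)
        have h2 : (fun m : H => m • μ₀) k = fun x => μ₀ ((k : G)⁻¹ * x * ((k : G)⁻¹)⁻¹) :=
          a03_smul' (k : G) μ₀
        rw [h2]
        exact h1
      · rintro ⟨hμ, hl⟩
        obtain ⟨a, ha, he⟩ := cliff_conj hLH hnH hμ₀ hμ hαi hl₀ hl
        refine ⟨⟨a⁻¹, H.inv_mem ha⟩, ?_⟩
        show (a⁻¹ : G) • μ₀ = μ
        funext x
        rw [a03_smul, inv_inv, he]
    have hinvO : ∀ v ∈ P, ∀ μ : G → ℂ, μ ∈ MulAction.orbit H μ₀ → v • μ ∈ MulAction.orbit H μ₀ := by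
      intro v hv μ hμ
      rw [horb] at hμ ⊢
      rw [hsame] at hμ ⊢
      rw [a03_smul']
      exact lies_conj hLA hn hμ.1 hclsA hμ.2 (A.inv_mem (hPA hv))
    letI act : MulAction P (MulAction.orbit H μ₀) :=
      { smul := fun v μ => ⟨(v : G) • (μ : G → ℂ), hinvO v v.2 μ μ.2⟩
        one_smul := by
          intro μ
          apply Subtype.ext
          show ((1 : P) : G) • (μ : G → ℂ) = μ
          rw [Subgroup.coe_one, one_smul]
        mul_smul := by
          intro u v μ
          apply Subtype.ext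
          show ((u * v : P) : G) • (μ : G → ℂ) = (u : G) • ((v : G) • (μ : G → ℂ))
          rw [Subgroup.coe_mul, mul_smul] }
    haveI : Fact p.Prime := ⟨hp⟩
    have hPp : IsPGroup p P := h.2.2.1
    haveI hfin : Finite (MulAction.orbit H μ₀) := Set.finite_range (fun m : H => m • μ₀)
    have hcard : ¬ p ∣ Nat.card (MulAction.orbit H μ₀) := by
      intro hd
      apply h.2.2.2.1
      refine hd.trans ?_
      have h1 := MulAction.index_stabilizer H μ₀
      rw [← Nat.card_coe_set_eq] at h1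
      rw [← h1]
      exact Subgroup.index_dvd_card _
    obtain ⟨⟨μ, hμO⟩, hfix⟩ := hPp.nonempty_fixed_point_of_prime_not_dvd_card
      (MulAction.orbit H μ₀) hcard
    have hμ := (horb μ).1 hμO
    refine ⟨μ, ⟨hμ.1, lies_eq hZL hlam hμ.1 hαo hμ.2, ?_⟩, hμ.2⟩
    intro v hv x
    have h1 := hfix ⟨v, hv⟩
    have h2 : v • μ = μ := congrArg Subtype.val h1
    have h3 := congrFun h2 (v * x * v⁻¹)
    rw [a03_smul] at h3
    rw [← h3]
    congr 1
    group
  · intro μ hμI hl
    obtain ⟨hμ, hμZ, hμP⟩ := hμI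
    have hset : {μ' : G → ℂ | μ' ∈ InvSet P L Z lam ∧ Lies L μ' α} = MulAction.orbit (KK H P) μ := by
      ext μ'
      rw [Set.mem_setOf_eq]
      constructor
      · rintro ⟨⟨hμ', -, hμ'P⟩, hl'⟩
        obtain ⟨a, ha, he⟩ := cliff_conj hLA hn hμ hμ' hχ ((hsame μ).1 hl) ((hsame μ').1 hl')
        have hPS : P ≤ stab A μ := fun v hv => ⟨hPA hv, fun x => hμP v hv x⟩
        have hSA : stab A μ ≤ A := fun x hx => hx.1
        obtain ⟨s, hs, k, hk, hask⟩ := h.conj_mul hp hPS hSA ha (by
          intro v hv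
          refine ⟨A.mul_mem (A.mul_mem ha (hPA hv)) (A.inv_mem ha), fun x => ?_⟩
          have h1 := hμ'P v hv (a⁻¹ * x * a)
          rw [he, he] at h1
          have e1 : a * (v * (a⁻¹ * x * a) * v⁻¹) * a⁻¹ = a * v * a⁻¹ * x * (a * v * a⁻¹)⁻¹ := by
            group
          have e2 : a * (a⁻¹ * x * a) * a⁻¹ = x := by group
          rw [e1, e2] at h1
          exact h1)
        refine ⟨⟨k⁻¹, (KK H P).inv_mem hk⟩, ?_⟩
        show (k⁻¹ : G) • μ = μ'
        funext x
        rw [a03_smul, inv_inv, he, hask]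
        have e3 : s * k * x * (s * k)⁻¹ = s * (k * x * k⁻¹) * s⁻¹ := by group
        rw [e3, hs.2]
      · rintro ⟨k, rfl⟩
        have hkH : (k : G) ∈ H := k.2.1
        have h1 := lies_conj hLH hnH hμ hclsH hl (H.inv_mem hkH)
        have h2 : (fun m : KK H P => m • μ) k = fun x => μ ((k : G)⁻¹ * x * ((k : G)⁻¹)⁻¹) :=
          a03_smul' (k : G) μ
        rw [h2]
        refine ⟨⟨h1.1, lies_eq hZL hlam h1.1 hαo h1.2, ?_⟩, h1.2⟩
        intro v hv x
        show μ ((k : G)⁻¹ * (v * x * v⁻¹) * ((k : G)⁻¹)⁻¹) = μ ((k : G)⁻¹ * x * ((k : G)⁻¹)⁻¹)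
        have hkv : (k : G)⁻¹ * v * ((k : G)⁻¹)⁻¹ ∈ P :=
          KK_nrm H P _ ((KK H P).inv_mem k.2) v hv
        have h3 := hμP _ hkv ((k : G)⁻¹ * x * ((k : G)⁻¹)⁻¹)
        rw [← h3]
        congr 1
        group
    have hcard1 : Nat.card {μ' : G → ℂ // μ' ∈ InvSet P L Z lam ∧ Lies L μ' α} =
        Nat.card (MulAction.orbit (KK H P) μ) := by
      rw [← hset]
      rfl
    have hcard2 : Nat.card (KK H P ⊓ stab A μ : Subgroup G) =
        Nat.card (MulAction.stabilizer (KK H P) μ) := by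
      refine Nat.card_congr
        { toFun := fun g => ⟨⟨g, g.2.1⟩, ?_⟩
          invFun := fun g => ⟨g, g.1.2, ?_, ?_⟩
          left_inv := fun g => rfl
          right_inv := fun g => rfl }
      · rw [MulAction.mem_stabilizer_iff]
        show (g : G) • μ = μ
        funext x
        rw [a03_smul]
        have h1 := g.2.2.2 ((g : G)⁻¹ * x * g)
        rw [← h1]
        congr 1
        group
      · exact hHA g.1.2.1
      · intro x
        have h1 : (g : G) • μ = μ := MulAction.mem_stabilizer_iff.1 g.2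
        have h2 := congrFun h1 ((g : G) * x * (g : G)⁻¹)
        rw [a03_smul] at h2
        rw [← h2]
        congr 1
        group
    rw [hcard1, hcard2]
    have h1 := MulAction.index_stabilizer (KK H P) μ
    rw [← Nat.card_coe_set_eq] at h1
    rw [← h1, mul_comm]
    exact Subgroup.card_mul_index _

end Pool.Agent.CTab
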