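import Pool.Agent.CTab.Defs
import Pool.Agent.CTab.B01
import Pool.Agent.CTab.B02
import Pool.Agent.CTab.B05

/-!
Column orthogonality. Apply `cls_expand` to the class function `x ↦ #{a ∈ A | a x a⁻¹ = y}` (zero outside `A`), i.e.
`|C_A(y)|` times the indicator of the class of `y`: its inner product with `χ` is `conj (χ y)`.
-/

set_option autoImplicit false

namespace Pool.Agent.CTab

open scoped Classical

variable {G : Type} [Group G] [Fintype G]

theorem col_card_sum (P : G → Prop) :
    (Nat.card {a : G // P a} : ℂ) = ∑ a, if P a then (1 : ℂ) else 0 := by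
  rw [Nat.card_eq_fintype_card, Fintype.card_subtype, Finset.sum_boole]

theorem col_orth {A : Subgroup G} {x y : G} (hx : x ∈ A) (hy : y ∈ A) :
    ∑ χ ∈ irr A, χ x * (starRingEnd ℂ) (χ y) =
      (Nat.card {a : G // a ∈ A ∧ a * x * a⁻¹ = y} : ℂ) := by
  obtain ⟨f, hf⟩ : ∃ f : G → ℂ, f = fun z => (Nat.card {a : G // a ∈ A ∧ a * z * a⁻¹ = y} : ℂ) :=
    ⟨_, rfl⟩
  have hcls : Cls A f := by
    constructor
    · intro z hz
      rw [hf]
      have : IsEmpty {a : G // a ∈ A ∧ a * z * a⁻¹ = y} := by
        constructor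
        rintro ⟨a, ha, he⟩
        apply hz
        have : z = a⁻¹ * y * a := by rw [← he]; group
        rw [this]
        exact A.mul_mem (A.mul_mem (A.inv_mem ha) hy) ha
      simp
    · intro b hb z
      rw [hf]
      simp only
      congr 1
      refine Nat.card_congr ⟨fun a => ⟨a.1 * b, A.mul_mem a.2.1 hb, ?_⟩,
        fun a => ⟨a.1 * b⁻¹, A.mul_mem a.2.1 (A.inv_mem hb), ?_⟩, ?_, ?_⟩
      · have e : a.1 * b * z * (a.1 * b)⁻¹ = a.1 * (b * z * b⁻¹) * a.1⁻¹ := by group
        exact e.trans a.2.2
      · have e : a.1 * b⁻¹ * (b * z * b⁻¹) * (a.1 * b⁻¹)⁻¹ = a.1 * z * a.1⁻¹ := by group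
        exact e.trans a.2.2
      · intro a
        ext
        simp
      · intro a
        ext
        simp
  have hip : ∀ χ, IsIr A χ → ip A f χ = (starRingEnd ℂ) (χ y) := by
    intro χ hχ
    have hc := hχ.isCh.cls
    have hA : (Nat.card A : ℂ) ≠ 0 := by
      have : 0 < Nat.card A := Nat.card_pos
      exact_mod_cast this.ne'
    unfold ip
    have h1 : ∑ z, f z * (starRingEnd ℂ) (χ z) =
        ∑ a : G, if a ∈ A then (starRingEnd ℂ) (χ y) else 0 := by
      have h2 : ∀ z, f z * (starRingEnd ℂ) (χ z) =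
          ∑ a : G, if a ∈ A ∧ a * z * a⁻¹ = y then (starRingEnd ℂ) (χ z) else 0 := by
        intro z
        rw [hf]
        simp only
        rw [col_card_sum, Finset.sum_mul]
        refine Finset.sum_congr rfl fun a _ => ?_
        split_ifs <;> simp
      simp only [h2]
      rw [Finset.sum_comm]
      refine Finset.sum_congr rfl fun a _ => ?_
      by_cases ha : a ∈ A
      · rw [if_pos ha, Finset.sum_eq_single (a⁻¹ * y * a)]
        · rw [if_pos ⟨ha, by group⟩]
          have := hc.2 a⁻¹ (A.inv_mem ha) y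
          rw [inv_inv] at this
          rw [this]
        · intro z _ hz
          rw [if_neg]
          rintro ⟨-, he⟩
          apply hz
          rw [← he]
          group
        · intro h
          exact absurd (Finset.mem_univ _) h
      · rw [if_neg ha]
        refine Finset.sum_eq_zero fun z _ => ?_
        rw [if_neg]
        exact fun h => ha h.1
    rw [h1, ← Finset.sum_filter, Finset.sum_const, nsmul_eq_mul]
    have h3 : ((Finset.univ.filter fun a : G => a ∈ A).card : ℂ) = (Nat.card A : ℂ) := by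
      rw [← Fintype.card_subtype, ← Nat.card_eq_fintype_card]
    rw [h3, ← mul_assoc, inv_mul_cancel₀ hA, one_mul]
  have h4 := congrFun (cls_expand hcls) x
  rw [Finset.sum_apply] at h4
  have h5 : f x = (Nat.card {a : G // a ∈ A ∧ a * x * a⁻¹ = y} : ℂ) := by rw [hf]
  rw [← h5, h4]
  refine Finset.sum_congr rfl fun χ hχ => ?_
  rw [Pi.smul_apply, smul_eq_mul, hip χ (mem_irr.1 hχ), mul_comm]

end Pool.Agent.CTab
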