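import Pool.Agent.CTab.Defs
import Pool.Agent.CTab.B01
import Pool.Agent.CTab.B02
import Pool.Agent.CTab.B04
import Pool.Agent.CTab.B05
import Pool.Agent.CTab.B06
import Pool.Agent.CTab.B11
import Pool.Agent.CTab.C01

/-!
Counting formula for the irreducible characters over an invariant linear character. For `χ ∈ irr K` the isotypic part
`x ↦ (1/|Z|) Σ_z conj(lam z) χ(x z)` is `χ` if `χ` is `Over Z lam` and `0` otherwise (C01). Hence
`Σ_{χ Over} |χ x|² = (1/|Z|) Σ_z conj(lam z) Σ_{χ ∈ irr K} χ(x z) conj(χ x) = (1/|Z|) Σ_z conj(lam z) #{y : y x z y⁻¹ = x}`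
by column orthogonality, i.e. `z = x⁻¹ y⁻¹ x y`; sum over `x ∈ K`, use norm one, and substitute `x ↦ x⁻¹, y ↦ y⁻¹`
(the total is real, so the conjugation can be dropped). `lam` is zero outside `Z`.
-/

set_option autoImplicit false

namespace Pool.Agent.CTab

open scoped Classical

variable {G : Type} [Group G] [Fintype G]

private theorem c06_cs (P : G → Prop) :
    (Nat.card {a : G // P a} : ℂ) = ∑ a, if P a then (1 : ℂ) else 0 := by
  rw [Finset.sum_boole, Nat.card_eq_fintype_card, Fintype.card_subtype]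

private theorem c06_ite {a : Prop} [Decidable a] (u v : ℂ) (h : ¬ a → u = 0) (h' : a → u = v) :
    u = if a then v else 0 := by
  by_cases ha : a
  · rw [if_pos ha]; exact h' ha
  · rw [if_neg ha]; exact h ha

/-- the number of irreducible characters over `lam` as a sum of inner products -/
private theorem c06_num {K Z : Subgroup G} {lam : G → ℂ} (hZ : Z ≤ K) (hn : Nrm K Z)
    (hlam : IsLin Z lam) (hinv : Inv K lam) :
    (Nat.card (IrrO K Z lam) : ℂ) = ∑ χ ∈ irr K, ip K (C01.P Z lam χ) χ := by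
  have h1 : IrrO K Z lam = (((irr K).filter (fun χ => Over Z lam χ) : Finset (G → ℂ)) : Set (G → ℂ)) := by
    ext χ
    rw [Finset.mem_coe, Finset.mem_filter, mem_irr]
    exact Iff.rfl
  have h2 : Nat.card (IrrO K Z lam) = ((irr K).filter (fun χ => Over Z lam χ)).card := by
    rw [h1, Nat.card_coe_set_eq, Set.ncard_coe_finset]
  rw [h2, Finset.card_filter]
  push_cast
  refine Finset.sum_congr rfl fun χ hχ => ?_
  have hχ' : IsIr K χ := mem_irr.1 hχ
  by_cases ho : Over Z lam χ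
  · rw [if_pos ho, C01.P_eq_self (S := K) hlam ho, (isIr_iff.1 hχ').2]
  · rw [if_neg ho]
    rcases C01.dich hZ hn hlam hinv hχ' with h | h
    · exact absurd h ho
    · rw [h]
      unfold ip
      simp

/-- column orthogonality in the form used -/
private theorem c06_col {K Z : Subgroup G} {lam : G → ℂ} (hZ : Z ≤ K) (hlam : IsLin Z lam)
    (x z : G) :
    (if z ∈ Z then (starRingEnd ℂ) (lam z) * ∑ χ ∈ irr K, χ (x * z) * (starRingEnd ℂ) (χ x) else 0) =
      ∑ a, (if x ∈ K ∧ a ∈ K ∧ x⁻¹ * a⁻¹ * x * a = z then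
        (starRingEnd ℂ) (lam (x⁻¹ * a⁻¹ * x * a)) else 0) := by
  by_cases hz : z ∈ Z
  · rw [if_pos hz]
    by_cases hx : x ∈ K
    · rw [col_orth (K.mul_mem hx (hZ hz)) hx, c06_cs, Finset.mul_sum]
      refine Finset.sum_congr rfl fun a _ => ?_
      have h1 : (a ∈ K ∧ a * (x * z) * a⁻¹ = x) ↔ (x ∈ K ∧ a ∈ K ∧ x⁻¹ * a⁻¹ * x * a = z) := by
        constructor
        · rintro ⟨h1, h2⟩
          refine ⟨hx, h1, ?_⟩
          have h3 : x⁻¹ * a⁻¹ * x * a = x⁻¹ * a⁻¹ * (a * (x * z) * a⁻¹) * a := by rw [h2]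
          rw [h3]
          group
        · rintro ⟨-, h1, h2⟩
          refine ⟨h1, ?_⟩
          rw [← h2]
          group
      by_cases h2 : x ∈ K ∧ a ∈ K ∧ x⁻¹ * a⁻¹ * x * a = z
      · rw [if_pos h2, if_pos (h1.2 h2), h2.2.2, mul_one]
      · rw [if_neg h2, if_neg (fun h' => h2 (h1.1 h')), mul_zero]
    · have h1 : ∑ χ ∈ irr K, χ (x * z) * (starRingEnd ℂ) (χ x) = 0 := by
        apply Finset.sum_eq_zero
        intro χ hχ
        rw [(mem_irr.1 hχ).1 x hx, map_zero, mul_zero]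
      rw [h1, mul_zero]
      symm
      apply Finset.sum_eq_zero
      intro a _
      rw [if_neg (fun h' => hx h'.1)]
  · rw [if_neg hz]
    symm
    apply Finset.sum_eq_zero
    intro a _
    by_cases h2 : x ∈ K ∧ a ∈ K ∧ x⁻¹ * a⁻¹ * x * a = z
    · rw [if_pos h2, h2.2.2, hlam.1 z hz, map_zero]
    · rw [if_neg h2]

theorem card_irrO {K Z : Subgroup G} {lam : G → ℂ} (hZ : Z ≤ K) (hn : Nrm K Z) (hlam : IsLin Z lam)
    (hinv : Inv K lam) :
    (Nat.card (IrrO K Z lam) : ℂ) = ((Nat.card K : ℂ) * (Nat.card Z : ℂ))⁻¹ *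
      ∑ x, ∑ y, (if x ∈ K ∧ y ∈ K then lam (x * y * x⁻¹ * y⁻¹) else 0) := by
  rw [c06_num hZ hn hlam hinv]
  -- expand
  have h1 : ∀ χ ∈ irr K, ip K (C01.P Z lam χ) χ = ((Nat.card K : ℂ) * (Nat.card Z : ℂ))⁻¹ *
      ∑ x, ∑ z, (if z ∈ Z then (starRingEnd ℂ) (lam z) * (χ (x * z) * (starRingEnd ℂ) (χ x))
        else 0) := by
    intro χ _
    unfold ip C01.P
    rw [mul_inv, mul_assoc]
    congr 1
    rw [Finset.mul_sum]
    refine Finset.sum_congr rfl fun x _ => ?_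
    rw [mul_assoc, Finset.sum_mul]
    congr 1
    refine Finset.sum_congr rfl fun z _ => ?_
    rw [ite_mul, zero_mul, mul_assoc]
  rw [Finset.sum_congr rfl h1, ← Finset.mul_sum]
  congr 1
  rw [Finset.sum_comm]
  have h2 : ∀ x : G, ∑ χ ∈ irr K, ∑ z, (if z ∈ Z then (starRingEnd ℂ) (lam z) *
      (χ (x * z) * (starRingEnd ℂ) (χ x)) else 0) =
      ∑ a, (if x ∈ K ∧ a ∈ K then (starRingEnd ℂ) (lam (x⁻¹ * a⁻¹ * x * a)) else 0) := by
    intro x
    rw [Finset.sum_comm]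
    have h3 : ∀ z : G, ∑ χ ∈ irr K, (if z ∈ Z then (starRingEnd ℂ) (lam z) *
        (χ (x * z) * (starRingEnd ℂ) (χ x)) else 0) =
        ∑ a, (if x ∈ K ∧ a ∈ K ∧ x⁻¹ * a⁻¹ * x * a = z then
          (starRingEnd ℂ) (lam (x⁻¹ * a⁻¹ * x * a)) else 0) := by
      intro z
      rw [← c06_col hZ hlam x z]
      by_cases hz : z ∈ Z
      · simp only [if_pos hz]
        rw [Finset.mul_sum]
      · simp only [if_neg hz]
        rw [Finset.sum_const_zero]
    rw [Finset.sum_congr rfl fun z _ => h3 z, Finset.sum_comm]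
    refine Finset.sum_congr rfl fun a _ => ?_
    by_cases ha : x ∈ K ∧ a ∈ K
    · rw [if_pos ha, Finset.sum_eq_single (x⁻¹ * a⁻¹ * x * a)]
      · rw [if_pos ⟨ha.1, ha.2, rfl⟩]
      · intro z _ hz
        rw [if_neg (fun h' => hz h'.2.2.symm)]
      · intro h'
        exact absurd (Finset.mem_univ _) h'
    · rw [if_neg ha]
      apply Finset.sum_eq_zero
      intro z _
      rw [if_neg (fun h' => ha ⟨h'.1, h'.2.1⟩)]
  rw [Finset.sum_congr rfl fun x _ => h2 x, Finset.sum_comm, ← Equiv.sum_comp (Equiv.inv G)]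
  refine Finset.sum_congr rfl fun x _ => ?_
  rw [← Equiv.sum_comp (Equiv.inv G)]
  refine Finset.sum_congr rfl fun y _ => ?_
  show (if y⁻¹ ∈ K ∧ x⁻¹ ∈ K then (starRingEnd ℂ) (lam (y⁻¹⁻¹ * x⁻¹⁻¹ * y⁻¹ * x⁻¹)) else 0) = _
  rw [inv_mem_iff, inv_mem_iff, ← hlam.inv]
  have h3 : (y⁻¹⁻¹ * x⁻¹⁻¹ * y⁻¹ * x⁻¹)⁻¹ = x * y * x⁻¹ * y⁻¹ := by group
  rw [h3]
  by_cases hxy : x ∈ K ∧ y ∈ K
  · rw [if_pos hxy, if_pos ⟨hxy.2, hxy.1⟩]
  · rw [if_neg hxy, if_neg (fun h' => hxy ⟨h'.2, h'.1⟩)]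

theorem irrO_finite (K Z : Subgroup G) (lam : G → ℂ) : (IrrO K Z lam).Finite := by
  exact (Finset.finite_toSet (irr K)).subset (fun f hf => Finset.mem_coe.2 (mem_irr.2 hf.1))

theorem tset_finite (A H Z : Subgroup G) (lam : G → ℂ) : (TSet A H Z lam).Finite := by
  exact (Finset.finite_toSet (irr H)).subset (fun f hf => Finset.mem_coe.2 (mem_irr.2 hf.1))

end Pool.Agent.CTab
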