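import Pool.Agent.CTab.Defs
import Pool.Agent.CTab.A01
import Pool.Agent.CTab.A02
import Pool.Agent.CTab.A03
import Pool.Agent.CTab.C06

/-!
Counting formula: count the triples `(α, μ, weight)`:
`Σ_{(α, μ)} |KK H P ⊓ stab A μ|` over `α ∈ TSet A H Z lam`, `μ ∈ InvSet P L Z lam` with `Lies L μ α`, in two ways.
-/

set_option autoImplicit false

namespace Pool.Agent.CTab

open scoped Classical

variable {G : Type} [Group G] [Fintype G]

theorem count_tset {p : ℕ} (hp : p.Prime) {A H P L Z : Subgroup G} {lam : G → ℂ}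
    (h : Cpl p A H P) (hZL : Z ≤ L) (hLH : L ≤ H) (hn : Nrm A L)
    (hL : ∀ x ∈ L, ∀ y ∈ L, x * y = y * x) (hlam : IsLin Z lam) (hinv : Inv A lam) :
    Nat.card (TSet A H Z lam) * Nat.card (KK H P) =
      ∑ᶠ μ ∈ InvSet P L Z lam, Nat.card (TSet (stab A μ) (H ⊓ stab A μ) L μ) *
        Nat.card (KK H P ⊓ stab A μ : Subgroup G) := by
  have hIf := invSet_finite P L Z lam
  have hTf := tset_finite A H Z lam
  rw [finsum_mem_eq_finite_toFinset_sum _ hIf]
  have hT : Nat.card (TSet A H Z lam) = hTf.toFinset.card := by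
    have := Nat.subtype_card (p := fun α => α ∈ TSet A H Z lam) hTf.toFinset (by simp)
    exact this
  have h1 : ∀ μ ∈ hIf.toFinset, Nat.card (TSet (stab A μ) (H ⊓ stab A μ) L μ) =
      (hTf.toFinset.filter (fun α => Lies L μ α)).card := by
    intro μ hμ
    rw [← card_tset_over hp h hZL hLH hn hL hlam hinv (by simpa using hμ)]
    exact Nat.subtype_card (p := fun α => α ∈ TSet A H Z lam ∧ Lies L μ α)
      (hTf.toFinset.filter (fun α => Lies L μ α)) (by simp)
  have h2 : ∀ α ∈ hTf.toFinset,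
      ∑ μ ∈ hIf.toFinset, (if Lies L μ α then Nat.card (KK H P ⊓ stab A μ : Subgroup G) else 0) =
        Nat.card (KK H P) := by
    intro α hα
    obtain ⟨⟨μ₀, hμ₀, hl₀⟩, hc⟩ := card_invSet_below hp h hZL hLH hn hL hlam
      (show α ∈ TSet A H Z lam by simpa using hα)
    have hN : Nat.card {μ' : G → ℂ // μ' ∈ InvSet P L Z lam ∧ Lies L μ' α} =
        (hIf.toFinset.filter (fun μ => Lies L μ α)).card :=
      Nat.subtype_card (p := fun μ' => μ' ∈ InvSet P L Z lam ∧ Lies L μ' α)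
        (hIf.toFinset.filter (fun μ => Lies L μ α)) (by simp)
    rw [← Finset.sum_filter]
    have hpos : 0 < (hIf.toFinset.filter (fun μ => Lies L μ α)).card := by
      apply Finset.card_pos.mpr
      exact ⟨μ₀, by simp [hμ₀, hl₀]⟩
    have hconst : ∀ μ ∈ hIf.toFinset.filter (fun μ => Lies L μ α),
        Nat.card (KK H P ⊓ stab A μ : Subgroup G) =
          Nat.card (KK H P ⊓ stab A μ₀ : Subgroup G) := by
      intro μ hμ
      rw [Finset.mem_filter] at hμ
      have e1 := hc μ (by simpa using hμ.1) hμ.2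
      have e2 := hc μ₀ hμ₀ hl₀
      rw [hN] at e1 e2
      rw [← e2] at e1
      exact Nat.eq_of_mul_eq_mul_left hpos e1
    rw [Finset.sum_congr rfl hconst, Finset.sum_const, smul_eq_mul]
    have e2 := hc μ₀ hμ₀ hl₀
    rw [hN] at e2
    exact e2
  rw [hT]
  calc hTf.toFinset.card * Nat.card (KK H P)
      = ∑ α ∈ hTf.toFinset, Nat.card (KK H P) := by rw [Finset.sum_const, smul_eq_mul]
    _ = ∑ α ∈ hTf.toFinset, ∑ μ ∈ hIf.toFinset,
          (if Lies L μ α then Nat.card (KK H P ⊓ stab A μ : Subgroup G) else 0) :=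
        (Finset.sum_congr rfl h2).symm
    _ = ∑ μ ∈ hIf.toFinset, ∑ α ∈ hTf.toFinset,
          (if Lies L μ α then Nat.card (KK H P ⊓ stab A μ : Subgroup G) else 0) :=
        Finset.sum_comm
    _ = _ := by
        apply Finset.sum_congr rfl
        intro μ hμ
        rw [h1 μ hμ, ← Finset.sum_filter, Finset.sum_const, smul_eq_mul]

/-- the special case `P = ⊥`, `A = H = K` -/
theorem count_irrO {p : ℕ} (hp : p.Prime) {K C Z : Subgroup G} {lam : G → ℂ}
    (hpK : ¬ p ∣ Nat.card K) (hZC : Z ≤ C) (hCK : C ≤ K) (hn : Nrm K C)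
    (hC : ∀ x ∈ C, ∀ y ∈ C, x * y = y * x) (hlam : IsLin Z lam) (hinv : Inv K lam) :
    Nat.card (IrrO K Z lam) * Nat.card K =
      ∑ᶠ ν ∈ InvSet ⊥ C Z lam, Nat.card (IrrO (stab K ν) C ν) * Nat.card (stab K ν) := by
  have hcpl : Cpl p K K ⊥ := by
    refine ⟨le_refl _, bot_le, IsPGroup.of_bot, hpK, ?_⟩
    simp
  have hTS : ∀ (K' Z' : Subgroup G) (lam' : G → ℂ), TSet K' K' Z' lam' = IrrO K' Z' lam' := by
    intro K' Z' lam'
    ext α
    constructor
    · rintro ⟨h1, h2, -⟩
      exact ⟨h1, h2⟩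
    · rintro ⟨h1, h2⟩
      refine ⟨h1, h2, α, h1, ?_⟩
      funext x
      unfold res
      split_ifs with hx
      · rfl
      · exact (h1.1 x hx).symm
  have hKK : KK K (⊥ : Subgroup G) = K := by
    unfold KK
    rw [inf_eq_left]
    intro x _
    rw [Subgroup.mem_normalizer_iff]
    intro y
    simp
  have hst : ∀ μ : G → ℂ, K ⊓ stab K μ = stab K μ := by
    intro μ
    rw [inf_eq_right]
    intro x hx
    exact hx.1
  have := count_tset hp hcpl hZC hCK hn hC hlam hinv
  rw [hTS, hKK] at this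
  rw [this]
  apply finsum_congr
  intro μ
  apply finsum_congr
  intro _
  rw [hst μ, hTS]

end Pool.Agent.CTab
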