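import Pool.Agent.CTab.Defs
import Pool.Agent.CTab.A01
import Pool.Agent.CTab.A04
import Pool.Agent.CTab.G01
import Pool.Agent.CTab.G02
import Pool.Agent.CTab.C06

/-!
The case of a commutative chief factor. `C = KK H P ⊓ L = C_L(P)` (`mem_KK_iff_comm`), `Z ≤ C`. Apply `count_tset` to
`TSet A H Z lam` and `count_irrO` to `IrrO K (K ⊓ Z) lam`, `K = KK H P` (`K ⊓ Z = Z` since `Z` is central). The bijection
`inv_bijOn` matches `μ` with `ν = res C μ`; `stab K ν = K ⊓ stab A μ` (`inv_injOn`); the induction hypothesis, applied to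
`stab A μ, H ⊓ stab A μ, P, L, μ` (`Cpl.sub`; index: `|A| ≤ (n+1)|Z|`, `|L| ≥ 2 |Z|`, `n ≥ 1`), gives
`card TSet (stab A μ) .. = card IrrO (K ⊓ stab A μ) (.. ⊓ L) μ`, and `IrrO _ C μ = IrrO _ C ν`.
-/

set_option autoImplicit false

namespace Pool.Agent.CTab

open scoped Classical

variable {G : Type} [Group G] [Fintype G]

private theorem a05_res (K Z : Subgroup G) (μ : G → ℂ) :
    IrrO K Z μ = IrrO K Z (res Z μ) := by
  ext α
  unfold IrrO Over
  simp only [Set.mem_setOf_eq]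
  constructor
  · rintro ⟨h1, h2⟩
    refine ⟨h1, fun x n hn => ?_⟩
    rw [h2 x n hn, res, if_pos hn]
  · rintro ⟨h1, h2⟩
    refine ⟨h1, fun x n hn => ?_⟩
    rw [h2 x n hn, res, if_pos hn]

theorem stmt_comm {p n : ℕ} (hp : p.Prime) (ih : StmtS p n) {A H P Z L : Subgroup G} {lam : G → ℂ}
    (hs : Group.IsSolvable A) (h : Cpl p A H P) (hc : ∀ a ∈ A, ∀ z ∈ Z, a * z = z * a)
    (hlam : IsLin Z lam) (hidx : Nat.card A ≤ (n + 1) * Nat.card Z)
    (hZL : Z < L) (hLH : L ≤ H) (hn : Nrm A L) (hL : ∀ x ∈ L, ∀ y ∈ L, x * y = y * x) :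
    Nat.card (TSet A H Z lam) = Nat.card (IrrO (KK H P) (KK H P ⊓ Z) lam) := by
  have hHA : H ≤ A := h.1
  have hPA : P ≤ A := h.2.1
  have hP : IsPGroup p P := h.2.2.1
  have hpH : ¬ p ∣ Nat.card H := h.2.2.2.1
  have hLA : L ≤ A := hLH.trans hHA
  have hZA : Z ≤ A := hZL.le.trans hLA
  have hKH : KK H P ≤ H := inf_le_left
  have hKA : KK H P ≤ A := hKH.trans hHA
  have hnP : Nrm P L := fun a ha l hl => hn a (hPA ha) l hl
  have hpL : ¬ p ∣ Nat.card L := fun hd => hpH (hd.trans (Subgroup.card_dvd_of_le hLH))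
  have hpK : ¬ p ∣ Nat.card (KK H P) := fun hd => hpH (hd.trans (Subgroup.card_dvd_of_le hKH))
  have hconj : ∀ a ∈ A, ∀ z, a * z * a⁻¹ ∈ Z → z ∈ Z := by
    intro a ha z h1
    have h2 := hc a ha _ h1
    have h3 : z = a * z * a⁻¹ := by
      have h5 : a * z * a⁻¹ * a = a * z := by group
      rw [h5] at h2
      exact (mul_left_cancel h2).symm
    rw [h3]
    exact h1
  have hinv : Inv A lam := by
    intro a ha x
    by_cases hx : x ∈ Z
    · rw [hc a ha x hx, mul_inv_cancel_right]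
    · rw [hlam.1 x hx, hlam.1 _ (fun h' => hx (hconj a ha x h'))]
  have hC : ∀ l, l ∈ KK H P ⊓ L ↔ l ∈ L ∧ ∀ v ∈ P, v * l = l * v := by
    intro l
    rw [Subgroup.mem_inf]
    constructor
    · rintro ⟨h1, h2⟩
      exact ⟨h2, (mem_KK_iff_comm hp h hLH hnP h2).1 h1⟩
    · rintro ⟨h1, h2⟩
      exact ⟨(mem_KK_iff_comm hp h hLH hnP h1).2 h2, h1⟩
  have hZC : Z ≤ KK H P ⊓ L := by
    intro z hz
    rw [hC]
    exact ⟨hZL.le hz, fun v hv => hc v (hPA hv) z hz⟩
  have hnKC : Nrm (KK H P) (KK H P ⊓ L) := by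
    intro k hk c hc'
    obtain ⟨h1, h2⟩ := Subgroup.mem_inf.1 hc'
    exact Subgroup.mem_inf.2 ⟨(KK H P).mul_mem ((KK H P).mul_mem hk h1) ((KK H P).inv_mem hk),
      hn k (hKA hk) c h2⟩
  have hT := count_tset hp h hZL.le hLH hn hL hlam hinv
  have hI := count_irrO (K := KK H P) (C := KK H P ⊓ L) hp hpK hZC inf_le_left hnKC
    (fun x hx y hy => hL x (Subgroup.mem_inf.1 hx).2 y (Subgroup.mem_inf.1 hy).2) hlam
    (fun k hk x => hinv k (hKA hk) x)
  have hb := inv_bijOn (lam := lam) hp hP hL hpL hnP hC hZC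
  have hnconjL : ∀ a ∈ A, ∀ x, x ∉ L → a * x * a⁻¹ ∉ L := by
    intro a ha x hx h1
    apply hx
    have h2 := hn a⁻¹ (A.inv_mem ha) _ h1
    have h3 : a⁻¹ * (a * x * a⁻¹) * a⁻¹⁻¹ = x := by group
    rwa [h3] at h2
  have hnconjC : ∀ k ∈ KK H P, ∀ x, k * x * k⁻¹ ∈ KK H P ⊓ L → x ∈ KK H P ⊓ L := by
    intro k hk x h1
    have h2 := hnKC k⁻¹ ((KK H P).inv_mem hk) _ h1
    have h3 : k⁻¹ * (k * x * k⁻¹) * k⁻¹⁻¹ = x := by group
    rwa [h3] at h2
  have hsum : (∑ᶠ μ ∈ InvSet P L Z lam, Nat.card (TSet (stab A μ) (H ⊓ stab A μ) L μ) *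
        Nat.card (KK H P ⊓ stab A μ : Subgroup G)) =
      ∑ᶠ ν ∈ InvSet ⊥ (KK H P ⊓ L) Z lam, Nat.card (IrrO (stab (KK H P) ν) (KK H P ⊓ L) ν) *
        Nat.card (stab (KK H P) ν) := by
    refine finsum_mem_eq_of_bijOn (res (KK H P ⊓ L)) hb ?_
    intro μ hμI
    obtain ⟨hμ, hμZ, hμP⟩ := hμI
    have hPS : P ≤ stab A μ := fun v hv => ⟨hPA hv, fun x => hμP v hv x⟩
    have hSA : stab A μ ≤ A := fun x hx => hx.1
    have hLS : L ≤ stab A μ := by
      intro l hl
      refine ⟨hLA hl, fun x => ?_⟩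
      by_cases hx : x ∈ L
      · rw [hL l hl x hx, mul_inv_cancel_right]
      · rw [hμ.1 x hx, hμ.1 _ (hnconjL l (hLA hl) x hx)]
    have hst : stab (KK H P) (res (KK H P ⊓ L) μ) = KK H P ⊓ stab A μ := by
      ext k
      rw [Subgroup.mem_inf]
      constructor
      · rintro ⟨hk, hk'⟩
        refine ⟨hk, hKA hk, ?_⟩
        have h1 : IsLin L (fun x => μ (k * x * k⁻¹)) := by
          refine ⟨fun x hx => hμ.1 _ (hnconjL k (hKA hk) x hx), ?_, ?_⟩
          · show μ (k * 1 * k⁻¹) = 1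
            rw [mul_one, mul_inv_cancel, hμ.2.1]
          · intro x hx y hy
            show μ (k * (x * y) * k⁻¹) = μ (k * x * k⁻¹) * μ (k * y * k⁻¹)
            rw [← hμ.2.2 _ (hn k (hKA hk) x hx) _ (hn k (hKA hk) y hy)]
            congr 1
            group
        have h2 : Inv P (fun x => μ (k * x * k⁻¹)) := by
          intro v hv x
          show μ (k * (v * x * v⁻¹) * k⁻¹) = μ (k * x * k⁻¹)
          have h3 := hμP _ (KK_nrm H P k hk v hv) (k * x * k⁻¹)
          rw [← h3]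
          congr 1
          group
        have h3 : (fun x => μ (k * x * k⁻¹)) = μ := by
          refine inv_injOn hp hP hL hpL hnP hC h1 hμ h2 hμP ?_
          intro c hcC
          have h4 := hk' c
          unfold res at h4
          rw [if_pos (hnKC k hk c hcC), if_pos hcC] at h4
          exact h4
        intro x
        exact congrFun h3 x
      · rintro ⟨hk, hk'⟩
        refine ⟨hk, fun x => ?_⟩
        unfold res
        by_cases hx : x ∈ KK H P ⊓ L
        · rw [if_pos hx, if_pos (hnKC k hk x hx)]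
          exact hk'.2 x
        · rw [if_neg hx, if_neg (fun h' => hx (hnconjC k hk x h'))]
    have hsub := h.sub hp hPS hSA
    have hsS : Group.IsSolvable (stab A μ) := by
      haveI := hs
      exact Group.isSolvable_of_isSolvable_injective (Subgroup.inclusion_injective hSA)
    have hcard : Nat.card (stab A μ) ≤ n * Nat.card L := by
      have h1 : Nat.card (stab A μ) ≤ Nat.card A := Subgroup.card_le_of_le hSA
      have h2 : Nat.card L ≤ Nat.card A := Subgroup.card_le_of_le hLA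
      obtain ⟨k, hk⟩ := Subgroup.card_dvd_of_le hZL.le
      have hz : 0 < Nat.card Z := Nat.card_pos
      have hl : 0 < Nat.card L := Nat.card_pos
      have hk0 : k ≠ 0 := by
        rintro rfl
        rw [mul_zero] at hk
        omega
      have hk1 : k ≠ 1 := by
        rintro rfl
        rw [mul_one] at hk
        exact hZL.ne (Subgroup.eq_of_le_of_card_ge hZL.le hk.le)
      have hk2 : 2 ≤ k := by omega
      have h3 : Nat.card Z * 2 ≤ Nat.card L := by
        rw [hk]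
        exact Nat.mul_le_mul_left _ hk2
      have h4 : Nat.card Z * 2 ≤ (n + 1) * Nat.card Z := h3.trans (h2.trans hidx)
      have h5 : 2 ≤ n + 1 := by
        rw [mul_comm] at h4
        exact le_of_mul_le_mul_right h4 hz
      have h6 : 1 ≤ n := by omega
      have h7 : Nat.card Z ≤ n * Nat.card Z := Nat.le_mul_of_pos_left _ h6
      have h8 : n * (Nat.card Z * 2) ≤ n * Nat.card L := Nat.mul_le_mul_left _ h3
      nlinarith
    have hih := ih G (stab A μ) (H ⊓ stab A μ) P L μ hsS hsub.1 (le_inf hLH hLS)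
      (fun a ha l hl => hn a (hSA ha) l hl) hμ (fun a ha x => ha.2 x) hcard
    have hint : KK H P ⊓ stab A μ ⊓ L = KK H P ⊓ L := by
      rw [inf_assoc, inf_eq_right.2 hLS]
    rw [hst, hih, hsub.2, hint, a05_res]
  have hKZ : KK H P ⊓ Z = Z := inf_eq_right.2 (hZC.trans inf_le_left)
  rw [hKZ]
  have hfin : Nat.card (TSet A H Z lam) * Nat.card (KK H P) =
      Nat.card (IrrO (KK H P) Z lam) * Nat.card (KK H P) := by
    rw [hT, hI, hsum]
  exact Nat.eq_of_mul_eq_mul_right Nat.card_pos hfin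

end Pool.Agent.CTab
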