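import Pool.Agent.CTab.Defs
import Pool.Agent.CTab.B01
import Pool.Agent.CTab.B02
import Pool.Agent.CTab.B03
import Pool.Agent.CTab.B08
import Pool.Agent.CTab.B10

/-!
Pull-back along a homomorphism `φ : G₁ → G₂` (ambient groups may differ). `B ≤ φ.range`. For `f` supported on `B`,
`f ∘ φ` is supported on `B.comap φ`. Irreducibility via the norm: every fibre over `B` has `|ker φ|` elements. Descent: a
character of `B.comap φ` invariant under translation by `ker φ` comes from `B` (the kernel acts trivially: scalar lemma /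
matrix representation constant on fibres).
-/

set_option autoImplicit false

namespace Pool.Agent.CTab

open scoped Classical

variable {G : Type} [Group G] [Fintype G]

theorem pull_isCh {G₁ G₂ : Type} [Group G₁] [Fintype G₁] [Group G₂] [Fintype G₂] (φ : G₁ →* G₂)
    {B : Subgroup G₂} (hB : B ≤ φ.range) {f : G₂ → ℂ} (hf : IsCh B f) :
    IsCh (B.comap φ) (fun x => f (φ x)) := by
  obtain ⟨hf0, V, hV⟩ := hf
  refine ⟨fun x hx => hf0 _ hx,
    FDRep.of (V.ρ.comp (φ.subgroupComap B) : Representation ℂ (B.comap φ) V), fun a => ?_⟩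
  exact hV (φ.subgroupComap B a)

/-- sums over fibres -/
private theorem sum_pull {G₁ G₂ : Type} [Group G₁] [Fintype G₁] [Group G₂] [Fintype G₂]
    (φ : G₁ →* G₂) {B : Subgroup G₂} (hB : B ≤ φ.range) {F : G₂ → ℂ} (hF : ∀ y, y ∉ B → F y = 0) :
    ∑ x, F (φ x) = (Nat.card φ.ker : ℂ) * ∑ y, F y := by
  rw [Finset.sum_comp F φ, Finset.mul_sum]
  have h1 : ∀ y ∈ Finset.univ.image φ,
      (Finset.univ.filter fun x => φ x = y).card = Nat.card φ.ker := by
    intro y hy
    obtain ⟨x, -, rfl⟩ := Finset.mem_image.1 hy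
    rw [Nat.card_eq_fintype_card]
    refine (Finset.card_bij (fun (k : φ.ker) _ => x * k.1) ?_ ?_ ?_).symm
    · intro k _
      have := k.2
      rw [MonoidHom.mem_ker] at this
      simp [this]
    · intro k _ l _ h
      exact Subtype.ext (mul_left_cancel h)
    · intro z hz
      refine ⟨⟨x⁻¹ * z, ?_⟩, Finset.mem_univ _, ?_⟩
      · rw [MonoidHom.mem_ker, map_mul, map_inv, (Finset.mem_filter.1 hz).2, inv_mul_cancel]
      · simp
  have h2 : ∑ y ∈ Finset.univ.image φ, (Finset.univ.filter fun x => φ x = y).card • F y =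
      ∑ y ∈ Finset.univ.image φ, (Nat.card φ.ker : ℂ) * F y := by
    refine Finset.sum_congr rfl fun y hy => ?_
    rw [h1 y hy, nsmul_eq_mul]
  rw [h2]
  refine Finset.sum_subset (Finset.subset_univ _) fun y _ hy => ?_
  rw [hF y, mul_zero]
  intro hyB
  apply hy
  obtain ⟨x, hx⟩ := hB hyB
  exact Finset.mem_image.2 ⟨x, Finset.mem_univ _, hx⟩

theorem card_comap {G₁ G₂ : Type} [Group G₁] [Fintype G₁] [Group G₂] [Fintype G₂] (φ : G₁ →* G₂)
    {B : Subgroup G₂} (hB : B ≤ φ.range) :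
    Nat.card (B.comap φ) = Nat.card B * Nat.card φ.ker := by
  have h := sum_pull φ hB (F := fun y => if y ∈ B then 1 else 0) (fun y hy => if_neg hy)
  have h1 : ∑ x, (if φ x ∈ B then (1 : ℂ) else 0) = (Nat.card (B.comap φ) : ℂ) := by
    rw [Finset.sum_boole, ← Fintype.card_subtype, ← Nat.card_eq_fintype_card]
    rfl
  have h2 : ∑ y, (if y ∈ B then (1 : ℂ) else 0) = (Nat.card B : ℂ) := by
    rw [Finset.sum_boole, ← Fintype.card_subtype, ← Nat.card_eq_fintype_card]
  rw [h1, h2] at h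
  have h3 : (Nat.card (B.comap φ) : ℂ) = ((Nat.card B * Nat.card φ.ker : ℕ) : ℂ) := by
    rw [h]; push_cast; ring
  exact_mod_cast h3

/-- the norm of a pull-back -/
private theorem ip_pull {G₁ G₂ : Type} [Group G₁] [Fintype G₁] [Group G₂] [Fintype G₂]
    (φ : G₁ →* G₂) {B : Subgroup G₂} (hB : B ≤ φ.range) {f : G₂ → ℂ}
    (hf : ∀ y, y ∉ B → f y = 0) :
    ip (B.comap φ) (fun x => f (φ x)) (fun x => f (φ x)) = ip B f f := by
  unfold ip
  have h := sum_pull φ hB (F := fun y => f y * (starRingEnd ℂ) (f y))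
    (fun y hy => by rw [hf y hy, zero_mul])
  rw [h, card_comap φ hB]
  have hk : (Nat.card φ.ker : ℂ) ≠ 0 := by
    have : 0 < Nat.card φ.ker := Nat.card_pos
    exact_mod_cast this.ne'
  have hb : (Nat.card B : ℂ) ≠ 0 := by
    have : 0 < Nat.card B := Nat.card_pos
    exact_mod_cast this.ne'
  push_cast
  field_simp

theorem pull_isIr {G₁ G₂ : Type} [Group G₁] [Fintype G₁] [Group G₂] [Fintype G₂] (φ : G₁ →* G₂)
    {B : Subgroup G₂} (hB : B ≤ φ.range) {f : G₂ → ℂ} (hf : IsIr B f) :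
    IsIr (B.comap φ) (fun x => f (φ x)) := by
  rw [isIr_iff] at hf ⊢
  exact ⟨pull_isCh φ hB hf.1, by rw [ip_pull φ hB hf.1.1]; exact hf.2⟩

theorem descend {G₁ G₂ : Type} [Group G₁] [Fintype G₁] [Group G₂] [Fintype G₂] (φ : G₁ →* G₂)
    {B : Subgroup G₂} (hB : B ≤ φ.range) {g : G₁ → ℂ} (hg : IsCh (B.comap φ) g)
    (hk : ∀ k ∈ φ.ker, ∀ x, g (x * k) = g x) :
    ∃ f : G₂ → ℂ, IsCh B f ∧ ∀ x, g x = f (φ x) := by
  obtain ⟨hg0, V, hV⟩ := hg
  have hK : φ.ker ≤ B.comap φ := by
    intro k hk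
    rw [MonoidHom.mem_ker] at hk
    rw [Subgroup.mem_comap, hk]
    exact B.one_mem
  -- the kernel acts trivially
  have hker : ∀ (k : G₁) (h : k ∈ φ.ker), V.ρ ⟨k, hK h⟩ = 1 := by
    let W : FDRep ℂ φ.ker := FDRep.of (V.ρ.comp (Subgroup.inclusion hK) : Representation ℂ φ.ker V)
    have hW : ∀ k : φ.ker, W.character k = (Module.finrank ℂ V : ℂ) := by
      intro k
      have h1 : W.character k = V.character (Subgroup.inclusion hK k) := rfl
      rw [h1, hV, ← FDRep.char_one V, hV]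
      have := hk k.1 k.2 1
      rw [one_mul] at this
      exact this
    have hcard : (Nat.card φ.ker : ℂ) ≠ 0 := by
      have : 0 < Nat.card φ.ker := Nat.card_pos
      exact_mod_cast this.ne'
    have : Invertible (Nat.card φ.ker : ℂ) := invertibleOfNonzero hcard
    have h2 := FDRep.average_char_eq_finrank_invariants W
    simp only [hW] at h2
    rw [Finset.sum_const, Finset.card_univ, ← Nat.card_eq_fintype_card, nsmul_eq_mul, ← mul_assoc,
      inv_mul_cancel₀ hcard, one_mul] at h2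
    have h3 : Module.finrank ℂ (Representation.invariants W.ρ) = Module.finrank ℂ V := by
      exact_mod_cast h2.symm
    have h4 : (Representation.invariants W.ρ) = ⊤ := Submodule.eq_top_of_finrank_eq h3
    intro k h
    ext v
    have h5 : (v : W) ∈ Representation.invariants W.ρ := by rw [h4]; exact Submodule.mem_top
    rw [Representation.mem_invariants] at h5
    exact h5 ⟨k, h⟩
  have hfib : ∀ (x x' : G₁) (h : x ∈ B.comap φ) (h' : x' ∈ B.comap φ), φ x = φ x' →
      V.ρ ⟨x, h⟩ = V.ρ ⟨x', h'⟩ := by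
    intro x x' h h' he
    have h1 : x'⁻¹ * x ∈ φ.ker := by
      rw [MonoidHom.mem_ker, map_mul, map_inv, he, inv_mul_cancel]
    have h2 : (⟨x, h⟩ : B.comap φ) = ⟨x', h'⟩ * ⟨x'⁻¹ * x, hK h1⟩ := by
      ext
      simp
    rw [h2, map_mul, hker _ h1, mul_one]
  have hs : ∀ y : B, ∃ x, φ x = y := fun y => hB y.2
  choose s hs using hs
  have hsm : ∀ y : B, s y ∈ B.comap φ := fun y => by
    rw [Subgroup.mem_comap, hs]; exact y.2
  let ρ' : Representation ℂ B V :=
    { toFun := fun y => V.ρ ⟨s y, hsm y⟩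
      map_one' := by
        apply hker
        rw [MonoidHom.mem_ker, hs]
        rfl
      map_mul' := by
        intro y z
        rw [← map_mul]
        apply hfib
        rw [hs, map_mul, hs, hs]
        rfl }
  refine ⟨fun y => if h : y ∈ B then g (s ⟨y, h⟩) else 0, ⟨fun y hy => dif_neg hy, FDRep.of ρ', ?_⟩,
    ?_⟩
  · intro y
    simp only [Subtype.coe_eta, y.2, dif_pos]
    exact hV ⟨s y, hsm y⟩
  · intro x
    by_cases hx : φ x ∈ B
    · simp only [hx, dif_pos]
      have h1 := hV ⟨x, hx⟩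
      have h2 := hV ⟨s ⟨φ x, hx⟩, hsm _⟩
      simp only at h1 h2
      rw [← h1, ← h2]
      unfold FDRep.character
      rw [hfib x (s ⟨φ x, hx⟩) hx (hsm _) (by rw [hs])]
    · simp only [hx, dif_neg, not_false_iff]
      exact hg0 x hx

theorem descend_irr {G₁ G₂ : Type} [Group G₁] [Fintype G₁] [Group G₂] [Fintype G₂] (φ : G₁ →* G₂)
    {B : Subgroup G₂} (hB : B ≤ φ.range) {g : G₁ → ℂ} (hg : IsIr (B.comap φ) g)
    (hk : ∀ k ∈ φ.ker, ∀ x, g (x * k) = g x) :
    ∃ f : G₂ → ℂ, IsIr B f ∧ ∀ x, g x = f (φ x) := by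
  obtain ⟨f, hf, he⟩ := descend φ hB hg.isCh hk
  refine ⟨f, ?_, he⟩
  rw [isIr_iff] at hg ⊢
  refine ⟨hf, ?_⟩
  rw [← ip_pull φ hB hf.1]
  have : g = fun x => f (φ x) := funext he
  rw [← this]
  exact hg.2

end Pool.Agent.CTab
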