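import Pool.Agent.CTab.Defs
import Pool.Agent.CTab.B01
import Pool.Agent.CTab.B11
import Pool.Agent.CTab.C06

/-!
Two consequences of `card_irrO`. (1) `Z = ⊥`: number of irreducible characters times `|K|` is the number of commuting
pairs. (2) `K = closure {x, y} ⊔ Z` with `[x,y] ∈ Z`: the map `(a,b) ↦ lam [a,b]` on `K × K` is multiplicative in each
variable (`[a,b] ∈ Z` always because `K/Z` is abelian; invariance of `lam`), alternating and trivial when `a` or `b` is in
`Z` (invariance), so the inner sum over `b` is `|K|` or `0`, and the total is `|K|²` iff `lam [a,b] = 1` for all `a b`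
iff `lam [x,y] = 1`.
-/

set_option autoImplicit false

namespace Pool.Agent.CTab

open scoped Classical

variable {G : Type} [Group G] [Fintype G]

theorem card_irrO_bot (K : Subgroup G) :
    Nat.card (IrrO K ⊥ (del : G → ℂ)) * Nat.card K =
      Nat.card {xy : G × G // xy.1 ∈ K ∧ xy.2 ∈ K ∧ xy.1 * xy.2 = xy.2 * xy.1} := by
  sorry

theorem card_irrO_two {K Z : Subgroup G} {lam : G → ℂ} (hZ : Z ≤ K) (hn : Nrm K Z) (hlam : IsLin Z lam)
    (hinv : Inv K lam) {x y : G} (hK : K = Subgroup.closure {x, y} ⊔ Z)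
    (hxy : x * y * x⁻¹ * y⁻¹ ∈ Z) :
    Nat.card (IrrO K Z lam) * Nat.card Z = Nat.card K ↔ lam (x * y * x⁻¹ * y⁻¹) = 1 := by
  sorry

end Pool.Agent.CTab
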