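import Pool.Agent.CTab.Defs
import Pool.Agent.CTab.B01
import Pool.Agent.CTab.B11
import Pool.Agent.CTab.C06

/-!
Comparison of two counts. `π : X → G`, `K ≤ π.range`, `Z ≤ K`, `ẑ = Z.comap π`, `lamX` a linear character of
`Z.comap π` invariant under `K.comap π`, `lam` one of `Z` invariant under `K`. If for all `x y ∈ K.comap π` with
`[π x, π y] ∈ Z` one has `lamX [x,y] = 1 ↔ lam [π x, π y] = 1`, then both numbers of irreducible characters agree:
for fixed `x` the set `{y : [x,y] ∈ Ẑ}` is a subgroup and `y ↦ lamX [x,y]` a homomorphism on it (invariance), so the inner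
sum in `card_irrO` is the order of this subgroup or `0`; fibres of `π` over `K` have `|ker π|` elements.
-/

set_option autoImplicit false

namespace Pool.Agent.CTab

open scoped Classical

variable {G : Type} [Group G] [Fintype G]

/-- sums over fibres -/
private theorem c08_pull {G₁ G₂ : Type} [Group G₁] [Fintype G₁] [Group G₂] [Fintype G₂]
    (φ : G₁ →* G₂) {B : Subgroup G₂} (hB : B ≤ φ.range) {F : G₂ → ℂ} (hF : ∀ y, y ∉ B → F y = 0) :
    ∑ x, F (φ x) = (Nat.card φ.ker : ℂ) * ∑ y, F y := by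
  rw [Finset.sum_comp F φ, Finset.mul_sum]
  have h1 : ∀ y ∈ Finset.univ.image φ,
      (Finset.univ.filter fun x => φ x = y).card = Nat.card φ.ker := by
    intro y hy
    obtain ⟨x, -, rfl⟩ := Finset.mem_image.1 hy
    rw [Nat.card_eq_fintype_card]
    refine (Finset.card_bij (fun (k : φ.ker) _ => x * k.1) ?_ ?_ ?_).symm
    · intro k _
      have := k.2
      rw [MonoidHom.mem_ker] at this
      simp [this]
    · intro k _ l _ h
      exact Subtype.ext (mul_left_cancel h)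
    · intro z hz
      refine ⟨⟨x⁻¹ * z, ?_⟩, Finset.mem_univ _, ?_⟩
      · rw [MonoidHom.mem_ker, map_mul, map_inv, (Finset.mem_filter.1 hz).2, inv_mul_cancel]
      · simp
  have h2 : ∑ y ∈ Finset.univ.image φ, (Finset.univ.filter fun x => φ x = y).card • F y =
      ∑ y ∈ Finset.univ.image φ, (Nat.card φ.ker : ℂ) * F y := by
    refine Finset.sum_congr rfl fun y hy => ?_
    rw [h1 y hy, nsmul_eq_mul]
  rw [h2]
  refine Finset.sum_subset (Finset.subset_univ _) fun y _ hy => ?_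
  rw [hF y, mul_zero]
  intro hyB
  obtain ⟨x, hx⟩ := hB hyB
  exact hy (Finset.mem_image.2 ⟨x, Finset.mem_univ _, hx⟩)

/-- the inner sum -/
private theorem c08_sum {Y : Type} [Group Y] [Fintype Y] {K Z : Subgroup Y} {lam : Y → ℂ}
    (hn : Nrm K Z) (hlam : IsLin Z lam) (hinv : Inv K lam) (x : Y) :
    ∑ y, (if y ∈ K then lam (x * y * x⁻¹ * y⁻¹) else 0) =
      if (∀ y ∈ K, x * y * x⁻¹ * y⁻¹ ∈ Z → lam (x * y * x⁻¹ * y⁻¹) = 1) then
        ∑ y, (if y ∈ K ∧ x * y * x⁻¹ * y⁻¹ ∈ Z then (1 : ℂ) else 0) else 0 := by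
  by_cases hall : ∀ y ∈ K, x * y * x⁻¹ * y⁻¹ ∈ Z → lam (x * y * x⁻¹ * y⁻¹) = 1
  · rw [if_pos hall]
    refine Finset.sum_congr rfl fun y _ => ?_
    by_cases hy : y ∈ K
    · by_cases hz : x * y * x⁻¹ * y⁻¹ ∈ Z
      · rw [if_pos hy, if_pos ⟨hy, hz⟩, hall y hy hz]
      · rw [if_pos hy, if_neg (fun h => hz h.2), hlam.1 _ hz]
    · rw [if_neg hy, if_neg (fun h => hy h.1)]
  · rw [if_neg hall]
    push Not at hall
    obtain ⟨y₀, hy₀, hz₀, hne⟩ := hall
    set S := ∑ y, (if y ∈ K then lam (x * y * x⁻¹ * y⁻¹) else 0) with hS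
    have h1 : S = lam (x * y₀ * x⁻¹ * y₀⁻¹) * S := by
      rw [hS]
      conv_lhs => rw [← Equiv.sum_comp (Equiv.mulLeft y₀)]
      rw [Finset.mul_sum]
      refine Finset.sum_congr rfl fun y _ => ?_
      have e1 : (Equiv.mulLeft y₀ y) = y₀ * y := rfl
      rw [e1]
      by_cases hy : y ∈ K
      · rw [if_pos hy, if_pos (K.mul_mem hy₀ hy)]
        have e2 : x * (y₀ * y) * x⁻¹ * (y₀ * y)⁻¹ =
            (x * y₀ * x⁻¹ * y₀⁻¹) * (y₀ * (x * y * x⁻¹ * y⁻¹) * y₀⁻¹) := by group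
        rw [e2]
        by_cases hz : x * y * x⁻¹ * y⁻¹ ∈ Z
        · rw [hlam.2.2 _ hz₀ _ (hn y₀ hy₀ _ hz), hinv y₀ hy₀]
        · rw [hlam.1 _ hz, mul_zero, hlam.1]
          intro h2
          apply hz
          have h3 := Z.mul_mem (Z.inv_mem hz₀) h2
          rw [inv_mul_cancel_left] at h3
          have h4 := hn y₀⁻¹ (K.inv_mem hy₀) _ h3
          have e3 : y₀⁻¹ * (y₀ * (x * y * x⁻¹ * y⁻¹) * y₀⁻¹) * y₀⁻¹⁻¹ = x * y * x⁻¹ * y⁻¹ := by
            group
          rwa [e3] at h4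
      · rw [if_neg hy, if_neg, mul_zero]
        intro h2
        apply hy
        have h3 := K.mul_mem (K.inv_mem hy₀) h2
        rwa [inv_mul_cancel_left] at h3
    have h2 : (lam (x * y₀ * x⁻¹ * y₀⁻¹) - 1) * S = 0 := by
      linear_combination -h1
    rcases mul_eq_zero.1 h2 with h3 | h3
    · exact absurd (sub_eq_zero.1 h3) hne
    · exact h3

private theorem c08_card {G₁ G₂ : Type} [Group G₁] [Fintype G₁] [Group G₂] [Fintype G₂]
    (φ : G₁ →* G₂) {B : Subgroup G₂} (hB : B ≤ φ.range) :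
    (Nat.card (B.comap φ) : ℂ) = (Nat.card φ.ker : ℂ) * Nat.card B := by
  have h := c08_pull φ hB (F := fun y => if y ∈ B then 1 else 0) (fun y hy => if_neg hy)
  have h1 : ∑ x, (if φ x ∈ B then (1 : ℂ) else 0) = (Nat.card (B.comap φ) : ℂ) := by
    rw [Finset.sum_boole, ← Fintype.card_subtype, ← Nat.card_eq_fintype_card]
    rfl
  have h2 : ∑ y, (if y ∈ B then (1 : ℂ) else 0) = (Nat.card B : ℂ) := by
    rw [Finset.sum_boole, ← Fintype.card_subtype, ← Nat.card_eq_fintype_card]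
  rw [h1, h2] at h
  exact h

theorem card_irrO_compare {X : Type} [Group X] [Fintype X] (π : X →* G) {K Z : Subgroup G}
    {lam : G → ℂ} {lamX : X → ℂ} (hK : K ≤ π.range) (hZ : Z ≤ K) (hn : Nrm K Z)
    (hlam : IsLin Z lam) (hinv : Inv K lam)
    (hlamX : IsLin (Z.comap π) lamX) (hinvX : Inv (K.comap π) lamX)
    (h : ∀ x y : X, π x ∈ K → π y ∈ K → π (x * y * x⁻¹ * y⁻¹) ∈ Z →
      (lamX (x * y * x⁻¹ * y⁻¹) = 1 ↔ lam (π (x * y * x⁻¹ * y⁻¹)) = 1)) :
    Nat.card (IrrO (K.comap π) (Z.comap π) lamX) = Nat.card (IrrO K Z lam) := by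
  have hk : (Nat.card π.ker : ℂ) ≠ 0 := by exact_mod_cast Nat.card_pos.ne'
  have hcK : (Nat.card K : ℂ) ≠ 0 := by exact_mod_cast Nat.card_pos.ne'
  have hcZ : (Nat.card Z : ℂ) ≠ 0 := by exact_mod_cast Nat.card_pos.ne'
  have hnX : Nrm (K.comap π) (Z.comap π) := by
    intro a ha z hz
    rw [Subgroup.mem_comap] at ha hz ⊢
    rw [map_mul, map_mul, map_inv]
    exact hn _ ha _ hz
  have hG := card_irrO hZ hn hlam hinv
  have hX := card_irrO (Subgroup.comap_mono (f := π) hZ) hnX hlamX hinvX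
  set Φ : G → ℂ := fun a => ∑ b, (if a ∈ K ∧ b ∈ K then lam (a * b * a⁻¹ * b⁻¹) else 0) with hΦ
  have hinner : ∀ x : X, (∑ y, (if x ∈ K.comap π ∧ y ∈ K.comap π then
      lamX (x * y * x⁻¹ * y⁻¹) else 0)) = (Nat.card π.ker : ℂ) * Φ (π x) := by
    intro x
    by_cases hx : π x ∈ K
    swap
    · have h1 : Φ (π x) = 0 := by
        rw [hΦ]
        apply Finset.sum_eq_zero
        intro b _
        rw [if_neg (fun h' => hx h'.1)]
      rw [h1, mul_zero]
      apply Finset.sum_eq_zero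
      intro y _
      rw [if_neg (fun h' => hx h'.1)]
    have h1 : (∑ y, (if x ∈ K.comap π ∧ y ∈ K.comap π then
        lamX (x * y * x⁻¹ * y⁻¹) else 0)) =
        ∑ y, (if y ∈ K.comap π then lamX (x * y * x⁻¹ * y⁻¹) else 0) := by
      refine Finset.sum_congr rfl fun y _ => ?_
      by_cases hy : y ∈ K.comap π
      · rw [if_pos ⟨hx, hy⟩, if_pos hy]
      · rw [if_neg (fun h' => hy h'.2), if_neg hy]
    have h2 : Φ (π x) = ∑ b, (if b ∈ K then lam (π x * b * (π x)⁻¹ * b⁻¹) else 0) := by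
      rw [hΦ]
      refine Finset.sum_congr rfl fun y _ => ?_
      by_cases hy : y ∈ K
      · rw [if_pos ⟨hx, hy⟩, if_pos hy]
      · rw [if_neg (fun h' => hy h'.2), if_neg hy]
    rw [h1, h2, c08_sum hnX hlamX hinvX, c08_sum hn hlam hinv]
    have hiff : (∀ y ∈ K.comap π, x * y * x⁻¹ * y⁻¹ ∈ Z.comap π →
        lamX (x * y * x⁻¹ * y⁻¹) = 1) ↔
        ∀ b ∈ K, π x * b * (π x)⁻¹ * b⁻¹ ∈ Z → lam (π x * b * (π x)⁻¹ * b⁻¹) = 1 := by
      constructor
      · intro h3 b hb hz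
        obtain ⟨y, rfl⟩ := hK hb
        have e1 : π (x * y * x⁻¹ * y⁻¹) = π x * π y * (π x)⁻¹ * (π y)⁻¹ := by
          simp only [map_mul, map_inv]
        rw [← e1] at hz ⊢
        exact (h x y hx hb hz).1 (h3 y hb hz)
      · intro h3 y hy hz
        have e1 : π (x * y * x⁻¹ * y⁻¹) = π x * π y * (π x)⁻¹ * (π y)⁻¹ := by
          simp only [map_mul, map_inv]
        have hz' : π (x * y * x⁻¹ * y⁻¹) ∈ Z := hz
        have h4 := h3 (π y) hy (by rw [← e1]; exact hz')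
        rw [← e1] at h4
        exact (h x y hx hy hz').2 h4
    by_cases hc : ∀ b ∈ K, π x * b * (π x)⁻¹ * b⁻¹ ∈ Z → lam (π x * b * (π x)⁻¹ * b⁻¹) = 1
    · rw [if_pos hc, if_pos (hiff.2 hc)]
      rw [← c08_pull π hK (F := fun b => if b ∈ K ∧ π x * b * (π x)⁻¹ * b⁻¹ ∈ Z then 1 else 0)
        (fun y hy => if_neg (fun h' => hy h'.1))]
      refine Finset.sum_congr rfl fun y _ => ?_
      have e1 : π (x * y * x⁻¹ * y⁻¹) = π x * π y * (π x)⁻¹ * (π y)⁻¹ := by
        simp only [map_mul, map_inv]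
      have h5 : (y ∈ K.comap π ∧ x * y * x⁻¹ * y⁻¹ ∈ Z.comap π) ↔
          (π y ∈ K ∧ π x * π y * (π x)⁻¹ * (π y)⁻¹ ∈ Z) := by
        rw [Subgroup.mem_comap, Subgroup.mem_comap, e1]
      by_cases h6 : π y ∈ K ∧ π x * π y * (π x)⁻¹ * (π y)⁻¹ ∈ Z
      · rw [if_pos h6, if_pos (h5.2 h6)]
      · rw [if_neg h6, if_neg (fun h' => h6 (h5.1 h'))]
    · rw [if_neg hc, if_neg (fun h' => hc (hiff.1 h')), mul_zero]
  have hsum : (∑ x : X, ∑ y, (if x ∈ K.comap π ∧ y ∈ K.comap π then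
      lamX (x * y * x⁻¹ * y⁻¹) else 0)) =
      (Nat.card π.ker : ℂ) * ((Nat.card π.ker : ℂ) * ∑ a, Φ a) := by
    rw [Finset.sum_congr rfl fun x _ => hinner x, ← Finset.mul_sum,
      c08_pull π hK (F := Φ) (fun a ha => by
        rw [hΦ]
        apply Finset.sum_eq_zero
        intro b _
        rw [if_neg (fun h' => ha h'.1)])]
  rw [hsum, c08_card π hK, c08_card π (hZ.trans hK)] at hX
  have hfin : (Nat.card (IrrO (K.comap π) (Z.comap π) lamX) : ℂ) = Nat.card (IrrO K Z lam) := by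
    rw [hX, hG]
    field_simp
  exact_mod_cast hfin

end Pool.Agent.CTab
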