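import Pool.Agent.CTab.Defs
import Pool.Agent.CTab.B01
import Pool.Agent.CTab.B11
import Pool.Agent.CTab.B13

/-!
Transport of the counted sets along a homomorphism `φ : G₁ → G₂` whose kernel is contained in `Z.comap φ` (automatic).
`α ↦ α ∘ φ` is a bijection (`pull_isIr`, `descend_irr`); a character `χ₁` of `A.comap φ` whose restriction to `H.comap φ` is
`Over (Z.comap φ) (lam ∘ φ)` is invariant under `ker φ` (`lam (φ k) = lam 1 = 1`, scalar lemma), so it descends.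
-/

set_option autoImplicit false

namespace Pool.Agent.CTab

open scoped Classical

variable {G : Type} [Group G] [Fintype G]

theorem tset_comap {G₁ G₂ : Type} [Group G₁] [Fintype G₁] [Group G₂] [Fintype G₂] (φ : G₁ →* G₂)
    {A H Z : Subgroup G₂} {lam : G₂ → ℂ} (hA : A ≤ φ.range) (hH : H ≤ A) (hZ : Z ≤ H)
    (hlam : IsLin Z lam) :
    Nat.card (TSet (A.comap φ) (H.comap φ) (Z.comap φ) (fun x => lam (φ x))) =
      Nat.card (TSet A H Z lam) := by
  sorry

theorem irrO_comap {G₁ G₂ : Type} [Group G₁] [Fintype G₁] [Group G₂] [Fintype G₂] (φ : G₁ →* G₂)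
    {K Z : Subgroup G₂} {lam : G₂ → ℂ} (hK : K ≤ φ.range) (hZ : Z ≤ K) (hlam : IsLin Z lam) :
    Nat.card (IrrO (K.comap φ) (Z.comap φ) (fun x => lam (φ x))) = Nat.card (IrrO K Z lam) := by
  sorry

/-- linear characters pull back and descend -/
theorem lin_comap {G₁ G₂ : Type} [Group G₁] [Fintype G₁] [Group G₂] [Fintype G₂] (φ : G₁ →* G₂)
    {Z : Subgroup G₂} {lam : G₂ → ℂ} (hlam : IsLin Z lam) :
    IsLin (Z.comap φ) (fun x => lam (φ x)) := by
  sorry

theorem lin_descend {G₁ G₂ : Type} [Group G₁] [Fintype G₁] [Group G₂] [Fintype G₂] (φ : G₁ →* G₂)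
    {Z : Subgroup G₁} {lam : G₁ → ℂ} (hlam : IsLin Z lam) (hk : ∀ k ∈ Z, φ k = 1 → lam k = 1) :
    ∃ lam₂ : G₂ → ℂ, IsLin (Z.map φ) lam₂ ∧ ∀ z ∈ Z, lam₂ (φ z) = lam z := by
  sorry

end Pool.Agent.CTab
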