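import Pool.Agent.CTab.Defs
import Pool.Agent.CTab.B01
import Pool.Agent.CTab.B02
import Pool.Agent.CTab.B03
import Pool.Agent.CTab.B04
import Pool.Agent.CTab.B08
import Pool.Agent.CTab.B10
import Pool.Agent.CTab.B11
import Pool.Agent.CTab.B13
import Pool.Agent.CTab.C01

/-!
Characters of `K ⊔ R` (with `K` normalising `R`) on which `R` acts trivially correspond to characters of `K` on which
`K ⊓ R` acts trivially, by restriction. (For the inverse use a matrix representation `r` of `K`, trivial on `K ⊓ R`, and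
define it on `k r'` as `r k`.) Norms agree.
-/

set_option autoImplicit false

namespace Pool.Agent.CTab

open scoped Classical

variable {G : Type} [Group G] [Fintype G]

private lemma c10_mem {K R : Subgroup G} (hn : Nrm K R) {x : G} (hx : x ∈ K ⊔ R) :
    ∃ k ∈ K, ∃ r ∈ R, x = k * r := by
  let S : Subgroup G :=
    { carrier := {x | ∃ k ∈ K, ∃ r ∈ R, x = k * r}
      mul_mem' := by
        rintro _ _ ⟨k, hk, r, hr, rfl⟩ ⟨k', hk', r', hr', rfl⟩
        have h1 := hn k'⁻¹ (K.inv_mem hk') r hr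
        refine ⟨k * k', K.mul_mem hk hk', _, R.mul_mem h1 hr', ?_⟩
        group
      one_mem' := ⟨1, K.one_mem, 1, R.one_mem, by group⟩
      inv_mem' := by
        rintro _ ⟨k, hk, r, hr, rfl⟩
        have h1 := hn k hk r⁻¹ (R.inv_mem hr)
        refine ⟨k⁻¹, K.inv_mem hk, _, h1, ?_⟩
        group }
  have h1 : K ⊔ R ≤ S := by
    apply sup_le
    · intro k hk
      exact ⟨k, hk, 1, R.one_mem, by group⟩
    · intro r hr
      exact ⟨1, K.one_mem, r, hr, by group⟩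
  exact h1 hx

private lemma c10_nrm {K R : Subgroup G} (hn : Nrm K R) : Nrm (K ⊔ R) R := by
  intro a ha s hs
  obtain ⟨k, hk, r, hr, rfl⟩ := c10_mem hn ha
  have h1 : k * r * s * (k * r)⁻¹ = k * (r * s * r⁻¹) * k⁻¹ := by group
  rw [h1]
  exact hn k hk _ (R.mul_mem (R.mul_mem hr hs) (R.inv_mem hr))

private lemma c10_count {K R : Subgroup G} (hn : Nrm K R) {x : G} (hx : x ∈ K ⊔ R) :
    ∑ k : G, (if k ∈ K ∧ k⁻¹ * x ∈ R then (1 : ℂ) else 0) =
      (Nat.card (K ⊓ R : Subgroup G) : ℂ) := by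
  obtain ⟨k0, hk0, r0, hr0, rfl⟩ := c10_mem hn hx
  rw [← Equiv.sum_comp (Equiv.mulLeft k0)]
  have h1 : ∀ k : G, (if (Equiv.mulLeft k0) k ∈ K ∧ ((Equiv.mulLeft k0) k)⁻¹ * (k0 * r0) ∈ R
      then (1 : ℂ) else 0) = if k ∈ K ⊓ R then 1 else 0 := by
    intro k
    rw [Equiv.coe_mulLeft]
    have e1 : k0 * k ∈ K ↔ k ∈ K := K.mul_mem_cancel_left hk0
    have e2 : (k0 * k)⁻¹ * (k0 * r0) ∈ R ↔ k ∈ R := by
      have e3 : (k0 * k)⁻¹ * (k0 * r0) = k⁻¹ * r0 := by group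
      rw [e3, R.mul_mem_cancel_right hr0, R.inv_mem_iff]
    by_cases hk : k ∈ K ∧ k ∈ R
    · rw [if_pos ⟨e1.mpr hk.1, e2.mpr hk.2⟩, if_pos (Subgroup.mem_inf.mpr hk)]
    · rw [if_neg (fun h => hk ⟨e1.mp h.1, e2.mp h.2⟩), if_neg (fun h => hk (Subgroup.mem_inf.mp h))]
  rw [Finset.sum_congr rfl fun k _ => h1 k, Finset.sum_boole, ← Fintype.card_subtype,
    ← Nat.card_eq_fintype_card]

private lemma c10_sumR (R : Subgroup G) (c : ℂ) :
    ∑ r : G, (if r ∈ R then c else 0) = (Nat.card R : ℂ) * c := by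
  rw [← Finset.sum_filter, Finset.sum_const, nsmul_eq_mul]
  congr 2
  rw [Nat.card_eq_fintype_card, Fintype.card_subtype]

/-- sums over `K ⊔ R` of functions invariant under `R` -/
private lemma c10_sum {K R : Subgroup G} (hn : Nrm K R) {F : G → ℂ} (h0 : ∀ x, x ∉ K ⊔ R → F x = 0)
    (hR : ∀ x, ∀ r ∈ R, F (x * r) = F x) :
    (Nat.card (K ⊓ R : Subgroup G) : ℂ) * ∑ x, F x =
      (Nat.card R : ℂ) * ∑ x, (if x ∈ K then F x else 0) := by
  have h1 : (Nat.card (K ⊓ R : Subgroup G) : ℂ) * ∑ x, F x =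
      ∑ x, ∑ k : G, (if k ∈ K ∧ k⁻¹ * x ∈ R then F x else 0) := by
    rw [Finset.mul_sum]
    apply Finset.sum_congr rfl
    intro x _
    by_cases hx : x ∈ K ⊔ R
    · rw [← c10_count hn hx, Finset.sum_mul]
      apply Finset.sum_congr rfl
      intro k _
      split_ifs
      · rw [one_mul]
      · rw [zero_mul]
    · rw [h0 x hx, mul_zero]
      symm
      apply Finset.sum_eq_zero
      intro k _
      split_ifs
      · rfl
      · rfl
  rw [h1, Finset.sum_comm, Finset.mul_sum]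
  apply Finset.sum_congr rfl
  intro k _
  by_cases hk : k ∈ K
  · rw [if_pos hk, ← c10_sumR, ← Equiv.sum_comp (Equiv.mulLeft k)]
    apply Finset.sum_congr rfl
    intro r _
    rw [Equiv.coe_mulLeft, inv_mul_cancel_left]
    by_cases hr : r ∈ R
    · rw [if_pos ⟨hk, hr⟩, if_pos hr, hR k r hr]
    · rw [if_neg (fun h => hr h.2), if_neg hr]
  · rw [if_neg hk, mul_zero]
    apply Finset.sum_eq_zero
    intro x _
    rw [if_neg (fun h => hk h.1)]

private lemma c10_card {K R : Subgroup G} (hn : Nrm K R) :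
    (Nat.card (K ⊓ R : Subgroup G) : ℂ) * (Nat.card (K ⊔ R : Subgroup G) : ℂ) =
      (Nat.card R : ℂ) * (Nat.card K : ℂ) := by
  have h1 := c10_sum hn (F := fun x => if x ∈ K ⊔ R then (1 : ℂ) else 0)
    (fun x hx => if_neg hx) (by
      intro x r hr
      have hr' : r ∈ K ⊔ R := (le_sup_right : R ≤ K ⊔ R) hr
      by_cases hx : x ∈ K ⊔ R
      · rw [if_pos hx, if_pos ((K ⊔ R).mul_mem hx hr')]
      · rw [if_neg hx, if_neg (fun h => hx (((K ⊔ R).mul_mem_cancel_right hr').mp h))])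
  rw [c10_sumR, mul_one] at h1
  have h2 : ∀ x : G, (if x ∈ K then (if x ∈ K ⊔ R then (1 : ℂ) else 0) else 0) =
      if x ∈ K then 1 else 0 := by
    intro x
    by_cases hx : x ∈ K
    · rw [if_pos hx, if_pos hx, if_pos ((le_sup_left : K ≤ K ⊔ R) hx)]
    · rw [if_neg hx, if_neg hx]
  rw [Finset.sum_congr rfl fun x _ => h2 x, c10_sumR, mul_one] at h1
  exact h1

private lemma c10_ip {K R : Subgroup G} {f : G → ℂ} (hn : Nrm K R)
    (h0 : ∀ x, x ∉ K ⊔ R → f x = 0) (hR : ∀ x, ∀ r ∈ R, f (x * r) = f x) :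
    ip (K ⊔ R) f f = ip K (res K f) (res K f) := by
  have h1 := c10_sum hn (F := fun x => f x * (starRingEnd ℂ) (f x))
    (fun x hx => by rw [h0 x hx, zero_mul]) (fun x r hr => by rw [hR x r hr])
  have h2 : ∀ x : G, res K f x * (starRingEnd ℂ) (res K f x) =
      if x ∈ K then f x * (starRingEnd ℂ) (f x) else 0 := by
    intro x
    unfold res
    by_cases hx : x ∈ K
    · rw [if_pos hx, if_pos hx]
    · rw [if_neg hx, if_neg hx, zero_mul]
  have h3 := c10_card hn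
  have n1 : (Nat.card (K ⊓ R : Subgroup G) : ℂ) ≠ 0 := by exact_mod_cast Nat.card_pos.ne'
  have n2 : (Nat.card (K ⊔ R : Subgroup G) : ℂ) ≠ 0 := by exact_mod_cast Nat.card_pos.ne'
  have n3 : (Nat.card R : ℂ) ≠ 0 := by exact_mod_cast Nat.card_pos.ne'
  have n4 : (Nat.card K : ℂ) ≠ 0 := by exact_mod_cast Nat.card_pos.ne'
  unfold ip
  rw [Finset.sum_congr rfl fun x _ => h2 x]
  apply mul_left_cancel₀ n1
  rw [mul_left_comm, h1, inv_mul_eq_iff_eq_mul₀ n2]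
  have h4 : (Nat.card (K ⊔ R : Subgroup G) : ℂ) * ((Nat.card (K ⊓ R : Subgroup G) : ℂ) *
      ((Nat.card K : ℂ)⁻¹ * ∑ x, (if x ∈ K then f x * (starRingEnd ℂ) (f x) else 0))) =
      ((Nat.card (K ⊓ R : Subgroup G) : ℂ) * (Nat.card (K ⊔ R : Subgroup G) : ℂ)) *
      ((Nat.card K : ℂ)⁻¹ * ∑ x, (if x ∈ K then f x * (starRingEnd ℂ) (f x) else 0)) := by ring
  rw [h4, h3, mul_assoc, mul_inv_cancel_left₀ n4]

theorem res_isIr_iff {K R : Subgroup G} {f : G → ℂ} (hn : Nrm K R) (hf : IsCh (K ⊔ R) f)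
    (hR : ∀ x, ∀ r ∈ R, f (x * r) = f x) : IsIr (K ⊔ R) f ↔ IsIr K (res K f) := by
  rw [isIr_iff, isIr_iff, c10_ip hn hf.1 hR]
  constructor
  · rintro ⟨_, h⟩
    exact ⟨hf.res le_sup_left, h⟩
  · rintro ⟨_, h⟩
    exact ⟨hf, h⟩

theorem exists_extend {K R : Subgroup G} {g : G → ℂ} (hn : Nrm K R) (hg : IsIr K g)
    (hk : ∀ x, ∀ k ∈ K ⊓ R, g (x * k) = g x) :
    ∃ f, IsIr (K ⊔ R) f ∧ (∀ x, ∀ r ∈ R, f (x * r) = f x) ∧ res K f = g := by
  set U : Subgroup G := K ⊔ R with hU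
  have hKU : K ≤ U := le_sup_left
  have hRU : R ≤ U := le_sup_right
  haveI hNn : (R.subgroupOf U).Normal := by
    constructor
    intro r hr a
    rw [Subgroup.mem_subgroupOf] at hr ⊢
    exact c10_nrm hn a a.2 r hr
  haveI : Fintype (U ⧸ R.subgroupOf U) := Fintype.ofFinite _
  set μ : U →* U ⧸ R.subgroupOf U := QuotientGroup.mk' (R.subgroupOf U) with hμ
  set ψ : K →* U ⧸ R.subgroupOf U := μ.comp (Subgroup.inclusion hKU) with hψ
  have hμ1 : ∀ u : U, μ u = 1 ↔ (u : G) ∈ R := by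
    intro u
    rw [hμ, QuotientGroup.mk'_apply, QuotientGroup.eq_one_iff, Subgroup.mem_subgroupOf]
  have hψs : Function.Surjective ψ := by
    intro q
    obtain ⟨u, rfl⟩ := QuotientGroup.mk'_surjective (R.subgroupOf U) q
    obtain ⟨k, hk, r, hr, hu⟩ := c10_mem hn u.2
    refine ⟨⟨k, hk⟩, ?_⟩
    have h1 : u = (⟨k, hKU hk⟩ : U) * ⟨r, hRU hr⟩ := Subtype.ext hu
    have h2 : μ (⟨r, hRU hr⟩ : U) = 1 := (hμ1 _).mpr hr
    show μ (⟨k, hKU hk⟩ : U) = μ u
    rw [h1, map_mul, h2, mul_one]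
  have hKr : K ≤ K.subtype.range := by rw [Subgroup.range_subtype]
  have hUr : U ≤ U.subtype.range := by rw [Subgroup.range_subtype]
  have g1 : IsIr (K.comap K.subtype) (fun x => g (K.subtype x)) := pull_isIr K.subtype hKr hg
  have hKK : K.comap K.subtype = ⊤ := Subgroup.subgroupOf_self K
  have hUU : U.comap U.subtype = ⊤ := Subgroup.subgroupOf_self U
  rw [hKK, ← Subgroup.comap_top ψ] at g1
  obtain ⟨f2, hf2, hf2'⟩ := descend_irr ψ (B := ⊤) (by rw [MonoidHom.range_eq_top.mpr hψs]) g1 (by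
    intro k hk' x
    have h1 : (k : G) ∈ R := by
      have h2 : μ (Subgroup.inclusion hKU k) = 1 := hk'
      exact (hμ1 _).mp h2
    exact hk x k ⟨k.2, h1⟩)
  have f3 : IsIr ((⊤ : Subgroup (U ⧸ R.subgroupOf U)).comap μ) (fun u => f2 (μ u)) :=
    pull_isIr μ (by rw [MonoidHom.range_eq_top.mpr (QuotientGroup.mk'_surjective _)]) hf2
  rw [Subgroup.comap_top, ← hUU] at f3
  obtain ⟨F, hF, hF'⟩ := descend_irr U.subtype (B := U) hUr f3 (by
    intro k hk' x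
    have h1 : k = 1 := by
      apply Subtype.ext
      exact hk'
    rw [h1, mul_one])
  have hFU : ∀ x (hx : x ∈ U), F x = f2 (μ ⟨x, hx⟩) := fun x hx => (hF' ⟨x, hx⟩).symm
  refine ⟨F, hF, ?_, ?_⟩
  · intro x r hr
    by_cases hx : x ∈ U
    · rw [hFU _ hx, hFU _ (U.mul_mem hx (hRU hr))]
      have h1 : (⟨x * r, U.mul_mem hx (hRU hr)⟩ : U) = ⟨x, hx⟩ * ⟨r, hRU hr⟩ := rfl
      have h2 : μ (⟨r, hRU hr⟩ : U) = 1 := (hμ1 _).mpr hr
      rw [h1, map_mul, h2, mul_one]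
    · rw [hF.1 x hx, hF.1 _ (fun h => hx ((U.mul_mem_cancel_right (hRU hr)).mp h))]
  · funext x
    unfold res
    by_cases hx : x ∈ K
    · rw [if_pos hx, hFU _ (hKU hx)]
      exact (hf2' ⟨x, hx⟩).symm
    · rw [if_neg hx, hg.1 x hx]

/-- a function on `K ⊔ R` invariant under `R` is determined by its restriction to `K` -/
theorem eq_of_res {K R : Subgroup G} {f f' : G → ℂ} (hn : Nrm K R)
    (hf0 : ∀ x, x ∉ K ⊔ R → f x = 0) (hf0' : ∀ x, x ∉ K ⊔ R → f' x = 0)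
    (hf : ∀ x, ∀ r ∈ R, f (x * r) = f x) (hf' : ∀ x, ∀ r ∈ R, f' (x * r) = f' x)
    (h : res K f = res K f') : f = f' := by
  funext x
  by_cases hx : x ∈ K ⊔ R
  · obtain ⟨k, hk, r, hr, rfl⟩ := c10_mem hn hx
    rw [hf k r hr, hf' k r hr]
    have h1 := congrFun h k
    unfold res at h1
    rw [if_pos hk, if_pos hk] at h1
    exact h1
  · rw [hf0 x hx, hf0' x hx]

theorem card_irrO_sup {K R W : Subgroup G} {lam : G → ℂ} (hn : Nrm K R) (hRW : R ≤ W)
    (hWK : W ≤ K ⊔ R) (hlam : IsLin W lam) (h1 : ∀ r ∈ R, lam r = 1) :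
    Nat.card (IrrO (K ⊔ R) W lam) = Nat.card (IrrO K (K ⊓ W) lam) := by
  have hinv : ∀ f, Over W lam f → ∀ x, ∀ r ∈ R, f (x * r) = f x := by
    intro f hf x r hr
    rw [hf x r (hRW hr), h1 r hr, mul_one]
  have hmem : ∀ f ∈ IrrO (K ⊔ R) W lam, res K f ∈ IrrO K (K ⊓ W) lam := by
    rintro f ⟨hf, hfo⟩
    refine ⟨(res_isIr_iff hn hf.isCh (hinv f hfo)).mp hf, ?_⟩
    intro x n hn'
    unfold res
    by_cases hx : x ∈ K
    · rw [if_pos hx, if_pos (K.mul_mem hx hn'.1), hfo x n hn'.2]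
    · rw [if_neg hx, if_neg (fun h => hx ((K.mul_mem_cancel_right hn'.1).mp h)), zero_mul]
  let Φ : IrrO (K ⊔ R) W lam → IrrO K (K ⊓ W) lam := fun f => ⟨res K f.1, hmem f.1 f.2⟩
  apply Nat.card_eq_of_bijective Φ
  constructor
  · rintro ⟨f, hf⟩ ⟨f', hf'⟩ he
    have h2 : res K f = res K f' := congrArg Subtype.val he
    exact Subtype.ext (eq_of_res hn hf.1.1 hf'.1.1 (hinv f hf.2) (hinv f' hf'.2) h2)
  · rintro ⟨g, hg, hgo⟩
    obtain ⟨f, hf, hfR, hfg⟩ := exists_extend hn hg (by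
      intro x k hk
      rw [hgo x k ⟨hk.1, hRW hk.2⟩, h1 k hk.2, mul_one])
    refine ⟨⟨f, hf, ?_⟩, Subtype.ext hfg⟩
    have hfK : ∀ k ∈ K, f k = g k := by
      intro k hk
      rw [← hfg]
      unfold res
      rw [if_pos hk]
    intro x n hn'
    have hnU := hWK hn'
    by_cases hx : x ∈ K ⊔ R
    · obtain ⟨k', hk', r', hr', rfl⟩ := c10_mem hn hx
      obtain ⟨k, hk, r, hr, rfl⟩ := c10_mem hn hnU
      have hkW : k ∈ W := by
        have h2 := W.mul_mem hn' (W.inv_mem (hRW hr))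
        rwa [mul_inv_cancel_right] at h2
      have e1 : k' * r' * (k * r) = (k' * k) * ((k⁻¹ * r' * k⁻¹⁻¹) * r) := by group
      have h3 : (k⁻¹ * r' * k⁻¹⁻¹) * r ∈ R := R.mul_mem (hn k⁻¹ (K.inv_mem hk) r' hr') hr
      rw [e1, hfR _ _ h3, hfR _ _ hr', hfK _ (K.mul_mem hk' hk), hfK _ hk',
        hgo k' k ⟨hk, hkW⟩, hlam.2.2 k hkW r (hRW hr), h1 r hr, mul_one]
    · rw [hf.1 x hx, hf.1 _ (fun h => hx (((K ⊔ R).mul_mem_cancel_right hnU).mp h)), zero_mul]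

end Pool.Agent.CTab
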