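import Mathlib

/-!
# Characters of subgroups of a finite group, as zero-extended functions

All characters of a subgroup `A` of the (finite) ambient group `G` are functions `G → ℂ`
which vanish outside `A`.
-/

set_option autoImplicit false

namespace Pool.Agent.CTab

open scoped Classical

noncomputable section

variable {G : Type} [Group G] [Fintype G]

/-- `f` is the (zero-extended) character of a finite-dimensional complex representation of `A`. -/
def IsCh (A : Subgroup G) (f : G → ℂ) : Prop :=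
  (∀ x, x ∉ A → f x = 0) ∧ ∃ V : FDRep ℂ A, ∀ a : A, V.character a = f a

/-- `f` is the (zero-extended) character of an irreducible complex representation of `A`. -/
def IsIr (A : Subgroup G) (f : G → ℂ) : Prop :=
  (∀ x, x ∉ A → f x = 0) ∧
    ∃ V : FDRep ℂ A, CategoryTheory.Simple V ∧ ∀ a : A, V.character a = f a

/-- class functions on `A`, extended by zero -/
def Cls (A : Subgroup G) (f : G → ℂ) : Prop :=
  (∀ x, x ∉ A → f x = 0) ∧ ∀ a ∈ A, ∀ x, f (a * x * a⁻¹) = f x

/-- inner product of functions supported on `A` -/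
def ip (A : Subgroup G) (f g : G → ℂ) : ℂ :=
  (Nat.card A : ℂ)⁻¹ * ∑ x, f x * (starRingEnd ℂ) (g x)

/-- restriction to `B`, extended by zero -/
def res (B : Subgroup G) (f : G → ℂ) : G → ℂ := fun x => if x ∈ B then f x else 0

/-- induction from `B` to `A` (for `B ≤ A` and `f` supported on `B`) -/
def ind (A B : Subgroup G) (f : G → ℂ) : G → ℂ := fun x =>
  if x ∈ A then (Nat.card B : ℂ)⁻¹ * ∑ a, (if a ∈ A then f (a⁻¹ * x * a) else 0) else 0

/-- the set of irreducible characters of `A`, as a finset (it is finite, see `mem_irr`) -/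
def irr (A : Subgroup G) : Finset (G → ℂ) :=
  if h : {f : G → ℂ | IsIr A f}.Finite then h.toFinset else ∅

/-- linear characters of `N`, extended by zero -/
def IsLin (N : Subgroup G) (μ : G → ℂ) : Prop :=
  (∀ x, x ∉ N → μ x = 0) ∧ μ 1 = 1 ∧ ∀ x ∈ N, ∀ y ∈ N, μ (x * y) = μ x * μ y

/-- `N` acts by the scalars `μ` in the representation(s) affording `f` -/
def Over (N : Subgroup G) (μ f : G → ℂ) : Prop := ∀ x, ∀ n ∈ N, f (x * n) = f x * μ n

/-- `f` lies over `μ` (a character of `N`) -/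
def Lies (N : Subgroup G) (μ f : G → ℂ) : Prop := ip N (res N f) μ ≠ 0

/-- `A` normalises `N` -/
def Nrm (A N : Subgroup G) : Prop := ∀ a ∈ A, ∀ n ∈ N, a * n * a⁻¹ ∈ N

/-- `μ` is invariant under conjugation by `A` -/
def Inv (A : Subgroup G) (μ : G → ℂ) : Prop := ∀ a ∈ A, ∀ x, μ (a * x * a⁻¹) = μ x

/-- the stabiliser of `μ` in `A` -/
def stab (A : Subgroup G) (μ : G → ℂ) : Subgroup G where
  carrier := {a | a ∈ A ∧ ∀ x, μ (a * x * a⁻¹) = μ x}
  mul_mem' := by
    rintro a b ⟨ha, ha'⟩ ⟨hb, hb'⟩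
    refine ⟨A.mul_mem ha hb, fun x => ?_⟩
    have : a * b * x * (a * b)⁻¹ = a * (b * x * b⁻¹) * a⁻¹ := by group
    rw [this, ha', hb']
  one_mem' := ⟨A.one_mem, fun x => by simp⟩
  inv_mem' := by
    rintro a ⟨ha, ha'⟩
    refine ⟨A.inv_mem ha, fun x => ?_⟩
    have := ha' (a⁻¹ * x * a⁻¹⁻¹)
    rw [← this]
    congr 1
    group

/-- `H` is a `p`-complement and `P` a Sylow `p`-subgroup of `A` -/
def Cpl (p : ℕ) (A H P : Subgroup G) : Prop :=
  H ≤ A ∧ P ≤ A ∧ IsPGroup p P ∧ ¬ p ∣ Nat.card H ∧ Nat.card H * Nat.card P = Nat.card A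

/-- `N_H(P)` -/
def KK (H P : Subgroup G) : Subgroup G := H ⊓ Subgroup.normalizer (P : Set G)

/-- the irreducible characters of `H` over `lam` which extend to `A` -/
def TSet (A H Z : Subgroup G) (lam : G → ℂ) : Set (G → ℂ) :=
  {α | IsIr H α ∧ Over Z lam α ∧ ∃ χ, IsIr A χ ∧ res H χ = α}

/-- the irreducible characters of `K` over `lam` -/
def IrrO (K Z : Subgroup G) (lam : G → ℂ) : Set (G → ℂ) :=
  {α | IsIr K α ∧ Over Z lam α}

/-- matrix representation of the subgroup `L` (no condition outside `L`) -/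
def IsMRep {d : ℕ} (L : Subgroup G) (r : G → Matrix (Fin d) (Fin d) ℂ) : Prop :=
  r 1 = 1 ∧ ∀ x ∈ L, ∀ y ∈ L, r (x * y) = r x * r y

/-- the trivial linear character of the trivial subgroup -/
def del : G → ℂ := fun x => if x = 1 then 1 else 0

end

/-- The main statement, for a fixed prime `p` and index at most `n`. -/
def StmtS (p n : ℕ) : Prop :=
  ∀ (G : Type) [Group G] [Fintype G] (A H P Z : Subgroup G) (lam : G → ℂ),
    Group.IsSolvable A → Cpl p A H P → Z ≤ H → Nrm A Z → IsLin Z lam → Inv A lam →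
    Nat.card A ≤ n * Nat.card Z →
    Nat.card (TSet A H Z lam) = Nat.card (IrrO (KK H P) (KK H P ⊓ Z) lam)

/-- The same for `Z` central in `A` and `lam` faithful. -/
def StmtF (p n : ℕ) : Prop :=
  ∀ (G : Type) [Group G] [Fintype G] (A H P Z : Subgroup G) (lam : G → ℂ),
    Group.IsSolvable A → Cpl p A H P → Z ≤ H → (∀ a ∈ A, ∀ z ∈ Z, a * z = z * a) →
    IsLin Z lam → (∀ z ∈ Z, lam z = 1 → z = 1) →
    Nat.card A ≤ n * Nat.card Z →
    Nat.card (TSet A H Z lam) = Nat.card (IrrO (KK H P) (KK H P ⊓ Z) lam)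

/-- `σ` identifies the character tables of `G` and `G'`. -/
def TabIso {G G' : Type} [Group G] [Group G'] (σ : ConjClasses G ≃ ConjClasses G') : Prop :=
  ∀ ψ : G' → ℂ,
    ((∃ W : FDRep ℂ G', CategoryTheory.Simple W ∧ W.character = ψ) ↔
      ∃ χ : G → ℂ, (∃ V : FDRep ℂ G, CategoryTheory.Simple V ∧ V.character = χ) ∧
        ∀ g : G, ∀ h : G', σ (ConjClasses.mk g) = ConjClasses.mk h → χ g = ψ h)

end Pool.Agent.CTab
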