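import Pool.Agent.CTab.Defs
import Pool.Agent.CTab.G01

/-!
Pure counting. `C ≤ K` normalised by `K`, commutators of `K` in `C`. For `x ∈ K` the centraliser `C_K(x)` modulo `C_C(x)`
embeds in `K/C`, so `|C_K(x)| |C| ≤ |K| |C_C(x)|`; sum over `x`. Equality forces `C_K(x) C = K` for every `x ∈ K`; if `C` is
commutative this makes `C` central (take `x ∈ C`: every `k ∈ K` is `y c⁻¹` with `y` commuting with `x`) and then `K`
commutative.
-/

set_option autoImplicit false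

namespace Pool.Agent.CTab

open scoped Classical

variable {G : Type} [Group G] [Fintype G]

/-- `C_M(x)` -/
private def f01D (M : Subgroup G) (x : G) : Subgroup G := M ⊓ Subgroup.centralizer {x}

private lemma f01_mem {M : Subgroup G} {x y : G} : y ∈ f01D M x ↔ y ∈ M ∧ x * y = y * x := by
  unfold f01D
  rw [Subgroup.mem_inf, Subgroup.mem_centralizer_singleton_iff]
  constructor
  · rintro ⟨h1, h2⟩; exact ⟨h1, h2.symm⟩
  · rintro ⟨h1, h2⟩; exact ⟨h1, h2.symm⟩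

private lemma f01_rel {H K : Subgroup G} (h : H ≤ K) : H.relIndex K * Nat.card H = Nat.card K := by
  have h1 := (H.subgroupOf K).index_mul_card
  rw [Nat.card_congr (Subgroup.subgroupOfEquivOfLe h).toEquiv] at h1
  exact h1

private lemma f01_sum (K M : Subgroup G) :
    Nat.card {xy : G × G // xy.1 ∈ K ∧ xy.2 ∈ M ∧ xy.1 * xy.2 = xy.2 * xy.1} =
      ∑ x : K, Nat.card (f01D M (x : G)) := by
  rw [← Nat.card_sigma]
  apply Nat.card_congr
  refine ⟨fun z => ⟨⟨z.1.1, z.2.1⟩, ⟨z.1.2, f01_mem.mpr ⟨z.2.2.1, z.2.2.2⟩⟩⟩,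
    fun z => ⟨(z.1, z.2), z.1.2, (f01_mem.mp z.2.2).1, (f01_mem.mp z.2.2).2⟩, ?_, ?_⟩
  · rintro ⟨⟨x, y⟩, h⟩; rfl
  · rintro ⟨⟨x, hx⟩, ⟨y, hy⟩⟩; rfl

private lemma f01_le {K C : Subgroup G} (hCK : C ≤ K) (x : G) :
    Nat.card (f01D K x) * Nat.card C ≤ Nat.card K * Nat.card (f01D C x) := by
  have h1 : C.relIndex (f01D K x) * Nat.card (f01D C x) = Nat.card (f01D K x) := by
    have h2 : f01D C x ≤ f01D K x := by
      intro y hy
      rw [f01_mem] at hy ⊢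
      exact ⟨hCK hy.1, hy.2⟩
    have h3 := f01_rel h2
    have h4 : f01D C x = C ⊓ f01D K x := by
      ext y
      rw [Subgroup.mem_inf, f01_mem, f01_mem]
      constructor
      · rintro ⟨h5, h6⟩; exact ⟨h5, hCK h5, h6⟩
      · rintro ⟨h5, _, h6⟩; exact ⟨h5, h6⟩
    rw [h4, Subgroup.inf_relIndex_right] at h3
    rw [← h4] at h3
    exact h3
  have h5 : C.relIndex K * Nat.card C = Nat.card K := f01_rel hCK
  have h6 : C.relIndex (f01D K x) ≤ C.relIndex K := by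
    apply Subgroup.relIndex_le_of_le_right (fun y hy => (f01_mem.mp hy).1)
    intro h0
    rw [h0, zero_mul] at h5
    exact Nat.card_pos.ne' h5.symm
  calc Nat.card (f01D K x) * Nat.card C
      = C.relIndex (f01D K x) * (Nat.card (f01D C x) * Nat.card C) := by rw [← h1]; ring
    _ ≤ C.relIndex K * (Nat.card (f01D C x) * Nat.card C) := Nat.mul_le_mul_right _ h6
    _ = Nat.card K * Nat.card (f01D C x) := by rw [← h5]; ring

private lemma f01_eq {K C : Subgroup G} (hCK : C ≤ K) {x : G}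
    (he : Nat.card (f01D K x) * Nat.card C = Nat.card K * Nat.card (f01D C x)) {k : G} (hk : k ∈ K) :
    ∃ y ∈ f01D K x, y⁻¹ * k ∈ C := by
  have h1 : C.relIndex (f01D K x) * Nat.card (f01D C x) = Nat.card (f01D K x) := by
    have h2 : f01D C x ≤ f01D K x := by
      intro y hy
      rw [f01_mem] at hy ⊢
      exact ⟨hCK hy.1, hy.2⟩
    have h3 := f01_rel h2
    have h4 : f01D C x = C ⊓ f01D K x := by
      ext y
      rw [Subgroup.mem_inf, f01_mem, f01_mem]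
      constructor
      · rintro ⟨h5, h6⟩; exact ⟨h5, hCK h5, h6⟩
      · rintro ⟨h5, _, h6⟩; exact ⟨h5, h6⟩
    rw [h4, Subgroup.inf_relIndex_right] at h3
    rw [← h4] at h3
    exact h3
  have h5 : C.relIndex K * Nat.card C = Nat.card K := f01_rel hCK
  have h6 : C.relIndex (f01D K x) = C.relIndex K := by
    have hpos : 0 < Nat.card (f01D C x) * Nat.card C := Nat.mul_pos Nat.card_pos Nat.card_pos
    apply Nat.eq_of_mul_eq_mul_right hpos
    calc C.relIndex (f01D K x) * (Nat.card (f01D C x) * Nat.card C)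
        = Nat.card (f01D K x) * Nat.card C := by rw [← h1]; ring
      _ = Nat.card K * Nat.card (f01D C x) := he
      _ = C.relIndex K * (Nat.card (f01D C x) * Nat.card C) := by rw [← h5]; ring
  have hle : f01D K x ≤ K := fun y hy => (f01_mem.mp hy).1
  have hbij : Function.Surjective (Subgroup.quotientSubgroupOfEmbeddingOfLE C hle) := by
    apply (Function.Injective.bijective_of_nat_card_le
      (Subgroup.quotientSubgroupOfEmbeddingOfLE C hle).injective _).surjective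
    exact h6.ge
  obtain ⟨q, hq⟩ := hbij (QuotientGroup.mk ⟨k, hk⟩)
  obtain ⟨y, rfl⟩ := QuotientGroup.mk_surjective q
  refine ⟨y, y.2, ?_⟩
  have h7 : (QuotientGroup.mk (Subgroup.inclusion hle y) : K ⧸ C.subgroupOf K) =
      QuotientGroup.mk ⟨k, hk⟩ := hq
  rw [QuotientGroup.eq, Subgroup.mem_subgroupOf] at h7
  exact h7

theorem comm_bound {K C : Subgroup G} (hCK : C ≤ K) (hn : Nrm K C)
    (hab : ∀ x ∈ K, ∀ y ∈ K, x * y * x⁻¹ * y⁻¹ ∈ C) :
    Nat.card {xy : G × G // xy.1 ∈ K ∧ xy.2 ∈ K ∧ xy.1 * xy.2 = xy.2 * xy.1} * Nat.card C ≤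
      Nat.card K * Nat.card {xc : G × G // xc.1 ∈ K ∧ xc.2 ∈ C ∧ xc.1 * xc.2 = xc.2 * xc.1} := by
  rw [f01_sum, f01_sum, Finset.sum_mul, Finset.mul_sum]
  exact Finset.sum_le_sum fun x _ => f01_le hCK x

theorem comm_of_eq {K C : Subgroup G} (hCK : C ≤ K) (hn : Nrm K C)
    (hab : ∀ x ∈ K, ∀ y ∈ K, x * y * x⁻¹ * y⁻¹ ∈ C) (hC : ∀ x ∈ C, ∀ y ∈ C, x * y = y * x)
    (he : Nat.card {xy : G × G // xy.1 ∈ K ∧ xy.2 ∈ K ∧ xy.1 * xy.2 = xy.2 * xy.1} * Nat.card C =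
      Nat.card K * Nat.card {xc : G × G // xc.1 ∈ K ∧ xc.2 ∈ C ∧ xc.1 * xc.2 = xc.2 * xc.1}) :
    ∀ x ∈ K, ∀ y ∈ K, x * y = y * x := by
  rw [f01_sum, f01_sum, Finset.sum_mul, Finset.mul_sum] at he
  have h1 := (Finset.sum_eq_sum_iff_of_le (s := (Finset.univ : Finset K))
    (f := fun x : K => Nat.card (f01D K (x : G)) * Nat.card C)
    (g := fun x : K => Nat.card K * Nat.card (f01D C (x : G)))
    (fun x _ => f01_le hCK (x : G))).mp he
  have h2 : ∀ x ∈ K, ∀ k ∈ K, ∃ y c, x * y = y * x ∧ c ∈ C ∧ k = y * c := by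
    intro x hx k hk
    obtain ⟨y, hy, hyk⟩ := f01_eq hCK (h1 ⟨x, hx⟩ (Finset.mem_univ _)) hk
    exact ⟨y, y⁻¹ * k, (f01_mem.mp hy).2, hyk, by group⟩
  have h3 : ∀ x ∈ C, ∀ k ∈ K, x * k = k * x := by
    intro x hx k hk
    obtain ⟨y, c, hy, hc, rfl⟩ := h2 x (hCK hx) k hk
    rw [← mul_assoc, hy, mul_assoc, hC x hx c hc, mul_assoc]
  intro x hx k hk
  obtain ⟨y, c, hy, hc, rfl⟩ := h2 x hx k hk
  rw [← mul_assoc, hy, mul_assoc, ← h3 c hc x hx, mul_assoc]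

/-- the numerical conclusion -/
theorem final_step {G' : Type} [Group G'] [Fintype G'] {K C : Subgroup G} {K' C' : Subgroup G'}
    (hCK : C ≤ K) (hK : ∀ x ∈ K, ∀ y ∈ K, x * y = y * x)
    (hCK' : C' ≤ K') (hn' : Nrm K' C') (hab' : ∀ x ∈ K', ∀ y ∈ K', x * y * x⁻¹ * y⁻¹ ∈ C')
    (hC' : ∀ x ∈ C', ∀ y ∈ C', x * y = y * x) (hk : Nat.card K * Nat.card C' = Nat.card K' * Nat.card C)
    {t m : ℕ}
    (ht : t * Nat.card K = Nat.card {xy : G × G // xy.1 ∈ K ∧ xy.2 ∈ K ∧ xy.1 * xy.2 = xy.2 * xy.1})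
    (ht' : t * Nat.card K' = Nat.card {xy : G' × G' // xy.1 ∈ K' ∧ xy.2 ∈ K' ∧ xy.1 * xy.2 = xy.2 * xy.1})
    (hm : m * Nat.card K = Nat.card {xc : G × G // xc.1 ∈ K ∧ xc.2 ∈ C ∧ xc.1 * xc.2 = xc.2 * xc.1})
    (hm' : m * Nat.card K' = Nat.card {xc : G' × G' // xc.1 ∈ K' ∧ xc.2 ∈ C' ∧ xc.1 * xc.2 = xc.2 * xc.1}) :
    (∀ x ∈ K', ∀ y ∈ K', x * y = y * x) ∧ Nat.card K = Nat.card K' := by
  have hfull : ∀ {H : Type} [Group H] [Fintype H] (A B : Subgroup H),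
      (∀ x ∈ A, ∀ y ∈ B, x * y = y * x) →
      Nat.card {xy : H × H // xy.1 ∈ A ∧ xy.2 ∈ B ∧ xy.1 * xy.2 = xy.2 * xy.1} =
        Nat.card A * Nat.card B := by
    intro H _ _ A B h
    rw [← Nat.card_prod]
    apply Nat.card_congr
    refine ⟨fun z => (⟨z.1.1, z.2.1⟩, ⟨z.1.2, z.2.2.1⟩),
      fun z => ⟨(z.1, z.2), z.1.2, z.2.2, h _ z.1.2 _ z.2.2⟩, ?_, ?_⟩
    · rintro ⟨⟨x, y⟩, h⟩; rfl
    · rintro ⟨⟨x, hx⟩, ⟨y, hy⟩⟩; rfl
  have hKpos : 0 < Nat.card K := Nat.card_pos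
  have hKpos' : 0 < Nat.card K' := Nat.card_pos
  rw [hfull K K hK] at ht
  rw [hfull K C (fun x hx y hy => hK x hx y (hCK hy))] at hm
  have htK : t = Nat.card K := Nat.eq_of_mul_eq_mul_right hKpos ht
  have hmC : m = Nat.card C := by
    rw [mul_comm (Nat.card K)] at hm
    exact Nat.eq_of_mul_eq_mul_right hKpos hm
  have hcomm := comm_of_eq hCK' hn' hab' hC' (by
    rw [← ht', ← hm', htK, hmC]
    calc Nat.card K * Nat.card K' * Nat.card C' = Nat.card K' * (Nat.card K * Nat.card C') := by ring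
      _ = Nat.card K' * (Nat.card C * Nat.card K') := by rw [hk]; ring)
  refine ⟨hcomm, ?_⟩
  rw [hfull K' K' hcomm] at ht'
  rw [← htK]
  exact Nat.eq_of_mul_eq_mul_right hKpos' ht'

end Pool.Agent.CTab
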