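import Pool.Agent.CTab.Defs
import Pool.Agent.CTab.G01
import Pool.Agent.CTab.G02

/-!
Quotients. `φ : G₁ → G₂` any homomorphism, `P` a `p`-subgroup of `G₁`.
(a) `ker φ ≤ H` of order prime to `p`: `φ x` normalises `φ(P)` iff `x` normalises `P ker φ`, where `P` is a Sylow subgroup,
so `x ∈ N(P) ker φ`. (b) `ker φ ≤ P`. (c) `Cpl` passes to the image of `⊤` under a surjective `φ` with `ker φ ≤ H` or
`ker φ ≤ P`. (d) restriction of the ambient group to `A` (homomorphism `A.subtype`).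
-/

set_option autoImplicit false

namespace Pool.Agent.CTab

open scoped Classical

variable {G : Type} [Group G] [Fintype G]

namespace G03

theorem card_map_mul {G₂ : Type} [Group G₂] (φ : G →* G₂) (H : Subgroup G) :
    Nat.card (H.map φ) * Nat.card (H ⊓ φ.ker : Subgroup G) = Nat.card H := by
  set ψ : H →* G₂ := φ.comp H.subtype with hψ
  have h1 : ψ.range = H.map φ := by
    rw [hψ, MonoidHom.range_eq_map, ← Subgroup.map_map, ← MonoidHom.range_eq_map,
      Subgroup.range_subtype]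
  have h2 : Nat.card ψ.ker = Nat.card (H ⊓ φ.ker : Subgroup G) := by
    have h3 : ψ.ker = (H ⊓ φ.ker).subgroupOf H := by
      ext x
      simp [hψ, MonoidHom.mem_ker, Subgroup.mem_subgroupOf]
    rw [h3]
    exact Nat.card_congr (Subgroup.subgroupOfEquivOfLe inf_le_left).toEquiv
  have h4 := Subgroup.card_eq_card_quotient_mul_card_subgroup ψ.ker
  have h5 : Nat.card (H ⧸ ψ.ker) = Nat.card ψ.range :=
    Nat.card_congr (QuotientGroup.quotientKerEquivRange ψ).toEquiv
  rw [h5, h1, h2] at h4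
  exact h4.symm

theorem mem_KK {H P : Subgroup G} {x : G} :
    x ∈ KK H P ↔ x ∈ H ∧ ∀ v ∈ P, x * v * x⁻¹ ∈ P := by
  constructor
  · intro h
    obtain ⟨h1, h2⟩ := Subgroup.mem_inf.1 h
    exact ⟨h1, fun v hv => (Subgroup.mem_normalizer_iff.1 h2 v).1 hv⟩
  · rintro ⟨h1, h2⟩
    exact Subgroup.mem_inf.2 ⟨h1, Subgroup.mem_normalizer_fintype h2⟩

theorem coprime_card {p : ℕ} (hp : p.Prime) {P W : Subgroup G} (hP : IsPGroup p P)
    (hW : ¬ p ∣ Nat.card W) : Nat.Coprime (Nat.card P) (Nat.card W) := by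
  haveI : Fact p.Prime := ⟨hp⟩
  obtain ⟨n, hn⟩ := IsPGroup.iff_card.1 hP
  rw [hn]
  exact Nat.Coprime.pow_left n ((Nat.Prime.coprime_iff_not_dvd hp).2 hW)

theorem inf_bot {p : ℕ} (hp : p.Prime) {P W : Subgroup G} (hP : IsPGroup p P)
    (hW : ¬ p ∣ Nat.card W) : P ⊓ W = ⊥ :=
  Subgroup.inf_eq_bot_of_coprime (coprime_card hp hP hW)

/-- a `p`-subgroup is conjugate into a subgroup of index prime to `p` -/
theorem conj_into {p : ℕ} (hp : p.Prime) {P Q S : Subgroup G} (hP : IsPGroup p P) (hPS : P ≤ S)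
    (hQS : Q ≤ S) (hidx : ¬ p ∣ (Q.subgroupOf S).index) :
    ∃ s ∈ S, ∀ v ∈ P, s⁻¹ * v * s ∈ Q := by
  haveI : Fact p.Prime := ⟨hp⟩
  have hP' : IsPGroup p (P.subgroupOf S) := hP.comap_subtype
  have hfix := hP'.nonempty_fixed_point_of_prime_not_dvd_card (S ⧸ Q.subgroupOf S)
    (by rw [← Subgroup.index]; exact hidx)
  obtain ⟨y, hy⟩ := hfix
  obtain ⟨s, rfl⟩ := QuotientGroup.mk_surjective y
  refine ⟨s, s.2, fun v hv => ?_⟩
  have h1 := hy ⟨⟨v, hPS hv⟩, hv⟩
  have h2 : ((⟨v, hPS hv⟩ * s : S) : S ⧸ Q.subgroupOf S) = (s : S ⧸ Q.subgroupOf S) := h1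
  have h3 := QuotientGroup.eq.1 h2.symm
  have h4 : ((s⁻¹ * (⟨v, hPS hv⟩ * s) : S) : G) ∈ Q := h3
  simpa [mul_assoc] using h4

end G03

open G03

theorem KK_comap_p' {p : ℕ} (hp : p.Prime) {G₂ : Type} [Group G₂] [Fintype G₂] (φ : G →* G₂)
    {H P : Subgroup G} (hP : IsPGroup p P) (hk : φ.ker ≤ H) (hpk : ¬ p ∣ Nat.card φ.ker) :
    (KK (H.map φ) (P.map φ)).comap φ = KK H P ⊔ φ.ker := by
  apply le_antisymm
  · intro x hx
    rw [Subgroup.mem_comap, mem_KK] at hx
    obtain ⟨hx1, hx2⟩ := hx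
    obtain ⟨h, hh, hhx⟩ := Subgroup.mem_map.1 hx1
    have hxH : x ∈ H := by
      have h1 : h⁻¹ * x ∈ φ.ker := by
        rw [MonoidHom.mem_ker, map_mul, map_inv, hhx, inv_mul_cancel]
      have h2 : x = h * (h⁻¹ * x) := by group
      rw [h2]
      exact H.mul_mem hh (hk h1)
    -- the product `S = P ker`
    set S : Subgroup G := P ⊔ φ.ker with hS
    have hSmem : ∀ g, φ g ∈ P.map φ → g ∈ S := by
      intro g hg
      obtain ⟨v, hv, hvg⟩ := Subgroup.mem_map.1 hg
      have h1 : v⁻¹ * g ∈ φ.ker := by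
        rw [MonoidHom.mem_ker, map_mul, map_inv, hvg, inv_mul_cancel]
      have h2 : g = v * (v⁻¹ * g) := by group
      rw [h2]
      exact S.mul_mem (Subgroup.mem_sup_left hv) (Subgroup.mem_sup_right h1)
    set Q : Subgroup G := P.map (MulAut.conj x).toMonoidHom with hQ
    have hQmem : ∀ g, g ∈ Q → x⁻¹ * g * x ∈ P := by
      intro g hg
      obtain ⟨v, hv, hvg⟩ := Subgroup.mem_map.1 hg
      have h1 : g = x * v * x⁻¹ := by
        rw [← hvg]
        rfl
      rw [h1]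
      have h2 : x⁻¹ * (x * v * x⁻¹) * x = v := by group
      rw [h2]
      exact hv
    have hQS : Q ≤ S := by
      intro g hg
      obtain ⟨v, hv, hvg⟩ := Subgroup.mem_map.1 hg
      apply hSmem
      have h1 : g = x * v * x⁻¹ := by
        rw [← hvg]
        rfl
      rw [h1, map_mul, map_mul, map_inv]
      exact hx2 _ (Subgroup.mem_map_of_mem φ hv)
    have hcQ : Nat.card Q = Nat.card P :=
      Subgroup.card_map_of_injective (MulAut.conj x).injective
    have hcop := coprime_card hp hP hpk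
    have hcS : Nat.card S = Nat.card P * Nat.card φ.ker := by
      have h1 := card_map_mul φ S
      have h2 := card_map_mul φ P
      have h3 : S.map φ = P.map φ := by
        rw [hS, Subgroup.map_sup]
        have h4 : φ.ker.map φ = ⊥ := by
          rw [Subgroup.map_eq_bot_iff]
        rw [h4, sup_bot_eq]
      have h5 : S ⊓ φ.ker = φ.ker := inf_eq_right.2 le_sup_right
      have h6 : Nat.card (P ⊓ φ.ker : Subgroup G) = 1 := by
        rw [inf_bot hp hP hpk]
        exact Subgroup.card_bot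
      rw [h6, mul_one] at h2
      rw [h5, h3, h2] at h1
      exact h1.symm
    have hidx : ¬ p ∣ (Q.subgroupOf S).index := by
      have h1 : Nat.card (Q.subgroupOf S) = Nat.card Q :=
        Nat.card_congr (Subgroup.subgroupOfEquivOfLe hQS).toEquiv
      have h2 := Subgroup.card_mul_index (Q.subgroupOf S)
      rw [h1, hcQ, hcS] at h2
      have h3 : 0 < Nat.card P := Nat.card_pos
      have h4 : (Q.subgroupOf S).index = Nat.card φ.ker := Nat.eq_of_mul_eq_mul_left h3 h2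
      rw [h4]
      exact hpk
    obtain ⟨s, hs, hs2⟩ := conj_into hp hP (S := S) le_sup_left hQS hidx
    -- write `s = v0 k`
    haveI : φ.ker.Normal := φ.normal_ker
    have hs' : s ∈ ((P ⊔ φ.ker : Subgroup G) : Set G) := hs
    rw [Subgroup.mul_normal] at hs'
    obtain ⟨v0, hv0, k, hk1, hkv⟩ := Set.mem_mul.1 hs'
    have hmem : k * x ∈ KK H P := by
      have hinv : (k * x)⁻¹ ∈ KK H P := by
        rw [mem_KK]
        refine ⟨H.inv_mem (H.mul_mem (hk hk1) hxH), fun v hv => ?_⟩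
        have h1 := hQmem _ (hs2 (v0 * v * v0⁻¹) (P.mul_mem (P.mul_mem hv0 hv) (P.inv_mem hv0)))
        have h2 : x⁻¹ * (s⁻¹ * (v0 * v * v0⁻¹) * s) * x = (k * x)⁻¹ * v * (k * x)⁻¹⁻¹ := by
          rw [← hkv]
          group
        rw [← h2]
        exact h1
      have := (KK H P).inv_mem hinv
      rwa [inv_inv] at this
    have h2 : x = k⁻¹ * (k * x) := by group
    rw [h2]
    exact Subgroup.mul_mem _ (Subgroup.mem_sup_right (Subgroup.inv_mem _ hk1))
      (Subgroup.mem_sup_left hmem)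
  · rw [sup_le_iff]
    constructor
    · intro x hx
      rw [mem_KK] at hx
      rw [Subgroup.mem_comap, mem_KK]
      refine ⟨Subgroup.mem_map_of_mem φ hx.1, fun w hw => ?_⟩
      obtain ⟨v, hv, rfl⟩ := Subgroup.mem_map.1 hw
      rw [← map_inv, ← map_mul, ← map_mul]
      exact Subgroup.mem_map_of_mem φ (hx.2 v hv)
    · intro x hx
      rw [Subgroup.mem_comap, MonoidHom.mem_ker.1 hx]
      exact Subgroup.one_mem _

theorem KK_comap_p {p : ℕ} (hp : p.Prime) {G₂ : Type} [Group G₂] [Fintype G₂] (φ : G →* G₂)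
    {H P : Subgroup G} (hP : IsPGroup p P) (hk : φ.ker ≤ P) :
    (KK (H.map φ) (P.map φ)).comap φ = KK H P ⊔ φ.ker := by
  apply le_antisymm
  · intro x hx
    rw [Subgroup.mem_comap, mem_KK] at hx
    obtain ⟨hx1, hx2⟩ := hx
    obtain ⟨h, hh, hhx⟩ := Subgroup.mem_map.1 hx1
    have h1 : h⁻¹ * x ∈ φ.ker := by
      rw [MonoidHom.mem_ker, map_mul, map_inv, hhx, inv_mul_cancel]
    have hPm : ∀ g, φ g ∈ P.map φ → g ∈ P := by
      intro g hg
      obtain ⟨v, hv, hvg⟩ := Subgroup.mem_map.1 hg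
      have h1 : v⁻¹ * g ∈ φ.ker := by
        rw [MonoidHom.mem_ker, map_mul, map_inv, hvg, inv_mul_cancel]
      have h2 : g = v * (v⁻¹ * g) := by group
      rw [h2]
      exact P.mul_mem hv (hk h1)
    have hmem : h ∈ KK H P := by
      rw [mem_KK]
      refine ⟨hh, fun v hv => ?_⟩
      apply hPm
      rw [map_mul, map_mul, map_inv, hhx]
      exact hx2 _ (Subgroup.mem_map_of_mem φ hv)
    have h2 : x = h * (h⁻¹ * x) := by group
    rw [h2]
    exact Subgroup.mul_mem _ (Subgroup.mem_sup_left hmem) (Subgroup.mem_sup_right h1)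
  · rw [sup_le_iff]
    constructor
    · intro x hx
      rw [mem_KK] at hx
      rw [Subgroup.mem_comap, mem_KK]
      refine ⟨Subgroup.mem_map_of_mem φ hx.1, fun w hw => ?_⟩
      obtain ⟨v, hv, rfl⟩ := Subgroup.mem_map.1 hw
      rw [← map_inv, ← map_mul, ← map_mul]
      exact Subgroup.mem_map_of_mem φ (hx.2 v hv)
    · intro x hx
      rw [Subgroup.mem_comap, MonoidHom.mem_ker.1 hx]
      exact Subgroup.one_mem _

theorem G03.card_img {G₂ : Type} [Group G₂] [Fintype G₂] (φ : G →* G₂)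
    (hs : Function.Surjective φ) :
    Nat.card (⊤ : Subgroup G₂) * Nat.card φ.ker = Nat.card (⊤ : Subgroup G) := by
  have h1 := card_map_mul φ (⊤ : Subgroup G)
  rw [Subgroup.map_top_of_surjective φ hs, top_inf_eq] at h1
  exact h1

theorem G03.card_dvd {G₂ : Type} [Group G₂] (φ : G →* G₂) (H : Subgroup G) :
    Nat.card (H.map φ) ∣ Nat.card H := by
  rw [← card_map_mul φ H]
  exact dvd_mul_right _ _

theorem Cpl.map_p' {p : ℕ} (hp : p.Prime) {G₂ : Type} [Group G₂] [Fintype G₂] (φ : G →* G₂)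
    (hs : Function.Surjective φ) {H P : Subgroup G} (h : Cpl p ⊤ H P) (hk : φ.ker ≤ H) :
    Cpl p ⊤ (H.map φ) (P.map φ) := by
  obtain ⟨-, -, hP, hH, hc⟩ := h
  refine ⟨le_top, le_top, hP.map φ, fun hd => hH (hd.trans (G03.card_dvd φ H)), ?_⟩
  have hpk : ¬ p ∣ Nat.card φ.ker := fun hd => hH (hd.trans (Subgroup.card_dvd_of_le hk))
  have h1 := card_map_mul φ H
  have h2 := card_map_mul φ P
  have h3 := G03.card_img φ hs
  rw [inf_bot hp hP hpk, Subgroup.card_bot, mul_one] at h2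
  rw [inf_eq_right.2 hk] at h1
  rw [← h1, ← h2, ← h3] at hc
  have h0 : 0 < Nat.card φ.ker := Nat.card_pos
  refine Nat.eq_of_mul_eq_mul_right h0 ?_
  rw [← hc]
  ring

theorem Cpl.map_p {p : ℕ} (hp : p.Prime) {G₂ : Type} [Group G₂] [Fintype G₂] (φ : G →* G₂)
    (hs : Function.Surjective φ) {H P : Subgroup G} (h : Cpl p ⊤ H P) (hk : φ.ker ≤ P) :
    Cpl p ⊤ (H.map φ) (P.map φ) := by
  obtain ⟨-, -, hP, hH, hc⟩ := h
  refine ⟨le_top, le_top, hP.map φ, fun hd => hH (hd.trans (G03.card_dvd φ H)), ?_⟩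
  have h1 := card_map_mul φ H
  have h2 := card_map_mul φ P
  have h3 := G03.card_img φ hs
  have h4 : H ⊓ φ.ker = ⊥ := by
    rw [eq_bot_iff, ← inf_bot hp hP hH, inf_comm P H]
    exact inf_le_inf_left H hk
  rw [h4, Subgroup.card_bot, mul_one] at h1
  rw [inf_eq_right.2 hk] at h2
  rw [← h1, ← h2, ← h3] at hc
  have h0 : 0 < Nat.card φ.ker := Nat.card_pos
  refine Nat.eq_of_mul_eq_mul_right h0 ?_
  rw [← hc]
  ring

theorem Cpl.subgroupOf {p : ℕ} {A H P : Subgroup G} (h : Cpl p A H P) :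
    Cpl p (⊤ : Subgroup A) (H.comap A.subtype) (P.comap A.subtype) ∧
      KK (H.comap A.subtype) (P.comap A.subtype) = (KK H P).comap A.subtype ∧ KK H P ≤ A := by
  obtain ⟨hHA, hPA, hP, hH, hc⟩ := h
  have e1 : Nat.card (H.comap A.subtype) = Nat.card H :=
    Nat.card_congr (Subgroup.subgroupOfEquivOfLe hHA).toEquiv
  have e2 : Nat.card (P.comap A.subtype) = Nat.card P :=
    Nat.card_congr (Subgroup.subgroupOfEquivOfLe hPA).toEquiv
  refine ⟨⟨le_top, le_top, hP.comap_subtype, by rwa [e1], ?_⟩, ?_, fun x hx => hHA (mem_KK.1 hx).1⟩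
  · rw [e1, e2, hc, Subgroup.card_top]
  · ext a
    rw [mem_KK, Subgroup.mem_comap, Subgroup.mem_comap, mem_KK]
    refine and_congr Iff.rfl ⟨fun h v hv => ?_, fun h v hv => ?_⟩
    · exact h ⟨v, hPA hv⟩ hv
    · exact h v hv

end Pool.Agent.CTab
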