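import Pool.Agent.CTab.Defs

/-!
Chief factors in solvable groups. `A` solvable, `Z < A` normalised by `A`: a minimal subgroup `L` with `Z < L ≤ A`,
`Nrm A L`. The derived subgroup of `L` times `Z` is again such, so `[L, L] ≤ Z` (solvability), and for a prime `ℓ` dividing
`|L : Z|` the subgroup `{x ∈ L | x ^ ℓ ∈ Z}` is normalised by `A` and bigger than `Z`, so it is `L`.
-/

set_option autoImplicit false

namespace Pool.Agent.CTab

open scoped Classical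

variable {G : Type} [Group G] [Fintype G]

private lemma g05_nrm_map {A N : Subgroup G} (h : Nrm A N) {a : G} (ha : a ∈ A) :
    N.map (MulAut.conj a).toMonoidHom ≤ N := by
  rintro _ ⟨n, hn, rfl⟩
  exact h a ha n hn

private lemma g05_map_nrm {A N : Subgroup G}
    (h : ∀ a ∈ A, N.map (MulAut.conj a).toMonoidHom ≤ N) : Nrm A N := by
  intro a ha n hn
  exact h a ha ⟨n, hn, rfl⟩

private lemma g05_nrm_sup {A M N : Subgroup G} (hM : Nrm A M) (hN : Nrm A N) : Nrm A (M ⊔ N) := by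
  apply g05_map_nrm
  intro a ha
  rw [Subgroup.map_sup]
  exact sup_le_sup (g05_nrm_map hM ha) (g05_nrm_map hN ha)

private lemma g05_nrm_comm {A M : Subgroup G} (hM : Nrm A M) : Nrm A ⁅M, M⁆ := by
  apply g05_map_nrm
  intro a ha
  rw [Subgroup.map_commutator]
  exact Subgroup.commutator_mono (g05_nrm_map hM ha) (g05_nrm_map hM ha)

theorem exists_chief {A Z : Subgroup G} (hs : Group.IsSolvable A) (hZ : Z ≤ A) (hn : Nrm A Z)
    (hne : Z ≠ A) :
    ∃ (L : Subgroup G) (l : ℕ), l.Prime ∧ Z < L ∧ L ≤ A ∧ Nrm A L ∧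
      (∀ x ∈ L, ∀ y ∈ L, x * y * x⁻¹ * y⁻¹ ∈ Z) ∧ (∀ x ∈ L, x ^ l ∈ Z) ∧
      ∀ M : Subgroup G, Z ≤ M → M ≤ L → Nrm A M → M = Z ∨ M = L := by
  obtain ⟨L, hL, hmin⟩ := exists_minimal_of_wellFoundedLT
    (fun L : Subgroup G => Z < L ∧ L ≤ A ∧ Nrm A L)
    ⟨A, lt_of_le_of_ne hZ hne, le_rfl, fun a ha n hn => A.mul_mem (A.mul_mem ha hn) (A.inv_mem ha)⟩
  obtain ⟨hZL, hLA, hnL⟩ := hL
  have key : ∀ M : Subgroup G, Z ≤ M → M ≤ L → Nrm A M → M = Z ∨ M = L := by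
    intro M h1 h2 h3
    by_cases hM : M = Z
    · exact Or.inl hM
    · right
      have hlt : Z < M := lt_of_le_of_ne h1 (fun h => hM h.symm)
      exact le_antisymm h2 (hmin ⟨hlt, h2.trans hLA, h3⟩ h2)
  have hnorm : (Z.subgroupOf L).Normal := by
    constructor
    intro n hn' g
    rw [Subgroup.mem_subgroupOf] at hn' ⊢
    exact hn g (hLA g.2) n hn'
  have hsL : Group.IsSolvable L :=
    Group.isSolvable_of_isSolvable_injective (f := Subgroup.inclusion hLA) (Subgroup.inclusion_injective hLA)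
  set f : L →* L ⧸ Z.subgroupOf L := QuotientGroup.mk' (Z.subgroupOf L) with hf
  have hfs : Function.Surjective f := QuotientGroup.mk'_surjective _
  have hf1 : ∀ x : L, f x = 1 ↔ (x : G) ∈ Z := by
    intro x
    rw [hf, QuotientGroup.mk'_apply, QuotientGroup.eq_one_iff, Subgroup.mem_subgroupOf]
  have hsQ : Group.IsSolvable (L ⧸ Z.subgroupOf L) := Group.isSolvable_of_surjective hfs
  obtain ⟨x0, hx0L, hx0Z⟩ := SetLike.exists_of_lt hZL
  have hnt : Nontrivial (L ⧸ Z.subgroupOf L) := by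
    refine ⟨⟨f ⟨x0, hx0L⟩, 1, ?_⟩⟩
    intro h
    exact hx0Z ((hf1 _).mp h)
  have hcomm : ∀ x ∈ L, ∀ y ∈ L, x * y * x⁻¹ * y⁻¹ ∈ Z := by
    have hM := key (Z ⊔ ⁅L, L⁆) le_sup_left (sup_le hZL.le (Subgroup.commutator_le_self L))
      (g05_nrm_sup hn (g05_nrm_comm hnL))
    rcases hM with h | h
    · intro x hx y hy
      have h1 := (le_sup_right : ⁅L, L⁆ ≤ Z ⊔ ⁅L, L⁆)
        (Subgroup.commutator_mem_commutator hx hy)
      rw [h] at h1
      exact h1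
    · exfalso
      have hlt := Group.IsSolvable.commutator_lt_top_of_nontrivial (L ⧸ Z.subgroupOf L)
      have hle : Z ⊔ ⁅L, L⁆ ≤ ((commutator (L ⧸ Z.subgroupOf L)).comap f).map L.subtype := by
        apply sup_le
        · intro z hz
          refine ⟨⟨z, hZL.le hz⟩, ?_, rfl⟩
          rw [SetLike.mem_coe, Subgroup.mem_comap]
          rw [(hf1 ⟨z, hZL.le hz⟩).mpr hz]
          exact Subgroup.one_mem _
        · rw [Subgroup.commutator_le]
          intro x hx y hy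
          refine ⟨⟨x, hx⟩ * ⟨y, hy⟩ * (⟨x, hx⟩ : L)⁻¹ * (⟨y, hy⟩ : L)⁻¹, ?_, rfl⟩
          rw [SetLike.mem_coe, Subgroup.mem_comap, map_mul, map_mul, map_mul, map_inv, map_inv]
          exact Subgroup.commutator_mem_commutator (Subgroup.mem_top _) (Subgroup.mem_top _)
      apply hlt.ne
      rw [eq_top_iff]
      intro q _
      obtain ⟨x, rfl⟩ := hfs q
      have hx : (x : G) ∈ Z ⊔ ⁅L, L⁆ := by
        rw [h]; exact x.2
      obtain ⟨y, hy, hyx⟩ := hle hx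
      have : y = x := Subtype.ext hyx
      rw [← this]
      exact hy
  have hQc : ∀ q r : L ⧸ Z.subgroupOf L, q * r = r * q := by
    intro q r
    obtain ⟨x, rfl⟩ := hfs q
    obtain ⟨y, rfl⟩ := hfs r
    have h1 : f (x * y * x⁻¹ * y⁻¹) = 1 := (hf1 _).mpr (hcomm x x.2 y y.2)
    simp only [map_mul, map_inv] at h1
    rw [mul_inv_eq_one, mul_inv_eq_iff_eq_mul] at h1
    exact h1
  have hfin : Finite (L ⧸ Z.subgroupOf L) := inferInstance
  have hcard : Nat.card (L ⧸ Z.subgroupOf L) ≠ 1 := by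
    intro h
    exact (not_subsingleton _) ((Nat.card_eq_one_iff_unique.mp h).1)
  obtain ⟨l, hl, hld⟩ := Nat.exists_prime_and_dvd hcard
  haveI : Fact l.Prime := ⟨hl⟩
  obtain ⟨q, hq⟩ := exists_prime_orderOf_dvd_card' l hld
  obtain ⟨x1, rfl⟩ := hfs q
  let M : Subgroup G :=
    { carrier := {x | ∃ h : x ∈ L, f ⟨x, h⟩ ^ l = 1}
      mul_mem' := by
        rintro x y ⟨hx, hx'⟩ ⟨hy, hy'⟩
        refine ⟨L.mul_mem hx hy, ?_⟩
        have : (⟨x * y, L.mul_mem hx hy⟩ : L) = ⟨x, hx⟩ * ⟨y, hy⟩ := rfl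
        rw [this, map_mul, (show Commute _ _ from hQc _ _).mul_pow, hx', hy', one_mul]
      one_mem' := by
        refine ⟨L.one_mem, ?_⟩
        have : (⟨1, L.one_mem⟩ : L) = 1 := rfl
        rw [this, map_one, one_pow]
      inv_mem' := by
        rintro x ⟨hx, hx'⟩
        refine ⟨L.inv_mem hx, ?_⟩
        have : (⟨x⁻¹, L.inv_mem hx⟩ : L) = (⟨x, hx⟩)⁻¹ := rfl
        rw [this, map_inv, inv_pow, hx', inv_one] }
  have hMmem : ∀ x, x ∈ M ↔ ∃ h : x ∈ L, x ^ l ∈ Z := by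
    intro x
    constructor
    · rintro ⟨h, h'⟩
      refine ⟨h, ?_⟩
      rw [← map_pow, hf1] at h'
      exact h'
    · rintro ⟨h, h'⟩
      refine ⟨h, ?_⟩
      rw [← map_pow, hf1]
      exact h'
  have hM := key M (by
      intro z hz
      rw [hMmem]
      exact ⟨hZL.le hz, Z.pow_mem hz l⟩) (by
      intro x hx
      rw [hMmem] at hx
      exact hx.1) (by
      intro a ha n hn'
      rw [hMmem] at hn' ⊢
      obtain ⟨h1, h2⟩ := hn'
      refine ⟨hnL a ha n h1, ?_⟩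
      rw [conj_pow]
      exact hn a ha _ h2)
  have hx1M : (x1 : G) ∈ M := by
    rw [hMmem]
    refine ⟨x1.2, ?_⟩
    have h2 : f (x1 ^ l) = 1 := by
      rw [map_pow, ← hq]
      exact pow_orderOf_eq_one _
    exact (hf1 _).mp h2
  have hx1Z : (x1 : G) ∉ Z := by
    intro h
    rw [← hf1] at h
    rw [h, orderOf_one] at hq
    exact hl.one_lt.ne hq
  have hML : M = L := by
    rcases hM with h | h
    · exact absurd (h ▸ hx1M) hx1Z
    · exact h
  refine ⟨L, l, hl, hZL, hLA, hnL, hcomm, ?_, key⟩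
  intro x hx
  rw [← hML, hMmem] at hx
  exact hx.2

/-- `Z` central of order prime to `p`, `L/Z` a `p`-group: the `p`-elements of `L` form a nontrivial normal subgroup
(`L` is `Z` times its Sylow `p`-subgroup; raise to the power `|Z|`). -/
theorem chief_p {p : ℕ} (hp : p.Prime) {A Z L : Subgroup G} (hZL : Z < L) (hLA : L ≤ A)
    (hn : Nrm A L) (hc : ∀ a ∈ A, ∀ z ∈ Z, a * z = z * a) (hpZ : ¬ p ∣ Nat.card Z)
    (hcomm : ∀ x ∈ L, ∀ y ∈ L, x * y * x⁻¹ * y⁻¹ ∈ Z) (hpow : ∀ x ∈ L, x ^ p ∈ Z) :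
    ∃ D : Subgroup G, D ≠ ⊥ ∧ D ≤ L ∧ IsPGroup p D ∧ Nrm A D := by
  have hcop : Nat.Coprime p (Nat.card Z) := (Nat.Prime.coprime_iff_not_dvd hp).mpr hpZ
  have hZp : ∀ z ∈ Z, z ^ p = 1 → z = 1 := by
    intro z hz hzp
    have h1 : orderOf z ∣ p := orderOf_dvd_of_pow_eq_one hzp
    have h2 : orderOf z ∣ Nat.card Z := by
      have := orderOf_dvd_natCard (⟨z, hz⟩ : Z)
      rwa [Subgroup.orderOf_mk] at this
    have h3 : orderOf z ∣ 1 := by
      have := Nat.dvd_gcd h1 h2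
      rwa [hcop] at this
    exact orderOf_eq_one_iff.mp (Nat.dvd_one.mp h3)
  -- `L` is abelian
  have hab : ∀ x ∈ L, ∀ y ∈ L, x * y = y * x := by
    intro x hx y hy
    set c := x * y * x⁻¹ * y⁻¹ with hcdef
    have hcZ : c ∈ Z := hcomm x hx y hy
    have hxy : x * y * x⁻¹ = c * y := by
      rw [hcdef]; group
    have hcy : Commute c y := (hc y (hLA hy) c hcZ).symm
    have h1 : x * y ^ p * x⁻¹ = c ^ p * y ^ p := by
      rw [← conj_pow, hxy, hcy.mul_pow]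
    have h2 : x * y ^ p * x⁻¹ = y ^ p := by
      rw [hc x (hLA hx) _ (hpow y hy)]; group
    have h3 : c ^ p = 1 := by
      rw [h2] at h1
      exact (mul_eq_right.mp h1.symm)
    have h4 : c = 1 := hZp c hcZ h3
    rw [h4, one_mul] at hxy
    exact mul_inv_eq_iff_eq_mul.mp hxy
  let D : Subgroup G :=
    { carrier := {x | x ∈ L ∧ x ^ p = 1}
      mul_mem' := by
        rintro x y ⟨hx, hx'⟩ ⟨hy, hy'⟩
        refine ⟨L.mul_mem hx hy, ?_⟩
        rw [(show Commute x y from hab x hx y hy).mul_pow, hx', hy', one_mul]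
      one_mem' := ⟨L.one_mem, one_pow _⟩
      inv_mem' := by
        rintro x ⟨hx, hx'⟩
        exact ⟨L.inv_mem hx, by rw [inv_pow, hx', inv_one]⟩ }
  obtain ⟨x0, hx0L, hx0Z⟩ := SetLike.exists_of_lt hZL
  refine ⟨D, ?_, fun x hx => hx.1, ?_, ?_⟩
  · intro hD
    have h1 : x0 ^ Nat.card Z ∈ D := by
      refine ⟨L.pow_mem hx0L _, ?_⟩
      rw [← pow_mul, mul_comm, pow_mul]
      have := pow_card_eq_one' (x := (⟨x0 ^ p, hpow x0 hx0L⟩ : Z))
      exact congrArg Subtype.val this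
    rw [hD, Subgroup.mem_bot] at h1
    apply hx0Z
    have h2 : orderOf x0 ∣ Nat.card Z := orderOf_dvd_of_pow_eq_one h1
    have h3 : Nat.Coprime p (orderOf x0) := Nat.Coprime.coprime_dvd_right h2 hcop
    obtain ⟨m, hm⟩ := exists_pow_eq_self_of_coprime h3
    rw [← hm]
    exact Z.pow_mem (hpow x0 hx0L) m
  · haveI : Fact p.Prime := ⟨hp⟩
    rw [IsPGroup.iff_orderOf]
    rintro ⟨x, hx⟩
    have h1 : orderOf (⟨x, hx⟩ : D) ∣ p := by
      rw [Subgroup.orderOf_mk]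
      exact orderOf_dvd_of_pow_eq_one hx.2
    rcases (Nat.dvd_prime hp).mp h1 with h | h
    · exact ⟨0, by rw [h, pow_zero]⟩
    · exact ⟨1, by rw [h, pow_one]⟩
  · rintro a ha n ⟨hnL, hn'⟩
    exact ⟨hn a ha n hnL, by rw [conj_pow, hn']; group⟩

theorem chief_p' {p l : ℕ} (hp : p.Prime) (hl : l.Prime) (hpl : l ≠ p) {Z L : Subgroup G}
    (hZL : Z ≤ L) (hnL : Nrm L Z) (hpZ : ¬ p ∣ Nat.card Z) (hpow : ∀ x ∈ L, x ^ l ∈ Z) :
    ¬ p ∣ Nat.card L := by
  intro hd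
  haveI : Fact p.Prime := ⟨hp⟩
  obtain ⟨x, hx⟩ := exists_prime_orderOf_dvd_card' p hd
  apply hpZ
  have h1 : orderOf (x ^ l) = p := by
    rw [Nat.Coprime.orderOf_pow, hx]
    rw [hx]
    exact (Nat.coprime_primes hp hl).mpr (Ne.symm hpl)
  have h2 : orderOf (⟨(x : G) ^ l, hpow x x.2⟩ : Z) = p := by
    rw [Subgroup.orderOf_mk, ← Subgroup.coe_pow, Subgroup.orderOf_coe, h1]
  rw [← h2]
  exact orderOf_dvd_natCard _

/-- a nontrivial normal `p`-subgroup contains a nontrivial abelian one (its centre) -/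
theorem exists_abelian_normal {p : ℕ} (hp : p.Prime) {A D : Subgroup G} (hD : D ≤ A)
    (hpD : IsPGroup p D) (hne : D ≠ ⊥) (hn : Nrm A D) :
    ∃ D₀ : Subgroup G, D₀ ≤ D ∧ D₀ ≠ ⊥ ∧ Nrm A D₀ ∧ ∀ x ∈ D₀, ∀ y ∈ D₀, x * y = y * x := by
  haveI : Fact p.Prime := ⟨hp⟩
  haveI : Nontrivial D := (Subgroup.nontrivial_iff_ne_bot D).mpr hne
  haveI : Finite D := inferInstance
  have hcn := hpD.center_nontrivial
  obtain ⟨z, hz⟩ := exists_ne (1 : Subgroup.center D)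
  refine ⟨(Subgroup.center D).map D.subtype, ?_, ?_, ?_, ?_⟩
  · rintro _ ⟨x, _, rfl⟩
    exact x.2
  · intro h
    apply hz
    have h1 : ((z : D) : G) ∈ (Subgroup.center D).map D.subtype := ⟨z, z.2, rfl⟩
    rw [h, Subgroup.mem_bot] at h1
    exact Subtype.ext (Subtype.ext h1)
  · rintro a ha _ ⟨x, hx, rfl⟩
    refine ⟨⟨a * x * a⁻¹, hn a ha x x.2⟩, ?_, rfl⟩
    rw [SetLike.mem_coe, Subgroup.mem_center_iff]
    rintro ⟨g, hg⟩
    apply Subtype.ext
    show g * (a * x * a⁻¹) = a * x * a⁻¹ * g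
    have hg' : a⁻¹ * g * a⁻¹⁻¹ ∈ D := hn a⁻¹ (A.inv_mem ha) g hg
    have h1 := (Subgroup.mem_center_iff.mp hx) ⟨_, hg'⟩
    have h2 : a⁻¹ * g * a⁻¹⁻¹ * (x : G) = x * (a⁻¹ * g * a⁻¹⁻¹) := congrArg Subtype.val h1
    have h3 : a * (a⁻¹ * g * a⁻¹⁻¹ * (x : G)) * a⁻¹ = a * (x * (a⁻¹ * g * a⁻¹⁻¹)) * a⁻¹ := by
      rw [h2]
    have e1 : a * (a⁻¹ * g * a⁻¹⁻¹ * (x : G)) * a⁻¹ = g * (a * x * a⁻¹) := by group
    have e2 : a * ((x : G) * (a⁻¹ * g * a⁻¹⁻¹)) * a⁻¹ = a * x * a⁻¹ * g := by group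
    rw [← e1, ← e2, h3]
  · rintro _ ⟨x, hx, rfl⟩ _ ⟨y, hy, rfl⟩
    have h1 := (Subgroup.mem_center_iff.mp hx) y
    exact (congrArg Subtype.val h1).symm

end Pool.Agent.CTab
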