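import Pool.Agent.CTab.Defs
import Pool.Agent.CTab.B01
import Pool.Agent.CTab.B11
import Pool.Agent.CTab.C05
import Pool.Agent.CTab.C09
import Pool.Agent.CTab.C10
import Pool.Agent.CTab.G01
import Pool.Agent.CTab.G02
import Pool.Agent.CTab.G03

/-!
Reduction of `StmtS p n` to `StmtF p n`. Given `(A, H, P, Z, lam)` let `E = {z ∈ Z | lam z = 1}`, normalised by `A`.
Pass to the ambient group `↥A` (`tset_comap`, `irrO_comap` for `A.subtype`, `Cpl.subgroupOf`), then to `G₂ = ↥A ⧸ E`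
(`QuotientGroup.mk'`), where the image of `Z` is central (`lam (a z a⁻¹ z⁻¹) = 1`) and the induced character `lam₂`
(`lin_descend`) is faithful; `tset_comap` for the quotient map; complement `H.map φ`, Sylow `P.map φ` (`Cpl.map_p'`);
`KK_comap_p'` gives `(KK H₂ P₂).comap φ = KK H P ⊔ E`, and `card_irrO_sup` (with `R = E`, `W = (KK H P ⊔ E) ⊓ Z`) removes
`E`. The index does not change.
-/

set_option autoImplicit false

namespace Pool.Agent.CTab

open scoped Classical

variable {G : Type} [Group G] [Fintype G]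

private lemma q01_congr {K W : Subgroup G} {lam lam' : G → ℂ} (h : ∀ x ∈ W, lam x = lam' x) :
    IrrO K W lam = IrrO K W lam' := by
  unfold IrrO Over
  ext α
  constructor
  · rintro ⟨h1, h2⟩
    exact ⟨h1, fun x n hn => by rw [h2 x n hn, h n hn]⟩
  · rintro ⟨h1, h2⟩
    exact ⟨h1, fun x n hn => by rw [h2 x n hn, ← h n hn]⟩

/-- the kernel of `lam` -/
private def q01E (Z : Subgroup G) {lam : G → ℂ} (hlam : IsLin Z lam) : Subgroup G where
  carrier := {z | z ∈ Z ∧ lam z = 1}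
  mul_mem' := by
    rintro a b ⟨ha, ha'⟩ ⟨hb, hb'⟩
    exact ⟨Z.mul_mem ha hb, by rw [hlam.2.2 a ha b hb, ha', hb', one_mul]⟩
  one_mem' := ⟨Z.one_mem, hlam.2.1⟩
  inv_mem' := by
    rintro a ⟨ha, ha'⟩
    refine ⟨Z.inv_mem ha, ?_⟩
    have h1 := hlam.2.2 a ha a⁻¹ (Z.inv_mem ha)
    rw [mul_inv_cancel, hlam.2.1, ha', one_mul] at h1
    exact h1.symm

private lemma q01_memE {Z : Subgroup G} {lam : G → ℂ} {hlam : IsLin Z lam} {z : G} :
    z ∈ q01E Z hlam ↔ z ∈ Z ∧ lam z = 1 := Iff.rfl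

private theorem q01_top {p n : ℕ} (hp : p.Prime) (h : StmtF p n) (G : Type) [Group G] [Fintype G]
    (H P Z : Subgroup G) (lam : G → ℂ) (hs : Group.IsSolvable (⊤ : Subgroup G)) (hc : Cpl p ⊤ H P)
    (hZH : Z ≤ H) (hn : Nrm ⊤ Z) (hlam : IsLin Z lam) (hinv : Inv ⊤ lam)
    (hidx : Nat.card (⊤ : Subgroup G) ≤ n * Nat.card Z) :
    Nat.card (TSet ⊤ H Z lam) = Nat.card (IrrO (KK H P) (KK H P ⊓ Z) lam) := by
  set E : Subgroup G := q01E Z hlam with hE
  have hEZ : E ≤ Z := fun z hz => (q01_memE.mp hz).1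
  haveI hEn : E.Normal := by
    constructor
    intro z hz g
    rw [hE, q01_memE] at hz ⊢
    exact ⟨hn g (Subgroup.mem_top g) z hz.1, by rw [hinv g (Subgroup.mem_top g) z, hz.2]⟩
  haveI : Fintype (G ⧸ E) := Fintype.ofFinite _
  set φ : G →* G ⧸ E := QuotientGroup.mk' E with hφ
  have hker : φ.ker = E := QuotientGroup.ker_mk' E
  have hsur : Function.Surjective φ := QuotientGroup.mk'_surjective E
  have hkZ : φ.ker ≤ Z := hker.le.trans hEZ
  have hkH : φ.ker ≤ H := hkZ.trans hZH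
  have hcZ : (Z.map φ).comap φ = Z := by
    rw [Subgroup.comap_map_eq]
    exact sup_eq_left.mpr hkZ
  have hcH : (H.map φ).comap φ = H := by
    rw [Subgroup.comap_map_eq]
    exact sup_eq_left.mpr hkH
  have hrange : ∀ B : Subgroup (G ⧸ E), B ≤ φ.range := by
    intro B
    rw [MonoidHom.range_eq_top.mpr hsur]
    exact le_top
  obtain ⟨lam₂, hlam₂, hlam₂'⟩ := lin_descend φ hlam (by
    intro k hk hk1
    have h1 : k ∈ E := by rw [← hker]; exact MonoidHom.mem_ker.mpr hk1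
    exact (q01_memE.mp h1).2)
  have hcomp : (fun x => lam₂ (φ x)) = lam := by
    funext x
    by_cases hx : x ∈ Z
    · exact hlam₂' x hx
    · rw [hlam.1 x hx]
      apply hlam₂.1
      intro h1
      apply hx
      rw [← hcZ]
      exact h1
  have hT := tset_comap φ (A := ⊤) (H := H.map φ) (Z := Z.map φ) (lam := lam₂) (hrange _) le_top
    (Subgroup.map_mono hZH) hlam₂
  rw [hcomp, hcH, hcZ, Subgroup.comap_top] at hT
  have hZ0 : Z ⊓ φ.ker = E := by rw [hker]; exact inf_eq_right.mpr hEZ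
  have hF := h (G ⧸ E) ⊤ (H.map φ) (P.map φ) (Z.map φ) lam₂ (by
      haveI := hs
      haveI h1 : Group.IsSolvable G :=
        Group.isSolvable_of_surjective (f := (⊤ : Subgroup G).subtype) (fun g => ⟨⟨g, Subgroup.mem_top g⟩, rfl⟩)
      infer_instance) (hc.map_p' hp φ hsur hkH) (Subgroup.map_mono hZH) (by
      intro a _ z hz
      obtain ⟨g, rfl⟩ := hsur a
      obtain ⟨z', hz', rfl⟩ := hz
      have h1 : g * z' * g⁻¹ * z'⁻¹ ∈ φ.ker := by
        rw [hker, hE, q01_memE]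
        have h2 := hn g (Subgroup.mem_top g) z' hz'
        refine ⟨Z.mul_mem h2 (Z.inv_mem hz'), ?_⟩
        rw [hlam.2.2 _ h2 _ (Z.inv_mem hz'), hinv g (Subgroup.mem_top g) z',
          ← hlam.2.2 _ hz' _ (Z.inv_mem hz'), mul_inv_cancel, hlam.2.1]
      rw [MonoidHom.mem_ker, map_mul, map_mul, map_mul, map_inv, map_inv, mul_inv_eq_one,
        mul_inv_eq_iff_eq_mul] at h1
      exact h1) hlam₂ (by
      rintro _ ⟨z', hz', rfl⟩ h1
      rw [hlam₂' z' hz'] at h1
      have h2 : z' ∈ φ.ker := by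
        rw [hker, hE, q01_memE]
        exact ⟨hz', h1⟩
      exact MonoidHom.mem_ker.mp h2) (by
      have c1 := G03.card_map_mul φ (⊤ : Subgroup G)
      have c2 := G03.card_map_mul φ Z
      rw [Subgroup.map_top_of_surjective φ hsur, top_inf_eq, hker] at c1
      rw [hZ0] at c2
      have c3 : 0 < Nat.card E := Nat.card_pos
      rw [← c1, ← c2, ← mul_assoc] at hidx
      exact Nat.le_of_mul_le_mul_right hidx c3)
  rw [hT, hF]
  -- back to `G`
  set K₂ := KK (H.map φ) (P.map φ) with hK₂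
  have hpk : ¬ p ∣ Nat.card φ.ker := fun hd => hc.2.2.2.1 (hd.trans (Subgroup.card_dvd_of_le hkH))
  have hKc : K₂.comap φ = KK H P ⊔ E := by
    rw [hK₂, KK_comap_p' hp φ hc.2.2.1 hkH hpk, hker]
  set W : Subgroup G := (KK H P ⊔ E) ⊓ Z with hW
  have hWc : (K₂ ⊓ Z.map φ).comap φ = W := by
    rw [Subgroup.comap_inf, hKc, hcZ]
  have hlamW : IsLin W (res W lam) := hlam.res inf_le_right
  have hlam₂W : IsLin (K₂ ⊓ Z.map φ) (res (K₂ ⊓ Z.map φ) lam₂) := hlam₂.res inf_le_right
  have e1 : IrrO K₂ (K₂ ⊓ Z.map φ) lam₂ = IrrO K₂ (K₂ ⊓ Z.map φ) (res (K₂ ⊓ Z.map φ) lam₂) :=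
    q01_congr (fun x hx => by unfold res; rw [if_pos hx])
  have hI := irrO_comap φ (K := K₂) (Z := K₂ ⊓ Z.map φ) (hrange _) inf_le_left hlam₂W
  have e2 : (fun x => res (K₂ ⊓ Z.map φ) lam₂ (φ x)) = res W lam := by
    funext x
    unfold res
    by_cases hx : x ∈ W
    · have hx' : φ x ∈ K₂ ⊓ Z.map φ := by
        rw [← hWc] at hx
        exact hx
      rw [if_pos hx', if_pos hx, hlam₂' x hx.2]
    · have hx' : φ x ∉ K₂ ⊓ Z.map φ := by
        intro h1
        apply hx
        rw [← hWc]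
        exact h1
      rw [if_neg hx', if_neg hx]
  rw [e2, hKc, hWc] at hI
  have hEW : E ≤ W := le_inf le_sup_right hEZ
  have hsup := card_irrO_sup (K := KK H P) (R := E) (W := W) (lam := res W lam)
    (fun a _ z hz => hEn.conj_mem z hz a) hEW inf_le_left hlamW (by
      intro r hr
      unfold res
      rw [if_pos (hEW hr)]
      exact (q01_memE.mp hr).2)
  have hKW : KK H P ⊓ W = KK H P ⊓ Z := by
    rw [hW, ← inf_assoc, inf_eq_left.mpr (le_sup_left : KK H P ≤ KK H P ⊔ E)]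
  rw [e1, ← hI, hsup, hKW]
  rw [q01_congr (K := KK H P) (W := KK H P ⊓ Z) (lam := res W lam) (lam' := lam) (by
    intro x hx
    unfold res
    rw [if_pos]
    rw [← hKW] at hx
    exact hx.2)]

theorem stmtS_of_stmtF {p n : ℕ} (hp : p.Prime) (h : StmtF p n) : StmtS p n := by
  intro G _ _ A H P Z lam hs hc hZH hn hlam hinv hidx
  have hHA : H ≤ A := hc.1
  have hZA : Z ≤ A := hZH.trans hHA
  obtain ⟨hc₁, hKK, hKA⟩ := hc.subgroupOf
  have hr : ∀ B : Subgroup G, B ≤ A → B ≤ A.subtype.range := by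
    intro B hB
    rw [Subgroup.range_subtype]
    exact hB
  have hAA : A.comap A.subtype = ⊤ := Subgroup.subgroupOf_self A
  have h1 := q01_top hp h A (H.comap A.subtype) (P.comap A.subtype) (Z.comap A.subtype)
    (fun x => lam (A.subtype x)) (by
      haveI := hs
      infer_instance) hc₁ (Subgroup.comap_mono hZH) (by
      intro a _ z hz
      exact hn a a.2 z hz) (lin_comap A.subtype hlam) (fun a _ x => hinv a a.2 x) (by
      have e1 : Nat.card (Z.comap A.subtype) = Nat.card Z :=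
        Nat.card_congr (Subgroup.subgroupOfEquivOfLe hZA).toEquiv
      rw [e1, Subgroup.card_top]
      exact hidx)
  have h2 := tset_comap A.subtype (hr A le_rfl) hHA hZH hlam
  rw [hAA, h1] at h2
  rw [← h2]
  have hlamW : IsLin (KK H P ⊓ Z) (res (KK H P ⊓ Z) lam) := hlam.res inf_le_right
  have h3 := irrO_comap A.subtype (K := KK H P) (Z := KK H P ⊓ Z) (hr _ hKA) inf_le_left hlamW
  rw [hKK, ← Subgroup.comap_inf]
  rw [q01_congr (K := KK H P) (W := KK H P ⊓ Z) (lam := lam) (lam' := res (KK H P ⊓ Z) lam)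
    (fun x hx => by unfold res; rw [if_pos hx]), ← h3]
  rw [q01_congr (K := (KK H P).comap A.subtype) (W := (KK H P ⊓ Z).comap A.subtype)
    (lam := fun x => lam (A.subtype x)) (lam' := fun x => res (KK H P ⊓ Z) lam (A.subtype x))
    (fun x hx => by
      have hx' : A.subtype x ∈ KK H P ⊓ Z := hx
      unfold res
      rw [if_pos hx'])]

end Pool.Agent.CTab
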