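import Pool.Agent.CTab.Defs
import Pool.Agent.CTab.B01
import Pool.Agent.CTab.B02
import Pool.Agent.CTab.B03
import Pool.Agent.CTab.B04
import Pool.Agent.CTab.B07
import Pool.Agent.CTab.B10
import Pool.Agent.CTab.B11
import Pool.Agent.CTab.B12
import Pool.Agent.CTab.C01
import Pool.Agent.CTab.C02
import Pool.Agent.CTab.C03
import Pool.Agent.CTab.C04
import Pool.Agent.CTab.C05
import Pool.Agent.CTab.G01

/-!
The determinant trick. `D` a commutative normal `p`-subgroup of `A`, `χ` irreducible for `A` with `α = res H χ`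
irreducible for the `p`-complement `H`. Then there is `χ'` irreducible for `A`, `D` in its kernel, same restriction to `H`.
Proof: `μ` a linear character of `D` below `χ` (`exists_lies`), `S = stab A μ`, `χ = ind A S ψ` (`cliff_surj`), `m = ψ 1`.
(i) `ip H α (ind H (H ⊓ S) (res ψ)) = ip (H ⊓ S) (res χ) (res ψ) ≠ 0`, so `α` is a constituent and
`α(1) ≤ |H : H ⊓ S| m ≤ |A : S| m = χ(1) = α(1)`: hence `|H : H ⊓ S| = |A : S|`, i.e. `A = H S`.
(ii) Mackey: `α = ind H (H ⊓ S) (res ψ)`, so `res ψ` is irreducible for `H ⊓ S` (norm of an induced character of a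
non-irreducible character is at least 2), so `m ∣ |H ⊓ S|` (`deg_dvd`) is prime to `p`.
(iii) `δ` the determinant character of `ψ` (`IsCh.det`): `δ d = μ(d)^m` for `d ∈ D`. `|S| = |H ⊓ S| |P|`. Choose `j` with
`|H ⊓ S| ∣ j` and `j m ≡ 1 mod |P|`; `δ' = δ^j` is trivial on `H ⊓ S` and equals `μ` on `D` (`D ≤ P`).
(iv) `ψ' = ψ conj(δ')` is irreducible, trivial on `D`, same restriction to `H ⊓ S`; `χ' = ind A S ψ'`; `res H χ' = α`
(Mackey), so `χ'` is irreducible (`isIr_of_res`); `χ' (x d) = χ' x` from the formula.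
-/

set_option autoImplicit false

namespace Pool.Agent.CTab

open scoped Classical

variable {G : Type} [Group G] [Fintype G]

theorem det_trick {p : ℕ} (hp : p.Prime) {A H P D : Subgroup G} {χ : G → ℂ} (h : Cpl p A H P)
    (hD : D ≤ A) (hpD : IsPGroup p D) (hn : Nrm A D) (hab : ∀ x ∈ D, ∀ y ∈ D, x * y = y * x)
    (hχ : IsIr A χ) (hα : IsIr H (res H χ)) :
    ∃ χ', IsIr A χ' ∧ res H χ' = res H χ ∧ ∀ x, ∀ d ∈ D, χ' (x * d) = χ' x := by
  sorry

end Pool.Agent.CTab
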