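import Pool.Agent.CTab.Defs
import Pool.Agent.CTab.B01
import Pool.Agent.CTab.B03
import Pool.Agent.CTab.B10
import Pool.Agent.CTab.B11
import Pool.Agent.CTab.C05
import Pool.Agent.CTab.C10
import Pool.Agent.CTab.G01
import Pool.Agent.CTab.Q02

/-!
`TSet A H Z lam` versus `TSet A (H ⊔ D) (Z ⊔ D) lam'` where `lam'` is `lam` on `Z` and trivial on `D` (`Z` central of
order prime to `p`, `D` a commutative normal `p`-subgroup). Bijection `α' ↦ res H α'`: well defined by `res_isIr_iff`,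
injective by `eq_of_res`, surjective by `det_trick` (the new `χ'` is `Over Z lam` because `χ' z = α z`).
-/

set_option autoImplicit false

namespace Pool.Agent.CTab

open scoped Classical

variable {G : Type} [Group G] [Fintype G]

omit [Fintype G] in
private theorem q03_sup {Z D : Subgroup G} (hc : ∀ z ∈ Z, ∀ d ∈ D, d * z = z * d) {w : G}
    (hw : w ∈ Z ⊔ D) : ∃ z ∈ Z, ∃ d ∈ D, w = z * d := by
  let S : Subgroup G :=
    { carrier := {w | ∃ z ∈ Z, ∃ d ∈ D, w = z * d}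
      mul_mem' := by
        rintro _ _ ⟨z, hz, d, hd, rfl⟩ ⟨z', hz', d', hd', rfl⟩
        refine ⟨z * z', Z.mul_mem hz hz', d * d', D.mul_mem hd hd', ?_⟩
        rw [mul_assoc, ← mul_assoc d z' d', hc z' hz' d hd]
        simp only [mul_assoc]
      one_mem' := ⟨1, Z.one_mem, 1, D.one_mem, by rw [mul_one]⟩
      inv_mem' := by
        rintro _ ⟨z, hz, d, hd, rfl⟩
        refine ⟨z⁻¹, Z.inv_mem hz, d⁻¹, D.inv_mem hd, ?_⟩
        rw [mul_inv_rev, hc _ (Z.inv_mem hz) _ (D.inv_mem hd)] }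
  have h1 : Z ⊔ D ≤ S := by
    rw [sup_le_iff]
    exact ⟨fun z hz => ⟨z, hz, 1, D.one_mem, by rw [mul_one]⟩,
      fun d hd => ⟨1, Z.one_mem, d, hd, by rw [one_mul]⟩⟩
  exact h1 hw

private theorem q03_res {H K : Subgroup G} (hHK : H ≤ K) (f : G → ℂ) :
    res H (res K f) = res H f := by
  funext x
  unfold res
  by_cases hx : x ∈ H
  · rw [if_pos hx, if_pos hx, if_pos (hHK hx)]
  · rw [if_neg hx, if_neg hx]

theorem exists_lam' {p : ℕ} (hp : p.Prime) {A Z D : Subgroup G} {lam : G → ℂ} (hZ : Z ≤ A) (hD : D ≤ A)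
    (hc : ∀ a ∈ A, ∀ z ∈ Z, a * z = z * a) (hlam : IsLin Z lam) (hpZ : ¬ p ∣ Nat.card Z)
    (hpD : IsPGroup p D) :
    ∃ lam', IsLin (Z ⊔ D) lam' ∧ (∀ z ∈ Z, lam' z = lam z) ∧ ∀ d ∈ D, lam' d = 1 := by
  have hnZD : Nrm Z D := by
    intro z hz d hd
    rw [← hc d (hD hd) z hz, mul_inv_cancel_right]
    exact hd
  have hbot : Z ⊓ D = ⊥ := by
    apply Subgroup.inf_eq_bot_of_coprime
    haveI : Fact p.Prime := ⟨hp⟩
    obtain ⟨n, hn⟩ := (IsPGroup.iff_card).1 hpD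
    rw [hn]
    exact (((Nat.Prime.coprime_iff_not_dvd hp).2 hpZ).pow_left n).symm
  obtain ⟨f, hf, hfD, hres⟩ := exists_extend hnZD hlam.isIr (by
    intro x k hk
    rw [hbot, Subgroup.mem_bot] at hk
    rw [hk, mul_one])
  have hval : ∀ z ∈ Z, f z = lam z := by
    intro z hz
    rw [← hres]
    unfold res
    rw [if_pos hz]
  have hf1 : f 1 = 1 := by rw [hval 1 Z.one_mem, hlam.2.1]
  refine ⟨f, isLin_of_deg hf.isCh hf1, hval, fun d hd => ?_⟩
  rw [← one_mul d, hfD 1 d hd, hf1]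

theorem card_tset_sup {p : ℕ} (hp : p.Prime) {A H P Z D : Subgroup G} {lam lam' : G → ℂ}
    (h : Cpl p A H P) (hZ : Z ≤ H) (hc : ∀ a ∈ A, ∀ z ∈ Z, a * z = z * a) (hlam : IsLin Z lam)
    (hD : D ≤ A) (hpD : IsPGroup p D) (hn : Nrm A D) (hab : ∀ x ∈ D, ∀ y ∈ D, x * y = y * x)
    (hlam' : IsLin (Z ⊔ D) lam') (h1 : ∀ z ∈ Z, lam' z = lam z) (h2 : ∀ d ∈ D, lam' d = 1) :
    Nat.card (TSet A (H ⊔ D) (Z ⊔ D) lam') = Nat.card (TSet A H Z lam) := by
  have hHA : H ≤ A := h.1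
  have hZA : Z ≤ A := hZ.trans hHA
  have hnHD : Nrm H D := fun a ha d hd => hn a (hHA ha) d hd
  have hsupA : H ⊔ D ≤ A := sup_le hHA hD
  have hcZD : ∀ z ∈ Z, ∀ d ∈ D, d * z = z * d := fun z hz d hd => hc d (hD hd) z hz
  have hZDle : Z ⊔ D ≤ H ⊔ D := sup_le_sup_right hZ D
  have hDinv : ∀ α', Over (Z ⊔ D) lam' α' → ∀ x, ∀ d ∈ D, α' (x * d) = α' x := by
    intro α' ho x d hd
    rw [ho x d ((le_sup_right : D ≤ Z ⊔ D) hd), h2 d hd, mul_one]
  have hbij : Set.BijOn (res H) (TSet A (H ⊔ D) (Z ⊔ D) lam') (TSet A H Z lam) := by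
    refine ⟨?_, ?_, ?_⟩
    · rintro α' ⟨hi, ho, χ, hχ, hres⟩
      have hD' := hDinv α' ho
      refine ⟨(res_isIr_iff hnHD hi.isCh hD').1 hi, ?_, χ, hχ, ?_⟩
      · intro x z hz
        unfold res
        by_cases hx : x ∈ H
        · rw [if_pos hx, if_pos (H.mul_mem hx (hZ hz)), ho x z ((le_sup_left : Z ≤ Z ⊔ D) hz),
            h1 z hz]
        · rw [if_neg hx, zero_mul, if_neg]
          intro h'
          apply hx
          have h3 := H.mul_mem h' (H.inv_mem (hZ hz))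
          rwa [mul_inv_cancel_right] at h3
      · rw [← hres, q03_res le_sup_left]
    · rintro α₁ ⟨hi₁, ho₁, -⟩ α₂ ⟨hi₂, ho₂, -⟩ he
      exact eq_of_res hnHD hi₁.1 hi₂.1 (hDinv α₁ ho₁) (hDinv α₂ ho₂) he
    · rintro α ⟨hi, ho, χ, hχ, hres⟩
      obtain ⟨χ', hχ', hres', hD'⟩ := det_trick hp h hD hpD hn hab hχ (by rw [hres]; exact hi)
      have hα'D : ∀ x, ∀ d ∈ D, res (H ⊔ D) χ' (x * d) = res (H ⊔ D) χ' x := by
        intro x d hd
        have hdm : d ∈ H ⊔ D := (le_sup_right : D ≤ H ⊔ D) hd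
        unfold res
        by_cases hx : x ∈ H ⊔ D
        · rw [if_pos hx, if_pos ((H ⊔ D).mul_mem hx hdm), hD' x d hd]
        · rw [if_neg hx, if_neg]
          intro h'
          apply hx
          have h3 := (H ⊔ D).mul_mem h' ((H ⊔ D).inv_mem hdm)
          rwa [mul_inv_cancel_right] at h3
      have hrr : res H (res (H ⊔ D) χ') = α := by
        rw [q03_res le_sup_left, hres', hres]
      have hich : IsCh (H ⊔ D) (res (H ⊔ D) χ') := hχ'.isCh.res hsupA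
      refine ⟨res (H ⊔ D) χ', ⟨?_, ?_, χ', hχ', rfl⟩, hrr⟩
      · rw [res_isIr_iff hnHD hich hα'D, hrr]
        exact hi
      · apply over_of_one hZDle hlam' hich
        intro w hw
        obtain ⟨z, hz, d, hd, rfl⟩ := q03_sup hcZD hw
        have hzm : z ∈ Z ⊔ D := (le_sup_left : Z ≤ Z ⊔ D) hz
        have hdm : d ∈ Z ⊔ D := (le_sup_right : D ≤ Z ⊔ D) hd
        rw [hα'D z d hd, hlam'.2.2 z hzm d hdm, h1 z hz, h2 d hd, mul_one]
        have h3 : ∀ x ∈ H, res (H ⊔ D) χ' x = α x := by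
          intro x hx
          rw [← hrr]
          unfold res
          rw [if_pos hx]
        rw [h3 z (hZ hz), h3 1 H.one_mem]
        have h4 := ho 1 z hz
        rw [one_mul] at h4
        rw [h4, mul_comm]
  exact Nat.card_congr (Set.BijOn.equiv _ hbij)

end Pool.Agent.CTab
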