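import Pool.Agent.CTab.Defs
import Pool.Agent.CTab.B11
import Pool.Agent.CTab.C09
import Pool.Agent.CTab.C10
import Pool.Agent.CTab.G01
import Pool.Agent.CTab.G03
import Pool.Agent.CTab.G05
import Pool.Agent.CTab.Q03

/-!
The case where `A` has a nontrivial normal `p`-subgroup (`Z` central, `lam` any linear character of `Z`). Take `D`
commutative (`exists_abelian_normal`), `lam'` (`exists_lam'`), `card_tset_sup`. Pass to `↥A` and then to `↥A ⧸ D`
(`tset_comap`): groups `⊤`, `H.map φ` (whose comap is `H ⊔ D`), `P.map φ` (`Cpl.map_p`), `Z.map φ`, `lam₂` with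
`lam₂ ∘ φ = lam'` (`lin_descend`); `KK_comap_p`: `(KK H₂ P₂).comap φ = KK H P ⊔ D`; `irrO_comap`, `card_irrO_sup` (`R = D`)
give the number on the other side. Index: `|A|/|D| ≤ n |Z|` because `|D| ≥ 2` (and `n ≥ 1`, otherwise `A = Z` has no
nontrivial `p`-subgroup).
-/

set_option autoImplicit false

namespace Pool.Agent.CTab

open scoped Classical

variable {G : Type} [Group G] [Fintype G]

theorem stmt_normal_p {p n : ℕ} (hp : p.Prime) (ih : StmtS p n) {A H P Z D : Subgroup G} {lam : G → ℂ}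
    (hs : Group.IsSolvable A) (h : Cpl p A H P) (hZ : Z ≤ H)
    (hc : ∀ a ∈ A, ∀ z ∈ Z, a * z = z * a) (hlam : IsLin Z lam)
    (hidx : Nat.card A ≤ (n + 1) * Nat.card Z)
    (hD : D ≤ A) (hpD : IsPGroup p D) (hne : D ≠ ⊥) (hn : Nrm A D) :
    Nat.card (TSet A H Z lam) = Nat.card (IrrO (KK H P) (KK H P ⊓ Z) lam) := by
  sorry

end Pool.Agent.CTab
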