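import Pool.Agent.CTab.Defs
import Pool.Agent.CTab.G01
import Pool.Agent.CTab.G02

/-!
(1) minimal `P`-and-`K`-invariant subgroups of `P`. (2) The centraliser of `P₁` in the chief factor `L/Z`:
`M = {l ∈ L | ∀ v ∈ P₁, [l, v] ∈ Z}` is normalised by `A = L K P` (`L/Z` is abelian, `K` and `P` normalise `P₁`), so it is
`Z` or `L`. If it is `L`, coprime action (`coprime_lift` with `W = Z`, `Z` central) shows that `P₁` centralises `L`, so `P₁`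
is a nontrivial normal `p`-subgroup of `A`, excluded by `hO`.
-/

set_option autoImplicit false

namespace Pool.Agent.CTab

open scoped Classical

variable {G : Type} [Group G] [Fintype G]

private lemma g06_norm {A B M : Subgroup G} (hBM : ∀ a ∈ B, ∀ m ∈ M, a * m * a⁻¹ ∈ M) :
    B ≤ Subgroup.normalizer (M : Set G) := by
  intro a ha
  rw [Subgroup.mem_normalizer_iff]
  intro m
  constructor
  · intro hm
    exact hBM a ha m hm
  · intro hm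
    have h1 := hBM a⁻¹ (B.inv_mem ha) _ hm
    have h2 : a⁻¹ * (a * m * a⁻¹) * a⁻¹⁻¹ = m := by group
    rwa [h2] at h1

private lemma g06_nrm {A M : Subgroup G} (h : A ≤ Subgroup.normalizer (M : Set G)) : Nrm A M := by
  intro a ha m hm
  exact (Subgroup.mem_normalizer_iff.mp (h ha) m).mp hm

/-- the centraliser of `P₁` in `L / Z` -/
private def g06M (L Z P₁ : Subgroup G) (hc : ∀ l ∈ L, ∀ z ∈ Z, l * z = z * l) : Subgroup G where
  carrier := {l | l ∈ L ∧ ∀ v ∈ P₁, l * v * l⁻¹ * v⁻¹ ∈ Z}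
  mul_mem' := by
    rintro a b ⟨ha, ha'⟩ ⟨hb, hb'⟩
    refine ⟨L.mul_mem ha hb, fun v hv => ?_⟩
    have h1 : a * b * v * (a * b)⁻¹ * v⁻¹ =
        a * (b * v * b⁻¹ * v⁻¹) * (v * a⁻¹ * v⁻¹) := by group
    rw [h1, hc a ha _ (hb' v hv)]
    have h2 : b * v * b⁻¹ * v⁻¹ * a * (v * a⁻¹ * v⁻¹) =
        (b * v * b⁻¹ * v⁻¹) * (a * v * a⁻¹ * v⁻¹) := by group
    rw [h2]
    exact Z.mul_mem (hb' v hv) (ha' v hv)
  one_mem' := by
    refine ⟨L.one_mem, fun v _ => ?_⟩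
    have : (1 : G) * v * 1⁻¹ * v⁻¹ = 1 := by group
    rw [this]
    exact Z.one_mem
  inv_mem' := by
    rintro a ⟨ha, ha'⟩
    refine ⟨L.inv_mem ha, fun v hv => ?_⟩
    have h1 : a⁻¹ * v * a⁻¹⁻¹ * v⁻¹ = a⁻¹ * (a * v * a⁻¹ * v⁻¹)⁻¹ * a := by group
    have h2 := hc a⁻¹ (L.inv_mem ha) _ (Z.inv_mem (ha' v hv))
    rw [h1, h2]
    have h3 : (a * v * a⁻¹ * v⁻¹)⁻¹ * a⁻¹ * a = (a * v * a⁻¹ * v⁻¹)⁻¹ := by group
    rw [h3]
    exact Z.inv_mem (ha' v hv)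

private lemma g06_mem {L Z P₁ : Subgroup G} {hc : ∀ l ∈ L, ∀ z ∈ Z, l * z = z * l} {l : G} :
    l ∈ g06M L Z P₁ hc ↔ l ∈ L ∧ ∀ v ∈ P₁, l * v * l⁻¹ * v⁻¹ ∈ Z := Iff.rfl

theorem exists_minimal {P K : Subgroup G} (hne : P ≠ ⊥) (hn : Nrm K P) :
    ∃ P₁ : Subgroup G, P₁ ≤ P ∧ P₁ ≠ ⊥ ∧ Nrm P P₁ ∧ Nrm K P₁ ∧
      ∀ Q : Subgroup G, Q ≤ P₁ → Nrm P Q → Nrm K Q → Q = ⊥ ∨ Q = P₁ := by
  obtain ⟨P₁, hP₁, hmin⟩ := exists_minimal_of_wellFoundedLT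
    (fun Q : Subgroup G => Q ≤ P ∧ Q ≠ ⊥ ∧ Nrm P Q ∧ Nrm K Q)
    ⟨P, le_rfl, hne, fun a ha b hb => P.mul_mem (P.mul_mem ha hb) (P.inv_mem ha), hn⟩
  obtain ⟨h1, h2, h3, h4⟩ := hP₁
  refine ⟨P₁, h1, h2, h3, h4, ?_⟩
  intro Q hQ hQP hQK
  by_cases hQ0 : Q = ⊥
  · exact Or.inl hQ0
  · exact Or.inr (le_antisymm hQ (hmin ⟨hQ.trans h1, hQ0, hQP, hQK⟩ hQ))

theorem centralizer_eq {p : ℕ} (hp : p.Prime) {A H P Z L P₁ : Subgroup G} (h : Cpl p A H P)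
    (hZL : Z ≤ L) (hL : L ≤ H) (hn : Nrm A L) (hc : ∀ a ∈ A, ∀ z ∈ Z, a * z = z * a)
    (hcomm : ∀ x ∈ L, ∀ y ∈ L, x * y * x⁻¹ * y⁻¹ ∈ Z)
    (hch : ∀ M : Subgroup G, Z ≤ M → M ≤ L → Nrm A M → M = Z ∨ M = L)
    (hO : ∀ D : Subgroup G, D ≤ A → IsPGroup p D → Nrm A D → D = ⊥)
    (hA : A = L ⊔ KK H P ⊔ P) (hP₁ : P₁ ≤ P) (hne : P₁ ≠ ⊥) (hn1 : Nrm P P₁)
    (hn2 : Nrm (KK H P) P₁) :
    ∀ l ∈ L, (∀ v ∈ P₁, v * l = l * v) → l ∈ Z := by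
  have hLA : L ≤ A := hL.trans h.1
  have hPA : P ≤ A := h.2.1
  have hKA : KK H P ≤ A := (inf_le_left : KK H P ≤ H).trans h.1
  have hcL : ∀ l ∈ L, ∀ z ∈ Z, l * z = z * l := fun l hl z hz => hc l (hLA hl) z hz
  set M := g06M L Z P₁ hcL with hM
  have hZM : Z ≤ M := by
    intro z hz
    rw [hM, g06_mem]
    refine ⟨hZL hz, fun v hv => ?_⟩
    have h1 : z * v * z⁻¹ * v⁻¹ = 1 := by
      rw [← hc v (hPA (hP₁ hv)) z hz]
      group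
    rw [h1]
    exact Z.one_mem
  have hML : M ≤ L := fun l hl => (g06_mem.mp hl).1
  -- conjugation by elements normalising `P₁`
  have hstep : ∀ B : Subgroup G, B ≤ A → Nrm B P₁ → ∀ a ∈ B, ∀ m ∈ M, a * m * a⁻¹ ∈ M := by
    intro B hBA hB a ha m hm
    rw [hM, g06_mem] at hm ⊢
    refine ⟨hn a (hBA ha) m hm.1, fun v hv => ?_⟩
    have hv' : a⁻¹ * v * a⁻¹⁻¹ ∈ P₁ := hB a⁻¹ (B.inv_mem ha) v hv
    have h1 := hm.2 _ hv'
    have h2 : a * m * a⁻¹ * v * (a * m * a⁻¹)⁻¹ * v⁻¹ =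
        a * (m * (a⁻¹ * v * a⁻¹⁻¹) * m⁻¹ * (a⁻¹ * v * a⁻¹⁻¹)⁻¹) * a⁻¹ := by group
    rw [h2, hc a (hBA ha) _ h1, mul_inv_cancel_right]
    exact h1
  have hnM : Nrm A M := by
    apply g06_nrm
    rw [hA]
    refine sup_le (sup_le (g06_norm (A := A) ?_) (g06_norm (A := A) ?_)) (g06_norm (A := A) ?_)
    · intro a ha m hm
      have h1 : a * m * a⁻¹ = (a * m * a⁻¹ * m⁻¹) * m := by group
      rw [h1]
      exact M.mul_mem (hZM (hcomm a ha m (hML hm))) hm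
    · exact hstep _ hKA hn2
    · exact hstep _ hPA hn1
  intro l hl hlv
  rcases hch M hZM hML hnM with h1 | h1
  · rw [← h1, hM, g06_mem]
    refine ⟨hl, fun v hv => ?_⟩
    have h2 : l * v * l⁻¹ * v⁻¹ = 1 := by
      rw [← hlv v hv]
      group
    rw [h2]
    exact Z.one_mem
  · exfalso
    apply hne
    apply hO P₁ (hP₁.trans hPA) (h.2.2.1.to_le hP₁)
    have hpZ : ¬ p ∣ Nat.card Z := fun hd =>
      h.2.2.2.1 (hd.trans (Subgroup.card_dvd_of_le (hZL.trans hL)))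
    have hcent : ∀ a ∈ L, ∀ v ∈ P₁, v * a * v⁻¹ = a := by
      intro a ha v hv
      have ha' : a ∈ M := by rw [h1]; exact ha
      rw [hM, g06_mem] at ha'
      obtain ⟨w, hw, hw'⟩ := coprime_lift hp (h.2.2.1.to_le hP₁) hpZ
        (fun u hu z hz => by
          rw [hc u (hPA (hP₁ hu)) z hz, mul_inv_cancel_right]
          exact hz) (x := a) (fun u hu => by
          have h2 := ha'.2 u hu
          have h3 : a⁻¹ * (u * a * u⁻¹) = a⁻¹ * (a * u * a⁻¹ * u⁻¹)⁻¹ * a := by group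
          have h4 := hcL a⁻¹ (L.inv_mem ha) _ (Z.inv_mem h2)
          rw [h3, h4, inv_mul_cancel_right]
          exact Z.inv_mem h2)
      have h5 := hw' v hv
      have h6 : v * (a * w) * v⁻¹ = (v * a * v⁻¹) * (v * w * v⁻¹) := by group
      have h7 : v * w * v⁻¹ = w := by
        rw [hc v (hPA (hP₁ hv)) w hw, mul_inv_cancel_right]
      rw [h6, h7] at h5
      exact mul_right_cancel h5
    apply g06_nrm
    rw [hA]
    refine sup_le (sup_le (g06_norm (A := A) ?_) (g06_norm (A := A) hn2)) (g06_norm (A := A) hn1)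
    intro a ha v hv
    have h2 := hcent a ha v hv
    have h3 : a * v * a⁻¹ = v := by
      rw [mul_inv_eq_iff_eq_mul] at h2
      rw [← h2, mul_inv_cancel_right]
    rw [h3]
    exact hv

end Pool.Agent.CTab
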