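import Pool.Agent.CTab.Defs

/-!
The central extension attached to an invariant irreducible matrix representation `r` of the normal subgroup `L` of `A`
(`XP` collects the properties which are used). `X` consists of pairs `(g, T)`, `g ∈ A`, `T` a matrix with
`T r(l) T⁻¹ = r(g l g⁻¹)`; `π (g,T) = g`, `R (g,T) = T`, and `lamX` is the scalar with `r(π x) = lamX x • R x` on
`L.comap π`. This file only contains the definition and easy consequences.
-/

set_option autoImplicit false

namespace Pool.Agent.CTab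

open scoped Classical

variable {G : Type} [Group G] [Fintype G]

structure XP {X : Type} [Group X] [Fintype X] (p : ℕ) (A L : Subgroup G) {d : ℕ}
    (r : G → Matrix (Fin d) (Fin d) ℂ) (π : X →* G) (R : X → Matrix (Fin d) (Fin d) ℂ)
    (lamX : X → ℂ) : Prop where
  range : π.range = A
  one : R 1 = 1
  mul : ∀ x y, R (x * y) = R x * R y
  inj : ∀ x, π x = 1 → R x = 1 → x = 1
  kerp : ¬ p ∣ Nat.card π.ker
  conj : ∀ x, ∀ l ∈ L, R x * r l = r (π x * l * (π x)⁻¹) * R x
  lin : IsLin (L.comap π) lamX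
  lam : ∀ x, π x ∈ L → r (π x) = lamX x • R x

theorem XP.inv_mul {X : Type} [Group X] [Fintype X] {p : ℕ} {A L : Subgroup G} {d : ℕ}
    {r : G → Matrix (Fin d) (Fin d) ℂ} {π : X →* G} {R : X → Matrix (Fin d) (Fin d) ℂ}
    {lamX : X → ℂ} (h : XP p A L r π R lamX) (x : X) : R x * R x⁻¹ = 1 ∧ R x⁻¹ * R x = 1 := by
  sorry

/-- the kernel of `π` acts by scalars and is central -/
theorem XP.ker_scalar {X : Type} [Group X] [Fintype X] {p : ℕ} {A L : Subgroup G} {d : ℕ}
    {r : G → Matrix (Fin d) (Fin d) ℂ} {π : X →* G} {R : X → Matrix (Fin d) (Fin d) ℂ}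
    {lamX : X → ℂ} (h : XP p A L r π R lamX) (hr : IsMRep L r) {k : X} (hk : π k = 1) :
    R k = (lamX k)⁻¹ • (1 : Matrix (Fin d) (Fin d) ℂ) ∧ ∀ x, k * x = x * k := by
  sorry

theorem XP.inv {X : Type} [Group X] [Fintype X] {p : ℕ} {A L : Subgroup G} {d : ℕ}
    {r : G → Matrix (Fin d) (Fin d) ℂ} {π : X →* G} {R : X → Matrix (Fin d) (Fin d) ℂ}
    {lamX : X → ℂ} (h : XP p A L r π R lamX) (hr : IsMRep L r) (hn : Nrm A L) (hd : 0 < d) :
    Inv ⊤ lamX := by
  sorry

theorem XP.solvable {X : Type} [Group X] [Fintype X] {p : ℕ} {A L : Subgroup G} {d : ℕ}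
    {r : G → Matrix (Fin d) (Fin d) ℂ} {π : X →* G} {R : X → Matrix (Fin d) (Fin d) ℂ}
    {lamX : X → ℂ} (h : XP p A L r π R lamX) (hr : IsMRep L r) {B : Subgroup G}
    (hs : Group.IsSolvable B) : Group.IsSolvable (B.comap π) := by
  sorry

end Pool.Agent.CTab
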