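import Pool.Agent.CTab.Defs
import Pool.Agent.CTab.X00
import Pool.Agent.CTab.B01
import Pool.Agent.CTab.B08

/-!
Existence of `X`. Let `e = Nat.card L` and let `X ≤ G × GL_d(ℂ)` be the subgroup of pairs `(g, T)` with `g ∈ A`,
`T r(l) = r(g l g⁻¹) T` for `l ∈ L` and `det T ^ e = 1`. For each `g ∈ A` some `T` exists: `l ↦ r(g l g⁻¹)` is a matrix
representation of `L` with the same character (`mrep_iso`), and `T` can be scaled to determinant one (`d ≥ 1`, `ℂ` is
algebraically closed). By Schur two such `T` differ by a scalar `c` with `c ^ (d e) = 1`, so `X` is finite and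
`ker π = {(1, c)}` has order dividing a power of `d e`; `d ∣ |L|` is prime to `p`. For `x = (g, T)` with `g ∈ L`,
`T r(l) T⁻¹ = r(g) r(l) r(g)⁻¹`, so `r g = s • T` by Schur; `lamX x = s` (zero outside `L.comap π`). `π` = first
projection, `R` = second projection.
-/

set_option autoImplicit false

namespace Pool.Agent.CTab

open scoped Classical

variable {G : Type} [Group G] [Fintype G]

/-- the group of pairs `(g, T)` -/
private def x01X (A L : Subgroup G) (hn : Nrm A L) {d : ℕ} (r : G → Matrix (Fin d) (Fin d) ℂ)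
    (e : ℕ) : Subgroup (G × GL (Fin d) ℂ) where
  carrier := {x | x.1 ∈ A ∧ (∀ l ∈ L, (x.2 : Matrix (Fin d) (Fin d) ℂ) * r l =
    r (x.1 * l * x.1⁻¹) * (x.2 : Matrix (Fin d) (Fin d) ℂ)) ∧
    (x.2 : Matrix (Fin d) (Fin d) ℂ).det ^ e = 1}
  mul_mem' := by
    rintro ⟨g, T⟩ ⟨h, S⟩ ⟨hg, hT, hT'⟩ ⟨hh, hS, hS'⟩
    simp only [Set.mem_setOf_eq, Prod.mk_mul_mk, Units.val_mul, Matrix.det_mul] at hT hS hT' hS' hg hh ⊢
    refine ⟨A.mul_mem hg hh, ?_, by rw [mul_pow, hT', hS', one_mul]⟩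
    intro l hl
    rw [Matrix.mul_assoc, hS l hl, ← Matrix.mul_assoc, hT _ (hn h hh l hl), Matrix.mul_assoc]
    congr 2
    group
  one_mem' := by
    refine ⟨A.one_mem, ?_, ?_⟩
    · intro l _
      simp
    · simp
  inv_mem' := by
    rintro ⟨g, T⟩ ⟨hg, hT, hT'⟩
    simp only [Set.mem_setOf_eq, Prod.inv_mk] at hT hT' hg ⊢
    have hTi : (T : Matrix (Fin d) (Fin d) ℂ) * ((T⁻¹ : GL (Fin d) ℂ) : Matrix (Fin d) (Fin d) ℂ) = 1 := by
      rw [← Units.val_mul, mul_inv_cancel, Units.val_one]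
    have hTi' : ((T⁻¹ : GL (Fin d) ℂ) : Matrix (Fin d) (Fin d) ℂ) * (T : Matrix (Fin d) (Fin d) ℂ) = 1 := by
      rw [← Units.val_mul, inv_mul_cancel, Units.val_one]
    refine ⟨A.inv_mem hg, ?_, ?_⟩
    · intro l hl
      have h1 := hT _ (hn g⁻¹ (A.inv_mem hg) l hl)
      have h2 : g * (g⁻¹ * l * g⁻¹⁻¹) * g⁻¹ = l := by group
      rw [h2] at h1
      calc ((T⁻¹ : GL (Fin d) ℂ) : Matrix (Fin d) (Fin d) ℂ) * r l
          = ((T⁻¹ : GL (Fin d) ℂ) : Matrix (Fin d) (Fin d) ℂ) * (r l * T) *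
            ((T⁻¹ : GL (Fin d) ℂ) : Matrix (Fin d) (Fin d) ℂ) := by
            rw [Matrix.mul_assoc, Matrix.mul_assoc, hTi, Matrix.mul_one]
        _ = r (g⁻¹ * l * g⁻¹⁻¹) * ((T⁻¹ : GL (Fin d) ℂ) : Matrix (Fin d) (Fin d) ℂ) := by
            rw [← h1, ← Matrix.mul_assoc, hTi', Matrix.one_mul]
    · have h3 : (T : Matrix (Fin d) (Fin d) ℂ).det *
          ((T⁻¹ : GL (Fin d) ℂ) : Matrix (Fin d) (Fin d) ℂ).det = 1 := by
        rw [← Matrix.det_mul, hTi, Matrix.det_one]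
      have h4 := congrArg (fun z => z ^ e) h3
      simp only [mul_pow, hT', one_mul, one_pow] at h4
      exact h4

private lemma x01_mem {A L : Subgroup G} {hn : Nrm A L} {d : ℕ} {r : G → Matrix (Fin d) (Fin d) ℂ}
    {e : ℕ} {x : G × GL (Fin d) ℂ} : x ∈ x01X A L hn r e ↔
    x.1 ∈ A ∧ (∀ l ∈ L, (x.2 : Matrix (Fin d) (Fin d) ℂ) * r l =
    r (x.1 * l * x.1⁻¹) * (x.2 : Matrix (Fin d) (Fin d) ℂ)) ∧
    (x.2 : Matrix (Fin d) (Fin d) ℂ).det ^ e = 1 := Iff.rfl

private lemma x01_exists {A L : Subgroup G} {d : ℕ}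
    {r : G → Matrix (Fin d) (Fin d) ℂ} (hn : Nrm A L) (hr : IsMRep L r)
    (hi : IsIr L (res L (fun x => (r x).trace)))
    (hinv : ∀ a ∈ A, ∀ l ∈ L, (r (a * l * a⁻¹)).trace = (r l).trace) (hd : d ≠ 0) {g : G} (hg : g ∈ A) :
    ∃ T : GL (Fin d) ℂ, (∀ l ∈ L, (T : Matrix (Fin d) (Fin d) ℂ) * r l =
      r (g * l * g⁻¹) * (T : Matrix (Fin d) (Fin d) ℂ)) ∧ (T : Matrix (Fin d) (Fin d) ℂ).det = 1 := by
  have hr' : IsMRep L (fun x => r (g * x * g⁻¹)) := by
    constructor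
    · show r (g * 1 * g⁻¹) = 1
      rw [mul_one, mul_inv_cancel]
      exact hr.1
    · intro x hx y hy
      show r (g * (x * y) * g⁻¹) = r (g * x * g⁻¹) * r (g * y * g⁻¹)
      rw [← hr.2 _ (hn g hg x hx) _ (hn g hg y hy)]
      congr 1
      group
  obtain ⟨T, hT⟩ := mrep_iso hr hr' hi (fun a ha => (hinv g hg a ha).symm)
  have hdet : (T : Matrix (Fin d) (Fin d) ℂ).det ≠ 0 := by
    have h1 : (T : Matrix (Fin d) (Fin d) ℂ) * ((T⁻¹ : GL (Fin d) ℂ) : Matrix (Fin d) (Fin d) ℂ) = 1 := by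
      rw [← Units.val_mul, mul_inv_cancel, Units.val_one]
    intro h
    have h2 := congrArg Matrix.det h1
    rw [Matrix.det_mul, h, zero_mul, Matrix.det_one] at h2
    exact zero_ne_one h2
  obtain ⟨c, hc⟩ := IsAlgClosed.exists_pow_nat_eq ((T : Matrix (Fin d) (Fin d) ℂ).det⁻¹)
    (Nat.pos_of_ne_zero hd)
  have hdet1 : (c • (T : Matrix (Fin d) (Fin d) ℂ)).det = 1 := by
    rw [Matrix.det_smul, Fintype.card_fin, hc, inv_mul_cancel₀ hdet]
  refine ⟨Matrix.GeneralLinearGroup.mkOfDetNeZero (c • (T : Matrix (Fin d) (Fin d) ℂ))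
    (by rw [hdet1]; exact one_ne_zero), ?_, ?_⟩
  · intro l hl
    show c • (T : Matrix (Fin d) (Fin d) ℂ) * r l = r (g * l * g⁻¹) * (c • (T : Matrix (Fin d) (Fin d) ℂ))
    rw [Matrix.smul_mul, Matrix.mul_smul, hT l hl]
  · exact hdet1

theorem exists_X {p : ℕ} (hp : p.Prime) {A L : Subgroup G} {d : ℕ}
    {r : G → Matrix (Fin d) (Fin d) ℂ} (hL : L ≤ A) (hn : Nrm A L) (hr : IsMRep L r)
    (hi : IsIr L (res L (fun x => (r x).trace)))
    (hinv : ∀ a ∈ A, ∀ l ∈ L, (r (a * l * a⁻¹)).trace = (r l).trace)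
    (hpL : ¬ p ∣ Nat.card L) (hpd : ¬ p ∣ d) :
    ∃ (X : Type) (_ : Group X) (_ : Fintype X) (π : X →* G) (R : X → Matrix (Fin d) (Fin d) ℂ)
      (lamX : X → ℂ), XP p A L r π R lamX := by
  have hd : d ≠ 0 := by
    rintro rfl
    exact hpd (dvd_zero p)
  haveI : NeZero d := ⟨hd⟩
  set e := Nat.card L with he
  have he0 : e ≠ 0 := Nat.card_pos.ne'
  have hde : d * e ≠ 0 := mul_ne_zero hd he0
  -- scalars
  have hsc : ∀ g : G, ∀ T S : GL (Fin d) ℂ, (g, T) ∈ x01X A L hn r e → (g, S) ∈ x01X A L hn r e →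
      ∃ c : ℂ, c ^ (d * e) = 1 ∧ (T : Matrix (Fin d) (Fin d) ℂ) = c • (S : Matrix (Fin d) (Fin d) ℂ) := by
    intro g T S hT hS
    obtain ⟨hg, hT1, hT2⟩ := x01_mem.mp hT
    obtain ⟨_, hS1, hS2⟩ := x01_mem.mp hS
    have hSi : (S : Matrix (Fin d) (Fin d) ℂ) * ((S⁻¹ : GL (Fin d) ℂ) : Matrix (Fin d) (Fin d) ℂ) = 1 := by
      rw [← Units.val_mul, mul_inv_cancel, Units.val_one]
    have hSi' : ((S⁻¹ : GL (Fin d) ℂ) : Matrix (Fin d) (Fin d) ℂ) * (S : Matrix (Fin d) (Fin d) ℂ) = 1 := by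
      rw [← Units.val_mul, inv_mul_cancel, Units.val_one]
    obtain ⟨c, hc⟩ := schur hr hi
      (((S⁻¹ : GL (Fin d) ℂ) : Matrix (Fin d) (Fin d) ℂ) * (T : Matrix (Fin d) (Fin d) ℂ)) (by
        intro a ha
        have h1 : ((S⁻¹ : GL (Fin d) ℂ) : Matrix (Fin d) (Fin d) ℂ) * r (g * a * g⁻¹) =
            r a * ((S⁻¹ : GL (Fin d) ℂ) : Matrix (Fin d) (Fin d) ℂ) := by
          calc ((S⁻¹ : GL (Fin d) ℂ) : Matrix (Fin d) (Fin d) ℂ) * r (g * a * g⁻¹)
              = ((S⁻¹ : GL (Fin d) ℂ) : Matrix (Fin d) (Fin d) ℂ) * (r (g * a * g⁻¹) * S) *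
                ((S⁻¹ : GL (Fin d) ℂ) : Matrix (Fin d) (Fin d) ℂ) := by
                rw [Matrix.mul_assoc, Matrix.mul_assoc, hSi, Matrix.mul_one]
            _ = r a * ((S⁻¹ : GL (Fin d) ℂ) : Matrix (Fin d) (Fin d) ℂ) := by
                have := hS1 a ha
                simp only at this
                rw [← this, ← Matrix.mul_assoc, hSi', Matrix.one_mul]
        have h2 := hT1 a ha
        simp only at h2
        rw [Matrix.mul_assoc, h2, ← Matrix.mul_assoc, h1, Matrix.mul_assoc])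
    have hTc : (T : Matrix (Fin d) (Fin d) ℂ) = c • (S : Matrix (Fin d) (Fin d) ℂ) := by
      calc (T : Matrix (Fin d) (Fin d) ℂ) = S * (((S⁻¹ : GL (Fin d) ℂ) :
            Matrix (Fin d) (Fin d) ℂ) * T) := by
            rw [← Matrix.mul_assoc, hSi, Matrix.one_mul]
        _ = c • (S : Matrix (Fin d) (Fin d) ℂ) := by
            rw [hc, Matrix.mul_smul, Matrix.mul_one]
    refine ⟨c, ?_, hTc⟩
    simp only at hT2 hS2
    rw [hTc, Matrix.det_smul, Fintype.card_fin, mul_pow, hS2, mul_one, ← pow_mul] at hT2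
    exact hT2
  -- finiteness
  have hfin : Finite (x01X A L hn r e) := by
    have hroots : {c : ℂ | c ^ (d * e) = 1}.Finite := by
      have hpoly : (Polynomial.X ^ (d * e) - 1 : Polynomial ℂ) ≠ 0 := by
        exact (Polynomial.monic_X_pow_sub_C (1 : ℂ) hde).ne_zero
      refine Set.Finite.subset (Finset.finite_toSet (Polynomial.X ^ (d * e) - 1 : Polynomial ℂ).roots.toFinset) ?_
      intro c hc
      simp only [Set.mem_setOf_eq] at hc
      simp only [Finset.mem_coe, Multiset.mem_toFinset, Polynomial.mem_roots hpoly,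
        Polynomial.IsRoot.def, Polynomial.eval_sub, Polynomial.eval_pow, Polynomial.eval_X,
        Polynomial.eval_one, hc, sub_self]
    have hch : ∀ g : G, ∃ S : GL (Fin d) ℂ, ∀ T : GL (Fin d) ℂ, (g, T) ∈ x01X A L hn r e →
        (g, S) ∈ x01X A L hn r e := by
      intro g
      by_cases h : ∃ S : GL (Fin d) ℂ, (g, S) ∈ x01X A L hn r e
      · obtain ⟨S, hS⟩ := h
        exact ⟨S, fun _ _ => hS⟩
      · exact ⟨1, fun T hT => absurd ⟨T, hT⟩ h⟩
    choose S hS using hch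
    have hx : ∀ x : x01X A L hn r e, ∃ c : {c : ℂ | c ^ (d * e) = 1},
        ((x.1.2 : GL (Fin d) ℂ) : Matrix (Fin d) (Fin d) ℂ) =
          (c : ℂ) • (S x.1.1 : Matrix (Fin d) (Fin d) ℂ) := by
      rintro ⟨⟨g, T⟩, hgT⟩
      obtain ⟨c, hc, hcT⟩ := hsc g T (S g) hgT (hS g T hgT)
      exact ⟨⟨c, hc⟩, hcT⟩
    choose c hc using hx
    haveI : Finite {c : ℂ | c ^ (d * e) = 1} := hroots.to_subtype
    refine Finite.of_injective (fun x : x01X A L hn r e => (x.1.1, c x)) ?_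
    intro x y hxy
    simp only [Prod.mk.injEq] at hxy
    apply Subtype.ext
    apply Prod.ext hxy.1
    apply Units.ext
    rw [hc x, hc y, hxy.1, hxy.2]
  haveI : Fintype (x01X A L hn r e) := Fintype.ofFinite _
  set π : x01X A L hn r e →* G := (MonoidHom.fst G (GL (Fin d) ℂ)).comp (x01X A L hn r e).subtype
    with hπ
  have hπx : ∀ x, π x = x.1.1 := fun x => rfl
  set R : x01X A L hn r e → Matrix (Fin d) (Fin d) ℂ :=
    fun x => ((x.1.2 : GL (Fin d) ℂ) : Matrix (Fin d) (Fin d) ℂ) with hR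
  have hR1 : R 1 = 1 := rfl
  have hRm : ∀ x y, R (x * y) = R x * R y := fun x y => rfl
  have hconj : ∀ x, ∀ l ∈ L, R x * r l = r (π x * l * (π x)⁻¹) * R x := fun x l hl => x.2.2.1 l hl
  have hRi : ∀ x, R x * R x⁻¹ = 1 := by
    intro x
    rw [← hRm, mul_inv_cancel, hR1]
  have hRi' : ∀ x, R x⁻¹ * R x = 1 := by
    intro x
    rw [← hRm, inv_mul_cancel, hR1]
  have hone0 : (1 : Matrix (Fin d) (Fin d) ℂ) ≠ 0 := one_ne_zero
  -- uniqueness of scalars
  have huniq : ∀ x, ∀ s t : ℂ, s • R x = t • R x → s = t := by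
    intro x s t hst
    have h1 : s • (1 : Matrix (Fin d) (Fin d) ℂ) = t • (1 : Matrix (Fin d) (Fin d) ℂ) := by
      rw [← hRi x, ← Matrix.smul_mul, hst, Matrix.smul_mul]
    have h2 : (s - t) • (1 : Matrix (Fin d) (Fin d) ℂ) = 0 := by
      rw [sub_smul, h1, sub_self]
    rcases smul_eq_zero.mp h2 with h | h
    · exact sub_eq_zero.mp h
    · exact absurd h hone0
  have hlam : ∀ x, ∃ s : ℂ, (π x ∉ L → s = 0) ∧ (π x ∈ L → r (π x) = s • R x) := by
    intro x
    by_cases hx : π x ∈ L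
    · have hxi : (π x)⁻¹ ∈ L := L.inv_mem hx
      have hrr : r (π x) * r (π x)⁻¹ = 1 := by
        rw [← hr.2 _ hx _ hxi, mul_inv_cancel, hr.1]
      have hrr' : r (π x)⁻¹ * r (π x) = 1 := by
        rw [← hr.2 _ hxi _ hx, inv_mul_cancel, hr.1]
      obtain ⟨c, hc⟩ := schur hr hi (R x⁻¹ * r (π x)) (by
        intro a ha
        have h1 : R x * r a = r (π x) * r a * r (π x)⁻¹ * R x := by
          rw [hconj x a ha, hr.2 _ (L.mul_mem hx ha) _ hxi, hr.2 _ hx _ ha]
        calc R x⁻¹ * r (π x) * r a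
            = R x⁻¹ * (r (π x) * r a * r (π x)⁻¹ * R x) * R x⁻¹ * r (π x) := by
              have : (r (π x) * r a * r (π x)⁻¹ * R x) * R x⁻¹ * r (π x) = r (π x) * r a := by
                rw [Matrix.mul_assoc (r (π x) * r a * r (π x)⁻¹), hRi, Matrix.mul_one,
                  Matrix.mul_assoc (r (π x) * r a), hrr', Matrix.mul_one]
              conv_lhs => rw [Matrix.mul_assoc (R x⁻¹) (r (π x)) (r a), ← this]
              simp only [Matrix.mul_assoc]
          _ = r a * (R x⁻¹ * r (π x)) := by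
              rw [← h1, ← Matrix.mul_assoc (R x⁻¹), hRi', Matrix.one_mul, Matrix.mul_assoc])
      refine ⟨c, fun h => absurd hx h, fun _ => ?_⟩
      calc r (π x) = R x * (R x⁻¹ * r (π x)) := by
            rw [← Matrix.mul_assoc, hRi, Matrix.one_mul]
        _ = c • R x := by rw [hc, Matrix.mul_smul, Matrix.mul_one]
    · exact ⟨0, fun _ => rfl, fun h => absurd h hx⟩
  choose lamX hlam0 hlam1 using hlam
  refine ⟨x01X A L hn r e, inferInstance, inferInstance, π, R, lamX, ?_⟩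
  refine ⟨?_, hR1, hRm, ?_, ?_, hconj, ?_, hlam1⟩
  · -- range
    ext g
    constructor
    · rintro ⟨x, rfl⟩
      exact x.2.1
    · intro hg
      obtain ⟨T, hT, hT1⟩ := x01_exists hn hr hi hinv hd hg
      exact ⟨⟨(g, T), x01_mem.mpr ⟨hg, hT, by rw [hT1, one_pow]⟩⟩, rfl⟩
  · intro x h1 h2
    apply Subtype.ext
    apply Prod.ext h1
    apply Units.ext
    exact h2
  · intro hdvd
    haveI : Fact p.Prime := ⟨hp⟩
    obtain ⟨k, hk⟩ := exists_prime_orderOf_dvd_card' p hdvd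
    have hk1 : π (k : x01X A L hn r e) = 1 := k.2
    have hkp : (k : x01X A L hn r e) ^ p = 1 := by
      have := pow_orderOf_eq_one k
      rw [hk] at this
      exact congrArg Subtype.val this
    obtain ⟨c, hc, hcR⟩ := hsc 1 (k.1.1.2) 1 (by
      have := k.1.2
      rw [hπx] at hk1
      rw [← hk1]
      exact this) (by
      have := (1 : x01X A L hn r e).2
      exact this)
    have hRk : R k.1 = c • (1 : Matrix (Fin d) (Fin d) ℂ) := hcR
    have hRpow : ∀ m : ℕ, R (k.1 ^ m) = c ^ m • (1 : Matrix (Fin d) (Fin d) ℂ) := by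
      intro m
      induction m with
      | zero => rw [pow_zero, pow_zero, one_smul, hR1]
      | succ m ih =>
        rw [pow_succ, hRm, ih, hRk, Matrix.smul_mul, Matrix.one_mul, smul_smul, ← pow_succ]
    have hcp : c ^ p = 1 := by
      have h1 := hRpow p
      rw [hkp, hR1] at h1
      have h2 : (1 : ℂ) • R (1 : x01X A L hn r e) = c ^ p • R (1 : x01X A L hn r e) := by
        rw [one_smul, hR1]
        exact h1
      exact (huniq _ _ _ h2).symm
    have hcop : Nat.Coprime p (d * e) := by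
      rw [Nat.Prime.coprime_iff_not_dvd hp, hp.dvd_mul]
      push Not
      exact ⟨hpd, hpL⟩
    have hc1 : c = 1 := by
      have h1 : orderOf c ∣ p := orderOf_dvd_of_pow_eq_one hcp
      have h2 : orderOf c ∣ d * e := orderOf_dvd_of_pow_eq_one hc
      have h3 : orderOf c ∣ 1 := by
        have := Nat.dvd_gcd h1 h2
        rwa [hcop] at this
      exact orderOf_eq_one_iff.mp (Nat.dvd_one.mp h3)
    have hk2 : k = 1 := by
      apply Subtype.ext
      apply Subtype.ext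
      apply Prod.ext hk1
      apply Units.ext
      have h5 : R k.1 = 1 := by rw [hRk, hc1, one_smul]
      exact h5
    rw [hk2, orderOf_one] at hk
    exact hp.one_lt.ne hk
  · refine ⟨?_, ?_, ?_⟩
    · intro x hx
      exact hlam0 x hx
    · have h1 := hlam1 1 (by rw [map_one]; exact L.one_mem)
      rw [map_one, hr.1] at h1
      apply (huniq 1 _ _ _).symm
      rw [one_smul, ← h1, hR1]
    · intro x hx y hy
      have hx' : π x ∈ L := hx
      have hy' : π y ∈ L := hy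
      have h1 := hlam1 (x * y) (by rw [map_mul]; exact L.mul_mem hx' hy')
      rw [map_mul, hr.2 _ hx' _ hy', hlam1 x hx', hlam1 y hy', Matrix.smul_mul, Matrix.mul_smul,
        smul_smul, ← hRm] at h1
      exact (huniq _ _ _ h1).symm

end Pool.Agent.CTab
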