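import Pool.Agent.CTab.Defs
import Pool.Agent.CTab.G01

/-!
Existence of `p`-complements in solvable groups, for every Sylow `p`-subgroup `P` (any `p`-complement will do, since
`Cpl` only asks for the orders). Induction on `|A|` (say for all finite solvable groups): take a nontrivial normal elementary
abelian `ℓ`-subgroup `M`; let `Q/M` be a `p`-complement of `A/M`; if `ℓ ≠ p` then `Q` works, if `ℓ = p` then Schur-Zassenhaus
(`Subgroup.exists_right_complement'_of_coprime`) gives a complement of `M` in `Q`.
Second statement: central kernel of order prime to `p`; `P'` is the unique Sylow `p`-subgroup of `P.comap π = ker π × P'`.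
-/

set_option autoImplicit false

namespace Pool.Agent.CTab

open scoped Classical

variable {G : Type} [Group G] [Fintype G]

theorem exists_cpl {p : ℕ} (hp : p.Prime) (G : Type) [Group G] [Fintype G] [Group.IsSolvable G]
    (P : Sylow p G) : ∃ H : Subgroup G, Cpl p ⊤ H (P : Subgroup G) := by
  sorry

theorem exists_cpl_comap {p : ℕ} (hp : p.Prime) {X : Type} [Group X] [Fintype X] (π : X →* G)
    {B H P : Subgroup G} (hB : B ≤ π.range) (h : Cpl p B H P) (hk : ¬ p ∣ Nat.card π.ker)
    (hz : ∀ k ∈ π.ker, ∀ x, k * x = x * k) :
    ∃ P' : Subgroup X, Cpl p (B.comap π) (H.comap π) P' ∧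
      KK (H.comap π) P' = (KK H P).comap π := by
  sorry

end Pool.Agent.CTab
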