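import Pool.Agent.CTab.Defs
import Pool.Agent.CTab.X00
import Pool.Agent.CTab.B01
import Pool.Agent.CTab.B02
import Pool.Agent.CTab.B03
import Pool.Agent.CTab.B08
import Pool.Agent.CTab.B09
import Pool.Agent.CTab.B11
import Pool.Agent.CTab.B13

/-!
The map `Φ`: for `w : X → ℂ` which is `Over (L.comap π) lamX`, the function `x ↦ tr(R x) w(x)` is constant on the fibres of
`π`; `phi π R w : G → ℂ` is the function with `phi (π x) = tr(R x) w(x)`, zero outside `π.range`.
Isometry: for `L ≤ B ≤ A` and `w, w'` both `Over (L.comap π) lamX`, supported on `B.comap π`,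
`ip B (Φ w) (Φ w') = ip (B.comap π) w w'`. Indeed for each `x`, `Σ_{n ∈ L.comap π} |tr R(x n)|² = |L.comap π|`: since
`R n = (lamX n)⁻¹ r(π n)` and `tr R(x n)` has conjugate `tr R((x n)⁻¹)` (it is a character of `X`), this is `|ker π|` times
`Σ_{l ∈ L} tr(R x r l) tr(r l⁻¹ R x⁻¹) = |L|` (`schur_orth` with `S = R x`, `T = R x⁻¹`).
-/

set_option autoImplicit false

namespace Pool.Agent.CTab

open scoped Classical

variable {G : Type} [Group G] [Fintype G]

noncomputable def phi {X : Type} [Group X] [Fintype X] {d : ℕ} (π : X →* G)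
    (R : X → Matrix (Fin d) (Fin d) ℂ) (w : X → ℂ) : G → ℂ :=
  fun g => if h : ∃ x, π x = g then (R h.choose).trace * w h.choose else 0

/-- sums over fibres -/
private theorem x02_sum_pull {G₁ G₂ : Type} [Group G₁] [Fintype G₁] [Group G₂] [Fintype G₂]
    (φ : G₁ →* G₂) {B : Subgroup G₂} (hB : B ≤ φ.range) {F : G₂ → ℂ} (hF : ∀ y, y ∉ B → F y = 0) :
    ∑ x, F (φ x) = (Nat.card φ.ker : ℂ) * ∑ y, F y := by
  rw [Finset.sum_comp F φ, Finset.mul_sum]
  have h1 : ∀ y ∈ Finset.univ.image φ,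
      (Finset.univ.filter fun x => φ x = y).card = Nat.card φ.ker := by
    intro y hy
    obtain ⟨x, -, rfl⟩ := Finset.mem_image.1 hy
    rw [Nat.card_eq_fintype_card]
    refine (Finset.card_bij (fun (k : φ.ker) _ => x * k.1) ?_ ?_ ?_).symm
    · intro k _
      have := k.2
      rw [MonoidHom.mem_ker] at this
      simp [this]
    · intro k _ l _ h
      exact Subtype.ext (mul_left_cancel h)
    · intro z hz
      refine ⟨⟨x⁻¹ * z, ?_⟩, Finset.mem_univ _, ?_⟩
      · rw [MonoidHom.mem_ker, map_mul, map_inv, (Finset.mem_filter.1 hz).2, inv_mul_cancel]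
      · simp
  have h2 : ∑ y ∈ Finset.univ.image φ, (Finset.univ.filter fun x => φ x = y).card • F y =
      ∑ y ∈ Finset.univ.image φ, (Nat.card φ.ker : ℂ) * F y := by
    refine Finset.sum_congr rfl fun y hy => ?_
    rw [h1 y hy, nsmul_eq_mul]
  rw [h2]
  refine Finset.sum_subset (Finset.subset_univ _) fun y _ hy => ?_
  rw [hF y, mul_zero]
  intro hyB
  apply hy
  obtain ⟨x, hx⟩ := hB hyB
  exact Finset.mem_image.2 ⟨x, Finset.mem_univ _, hx⟩

private lemma x02_lam_ne {X : Type} [Group X] [Fintype X] {N : Subgroup X} {μ : X → ℂ}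
    (h : IsLin N μ) {n : X} (hn : n ∈ N) : μ n ≠ 0 := by
  intro h0
  have h1 := h.norm hn
  rw [h0, norm_zero] at h1
  exact zero_ne_one h1

private lemma x02_phi_zero {X : Type} [Group X] [Fintype X] {d : ℕ} (π : X →* G)
    (R : X → Matrix (Fin d) (Fin d) ℂ) (w : X → ℂ) {g : G} (hg : g ∉ π.range) : phi π R w g = 0 := by
  unfold phi
  rw [dif_neg]
  rintro ⟨x, hx⟩
  exact hg ⟨x, hx⟩

private lemma x02_R_ker {X : Type} [Group X] [Fintype X] {p : ℕ} {A L : Subgroup G} {d : ℕ}
    {r : G → Matrix (Fin d) (Fin d) ℂ} {π : X →* G} {R : X → Matrix (Fin d) (Fin d) ℂ}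
    {lamX : X → ℂ} (h : XP p A L r π R lamX) {n : X} (hn : π n ∈ L) :
    R n = (lamX n)⁻¹ • r (π n) := by
  rw [h.lam n hn, smul_smul, inv_mul_cancel₀ (x02_lam_ne h.lin hn), one_smul]

private lemma x02_mrep {X : Type} [Group X] [Fintype X] {p : ℕ} {A L : Subgroup G} {d : ℕ}
    {r : G → Matrix (Fin d) (Fin d) ℂ} {π : X →* G} {R : X → Matrix (Fin d) (Fin d) ℂ}
    {lamX : X → ℂ} (h : XP p A L r π R lamX) (B : Subgroup X) : IsMRep B R :=
  ⟨h.one, fun x _ y _ => h.mul x y⟩

private lemma x02_conj {X : Type} [Group X] [Fintype X] {p : ℕ} {A L : Subgroup G} {d : ℕ}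
    {r : G → Matrix (Fin d) (Fin d) ℂ} {π : X →* G} {R : X → Matrix (Fin d) (Fin d) ℂ}
    {lamX : X → ℂ} (h : XP p A L r π R lamX) (x : X) :
    (starRingEnd ℂ) (R x).trace = (R x⁻¹).trace := by
  have h1 := (isCh_of_mrep (x02_mrep h ⊤)).conj x
  unfold res at h1
  rw [if_pos (Subgroup.mem_top x), if_pos (Subgroup.mem_top x⁻¹)] at h1
  exact h1

/-- the average of `|tr R|²` over a coset of `L.comap π` -/
private lemma x02_coset {X : Type} [Group X] [Fintype X] {p : ℕ} {A L : Subgroup G} {d : ℕ}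
    {r : G → Matrix (Fin d) (Fin d) ℂ} {π : X →* G} {R : X → Matrix (Fin d) (Fin d) ℂ}
    {lamX : X → ℂ} (h : XP p A L r π R lamX) (hr : IsMRep L r)
    (hi : IsIr L (res L (fun x => (r x).trace))) (hLA : L ≤ A) (hd : d ≠ 0) (x : X) :
    ∑ n, (if π n ∈ L then (R (x * n)).trace * (starRingEnd ℂ) (R (x * n)).trace else 0) =
      (Nat.card (L.comap π) : ℂ) := by
  have hLr : L ≤ π.range := by rw [h.range]; exact hLA
  have h1 : ∀ n, (if π n ∈ L then (R (x * n)).trace * (starRingEnd ℂ) (R (x * n)).trace else 0) =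
      (fun l : G => if l ∈ L then (R x * r l).trace * (r l⁻¹ * R x⁻¹).trace else 0) (π n) := by
    intro n
    by_cases hn : π n ∈ L
    · simp only [if_pos hn]
      have hn' : π n⁻¹ ∈ L := by rw [map_inv]; exact L.inv_mem hn
      have hl : lamX n * lamX n⁻¹ = 1 := by
        rw [← h.lin.2.2 n hn n⁻¹ hn', mul_inv_cancel, h.lin.2.1]
      rw [x02_conj h, mul_inv_rev, h.mul, h.mul, x02_R_ker h hn, x02_R_ker h hn', map_inv,
        Matrix.mul_smul, Matrix.smul_mul, Matrix.trace_smul, Matrix.trace_smul, smul_eq_mul,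
        smul_eq_mul]
      calc (lamX n)⁻¹ * (R x * r (π n)).trace * ((lamX n⁻¹)⁻¹ * (r (π n)⁻¹ * R x⁻¹).trace)
          = (lamX n * lamX n⁻¹)⁻¹ * ((R x * r (π n)).trace * (r (π n)⁻¹ * R x⁻¹).trace) := by
            rw [mul_inv]; ring
        _ = _ := by rw [hl, inv_one, one_mul]
    · simp only [if_neg hn]
  have h2 := x02_sum_pull π hLr
    (F := fun l : G => if l ∈ L then (R x * r l).trace * (r l⁻¹ * R x⁻¹).trace else 0)
    (fun y hy => if_neg hy)
  refine (Finset.sum_congr rfl (fun n _ => h1 n)).trans (h2.trans ?_)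
  rw [schur_orth hr hi (R x) (R x⁻¹), ← h.mul, mul_inv_cancel, h.one, Matrix.trace_one,
    Fintype.card_fin, card_comap π hLr]
  have hd' : (d : ℂ) ≠ 0 := by exact_mod_cast hd
  push_cast
  field_simp

theorem phi_apply {X : Type} [Group X] [Fintype X] {p : ℕ} {A L : Subgroup G} {d : ℕ}
    {r : G → Matrix (Fin d) (Fin d) ℂ} {π : X →* G} {R : X → Matrix (Fin d) (Fin d) ℂ}
    {lamX : X → ℂ} (h : XP p A L r π R lamX) (hr : IsMRep L r) {w : X → ℂ}
    (hw : Over (L.comap π) lamX w) (x : X) : phi π R w (π x) = (R x).trace * w x := by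
  have hex : ∃ y, π y = π x := ⟨x, rfl⟩
  have h0 : phi π R w (π x) = (R hex.choose).trace * w hex.choose := by
    unfold phi
    rw [dif_pos hex]
  rw [h0]
  set y := hex.choose with hy
  have hyx : π y = π x := hex.choose_spec
  obtain ⟨k, hk⟩ : ∃ k, k = x⁻¹ * y := ⟨_, rfl⟩
  have hyk : y = x * k := by rw [hk]; group
  have hπk : π k = 1 := by rw [hk, map_mul, map_inv, hyx, inv_mul_cancel]
  have hkL : k ∈ L.comap π := by
    rw [Subgroup.mem_comap, hπk]
    exact L.one_mem
  have hne := x02_lam_ne h.lin hkL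
  rw [hyk, hw x k hkL, h.mul, (h.ker_scalar hr hπk).1, Matrix.mul_smul, Matrix.mul_one,
    Matrix.trace_smul, smul_eq_mul]
  field_simp

theorem ip_phi {X : Type} [Group X] [Fintype X] {p : ℕ} {A L B : Subgroup G} {d : ℕ}
    {r : G → Matrix (Fin d) (Fin d) ℂ} {π : X →* G} {R : X → Matrix (Fin d) (Fin d) ℂ}
    {lamX : X → ℂ} (h : XP p A L r π R lamX) (hr : IsMRep L r)
    (hi : IsIr L (res L (fun x => (r x).trace))) (hn : Nrm A L) (hLB : L ≤ B) (hBA : B ≤ A) {w w' : X → ℂ}
    (hw : Over (L.comap π) lamX w) (hw' : Over (L.comap π) lamX w')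
    (h0 : ∀ x, π x ∉ B → w x = 0) (h0' : ∀ x, π x ∉ B → w' x = 0) :
    ip B (phi π R w) (phi π R w') = ip (B.comap π) w w' := by
  have hBr : B ≤ π.range := by rw [h.range]; exact hBA
  have hd : d ≠ 0 := by
    rintro rfl
    have h1 := (isIr_iff.mp hi).2
    have h2 : res L (fun x => (r x).trace) = fun _ => 0 := by
      funext x
      unfold res
      split_ifs
      · exact Matrix.trace_fin_zero _
      · rfl
    rw [h2] at h1
    unfold ip at h1
    simp at h1
  have hN0 : (Nat.card (L.comap π) : ℂ) ≠ 0 := by exact_mod_cast Nat.card_pos.ne'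
  have hk0 : (Nat.card π.ker : ℂ) ≠ 0 := by exact_mod_cast Nat.card_pos.ne'
  have hsupp : ∀ y, y ∉ B → phi π R w y * (starRingEnd ℂ) (phi π R w' y) = 0 := by
    intro y hy
    by_cases hyr : y ∈ π.range
    · obtain ⟨x, rfl⟩ := hyr
      rw [phi_apply h hr hw, h0 x hy, mul_zero, zero_mul]
    · rw [x02_phi_zero π R w hyr, zero_mul]
  have hpull := x02_sum_pull π hBr hsupp
  -- the main identity
  have key : ∑ x, phi π R w (π x) * (starRingEnd ℂ) (phi π R w' (π x)) =
      ∑ x, w x * (starRingEnd ℂ) (w' x) := by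
    have h1 : ∀ x, phi π R w (π x) * (starRingEnd ℂ) (phi π R w' (π x)) =
        (R x).trace * (starRingEnd ℂ) (R x).trace * (w x * (starRingEnd ℂ) (w' x)) := by
      intro x
      rw [phi_apply h hr hw, phi_apply h hr hw', map_mul]
      ring
    rw [Finset.sum_congr rfl (fun x _ => h1 x)]
    apply mul_left_cancel₀ hN0
    have h2 : (Nat.card (L.comap π) : ℂ) = ∑ n : X, if π n ∈ L then 1 else 0 := by
      rw [Finset.sum_boole, ← Fintype.card_subtype, ← Nat.card_eq_fintype_card]
      rfl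
    have h3 : ∀ n : X, (if π n ∈ L then (1 : ℂ) else 0) *
        ∑ x, (R x).trace * (starRingEnd ℂ) (R x).trace * (w x * (starRingEnd ℂ) (w' x)) =
        ∑ x, (if π n ∈ L then (R (x * n)).trace * (starRingEnd ℂ) (R (x * n)).trace else 0) *
          (w x * (starRingEnd ℂ) (w' x)) := by
      intro n
      by_cases hn' : π n ∈ L
      · rw [if_pos hn', one_mul]
        rw [← Equiv.sum_comp (Equiv.mulRight n)]
        apply Finset.sum_congr rfl
        intro x _
        rw [if_pos hn', Equiv.coe_mulRight, hw x n hn', hw' x n hn', map_mul]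
        have h4 : lamX n * (starRingEnd ℂ) (lamX n) = 1 := h.lin.mul_conj hn'
        linear_combination (R (x * n)).trace * (starRingEnd ℂ) (R (x * n)).trace *
          (w x * (starRingEnd ℂ) (w' x)) * h4
      · rw [if_neg hn', zero_mul]
        symm
        apply Finset.sum_eq_zero
        intro x _
        rw [if_neg hn', zero_mul]
    rw [h2, Finset.sum_mul, Finset.sum_congr rfl (fun n _ => h3 n), Finset.sum_comm, Finset.mul_sum]
    apply Finset.sum_congr rfl
    intro x _
    rw [← Finset.sum_mul, x02_coset h hr hi (hLB.trans hBA) hd x, ← h2]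
  unfold ip
  rw [card_comap π hBr, ← key, hpull]
  push_cast
  rw [mul_inv, mul_assoc, inv_mul_cancel_left₀ hk0]

/-- `Φ` of a character is a character; restriction is compatible -/
theorem phi_isCh {X : Type} [Group X] [Fintype X] {p : ℕ} {A L B : Subgroup G} {d : ℕ}
    {r : G → Matrix (Fin d) (Fin d) ℂ} {π : X →* G} {R : X → Matrix (Fin d) (Fin d) ℂ}
    {lamX : X → ℂ} (h : XP p A L r π R lamX) (hr : IsMRep L r) (hLB : L ≤ B) (hBA : B ≤ A) {w : X → ℂ}
    (hw : Over (L.comap π) lamX w) (hc : IsCh (B.comap π) w) : IsCh B (phi π R w) := by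
  have hBr : B ≤ π.range := by rw [h.range]; exact hBA
  have h1 : IsCh (B.comap π) (fun x => (R x).trace * w x) := by
    have h2 := (isCh_of_mrep (x02_mrep h (B.comap π))).mul hc
    have h3 : (fun x => res (B.comap π) (fun x => (R x).trace) x * w x) =
        fun x => (R x).trace * w x := by
      funext x
      unfold res
      by_cases hx : x ∈ B.comap π
      · rw [if_pos hx]
      · rw [if_neg hx, hc.1 x hx, mul_zero, mul_zero]
    rw [h3] at h2
    exact h2
  obtain ⟨f, hf, hfe⟩ := descend π hBr h1 (by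
    intro k hk x
    have h4 : π (x * k) = π x := by rw [map_mul, MonoidHom.mem_ker.mp hk, mul_one]
    rw [← phi_apply h hr hw, ← phi_apply h hr hw, h4])
  have h5 : phi π R w = f := by
    funext g
    by_cases hg : g ∈ π.range
    · obtain ⟨x, rfl⟩ := hg
      rw [phi_apply h hr hw, ← hfe x]
    · rw [x02_phi_zero π R w hg, hf.1 g (fun hgB => hg (hBr hgB))]
  rw [h5]
  exact hf

theorem phi_res {X : Type} [Group X] [Fintype X] {p : ℕ} {A L B : Subgroup G} {d : ℕ}
    {r : G → Matrix (Fin d) (Fin d) ℂ} {π : X →* G} {R : X → Matrix (Fin d) (Fin d) ℂ}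
    {lamX : X → ℂ} (h : XP p A L r π R lamX) (hr : IsMRep L r) (hLB : L ≤ B) {w : X → ℂ}
    (hw : Over (L.comap π) lamX w) :
    res B (phi π R w) = phi π R (res (B.comap π) w) ∧
      Over (L.comap π) lamX (res (B.comap π) w) := by
  have hO : Over (L.comap π) lamX (res (B.comap π) w) := by
    intro x n hn
    have hnB : n ∈ B.comap π := Subgroup.comap_mono hLB hn
    unfold res
    by_cases hx : x ∈ B.comap π
    · rw [if_pos hx, if_pos ((B.comap π).mul_mem hx hnB), hw x n hn]
    · rw [if_neg hx, if_neg, zero_mul]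
      intro h1
      apply hx
      have h2 := (B.comap π).mul_mem h1 ((B.comap π).inv_mem hnB)
      rwa [mul_inv_cancel_right] at h2
  refine ⟨?_, hO⟩
  funext g
  by_cases hg : g ∈ π.range
  · obtain ⟨x, rfl⟩ := hg
    rw [phi_apply h hr hO]
    unfold res
    by_cases hx : π x ∈ B
    · have hx' : x ∈ B.comap π := hx
      rw [if_pos hx, if_pos hx', phi_apply h hr hw]
    · have hx' : x ∉ B.comap π := hx
      rw [if_neg hx, if_neg hx', mul_zero]
  · rw [x02_phi_zero π R _ hg]
    unfold res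
    split_ifs
    · exact x02_phi_zero π R w hg
    · rfl

end Pool.Agent.CTab
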