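import Pool.Agent.CTab.Defs
import Pool.Agent.CTab.X00
import Pool.Agent.CTab.X02
import Pool.Agent.CTab.B01
import Pool.Agent.CTab.B02
import Pool.Agent.CTab.B03
import Pool.Agent.CTab.B04
import Pool.Agent.CTab.B08
import Pool.Agent.CTab.B09
import Pool.Agent.CTab.B11
import Pool.Agent.CTab.B12
import Pool.Agent.CTab.B13
import Pool.Agent.CTab.C01

/-!
`Φ` is a bijection from the irreducible characters of `B.comap π` over `lamX` to the irreducible characters `α` of `B`
whose restriction to `L` is a multiple of the character of `r`. Injectivity and irreducibility: isometry and `isIr_iff`,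
`ip_irr`. Surjectivity: let `f x = α (π x) * conj (tr R x)`, a character of `B.comap π`; let `w` be its
`lamX`-isotypic part over `N = L.comap π` (`IsCh.iso`, `iso_over`), a character. `ip B (Φ w) α = ip (B.comap π) w f =
ip (B.comap π) w w =: m` (`ip_iso`) and `ip B (Φ w) (Φ w) = m`; `w 1 = ip L (res L α) θ ≠ 0`, so `m ≥ 1`; `α` is a
constituent of multiplicity `m` of the character `Φ w` of norm `m`, so `m² ≤ m`, `m = 1` and `Φ w = α`.
-/

set_option autoImplicit false

namespace Pool.Agent.CTab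

open scoped Classical

variable {G : Type} [Group G] [Fintype G]

/-- sums over fibres -/
private theorem x03_sum_pull {G₁ G₂ : Type} [Group G₁] [Fintype G₁] [Group G₂] [Fintype G₂]
    (φ : G₁ →* G₂) {B : Subgroup G₂} (hB : B ≤ φ.range) {F : G₂ → ℂ} (hF : ∀ y, y ∉ B → F y = 0) :
    ∑ x, F (φ x) = (Nat.card φ.ker : ℂ) * ∑ y, F y := by
  rw [Finset.sum_comp F φ, Finset.mul_sum]
  have h1 : ∀ y ∈ Finset.univ.image φ,
      (Finset.univ.filter fun x => φ x = y).card = Nat.card φ.ker := by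
    intro y hy
    obtain ⟨x, -, rfl⟩ := Finset.mem_image.1 hy
    rw [Nat.card_eq_fintype_card]
    refine (Finset.card_bij (fun (k : φ.ker) _ => x * k.1) ?_ ?_ ?_).symm
    · intro k _
      have := k.2
      rw [MonoidHom.mem_ker] at this
      simp [this]
    · intro k _ l _ h
      exact Subtype.ext (mul_left_cancel h)
    · intro z hz
      refine ⟨⟨x⁻¹ * z, ?_⟩, Finset.mem_univ _, ?_⟩
      · rw [MonoidHom.mem_ker, map_mul, map_inv, (Finset.mem_filter.1 hz).2, inv_mul_cancel]
      · simp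
  have h2 : ∑ y ∈ Finset.univ.image φ, (Finset.univ.filter fun x => φ x = y).card • F y =
      ∑ y ∈ Finset.univ.image φ, (Nat.card φ.ker : ℂ) * F y := by
    refine Finset.sum_congr rfl fun y hy => ?_
    rw [h1 y hy, nsmul_eq_mul]
  rw [h2]
  refine Finset.sum_subset (Finset.subset_univ _) fun y _ hy => ?_
  rw [hF y, mul_zero]
  intro hyB
  apply hy
  obtain ⟨x, hx⟩ := hB hyB
  exact Finset.mem_image.2 ⟨x, Finset.mem_univ _, hx⟩

private lemma x03_lam_ne {X : Type} [Group X] [Fintype X] {N : Subgroup X} {μ : X → ℂ}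
    (h : IsLin N μ) {n : X} (hn : n ∈ N) : μ n ≠ 0 := by
  intro h0
  have h1 := h.norm hn
  rw [h0, norm_zero] at h1
  exact zero_ne_one h1

private lemma x03_R_ker {X : Type} [Group X] [Fintype X] {p : ℕ} {A L : Subgroup G} {d : ℕ}
    {r : G → Matrix (Fin d) (Fin d) ℂ} {π : X →* G} {R : X → Matrix (Fin d) (Fin d) ℂ}
    {lamX : X → ℂ} (h : XP p A L r π R lamX) {n : X} (hn : π n ∈ L) :
    R n = (lamX n)⁻¹ • r (π n) := by
  rw [h.lam n hn, smul_smul, inv_mul_cancel₀ (x03_lam_ne h.lin hn), one_smul]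

private lemma x03_d_ne {L : Subgroup G} {d : ℕ} {r : G → Matrix (Fin d) (Fin d) ℂ}
    (hi : IsIr L (res L (fun x => (r x).trace))) : d ≠ 0 := by
  rintro rfl
  have h1 := (isIr_iff.mp hi).2
  have h2 : res L (fun x => (r x).trace) = fun _ => 0 := by
    funext x
    unfold res
    split_ifs
    · exact Matrix.trace_fin_zero _
    · rfl
  rw [h2] at h1
  unfold ip at h1
  simp at h1

private lemma x03_ip_sub (B : Subgroup G) (u v : G → ℂ) :
    ip B (fun x => u x - v x) (fun x => u x - v x) = ip B u u - ip B u v - ip B v u + ip B v v := by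
  unfold ip
  rw [← mul_sub, ← mul_sub, ← mul_add, ← Finset.sum_sub_distrib, ← Finset.sum_sub_distrib,
    ← Finset.sum_add_distrib]
  congr 1
  apply Finset.sum_congr rfl
  intro x _
  rw [map_sub]
  ring

private lemma x03_ip_conj (B : Subgroup G) (u v : G → ℂ) :
    ip B v u = (starRingEnd ℂ) (ip B u v) := by
  unfold ip
  rw [map_mul, map_sum, map_inv₀, Complex.conj_natCast]
  congr 1
  apply Finset.sum_congr rfl
  intro x _
  rw [map_mul, Complex.conj_conj, mul_comm]

theorem phi_isIr {X : Type} [Group X] [Fintype X] {p : ℕ} {A L B : Subgroup G} {d : ℕ}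
    {r : G → Matrix (Fin d) (Fin d) ℂ} {π : X →* G} {R : X → Matrix (Fin d) (Fin d) ℂ}
    {lamX : X → ℂ} (h : XP p A L r π R lamX) (hr : IsMRep L r)
    (hi : IsIr L (res L (fun x => (r x).trace))) (hn : Nrm A L) (hLB : L ≤ B) (hBA : B ≤ A) {w : X → ℂ}
    (hw : Over (L.comap π) lamX w) (hc : IsCh (B.comap π) w) :
    IsIr (B.comap π) w ↔ IsIr B (phi π R w) := by
  have h1 := ip_phi h hr hi hn hLB hBA hw hw (fun x hx => hc.1 x hx) (fun x hx => hc.1 x hx)
  rw [isIr_iff, isIr_iff, h1]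
  constructor
  · rintro ⟨_, h2⟩
    exact ⟨phi_isCh h hr hLB hBA hw hc, h2⟩
  · rintro ⟨_, h2⟩
    exact ⟨hc, h2⟩

theorem phi_inj {X : Type} [Group X] [Fintype X] {p : ℕ} {A L B : Subgroup G} {d : ℕ}
    {r : G → Matrix (Fin d) (Fin d) ℂ} {π : X →* G} {R : X → Matrix (Fin d) (Fin d) ℂ}
    {lamX : X → ℂ} (h : XP p A L r π R lamX) (hr : IsMRep L r)
    (hi : IsIr L (res L (fun x => (r x).trace))) (hn : Nrm A L) (hLB : L ≤ B) (hBA : B ≤ A) {w w' : X → ℂ}
    (hw : Over (L.comap π) lamX w) (hw' : Over (L.comap π) lamX w')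
    (hc : IsIr (B.comap π) w) (hc' : IsIr (B.comap π) w') (he : phi π R w = phi π R w') :
    w = w' := by
  have h1 := ip_phi h hr hi hn hLB hBA hw hw' (fun x hx => hc.isCh.1 x hx)
    (fun x hx => hc'.isCh.1 x hx)
  rw [← he, (isIr_iff.mp ((phi_isIr h hr hi hn hLB hBA hw hc.isCh).mp hc)).2, ip_irr hc hc'] at h1
  by_contra hne
  rw [if_neg hne] at h1
  exact one_ne_zero h1

theorem phi_surj {X : Type} [Group X] [Fintype X] {p : ℕ} {A L B : Subgroup G} {d : ℕ}
    {r : G → Matrix (Fin d) (Fin d) ℂ} {π : X →* G} {R : X → Matrix (Fin d) (Fin d) ℂ}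
    {lamX : X → ℂ} (h : XP p A L r π R lamX) (hr : IsMRep L r)
    (hi : IsIr L (res L (fun x => (r x).trace))) (hn : Nrm A L) (hLB : L ≤ B) (hBA : B ≤ A) {α : G → ℂ}
    (hα : IsIr B α) (hm : ∃ c : ℂ, ∀ l ∈ L, α l = c * (r l).trace) :
    ∃ w, IsIr (B.comap π) w ∧ Over (L.comap π) lamX w ∧ phi π R w = α := by
  obtain ⟨c, hc⟩ := hm
  have hBr : B ≤ π.range := by rw [h.range]; exact hBA
  have hLr : L ≤ π.range := hLB.trans hBr
  have hd := x03_d_ne hi
  have hd' : (d : ℂ) ≠ 0 := by exact_mod_cast hd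
  have hk0 : (Nat.card π.ker : ℂ) ≠ 0 := by exact_mod_cast Nat.card_pos.ne'
  have hL0 : (Nat.card L : ℂ) ≠ 0 := by exact_mod_cast Nat.card_pos.ne'
  have hα0 : α 1 ≠ 0 := by
    obtain ⟨m, hm0, hm1, _⟩ := hα.deg_dvd
    rw [hm1]
    exact_mod_cast hm0.ne'
  have hc0 : c ≠ 0 := by
    rintro rfl
    apply hα0
    rw [hc 1 L.one_mem, zero_mul]
  have hinv : Inv (B.comap π) lamX := fun a _ x =>
    h.inv hr hn (Nat.pos_of_ne_zero hd) a (Subgroup.mem_top a) x
  have hNB : L.comap π ≤ B.comap π := Subgroup.comap_mono hLB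
  have hNn : Nrm (B.comap π) (L.comap π) := by
    intro a ha l hl
    rw [Subgroup.mem_comap] at ha hl ⊢
    rw [map_mul, map_mul, map_inv]
    exact hn _ (hBA ha) _ hl
  -- the character `f`
  have hf : IsCh (B.comap π) (fun x => α (π x) * (starRingEnd ℂ) (R x).trace) := by
    have h1 := pull_isCh π hBr hα.isCh
    have h2 : IsMRep (B.comap π) R := ⟨h.one, fun x _ y _ => h.mul x y⟩
    have h3 := h1.mul (isCh_of_mrep h2).dual
    have h4 : (fun x => α (π x) * (starRingEnd ℂ) (res (B.comap π) (fun x => (R x).trace) x)) =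
        fun x => α (π x) * (starRingEnd ℂ) (R x).trace := by
      funext x
      unfold res
      by_cases hx : x ∈ B.comap π
      · rw [if_pos hx]
      · rw [if_neg hx, map_zero, mul_zero, hα.isCh.1 (π x) hx, zero_mul]
    rw [h4] at h3
    exact h3
  obtain ⟨f, hfdef⟩ : ∃ f : X → ℂ, f = fun x => α (π x) * (starRingEnd ℂ) (R x).trace := ⟨_, rfl⟩
  rw [← hfdef] at hf
  obtain ⟨w, hwdef⟩ : ∃ w : X → ℂ, w = fun x => (Nat.card (L.comap π) : ℂ)⁻¹ *
      ∑ n, (if n ∈ L.comap π then (starRingEnd ℂ) (lamX n) * f (x * n) else 0) := ⟨_, rfl⟩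
  have hwc : IsCh (B.comap π) w := by
    rw [hwdef]
    exact hf.iso hNB hNn h.lin hinv
  have hwo : Over (L.comap π) lamX w := by
    rw [hwdef]
    exact iso_over hf.cls hNB h.lin
  have hw0 : ∀ x, π x ∉ B → w x = 0 := fun x hx => hwc.1 x hx
  have hipw : ip (B.comap π) w f = ip (B.comap π) w w := by
    have h1 := ip_iso (f := f) hNB h.lin hwo
    rw [← hwdef] at h1
    exact h1
  have hnorm := ip_phi h hr hi hn hLB hBA hwo hwo hw0 hw0
  -- pairing with `α`
  have hpair : ip B (phi π R w) α = ip (B.comap π) w w := by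
    rw [← hipw]
    have h1 : ∑ x, phi π R w (π x) * (starRingEnd ℂ) (α (π x)) =
        (Nat.card π.ker : ℂ) * ∑ y, phi π R w y * (starRingEnd ℂ) (α y) :=
      x03_sum_pull π hBr (F := fun y => phi π R w y * (starRingEnd ℂ) (α y)) (fun y hy => by
        rw [hα.isCh.1 y hy, map_zero, mul_zero])
    have h2 : ∀ x, phi π R w (π x) * (starRingEnd ℂ) (α (π x)) = w x * (starRingEnd ℂ) (f x) := by
      intro x
      rw [phi_apply h hr hwo, hfdef, map_mul, Complex.conj_conj]
      ring
    rw [Finset.sum_congr rfl (fun x _ => h2 x)] at h1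
    unfold ip
    rw [card_comap π hBr, h1]
    push_cast
    rw [mul_inv, mul_assoc, inv_mul_cancel_left₀ hk0]
  -- `w 1 = c`
  have hw1 : w 1 = c := by
    have h1 : ∀ n, (if n ∈ L.comap π then (starRingEnd ℂ) (lamX n) * f (1 * n) else 0) =
        (fun l : G => c * (res L (fun x => (r x).trace) l *
          (starRingEnd ℂ) (res L (fun x => (r x).trace) l))) (π n) := by
      intro n
      unfold res
      by_cases hn' : π n ∈ L
      · have hn'' : n ∈ L.comap π := hn'
        have hl := h.lin.mul_conj hn''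
        have hlne : (starRingEnd ℂ) (lamX n) ≠ 0 := by
          intro h0
          rw [h0, mul_zero] at hl
          exact zero_ne_one hl
        simp only [if_pos hn', if_pos hn'', one_mul, hfdef]
        rw [x03_R_ker h hn', Matrix.trace_smul, smul_eq_mul, map_mul, map_inv₀, hc _ hn']
        field_simp
      · have hn'' : n ∉ L.comap π := hn'
        simp only [if_neg hn', if_neg hn'', zero_mul, mul_zero]
    have h2 := x03_sum_pull π hLr
      (F := fun l : G => c * (res L (fun x => (r x).trace) l *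
          (starRingEnd ℂ) (res L (fun x => (r x).trace) l))) (fun y hy => by
        rw [hi.isCh.1 y hy, zero_mul, mul_zero])
    have h3 := (isIr_iff.mp hi).2
    unfold ip at h3
    have h4 : ∑ x, res L (fun x => (r x).trace) x *
        (starRingEnd ℂ) (res L (fun x => (r x).trace) x) = (Nat.card L : ℂ) := by
      have h5 := congrArg (fun z => (Nat.card L : ℂ) * z) h3
      simp only [mul_one] at h5
      rw [mul_inv_cancel_left₀ hL0] at h5
      exact h5
    have h6 : w 1 = (Nat.card (L.comap π) : ℂ)⁻¹ *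
      ∑ n, (if n ∈ L.comap π then (starRingEnd ℂ) (lamX n) * f (1 * n) else 0) := by rw [hwdef]
    rw [h6, Finset.sum_congr rfl (fun n _ => h1 n), h2, ← Finset.mul_sum, h4, card_comap π hLr]
    push_cast
    field_simp
  have hwne : w ≠ 0 := by
    intro h0
    rw [h0] at hw1
    exact hc0 hw1.symm
  -- the norm is one
  obtain ⟨m, hm⟩ := ip_nat hwc hwc
  have hm0 : m ≠ 0 := by
    rintro rfl
    apply hwne
    apply ip_self_eq_zero hwc.1
    rw [hm, Nat.cast_zero]
  rw [hm] at hnorm hpair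
  have hphi := phi_isCh h hr hLB hBA hwo hwc
  have hpair' : ip B (phi π R w) α ≠ 0 := by
    rw [hpair]
    exact_mod_cast hm0
  have hg := sub_constituent hphi hα hpair'
  obtain ⟨n, hn'⟩ := ip_nat hg hg
  rw [x03_ip_sub, x03_ip_conj B (phi π R w) α, hpair, hnorm, (isIr_iff.mp hα).2,
    Complex.conj_natCast] at hn'
  have hn1 : (n : ℂ) + m = 1 := by rw [← hn']; ring
  have hn2 : n + m = 1 := by exact_mod_cast hn1
  have hn3 : n = 0 := by omega
  have hm1 : m = 1 := by omega
  have hz : (fun x => phi π R w x - α x) = 0 := by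
    apply ip_self_eq_zero hg.1
    rw [x03_ip_sub, x03_ip_conj B (phi π R w) α, hpair, hnorm, (isIr_iff.mp hα).2,
      Complex.conj_natCast, hm1]
    push_cast
    ring
  refine ⟨w, ?_, hwo, ?_⟩
  · rw [isIr_iff]
    exact ⟨hwc, by rw [hm, hm1, Nat.cast_one]⟩
  · funext x
    exact sub_eq_zero.mp (congrFun hz x)

/-- values of `Φ w` on `L` -/
theorem phi_on_L {X : Type} [Group X] [Fintype X] {p : ℕ} {A L : Subgroup G} {d : ℕ}
    {r : G → Matrix (Fin d) (Fin d) ℂ} {π : X →* G} {R : X → Matrix (Fin d) (Fin d) ℂ}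
    {lamX : X → ℂ} (h : XP p A L r π R lamX) (hr : IsMRep L r) (hLA : L ≤ A) {w : X → ℂ}
    (hw : Over (L.comap π) lamX w) : ∀ l ∈ L, phi π R w l = w 1 * (r l).trace := by
  intro l hl
  have hlr : l ∈ π.range := by rw [h.range]; exact hLA hl
  obtain ⟨n, rfl⟩ := hlr
  have hn' : n ∈ L.comap π := hl
  have hne := x03_lam_ne h.lin hn'
  have h1 := hw 1 n hn'
  rw [one_mul] at h1
  rw [phi_apply h hr hw, h1, x03_R_ker h hl, Matrix.trace_smul, smul_eq_mul]
  field_simp

end Pool.Agent.CTab
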