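import Pool.Agent.CTab.Defs
import Pool.Agent.CTab.X00
import Pool.Agent.CTab.X02
import Pool.Agent.CTab.X03
import Pool.Agent.CTab.B01
import Pool.Agent.CTab.C05

/-!
`card TSet B H Z lam = card TSet (B.comap π) (H.comap π) (L.comap π) lamX` for `L ≤ H ≤ B ≤ A`, when for irreducible
characters `Over Z lam` is the same as multiple of the character of `r` on `L` (hypothesis `hO`, true in the fully
ramified case). Bijection `w ↦ phi π R w` (`phi_isIr`, `phi_inj`, `phi_surj`, `phi_res`); if `α = res H χ` and `α` is a multiple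
of the character of `r` on `L`, so is `χ`.
-/

set_option autoImplicit false

namespace Pool.Agent.CTab

open scoped Classical

variable {G : Type} [Group G] [Fintype G]

theorem card_tset_X {X : Type} [Group X] [Fintype X] {p : ℕ} {A L B H Z : Subgroup G} {d : ℕ}
    {r : G → Matrix (Fin d) (Fin d) ℂ} {π : X →* G} {R : X → Matrix (Fin d) (Fin d) ℂ}
    {lamX : X → ℂ} {lam : G → ℂ} (h : XP p A L r π R lamX) (hr : IsMRep L r)
    (hi : IsIr L (res L (fun x => (r x).trace))) (hn : Nrm A L) (hLH : L ≤ H) (hHB : H ≤ B) (hBA : B ≤ A)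
    (hO : ∀ (B' : Subgroup G) (α : G → ℂ), L ≤ B' → B' ≤ A → IsIr B' α →
      (Over Z lam α ↔ ∃ c : ℂ, ∀ l ∈ L, α l = c * (r l).trace)) :
    Nat.card (TSet B H Z lam) =
      Nat.card (TSet (B.comap π) (H.comap π) (L.comap π) lamX) := by
  sorry

end Pool.Agent.CTab
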