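import Pool.Agent.CTab.Defs
import Pool.Agent.CTab.X00
import Pool.Agent.CTab.X04
import Pool.Agent.CTab.G04
import Pool.Agent.CTab.B13

/-!
Induction hypothesis applied to `X`: for `L ≤ H ≤ B ≤ A`, `Cpl p B H P`, index `|B| ≤ n |L|`:
`card TSet B H Z lam` is the number of irreducible characters of `(KK H P).comap π` over `lamX` (restricted to
`(KK H P ⊓ L).comap π`). Use `card_tset_X`, `exists_cpl_comap` (`XP.ker_scalar` gives centrality), `XP.solvable`,
`XP.inv`, `card_comap`.
-/

set_option autoImplicit false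

namespace Pool.Agent.CTab

open scoped Classical

variable {G : Type} [Group G] [Fintype G]

theorem stmt_X {X : Type} [Group X] [Fintype X] {p n : ℕ} (hp : p.Prime) (ih : StmtS p n)
    {A L B H P Z : Subgroup G} {d : ℕ}
    {r : G → Matrix (Fin d) (Fin d) ℂ} {π : X →* G} {R : X → Matrix (Fin d) (Fin d) ℂ}
    {lamX : X → ℂ} {lam : G → ℂ} (h : XP p A L r π R lamX) (hr : IsMRep L r)
    (hi : IsIr L (res L (fun x => (r x).trace))) (hn : Nrm A L) (hLH : L ≤ H) (hBA : B ≤ A)
    (hs : Group.IsSolvable B) (hc : Cpl p B H P) (hidx : Nat.card B ≤ n * Nat.card L)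
    (hO : ∀ (B' : Subgroup G) (α : G → ℂ), L ≤ B' → B' ≤ A → IsIr B' α →
      (Over Z lam α ↔ ∃ c : ℂ, ∀ l ∈ L, α l = c * (r l).trace)) :
    Nat.card (TSet B H Z lam) =
      Nat.card (IrrO ((KK H P).comap π) ((KK H P ⊓ L).comap π) lamX) := by
  have hHB : H ≤ B := hc.1
  have hLB : L ≤ B := hLH.trans hHB
  have hBr : B ≤ π.range := by rw [h.range]; exact hBA
  have hLr : L ≤ π.range := hLB.trans hBr
  have hd : 0 < d := by
    rcases Nat.eq_zero_or_pos d with h0 | h0
    · exfalso
      subst h0
      have h1 := (isIr_iff.mp hi).2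
      have h2 : res L (fun x => (r x).trace) = fun _ => 0 := by
        funext x
        unfold res
        split_ifs
        · exact Matrix.trace_fin_zero _
        · rfl
      rw [h2] at h1
      unfold ip at h1
      simp at h1
    · exact h0
  rw [card_tset_X h hr hi hn hLH hHB hBA hO]
  obtain ⟨P', hcpl, hKK⟩ := exists_cpl_comap hp π hBr hc h.kerp
    (fun k hk x => (h.ker_scalar hr (MonoidHom.mem_ker.mp hk)).2 x)
  have hst := ih X (B.comap π) (H.comap π) P' (L.comap π) lamX (h.solvable hr hs) hcpl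
    (Subgroup.comap_mono hLH) (by
      intro a ha l hl
      rw [Subgroup.mem_comap] at ha hl ⊢
      rw [map_mul, map_mul, map_inv]
      exact hn _ (hBA ha) _ hl) h.lin (fun a _ x => h.inv hr hn hd a (Subgroup.mem_top a) x) (by
      rw [card_comap π hBr, card_comap π hLr, ← mul_assoc]
      exact Nat.mul_le_mul_right _ hidx)
  rw [hst, hKK, Subgroup.comap_inf]

end Pool.Agent.CTab
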