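import Pool.Agent.CTab.Defs
import Pool.Agent.CTab.B01
import Pool.Agent.CTab.B02
import Pool.Agent.CTab.B03
import Pool.Agent.CTab.B04
import Pool.Agent.CTab.B08
import Pool.Agent.CTab.B10
import Pool.Agent.CTab.B11
import Pool.Agent.CTab.C01
import Pool.Agent.CTab.C05

/-!
The fully ramified character. `L` nonabelian, `Z` central in `A ≥ L`, `[L,L] ≤ Z`, `lam` faithful on `Z`, and every
`A`-invariant subgroup between `Z` and `L` is `Z` or `L`. Then `{x ∈ L | ∀ y ∈ L, x y = y x} = Z`. Any irreducible character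
`θ` of `L` over `lam` (a constituent of `ind L Z lam`, or of the restriction) vanishes on `L ∖ Z`: for `x ∉ Z` choose
`m ∈ L` with `z = [m, x] ≠ 1` in `Z`; `θ x = θ(m x m⁻¹) = θ(x z') = lam(z') θ x` with `lam z' ≠ 1`. So
`θ = d lam` on `Z`, `0` elsewhere, with `d = θ 1`; it is the only irreducible character of `L` over `lam`, is
`A`-invariant, and an irreducible character of `B' ≥ L` is `Over Z lam` iff its restriction to `L` is a multiple of `θ`.
-/

set_option autoImplicit false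

namespace Pool.Agent.CTab

open scoped Classical

variable {G : Type} [Group G] [Fintype G]

/-- `x ∈ L ∖ Z` does not commute with all of `L` -/
private theorem y01_nc {A Z L : Subgroup G} (hZL : Z < L) (hLA : L ≤ A)
    (hn : Nrm A L) (hc : ∀ a ∈ A, ∀ z ∈ Z, a * z = z * a)
    (hnc : ∃ x ∈ L, ∃ y ∈ L, x * y ≠ y * x)
    (hch : ∀ M : Subgroup G, Z ≤ M → M ≤ L → Nrm A M → M = Z ∨ M = L)
    {x : G} (hx : x ∈ L) (hxZ : x ∉ Z) : ∃ m ∈ L, m * x ≠ x * m := by
  by_contra hcon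
  push Not at hcon
  rcases hch (L ⊓ Subgroup.centralizer (L : Set G)) (by
    intro z hz
    refine Subgroup.mem_inf.2 ⟨hZL.le hz, ?_⟩
    rw [Subgroup.mem_centralizer_iff]
    intro y hy
    exact hc y (hLA hy) z hz) inf_le_left (by
    intro a ha m hm
    obtain ⟨hm1, hm2⟩ := Subgroup.mem_inf.1 hm
    rw [Subgroup.mem_centralizer_iff] at hm2
    refine Subgroup.mem_inf.2 ⟨hn a ha m hm1, ?_⟩
    rw [Subgroup.mem_centralizer_iff]
    intro y hy
    have h1 : a⁻¹ * y * a⁻¹⁻¹ ∈ L := hn a⁻¹ (A.inv_mem ha) y hy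
    rw [inv_inv] at h1
    have h2 := hm2 _ h1
    have h3 : y * (a * m * a⁻¹) = a * (a⁻¹ * y * a * m) * a⁻¹ := by group
    rw [h3, h2]
    group) with h | h
  · apply hxZ
    rw [← h]
    refine Subgroup.mem_inf.2 ⟨hx, ?_⟩
    rw [Subgroup.mem_centralizer_iff]
    intro y hy
    exact hcon y hy
  · obtain ⟨u, hu, v, hv, huv⟩ := hnc
    apply huv
    have h1 : v ∈ L ⊓ Subgroup.centralizer (L : Set G) := by rw [h]; exact hv
    exact Subgroup.mem_centralizer_iff.1 (Subgroup.mem_inf.1 h1).2 u hu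

/-- class functions over `lam` vanish on `L ∖ Z` -/
private theorem y01_van {A Z L : Subgroup G} {lam : G → ℂ} (hZL : Z < L) (hLA : L ≤ A)
    (hn : Nrm A L) (hc : ∀ a ∈ A, ∀ z ∈ Z, a * z = z * a)
    (hf : ∀ z ∈ Z, lam z = 1 → z = 1) (hcomm : ∀ x ∈ L, ∀ y ∈ L, x * y * x⁻¹ * y⁻¹ ∈ Z)
    (hnc : ∃ x ∈ L, ∃ y ∈ L, x * y ≠ y * x)
    (hch : ∀ M : Subgroup G, Z ≤ M → M ≤ L → Nrm A M → M = Z ∨ M = L)
    {f : G → ℂ} (hcls : ∀ a ∈ L, ∀ x, f (a * x * a⁻¹) = f x) (ho : Over Z lam f)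
    {x : G} (hx : x ∈ L) (hxZ : x ∉ Z) : f x = 0 := by
  obtain ⟨m, hm, hmx⟩ := y01_nc hZL hLA hn hc hnc hch hx hxZ
  have hz := hcomm m hm x hx
  have hz1 : m * x * m⁻¹ * x⁻¹ ≠ 1 := by
    intro h0
    apply hmx
    have h1 : m * x = (m * x * m⁻¹ * x⁻¹) * (x * m) := by group
    rw [h1, h0, one_mul]
  have h1 : f (m * x * m⁻¹) = f x := hcls m hm x
  have h2 : m * x * m⁻¹ = x * (m * x * m⁻¹ * x⁻¹) := by
    rw [hc x (hLA hx) _ hz]
    group
  rw [h2, ho x _ hz] at h1
  have h3 : lam (m * x * m⁻¹ * x⁻¹) ≠ 1 := fun h0 => hz1 (hf _ hz h0)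
  have h4 : f x * (lam (m * x * m⁻¹ * x⁻¹) - 1) = 0 := by
    linear_combination h1
  rcases mul_eq_zero.1 h4 with h5 | h5
  · exact h5
  · exact absurd (sub_eq_zero.1 h5) h3

/-- there is an irreducible character over `lam` -/
private theorem y01_ex {A Z L : Subgroup G} {lam : G → ℂ} (hZL : Z < L) (hLA : L ≤ A)
    (hc : ∀ a ∈ A, ∀ z ∈ Z, a * z = z * a) (hlam : IsLin Z lam) :
    ∃ θ : G → ℂ, IsIr L θ ∧ Over Z lam θ := by
  have hI : IsCh L (ind L Z lam) := IsCh.ind hZL.le hlam.isIr.isCh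
  have hI0 : ind L Z lam ≠ 0 := by
    intro h0
    have h1 := ind_one (f := lam) hZL.le
    rw [h0, Pi.zero_apply, mul_zero, hlam.2.1, mul_one] at h1
    have h2 : (Nat.card L : ℂ) ≠ 0 := by exact_mod_cast Nat.card_pos.ne'
    exact h2 h1.symm
  obtain ⟨χ, f', hχ, hf', he⟩ := exists_constituent hI hI0
  have hip : ip L (ind L Z lam) χ ≠ 0 := by
    rw [he, show ip L (fun x => χ x + f' x) χ = ip L χ χ + ip L f' χ from by unfold ip; rw [← mul_add, ← Finset.sum_add_distrib]; congr 1; exact Finset.sum_congr rfl fun x _ => by ring, (isIr_iff.1 hχ).2]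
    obtain ⟨k, hk⟩ := ip_nat hf' hχ.isCh
    rw [hk]
    intro h0
    have h1 : (1 + k : ℕ) = 0 := by exact_mod_cast h0
    omega
  rw [frob hZL.le hlam.1 hχ.isCh.cls] at hip
  have hl : Lies Z lam χ := by
    intro h0
    apply hip
    have h1 : ip Z lam (res Z χ) = (starRingEnd ℂ) (ip Z (res Z χ) lam) := by
      unfold ip
      rw [map_mul, map_sum, map_inv₀, Complex.conj_natCast]
      congr 1
      refine Finset.sum_congr rfl fun x _ => ?_
      rw [map_mul, Complex.conj_conj, mul_comm]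
    rw [h1, h0, map_zero]
  refine ⟨χ, hχ, over_of_lies hZL.le ?_ hlam ?_ hχ hl⟩
  · intro a ha z hz
    rw [hc a (hLA ha) z hz, mul_inv_cancel_right]
    exact hz
  · intro a ha x
    by_cases hx : x ∈ Z
    · rw [hc a (hLA ha) x hx, mul_inv_cancel_right]
    · rw [hlam.1 x hx, hlam.1]
      intro h1
      apply hx
      have h2 := hc a (hLA ha) _ h1
      have h3 : x = a * x * a⁻¹ := by
        have h5 : a * x * a⁻¹ * a = a * x := by group
        rw [h5] at h2
        exact (mul_left_cancel h2).symm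
      rw [h3]
      exact h1

theorem exists_ramified {A Z L : Subgroup G} {lam : G → ℂ} (hZL : Z < L) (hLA : L ≤ A)
    (hn : Nrm A L) (hc : ∀ a ∈ A, ∀ z ∈ Z, a * z = z * a) (hlam : IsLin Z lam)
    (hf : ∀ z ∈ Z, lam z = 1 → z = 1) (hcomm : ∀ x ∈ L, ∀ y ∈ L, x * y * x⁻¹ * y⁻¹ ∈ Z)
    (hnc : ∃ x ∈ L, ∃ y ∈ L, x * y ≠ y * x)
    (hch : ∀ M : Subgroup G, Z ≤ M → M ≤ L → Nrm A M → M = Z ∨ M = L) :
    ∃ (d : ℕ) (r : G → Matrix (Fin d) (Fin d) ℂ), 0 < d ∧ d ∣ Nat.card L ∧ IsMRep L r ∧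
      IsIr L (res L (fun x => (r x).trace)) ∧
      (∀ z ∈ Z, r z = lam z • (1 : Matrix (Fin d) (Fin d) ℂ)) ∧
      (∀ x ∈ L, x ∉ Z → (r x).trace = 0) ∧
      (∀ a ∈ A, ∀ l ∈ L, (r (a * l * a⁻¹)).trace = (r l).trace) ∧
      ∀ (B' : Subgroup G) (α : G → ℂ), L ≤ B' → B' ≤ A → IsIr B' α →
        (Over Z lam α ↔ ∃ c : ℂ, ∀ l ∈ L, α l = c * (r l).trace) := by
  obtain ⟨θ, hθ, ho⟩ := y01_ex hZL hLA hc hlam
  obtain ⟨d, r, hd, hr, htr⟩ := exists_mrep hθ.isCh
  have hres : res L (fun x => (r x).trace) = θ := by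
    funext x
    unfold res
    by_cases hx : x ∈ L
    · rw [if_pos hx]
      exact htr x hx
    · rw [if_neg hx, hθ.1 x hx]
  have hθ0 : θ ≠ 0 := by
    intro h0
    have h1 := (isIr_iff.1 hθ).2
    rw [h0] at h1
    unfold ip at h1
    simp at h1
  have hd0 : 0 < d := by
    rw [Nat.pos_iff_ne_zero]
    intro h0
    obtain ⟨m, hm, hm0⟩ := hθ.isCh.deg
    apply hθ0
    apply hm0
    have h1 : (m : ℂ) = 0 := by rw [← hm, hd, h0, Nat.cast_zero]
    exact_mod_cast h1
  have hdC : (d : ℂ) ≠ 0 := by exact_mod_cast hd0.ne'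
  have hvan : ∀ x ∈ L, x ∉ Z → θ x = 0 := fun x hx hxZ =>
    y01_van hZL hLA hn hc hf hcomm hnc hch hθ.isCh.cls.2 ho hx hxZ
  have hval : ∀ z ∈ Z, θ z = d * lam z := by
    intro z hz
    have h1 := ho 1 z hz
    rw [one_mul, hd] at h1
    exact h1
  have hconj : ∀ a ∈ A, ∀ l, a * l * a⁻¹ ∈ Z → l ∈ Z := by
    intro a ha l h1
    have h2 := hc a ha _ h1
    have h3 : l = a * l * a⁻¹ := by
      have h5 : a * l * a⁻¹ * a = a * l := by group
      rw [h5] at h2
      exact (mul_left_cancel h2).symm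
    rw [h3]
    exact h1
  refine ⟨d, r, hd0, ?_, hr, by rw [hres]; exact hθ, ?_, ?_, ?_, ?_⟩
  · -- `d ∣ |L|`
    have h1 := (isIr_iff.1 hθ).2
    unfold ip at h1
    have hcL : (Nat.card L : ℂ) ≠ 0 := by exact_mod_cast Nat.card_pos.ne'
    have h2 : ∑ x, θ x * (starRingEnd ℂ) (θ x) = (d : ℂ) * d * Nat.card Z := by
      have h3 : ∀ x : G, θ x * (starRingEnd ℂ) (θ x) = if x ∈ Z then (d : ℂ) * d else 0 := by
        intro x
        by_cases hx : x ∈ Z
        · rw [if_pos hx, hval x hx, map_mul, Complex.conj_natCast]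
          have h4 := hlam.mul_conj hx
          linear_combination (d : ℂ) * d * h4
        · rw [if_neg hx]
          by_cases hxL : x ∈ L
          · rw [hvan x hxL hx, zero_mul]
          · rw [hθ.1 x hxL, zero_mul]
      rw [Finset.sum_congr rfl fun x _ => h3 x, ← Finset.sum_filter, Finset.sum_const,
        nsmul_eq_mul, Nat.card_eq_fintype_card, Fintype.card_subtype]
      ring
    rw [h2] at h1
    have h3 : (d : ℂ) * d * Nat.card Z = Nat.card L := by
      field_simp at h1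
      linear_combination h1
    have h4 : d * d * Nat.card Z = Nat.card L := by exact_mod_cast h3
    exact ⟨d * Nat.card Z, by rw [← h4]; ring⟩
  · -- scalars
    intro z hz
    obtain ⟨c, hcz⟩ := schur hr (by rw [hres]; exact hθ) (r z) (by
      intro a ha
      rw [← hr.2 z (hZL.le hz) a ha, ← hr.2 a ha z (hZL.le hz), hc a (hLA ha) z hz])
    have h1 := htr z (hZL.le hz)
    rw [hcz, Matrix.trace_smul, Matrix.trace_one, Fintype.card_fin, hval z hz, smul_eq_mul] at h1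
    have h2 : c = lam z := by
      have h3 : (d : ℂ) * c = d * lam z := by linear_combination h1
      exact mul_left_cancel₀ hdC h3
    rw [hcz, h2]
  · intro x hx hxZ
    rw [htr x hx]
    exact hvan x hx hxZ
  · intro a ha l hl
    rw [htr _ (hn a ha l hl), htr l hl]
    by_cases hz : l ∈ Z
    · rw [hc a ha l hz, mul_inv_cancel_right]
    · rw [hvan l hl hz, hvan _ (hn a ha l hl) (fun h' => hz (hconj a ha l h'))]
  · intro B' α hLB hBA hα
    constructor
    · intro hoα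
      refine ⟨α 1 / d, fun l hl => ?_⟩
      rw [htr l hl]
      by_cases hz : l ∈ Z
      · rw [hval l hz]
        have h1 := hoα 1 l hz
        rw [one_mul] at h1
        rw [h1]
        field_simp
      · rw [hvan l hl hz, mul_zero]
        exact y01_van hZL hLA hn hc hf hcomm hnc hch
          (fun a ha x => hα.isCh.cls.2 a (hLB ha) x) hoα hl hz
    · rintro ⟨c, hcα⟩
      apply over_of_one (hZL.le.trans hLB) hlam hα.isCh
      intro z hz
      rw [hcα z (hZL.le hz), hcα 1 L.one_mem, htr z (hZL.le hz), htr 1 L.one_mem, hval z hz, hd]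
      ring

end Pool.Agent.CTab
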