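import Pool.Agent.CTab.Defs
import Pool.Agent.CTab.X00
import Pool.Agent.CTab.B08
import Pool.Agent.CTab.B09
import Pool.Agent.CTab.G01

/-!
The trace argument. `y : X` such that `π y` centralises `P`, where `P ≤ A` is a `p`-group, `Z` is central in `A`,
`[L,L] ≤ Z`, `p ∤ |L|`, `C_L(P) ≤ Z`, `r = lam` on `Z`, `tr r = 0` on `L ∖ Z`. Claim `tr (R y) ≠ 0`.
Proof. `Σ_l r(l) R(y) r(l⁻¹) = (|L|/d) tr(R y)` (`schur_avg`), and `R(y) r(l⁻¹) = r(π y l⁻¹ π y⁻¹) R(y)`, so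
`(Σ_l r([l, π y])) R(y) = (|L|/d) tr(R y)`, `[l, y] = l y l⁻¹ y⁻¹`. If `tr(R y) = 0` then `Σ_l r([l, π y]) = 0`, and its
trace `d Σ_{l ∈ L_y} lam([l, π y])`, `L_y = {l ∈ L | [l, π y] ∈ Z}`, is zero. But `l ↦ [l, π y]` is a homomorphism
`L_y → Z`, trivial: `P` commutes with `π y`, so `[v l v⁻¹, π y] = v [l, π y] v⁻¹ = [l, π y]`; by `coprime_lift` (with
`W` = the kernel of this homomorphism) every `l ∈ L_y` is `c w⁻¹` with `c ∈ C_L(P) ≤ Z`, so `[l, π y] = 1`. Contradiction: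
the sum is `d |L_y|`. Consequence `R_comm`: if moreover `x : X` and `R x * R y * R x⁻¹ = s • R y` then `s = 1`.
-/

set_option autoImplicit false

namespace Pool.Agent.CTab

open scoped Classical

variable {G : Type} [Group G] [Fintype G]

theorem trace_ne_zero {X : Type} [Group X] [Fintype X] {p : ℕ} (hp : p.Prime) {A L P Z : Subgroup G} {d : ℕ}
    {r : G → Matrix (Fin d) (Fin d) ℂ} {π : X →* G} {R : X → Matrix (Fin d) (Fin d) ℂ}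
    {lamX : X → ℂ} {lam : G → ℂ} (h : XP p A L r π R lamX) (hr : IsMRep L r) (hd : 0 < d)
    (hi : IsIr L (res L (fun x => (r x).trace))) (hn : Nrm A L) (hZL : Z ≤ L) (hLA : L ≤ A)
    (hc : ∀ a ∈ A, ∀ z ∈ Z, a * z = z * a) (hcomm : ∀ x ∈ L, ∀ y ∈ L, x * y * x⁻¹ * y⁻¹ ∈ Z)
    (hlam : IsLin Z lam) (hrZ : ∀ z ∈ Z, r z = lam z • (1 : Matrix (Fin d) (Fin d) ℂ))
    (h0 : ∀ x ∈ L, x ∉ Z → (r x).trace = 0) (hpL : ¬ p ∣ Nat.card L)
    (hP : IsPGroup p P) (hPA : P ≤ A) (hC : ∀ l ∈ L, (∀ v ∈ P, v * l = l * v) → l ∈ Z)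
    {y : X} (hy : ∀ v ∈ P, v * π y = π y * v) : (R y).trace ≠ 0 := by
  sorry

theorem scalar_eq_one {X : Type} [Group X] [Fintype X] {p : ℕ} {A L : Subgroup G} {d : ℕ}
    {r : G → Matrix (Fin d) (Fin d) ℂ} {π : X →* G} {R : X → Matrix (Fin d) (Fin d) ℂ}
    {lamX : X → ℂ} (h : XP p A L r π R lamX) {x y : X} {s : ℂ} (ht : (R y).trace ≠ 0)
    (he : R (x * y * x⁻¹ * y⁻¹) = s • (1 : Matrix (Fin d) (Fin d) ℂ)) : s = 1 := by
  sorry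

end Pool.Agent.CTab
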