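import Pool.Agent.CTab.Defs

/-!
Abelian groups acting irreducibly act through a cyclic group. `P` is a nontrivial `p`-group without proper nontrivial
subgroups invariant under `P` and `K`; so `P` is abelian (centre). `K` acts on `P` by commuting automorphisms; let `R` be
the (commutative) subring of `End(P)` generated by them. The kernel of an element of `R` is invariant under `K` (and `P`),
so every nonzero element of `R` is injective, hence `R` is a finite domain and the image of `K` in `Rˣ` is cyclic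
(`isCyclic_of_subgroup_isDomain` in Mathlib, or any equivalent).
-/

set_option autoImplicit false

namespace Pool.Agent.CTab

open scoped Classical

variable {G : Type} [Group G] [Fintype G]

/-- a finite group acting on `V` by commuting automorphisms, irreducibly, acts cyclically -/
private theorem g07_abs {K V : Type} [Group K] [Finite K] [AddCommGroup V] [Nontrivial V]
    (φ : K →* AddMonoid.End V) (hcomm : ∀ a b, φ a * φ b = φ b * φ a)
    (hirr : ∀ W : AddSubgroup V, (∀ k, ∀ w ∈ W, φ k w ∈ W) → W = ⊥ ∨ W = ⊤) :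
    ∃ g : K, ∀ k : K, ∃ i : ℕ, φ k = φ (g ^ i) := by
  have hc : ∀ x ∈ Set.range φ, ∀ y ∈ Set.range φ, x * y = y * x := by
    rintro _ ⟨a, rfl⟩ _ ⟨b, rfl⟩
    exact hcomm a b
  letI : CommRing (Subring.closure (Set.range φ)) := Subring.closureCommRingOfComm hc
  have hcen : ∀ r ∈ Subring.closure (Set.range φ), ∀ k, r * φ k = φ k * r := by
    intro r hr k
    have h1 : Subring.closure (Set.range φ) ≤ Subring.centralizer (Set.range φ) := by
      rw [Subring.closure_le]
      rintro _ ⟨a, rfl⟩
      rw [SetLike.mem_coe, Subring.mem_centralizer_iff]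
      rintro _ ⟨b, rfl⟩
      exact hcomm b a
    exact (Subring.mem_centralizer_iff.1 (h1 hr) (φ k) ⟨k, rfl⟩).symm
  have hinj : ∀ r ∈ Subring.closure (Set.range φ), r ≠ 0 → ∀ v : V, r v = 0 → v = 0 := by
    intro r hr hr0 v hv
    rcases hirr (AddMonoidHom.ker (r : V →+ V)) (by
      intro k w hw
      rw [AddMonoidHom.mem_ker] at hw ⊢
      have h1 := DFunLike.congr_fun (hcen r hr k) w
      have h2 : r (φ k w) = φ k (r w) := h1
      have h3 : r w = 0 := hw
      have h4 : φ k (r w) = φ k 0 := congrArg _ h3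
      exact h2.trans (h4.trans (map_zero (φ k)))) with h | h
    · have h1 : v ∈ AddMonoidHom.ker (r : V →+ V) := hv
      rw [h] at h1
      exact h1
    · exfalso
      apply hr0
      ext w
      have h1 : w ∈ AddMonoidHom.ker (r : V →+ V) := by rw [h]; exact AddSubgroup.mem_top w
      exact h1
  obtain ⟨v₀, hv₀⟩ := exists_ne (0 : V)
  haveI : Nontrivial (Subring.closure (Set.range φ)) := by
    refine ⟨⟨0, 1, fun h => hv₀ ?_⟩⟩
    have h1 : (0 : AddMonoid.End V) = 1 := congrArg Subtype.val h
    have h2 := DFunLike.congr_fun h1 v₀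
    exact h2.symm
  haveI : NoZeroDivisors (Subring.closure (Set.range φ)) := by
    refine ⟨fun {a b} hab => ?_⟩
    by_contra hcon
    push Not at hcon
    obtain ⟨ha, hb⟩ := hcon
    apply hv₀
    have h1 : (a : AddMonoid.End V) * (b : AddMonoid.End V) = 0 := congrArg Subtype.val hab
    have h2 := DFunLike.congr_fun h1 v₀
    have h3 : (a : AddMonoid.End V) ((b : AddMonoid.End V) v₀) = 0 := h2
    have ha' : (a : AddMonoid.End V) ≠ 0 := fun h => ha (Subtype.ext h)
    have hb' : (b : AddMonoid.End V) ≠ 0 := fun h => hb (Subtype.ext h)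
    exact hinj b b.2 hb' _ (hinj a a.2 ha' _ h3)
  haveI : IsDomain (Subring.closure (Set.range φ)) := NoZeroDivisors.to_isDomain _
  let φR : K →* Subring.closure (Set.range φ) :=
    { toFun := fun k => ⟨φ k, Subring.subset_closure ⟨k, rfl⟩⟩
      map_one' := Subtype.ext (map_one φ)
      map_mul' := fun a b => Subtype.ext (map_mul φ a b) }
  haveI : Finite (φR.toHomUnits).range :=
    Finite.of_surjective φR.toHomUnits.rangeRestrict (MonoidHom.rangeRestrict_surjective _)
  obtain ⟨⟨x, g, rfl⟩, hx⟩ := IsCyclic.exists_monoid_generator (α := (φR.toHomUnits).range)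
  refine ⟨g, fun k => ?_⟩
  obtain ⟨i, hi⟩ := hx ⟨φR.toHomUnits k, k, rfl⟩
  refine ⟨i, ?_⟩
  have h1 : (φR.toHomUnits g) ^ i = φR.toHomUnits k := congrArg Subtype.val hi
  rw [← map_pow] at h1
  have h2 : φR (g ^ i) = φR k := congrArg Units.val h1
  exact (congrArg Subtype.val h2).symm

theorem exists_cyclic_generator {p : ℕ} (hp : p.Prime) {P K : Subgroup G} (hP : IsPGroup p P)
    (hne : P ≠ ⊥) (hn : Nrm K P)
    (hab : ∀ a ∈ K, ∀ b ∈ K, ∀ v ∈ P, (a * b * a⁻¹ * b⁻¹) * v = v * (a * b * a⁻¹ * b⁻¹))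
    (hmin : ∀ Q : Subgroup G, Q ≤ P → Nrm P Q → Nrm K Q → Q = ⊥ ∨ Q = P) :
    ∃ g ∈ K, ∀ k ∈ K, ∃ i : ℕ, ∀ v ∈ P, k * v * k⁻¹ = g ^ i * v * (g ^ i)⁻¹ := by
  haveI : Fact p.Prime := ⟨hp⟩
  haveI : Nontrivial P := (Subgroup.nontrivial_iff_ne_bot P).2 hne
  -- `P` is abelian
  have hPab : ∀ a ∈ P, ∀ b ∈ P, a * b = b * a := by
    have hC : P ⊓ Subgroup.centralizer (P : Set G) ≠ ⊥ := by
      haveI := hP.center_nontrivial
      obtain ⟨z, hz⟩ := exists_ne (1 : Subgroup.center P)
      intro h0
      apply hz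
      have h1 : ((z : P) : G) ∈ P ⊓ Subgroup.centralizer (P : Set G) := by
        refine Subgroup.mem_inf.2 ⟨(z : P).2, ?_⟩
        rw [Subgroup.mem_centralizer_iff]
        intro v hv
        exact congrArg Subtype.val (Subgroup.mem_center_iff.1 z.2 ⟨v, hv⟩)
      rw [h0, Subgroup.mem_bot] at h1
      apply Subtype.ext
      apply Subtype.ext
      exact h1
    rcases hmin (P ⊓ Subgroup.centralizer (P : Set G)) inf_le_left (by
      intro v hv z hz
      obtain ⟨hz1, hz2⟩ := Subgroup.mem_inf.1 hz
      rw [Subgroup.mem_centralizer_iff] at hz2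
      have h1 : v * z * v⁻¹ = z := by
        rw [hz2 v hv, mul_inv_cancel_right]
      rw [h1]
      exact hz) (by
      intro k hk z hz
      obtain ⟨hz1, hz2⟩ := Subgroup.mem_inf.1 hz
      rw [Subgroup.mem_centralizer_iff] at hz2
      refine Subgroup.mem_inf.2 ⟨hn k hk z hz1, ?_⟩
      rw [Subgroup.mem_centralizer_iff]
      intro v hv
      have h1 : k⁻¹ * v * k⁻¹⁻¹ ∈ P := hn k⁻¹ (K.inv_mem hk) v hv
      rw [inv_inv] at h1
      have h2 := hz2 _ h1
      have h3 : v * (k * z * k⁻¹) = k * (k⁻¹ * v * k * z) * k⁻¹ := by group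
      rw [h3, h2]
      group) with h | h
    · exact absurd h hC
    · intro a ha b hb
      have h1 : b ∈ P ⊓ Subgroup.centralizer (P : Set G) := by rw [h]; exact hb
      exact Subgroup.mem_centralizer_iff.1 (Subgroup.mem_inf.1 h1).2 a ha
  letI : CommGroup P := { (inferInstance : Group P) with
    mul_comm := fun a b => Subtype.ext (hPab a a.2 b b.2) }
  let φ : K →* AddMonoid.End (Additive P) :=
    { toFun := fun k =>
        { toFun := fun v => Additive.ofMul ⟨k * (v.toMul : P) * (k : G)⁻¹, hn k k.2 _ (v.toMul : P).2⟩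
          map_zero' := by
            apply Additive.toMul.injective
            apply Subtype.ext
            show (k : G) * 1 * (k : G)⁻¹ = 1
            group
          map_add' := by
            intro v w
            apply Additive.toMul.injective
            apply Subtype.ext
            show (k : G) * ((v.toMul : P) * (w.toMul : P)) * (k : G)⁻¹ =
              (k * (v.toMul : P) * (k : G)⁻¹) * (k * (w.toMul : P) * (k : G)⁻¹)
            group }
      map_one' := by
        refine DFunLike.ext _ _ fun v => ?_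
        apply Additive.toMul.injective
        apply Subtype.ext
        show (1 : G) * (v.toMul : P) * (1 : G)⁻¹ = (v.toMul : P)
        group
      map_mul' := by
        intro a b
        refine DFunLike.ext _ _ fun v => ?_
        apply Additive.toMul.injective
        apply Subtype.ext
        show ((a : G) * b) * (v.toMul : P) * ((a : G) * b)⁻¹ =
          a * (b * (v.toMul : P) * (b : G)⁻¹) * (a : G)⁻¹
        group }
  have hφ : ∀ (k : K) (v : P), ((φ k (Additive.ofMul v)).toMul : G) = k * v * (k : G)⁻¹ :=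
    fun k v => rfl
  obtain ⟨g, hg⟩ := g07_abs φ (by
    intro a b
    refine DFunLike.ext _ _ fun v => ?_
    apply Additive.toMul.injective
    apply Subtype.ext
    show (a : G) * (b * (v.toMul : P) * (b : G)⁻¹) * (a : G)⁻¹ =
      b * (a * (v.toMul : P) * (a : G)⁻¹) * (b : G)⁻¹
    have hw : (b : G) * a * (v.toMul : P) * ((b : G) * a)⁻¹ ∈ P := by
      have h1 := hn (b * a) (K.mul_mem b.2 a.2) _ (v.toMul : P).2
      exact h1
    have h2 := hab a a.2 b b.2 _ hw
    have h3 : (a : G) * (b * (v.toMul : P) * (b : G)⁻¹) * (a : G)⁻¹ =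
        (a * b * (a : G)⁻¹ * (b : G)⁻¹) * ((b : G) * a * (v.toMul : P) * ((b : G) * a)⁻¹) *
          (a * b * (a : G)⁻¹ * (b : G)⁻¹)⁻¹ := by group
    rw [h3, h2]
    group) (by
    intro W hW
    let Q : Subgroup G :=
      { carrier := {x | ∃ h : x ∈ P, Additive.ofMul (⟨x, h⟩ : P) ∈ W}
        mul_mem' := by
          rintro x y ⟨hx, hx'⟩ ⟨hy, hy'⟩
          exact ⟨P.mul_mem hx hy, W.add_mem hx' hy'⟩
        one_mem' := ⟨P.one_mem, W.zero_mem⟩
        inv_mem' := by
          rintro x ⟨hx, hx'⟩
          exact ⟨P.inv_mem hx, W.neg_mem hx'⟩ }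
    have hQP : Q ≤ P := by
      rintro x ⟨hx, -⟩
      exact hx
    rcases hmin Q hQP (by
      rintro v hv x ⟨hx, hx'⟩
      have h1 : v * x * v⁻¹ = x := by
        rw [hPab v hv x hx, mul_inv_cancel_right]
      rw [h1]
      exact ⟨hx, hx'⟩) (by
      rintro k hk x ⟨hx, hx'⟩
      exact ⟨hn k hk x hx, hW ⟨k, hk⟩ _ hx'⟩) with h | h
    · left
      rw [eq_bot_iff]
      intro w hw
      have h1 : ((w.toMul : P) : G) ∈ Q := ⟨(w.toMul : P).2, hw⟩
      rw [h, Subgroup.mem_bot] at h1
      rw [AddSubgroup.mem_bot]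
      apply Additive.toMul.injective
      apply Subtype.ext
      exact h1
    · right
      rw [eq_top_iff]
      intro w _
      have h1 : ((w.toMul : P) : G) ∈ Q := by rw [h]; exact (w.toMul : P).2
      obtain ⟨h2, h3⟩ := h1
      exact h3)
  refine ⟨g, g.2, fun k hk => ?_⟩
  obtain ⟨i, hi⟩ := hg ⟨k, hk⟩
  refine ⟨i, fun v hv => ?_⟩
  have h1 := DFunLike.congr_fun hi (Additive.ofMul (⟨v, hv⟩ : P))
  have h2 := congrArg (fun w : Additive P => ((w.toMul : P) : G)) h1
  exact h2

end Pool.Agent.CTab
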