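import Pool.Agent.CTab.Defs
import Pool.Agent.CTab.X00
import Pool.Agent.CTab.Y02
import Pool.Agent.CTab.G07

/-!
`P` a nontrivial `p`-group, minimal under `P` and `K` (`K ≤ A` normalises `P`, commutators of `K` are in `Z`). Then
`R [x, y] = 1` for all `x, y ∈ K.comap π`. Proof: for `x y ∈ K.comap π`, `π [x,y] ∈ Z`, so `R [x,y] = s(x,y) • 1`
(`lam z • 1 = r z = lamX u • R u`); `s` is multiplicative in both variables and alternating, and `s(x,y) = 1` when `π y` or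
`π x` centralises `P` (`trace_ne_zero`, `scalar_eq_one`). Let `g ∈ K` be as in `exists_cyclic_generator`, `g = π ĝ`; every
`x ∈ K.comap π` is `ĝ^i x'` with `π x'` centralising `P`; expand `s`.
-/

set_option autoImplicit false

namespace Pool.Agent.CTab

open scoped Classical

variable {G : Type} [Group G] [Fintype G]

theorem R_comm_eq_one {X : Type} [Group X] [Fintype X] {p : ℕ} (hp : p.Prime) {A L P Z K : Subgroup G} {d : ℕ}
    {r : G → Matrix (Fin d) (Fin d) ℂ} {π : X →* G} {R : X → Matrix (Fin d) (Fin d) ℂ}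
    {lamX : X → ℂ} {lam : G → ℂ} (h : XP p A L r π R lamX) (hr : IsMRep L r) (hd : 0 < d)
    (hi : IsIr L (res L (fun x => (r x).trace))) (hn : Nrm A L) (hZL : Z ≤ L) (hLA : L ≤ A)
    (hc : ∀ a ∈ A, ∀ z ∈ Z, a * z = z * a) (hcomm : ∀ x ∈ L, ∀ y ∈ L, x * y * x⁻¹ * y⁻¹ ∈ Z)
    (hlam : IsLin Z lam) (hrZ : ∀ z ∈ Z, r z = lam z • (1 : Matrix (Fin d) (Fin d) ℂ))
    (h0 : ∀ x ∈ L, x ∉ Z → (r x).trace = 0) (hpL : ¬ p ∣ Nat.card L)
    (hP : IsPGroup p P) (hPA : P ≤ A) (hne : P ≠ ⊥) (hC : ∀ l ∈ L, (∀ v ∈ P, v * l = l * v) → l ∈ Z)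
    (hKA : K ≤ A) (hKP : Nrm K P) (hKK : ∀ x ∈ K, ∀ y ∈ K, x * y * x⁻¹ * y⁻¹ ∈ Z)
    (hmin : ∀ Q : Subgroup G, Q ≤ P → Nrm P Q → Nrm K Q → Q = ⊥ ∨ Q = P) :
    ∀ x y : X, π x ∈ K → π y ∈ K → R (x * y * x⁻¹ * y⁻¹) = 1 := by
  sorry

end Pool.Agent.CTab
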