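import Pool.Agent.CTab.Defs
import Pool.Agent.CTab.X00
import Pool.Agent.CTab.X05
import Pool.Agent.CTab.Y01
import Pool.Agent.CTab.Y02
import Pool.Agent.CTab.Y03
import Pool.Agent.CTab.C07
import Pool.Agent.CTab.G01
import Pool.Agent.CTab.G02
import Pool.Agent.CTab.G06
import Pool.Agent.CTab.B13
import Pool.Agent.CTab.C06

/-!
Equivalence of the two commutator forms. Setting of the fully ramified case with `A = L ⊔ KK H P ⊔ P`, `P ≠ ⊥`, no
nontrivial normal `p`-subgroup. For `x y : X` with `π x, π y ∈ KK H P` and `[π x, π y] ∈ Z`: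
`lamX [x,y] = 1 ↔ lam (π [x,y]) = 1`.
Proof. Let `P₁ ≤ P` be minimal (`exists_minimal`), `C_L(P₁) ≤ Z` (`centralizer_eq`); `K' = closure {π x, π y} ⊔ Z`,
`A₄ = L ⊔ K' ⊔ P₁`, `Cpl p A₄ (L ⊔ K') P₁`, `KK (L ⊔ K') P₁ = K'` (`Cpl.sup`, `KK_sup`), `K' ⊓ L = Z`.
If `A₄ ≠ A` then `|A₄| ≤ n |Z|` and `|A₄| ≤ n |L|`: the induction hypothesis for `(A₄, L ⊔ K', P₁, Z, lam)` and `stmt_X` for
`B = A₄` give `card IrrO K' Z lam = card IrrO (K'.comap π) (Z.comap π) lamX`; apply `card_irrO_two` on both sides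
(`card_comap`; `K'.comap π = closure {x, y} ⊔ Z.comap π`).
If `A₄ = A` then (orders) `P₁ = P`, `L ⊔ K' = H`, so `K' = KK H P`; by `R_comm_eq_one` `R [x,y] = 1` and
`lam (π [x,y]) • 1 = r (π [x,y]) = lamX [x,y] • R [x,y]`.
-/

set_option autoImplicit false

namespace Pool.Agent.CTab

open scoped Classical

variable {G : Type} [Group G] [Fintype G]

private theorem y04_clos {G : Type} [Group G] {x y : G} {Z : Subgroup G}
    (hcx : ∀ z ∈ Z, x * z = z * x) (hcy : ∀ z ∈ Z, y * z = z * y)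
    (hcZ : ∀ w ∈ Z, ∀ z ∈ Z, w * z = z * w)
    (hxy : x * y * x⁻¹ * y⁻¹ ∈ Z) :
    ∀ a ∈ Subgroup.closure {x, y} ⊔ Z, ∀ b ∈ Subgroup.closure {x, y} ⊔ Z,
      a * b * a⁻¹ * b⁻¹ ∈ Z := by
  -- the centraliser of `Z`
  have hcen : Subgroup.closure {x, y} ⊔ Z ≤ Subgroup.centralizer (Z : Set G) := by
    rw [sup_le_iff]
    constructor
    · rw [Subgroup.closure_le]
      intro a ha
      rw [SetLike.mem_coe, Subgroup.mem_centralizer_iff]
      rcases ha with rfl | ha
      · intro z hz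
        exact (hcx z hz).symm
      · rw [Set.mem_singleton_iff] at ha
        subst ha
        intro z hz
        exact (hcy z hz).symm
    · intro w hw
      rw [Subgroup.mem_centralizer_iff]
      intro z hz
      exact hcZ z hz w hw
  have hcomm : ∀ a ∈ Subgroup.closure {x, y} ⊔ Z, ∀ z ∈ Z, a * z = z * a := by
    intro a ha z hz
    exact (Subgroup.mem_centralizer_iff.mp (hcen ha) z hz).symm
  -- for `a` fixed, the set of `b` with `[a, b] ∈ Z` is a subgroup
  have hone : ∀ a ∈ Subgroup.closure {x, y} ⊔ Z, (∀ g ∈ ({x, y} : Set G), a * g * a⁻¹ * g⁻¹ ∈ Z) →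
      ∀ b ∈ Subgroup.closure {x, y} ⊔ Z, a * b * a⁻¹ * b⁻¹ ∈ Z := by
    intro a ha hg
    let C : Subgroup G :=
      { carrier := {b | b ∈ Subgroup.closure {x, y} ⊔ Z ∧ a * b * a⁻¹ * b⁻¹ ∈ Z}
        mul_mem' := by
          rintro b c ⟨hb, hb'⟩ ⟨hc, hc'⟩
          refine ⟨mul_mem hb hc, ?_⟩
          have h1 : a * (b * c) * a⁻¹ * (b * c)⁻¹ =
              (a * b * a⁻¹ * b⁻¹) * (b * (a * c * a⁻¹ * c⁻¹) * b⁻¹) := by group
          rw [h1, hcomm b hb _ hc', mul_inv_cancel_right]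
          exact mul_mem hb' hc'
        one_mem' := by
          refine ⟨one_mem _, ?_⟩
          have h1 : a * 1 * a⁻¹ * (1 : G)⁻¹ = 1 := by group
          rw [h1]
          exact one_mem _
        inv_mem' := by
          rintro b ⟨hb, hb'⟩
          refine ⟨inv_mem hb, ?_⟩
          have h1 : a * b⁻¹ * a⁻¹ * b⁻¹⁻¹ = b⁻¹ * (a * b * a⁻¹ * b⁻¹)⁻¹ * b := by group
          rw [h1, hcomm _ (inv_mem hb) _ (inv_mem hb'), inv_mul_cancel_right]
          exact inv_mem hb' }
    have hle : Subgroup.closure {x, y} ⊔ Z ≤ C := by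
      rw [sup_le_iff]
      constructor
      · rw [Subgroup.closure_le]
        intro g hg'
        exact ⟨(le_sup_left : Subgroup.closure {x, y} ≤ _) (Subgroup.subset_closure hg'), hg g hg'⟩
      · intro z hz
        refine ⟨(le_sup_right : Z ≤ _) hz, ?_⟩
        rw [hcomm a ha z hz, mul_inv_cancel_right, mul_inv_cancel]
        exact one_mem _
    intro b hb
    exact (hle hb).2
  have hx' : x ∈ Subgroup.closure {x, y} ⊔ Z :=
    (le_sup_left : Subgroup.closure {x, y} ≤ _) (Subgroup.subset_closure (by simp))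
  have hy' : y ∈ Subgroup.closure {x, y} ⊔ Z :=
    (le_sup_left : Subgroup.closure {x, y} ≤ _) (Subgroup.subset_closure (by simp))
  have hsymm : ∀ a b : G, a * b * a⁻¹ * b⁻¹ ∈ Z → b * a * b⁻¹ * a⁻¹ ∈ Z := by
    intro a b hab
    have h1 : b * a * b⁻¹ * a⁻¹ = (a * b * a⁻¹ * b⁻¹)⁻¹ := by group
    rw [h1]
    exact inv_mem hab
  have hxall := hone x hx' (by
    intro g hg
    rcases hg with rfl | hg
    · rw [mul_inv_cancel_right, mul_inv_cancel]
      exact one_mem _
    · rw [Set.mem_singleton_iff] at hg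
      subst hg
      exact hxy)
  have hyall := hone y hy' (by
    intro g hg
    rcases hg with rfl | hg
    · exact hsymm _ _ hxy
    · rw [Set.mem_singleton_iff] at hg
      subst hg
      rw [mul_inv_cancel_right, mul_inv_cancel]
      exact one_mem _)
  intro a ha b hb
  refine hone a ha ?_ b hb
  intro g hg
  rcases hg with rfl | hg
  · exact hsymm _ _ (hxall a ha)
  · rw [Set.mem_singleton_iff] at hg
    subst hg
    exact hsymm _ _ (hyall a ha)

private theorem y04_res {X : Type} [Group X] [Fintype X] (K Z : Subgroup X) (μ : X → ℂ) :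
    IrrO K Z μ = IrrO K Z (res Z μ) := by
  ext α
  unfold IrrO Over
  simp only [Set.mem_setOf_eq]
  constructor
  · rintro ⟨h1, h2⟩
    refine ⟨h1, fun x n hn => ?_⟩
    rw [h2 x n hn, res, if_pos hn]
  · rintro ⟨h1, h2⟩
    refine ⟨h1, fun x n hn => ?_⟩
    rw [h2 x n hn, res, if_pos hn]

theorem forms_equiv {X : Type} [Group X] [Fintype X] {p n : ℕ} (hp : p.Prime) (ih : StmtS p n)
    {A H P Z L : Subgroup G} {d : ℕ}
    {r : G → Matrix (Fin d) (Fin d) ℂ} {π : X →* G} {R : X → Matrix (Fin d) (Fin d) ℂ}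
    {lamX : X → ℂ} {lam : G → ℂ} (hs : Group.IsSolvable A) (h : Cpl p A H P)
    (hc : ∀ a ∈ A, ∀ z ∈ Z, a * z = z * a) (hlam : IsLin Z lam)
    (hf : ∀ z ∈ Z, lam z = 1 → z = 1) (hidx : Nat.card A ≤ (n + 1) * Nat.card Z)
    (hZL : Z < L) (hLH : L ≤ H) (hn : Nrm A L)
    (hcomm : ∀ x ∈ L, ∀ y ∈ L, x * y * x⁻¹ * y⁻¹ ∈ Z)
    (hch : ∀ M : Subgroup G, Z ≤ M → M ≤ L → Nrm A M → M = Z ∨ M = L)
    (hOp : ∀ D : Subgroup G, D ≤ A → IsPGroup p D → Nrm A D → D = ⊥)
    (hX : XP p A L r π R lamX) (hr : IsMRep L r) (hd : 0 < d)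
    (hi : IsIr L (res L (fun x => (r x).trace)))
    (hrZ : ∀ z ∈ Z, r z = lam z • (1 : Matrix (Fin d) (Fin d) ℂ))
    (h0 : ∀ x ∈ L, x ∉ Z → (r x).trace = 0)
    (hO : ∀ (B' : Subgroup G) (α : G → ℂ), L ≤ B' → B' ≤ A → IsIr B' α →
      (Over Z lam α ↔ ∃ c : ℂ, ∀ l ∈ L, α l = c * (r l).trace))
    (hA : A = L ⊔ KK H P ⊔ P) (hPne : P ≠ ⊥) :
    ∀ x y : X, π x ∈ KK H P → π y ∈ KK H P → π (x * y * x⁻¹ * y⁻¹) ∈ Z →
      (lamX (x * y * x⁻¹ * y⁻¹) = 1 ↔ lam (π (x * y * x⁻¹ * y⁻¹)) = 1) := by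
  intro x y hx hy hxy
  have hLA : L ≤ A := hLH.trans h.1
  have hPA : P ≤ A := h.2.1
  have hZA : Z ≤ A := hZL.le.trans hLA
  have hPL : Nrm P L := fun a ha l hl => hn a (hPA ha) l hl
  have hZK : Z ≤ KK H P := by
    intro z hz
    refine ⟨hLH (hZL.le hz), ?_⟩
    show z ∈ Subgroup.normalizer (P : Set G)
    rw [Subgroup.mem_normalizer_iff]
    intro v
    constructor
    · intro hv
      rw [← hc v (hPA hv) z hz, mul_inv_cancel_right]
      exact hv
    · intro hv
      have h1 := hc _ (hPA hv) z hz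
      have h2 : v = z * v * z⁻¹ := by
        have h3 : z * v * z⁻¹ * z = z * v := by group
        rw [h3] at h1
        exact mul_left_cancel h1
      rw [h2]
      exact hv
  obtain ⟨P₁, hP₁, hne1, hn1, hn2, hmin⟩ := exists_minimal hPne (KK_nrm H P)
  have hC1 := centralizer_eq hp h hZL.le hLH hn hc hcomm hch hOp hA hP₁ hne1 hn1 hn2
  set K' : Subgroup G := Subgroup.closure {π x, π y} ⊔ Z with hK'
  have hclK : Subgroup.closure {π x, π y} ≤ KK H P := by
    rw [Subgroup.closure_le]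
    intro a ha
    rcases ha with rfl | ha
    · exact hx
    · rw [Set.mem_singleton_iff] at ha
      subst ha
      exact hy
  have hK'K : K' ≤ KK H P := sup_le hclK hZK
  have hK'H : K' ≤ H := hK'K.trans inf_le_left
  have hZK' : Z ≤ K' := le_sup_right
  have hKA : KK H P ≤ A := (inf_le_left : KK H P ≤ H).trans h.1
  have hKP1 : Nrm K' P₁ := fun a ha v hv => hn2 a (hK'K ha) v hv
  have hsup := h.sup hp hLH hn hK'H hP₁ hKP1
  have hKKs : KK (L ⊔ K') P₁ = K' :=
    KK_sup hp h hLH hn hK'H hP₁ hKP1 (fun l hl hv => hZK' (hC1 l hl hv))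
  have hK'L : K' ⊓ L = Z := by
    apply le_antisymm
    · rintro l ⟨hl1, hl2⟩
      apply hC1 l hl2
      intro v hv
      exact (mem_KK_iff_comm hp h hLH hPL hl2).mp (hK'K hl1) v (hP₁ hv)
    · exact le_inf hZK' hZL.le
  have hA4A : L ⊔ K' ⊔ P₁ ≤ A := sup_le (sup_le hLA (hK'H.trans h.1)) (hP₁.trans hPA)
  have hπxy : π (x * y * x⁻¹ * y⁻¹) = π x * π y * (π x)⁻¹ * (π y)⁻¹ := by
    simp only [map_mul, map_inv]
  have hxyG : π x * π y * (π x)⁻¹ * (π y)⁻¹ ∈ Z := by
    rw [← hπxy]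
    exact hxy
  have hK'comm : ∀ a ∈ K', ∀ b ∈ K', a * b * a⁻¹ * b⁻¹ ∈ Z :=
    y04_clos (fun z hz => hc _ (hKA hx) z hz) (fun z hz => hc _ (hKA hy) z hz)
      (fun w hw z hz => hc w (hZA hw) z hz) hxyG
  by_cases hcase : L ⊔ K' ⊔ P₁ = A
  · -- `A₄ = A`
    have hcl : Nat.card (L ⊔ K' : Subgroup G) ≤ Nat.card H :=
      Subgroup.card_le_of_le (sup_le hLH hK'H)
    have hcp : Nat.card P₁ ≤ Nat.card P := Subgroup.card_le_of_le hP₁
    have e1 : Nat.card (L ⊔ K' : Subgroup G) * Nat.card P₁ = Nat.card H * Nat.card P := by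
      rw [hsup.2.2.2.2, h.2.2.2.2, hcase]
    have hposH : 0 < Nat.card H := Nat.card_pos
    have hposP : 0 < Nat.card P := Nat.card_pos
    have hposP1 : 0 < Nat.card P₁ := Nat.card_pos
    have e2 : Nat.card P₁ = Nat.card P := by
      by_contra hne
      have h1 : Nat.card P₁ < Nat.card P := lt_of_le_of_ne hcp hne
      have h2 : Nat.card (L ⊔ K' : Subgroup G) * Nat.card P₁ ≤ Nat.card H * Nat.card P₁ :=
        Nat.mul_le_mul_right _ hcl
      have h3 : Nat.card H * Nat.card P₁ < Nat.card H * Nat.card P :=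
        Nat.mul_lt_mul_of_pos_left h1 hposH
      omega
    have e3 : Nat.card (L ⊔ K' : Subgroup G) = Nat.card H := by
      rw [e2] at e1
      exact Nat.eq_of_mul_eq_mul_right hposP e1
    have hPP : P₁ = P := Subgroup.eq_of_le_of_card_ge hP₁ e2.ge
    have hHH : L ⊔ K' = H := Subgroup.eq_of_le_of_card_ge (sup_le hLH hK'H) e3.ge
    have hKK' : KK H P = K' := by
      rw [← hKKs, hHH, hPP]
    have hpL : ¬ p ∣ Nat.card L := fun hd' =>
      h.2.2.2.1 (hd'.trans (Subgroup.card_dvd_of_le hLH))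
    rw [hPP] at hmin hC1
    have hR := R_comm_eq_one hp hX hr hd hi hn hZL.le hLA hc hcomm hlam hrZ h0 hpL h.2.2.1 hPA hPne
      hC1 hKA (KK_nrm H P) (by
        intro a ha b hb
        rw [hKK'] at ha hb
        exact hK'comm a ha b hb) hmin x y hx hy
    have h1 := hX.lam (x * y * x⁻¹ * y⁻¹) (hZL.le hxy)
    rw [hR, hrZ _ hxy] at h1
    have h2 : lam (π (x * y * x⁻¹ * y⁻¹)) = lamX (x * y * x⁻¹ * y⁻¹) := by
      have h3 := congrFun (congrFun h1 ⟨0, hd⟩) ⟨0, hd⟩
      simpa using h3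
    rw [h2]
  · -- `A₄ < A`
    have hcardlt : Nat.card (L ⊔ K' ⊔ P₁ : Subgroup G) < Nat.card A := by
      refine lt_of_le_of_ne (Subgroup.card_le_of_le hA4A) ?_
      intro he
      exact hcase (Subgroup.eq_of_le_of_card_ge hA4A he.ge)
    have hZ4 : Z ≤ L ⊔ K' ⊔ P₁ := hZL.le.trans (le_sup_left.trans le_sup_left)
    have hZdvd : Nat.card Z ∣ Nat.card (L ⊔ K' ⊔ P₁ : Subgroup G) := Subgroup.card_dvd_of_le hZ4
    have hidx4 : Nat.card (L ⊔ K' ⊔ P₁ : Subgroup G) ≤ n * Nat.card Z := by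
      obtain ⟨k, hk⟩ := hZdvd
      have hposZ : 0 < Nat.card Z := Nat.card_pos
      have h1 : Nat.card Z * k < (n + 1) * Nat.card Z := by
        rw [← hk]
        exact lt_of_lt_of_le hcardlt hidx
      have h2 : k < n + 1 := by
        rw [mul_comm] at h1
        exact lt_of_mul_lt_mul_right h1 hposZ.le
      rw [hk, mul_comm]
      exact Nat.mul_le_mul_right _ (Nat.lt_succ_iff.mp h2)
    have hcardZL : Nat.card Z ≤ Nat.card L := Subgroup.card_le_of_le hZL.le
    have hidxL : Nat.card (L ⊔ K' ⊔ P₁ : Subgroup G) ≤ n * Nat.card L :=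
      hidx4.trans (Nat.mul_le_mul_left _ hcardZL)
    have hs4 : Group.IsSolvable (L ⊔ K' ⊔ P₁ : Subgroup G) := by
      haveI := hs
      exact Group.isSolvable_of_isSolvable_injective (Subgroup.inclusion_injective hA4A)
    have hInv : Inv (L ⊔ K' ⊔ P₁) lam := by
      intro a ha w
      by_cases hw : w ∈ Z
      · rw [hc a (hA4A ha) w hw, mul_inv_cancel_right]
      · have h1 : a * w * a⁻¹ ∉ Z := by
          intro h2
          apply hw
          have h3 := hc a (hA4A ha) _ h2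
          have h4 : w = a * w * a⁻¹ := by
            have h5 : a * w * a⁻¹ * a = a * w := by group
            rw [h5] at h3
            exact (mul_left_cancel h3).symm
          rw [h4]
          exact h2
        rw [hlam.1 _ hw, hlam.1 _ h1]
    have hNrmZ : Nrm (L ⊔ K' ⊔ P₁) Z := by
      intro a ha z hz
      rw [hc a (hA4A ha) z hz, mul_inv_cancel_right]
      exact hz
    have hT1 := ih G (L ⊔ K' ⊔ P₁) (L ⊔ K') P₁ Z lam hs4 hsup (hZL.le.trans le_sup_left) hNrmZ
      hlam hInv hidx4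
    rw [hKKs, inf_eq_right.mpr hZK'] at hT1
    have hT2 := stmt_X hp ih hX hr hi hn (le_sup_left : L ≤ L ⊔ K') hA4A hs4 hsup hidxL hO
    rw [hKKs, hK'L] at hT2
    have hcardeq : Nat.card (IrrO K' Z lam) =
        Nat.card (IrrO (K'.comap π) (Z.comap π) (res (Z.comap π) lamX)) := by
      rw [← hT1, hT2, y04_res]
    -- `card_irrO_two` in `G`
    have hG2 := card_irrO_two (lam := lam) hZK' (fun a ha z hz => hNrmZ a
      ((le_sup_right.trans le_sup_left : K' ≤ L ⊔ K' ⊔ P₁) ha) z hz) hlam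
      (fun a ha w => hInv a ((le_sup_right.trans le_sup_left : K' ≤ L ⊔ K' ⊔ P₁) ha) w) hK' hxyG
    -- in `X`
    have hπA : ∀ a : X, π a ∈ A := by
      intro a
      rw [← hX.range]
      exact ⟨a, rfl⟩
    have hmemZ : ∀ a w : X, a * w * a⁻¹ ∈ Z.comap π ↔ w ∈ Z.comap π := by
      intro a w
      rw [Subgroup.mem_comap, Subgroup.mem_comap, map_mul, map_mul, map_inv]
      constructor
      · intro h2
        have h3 := hc _ (hπA a) _ h2
        have h4 : π w = π a * π w * (π a)⁻¹ := by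
          have h5 : π a * π w * (π a)⁻¹ * π a = π a * π w := by group
          rw [h5] at h3
          exact (mul_left_cancel h3).symm
        rw [h4]
        exact h2
      · intro h2
        rw [hc _ (hπA a) _ h2, mul_inv_cancel_right]
        exact h2
    have hXinv := hX.inv hr hn hd
    have hlinX : IsLin (Z.comap π) (res (Z.comap π) lamX) := by
      refine ⟨fun w hw => if_neg hw, ?_, ?_⟩
      · rw [res, if_pos (one_mem _)]
        exact hX.lin.2.1
      · intro a ha b hb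
        rw [res, res, res, if_pos (mul_mem ha hb), if_pos ha, if_pos hb]
        exact hX.lin.2.2 a (Subgroup.comap_mono hZL.le ha) b (Subgroup.comap_mono hZL.le hb)
    have hinvX : Inv (K'.comap π) (res (Z.comap π) lamX) := by
      intro a _ w
      rw [res, res]
      by_cases hw : w ∈ Z.comap π
      · rw [if_pos hw, if_pos ((hmemZ a w).mpr hw)]
        exact hXinv a (Subgroup.mem_top a) w
      · rw [if_neg hw, if_neg (fun h2 => hw ((hmemZ a w).mp h2))]
    have hKX : K'.comap π = Subgroup.closure {x, y} ⊔ Z.comap π := by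
      have hker : π.ker ≤ Subgroup.closure {x, y} ⊔ Z.comap π := by
        refine le_trans ?_ le_sup_right
        intro k hk
        rw [MonoidHom.mem_ker] at hk
        rw [Subgroup.mem_comap, hk]
        exact one_mem _
      rw [← Subgroup.comap_map_eq_self hker, Subgroup.map_sup, MonoidHom.map_closure,
        Set.image_pair, Subgroup.map_comap_eq, inf_eq_right.mpr (by rw [hX.range]; exact hZA)]
    have hX2 := card_irrO_two (lam := res (Z.comap π) lamX) (Subgroup.comap_mono (f := π) hZK')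
      (fun a _ z hz => (hmemZ a z).mpr hz) hlinX hinvX hKX (show x * y * x⁻¹ * y⁻¹ ∈ Z.comap π from hxy)
    have hKr : K' ≤ π.range := by rw [hX.range]; exact hK'K.trans hKA
    have hZr : Z ≤ π.range := by rw [hX.range]; exact hZA
    rw [card_comap π hKr, card_comap π hZr, ← hcardeq, ← mul_assoc,
      Nat.mul_right_cancel_iff (Nat.card_pos (α := π.ker)), hG2, res, if_pos
      (show x * y * x⁻¹ * y⁻¹ ∈ Z.comap π from hxy)] at hX2
    rw [hπxy]
    exact hX2.symm

end Pool.Agent.CTab
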