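import Pool.Agent.CTab.Defs
import Pool.Agent.CTab.X00
import Pool.Agent.CTab.X01
import Pool.Agent.CTab.X05
import Pool.Agent.CTab.Y01
import Pool.Agent.CTab.Y04
import Pool.Agent.CTab.C08
import Pool.Agent.CTab.G01
import Pool.Agent.CTab.G02
import Pool.Agent.CTab.G06
import Pool.Agent.CTab.B13
import Pool.Agent.CTab.C06

/-!
The fully ramified case. Take `r` from `exists_ramified`, `X` from `exists_X`. `K = KK H P`.
If `P = ⊥`: `A = H`, `KK H P = H`, `TSet H H Z lam = IrrO H Z lam`.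
(1) `A₂ = L ⊔ K ⊔ P`. If `A₂ ≠ A`: `stmt_X` for `B = A` and `B = A₂` (same `X`), the induction hypothesis for
`(A₂, L ⊔ K, P, Z, lam)` (`|A₂| ≤ |A|/2`), `KK (L ⊔ K) P = K`.
(2) If `A₂ = A`, `P ≠ ⊥`: `L ⊔ K = H`, `K ⊓ L = Z` (`centralizer_eq`, `mem_KK_iff_comm`), `stmt_X` for `B = A`, then
`card_irrO_compare` with `forms_equiv`.
-/

set_option autoImplicit false

namespace Pool.Agent.CTab

open scoped Classical

variable {G : Type} [Group G] [Fintype G]

private lemma y05_congr {X : Type} [Group X] [Fintype X] {K W : Subgroup X} {lam lam' : X → ℂ}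
    (h : ∀ x ∈ W, lam x = lam' x) : IrrO K W lam = IrrO K W lam' := by
  unfold IrrO Over
  ext α
  constructor
  · rintro ⟨h1, h2⟩
    exact ⟨h1, fun x n hn => by rw [h2 x n hn, h n hn]⟩
  · rintro ⟨h1, h2⟩
    exact ⟨h1, fun x n hn => by rw [h2 x n hn, ← h n hn]⟩

private lemma y05_inv {A Z : Subgroup G} {lam : G → ℂ} (hc : ∀ a ∈ A, ∀ z ∈ Z, a * z = z * a)
    (hlam : IsLin Z lam) : Inv A lam := by
  intro a ha x
  by_cases hx : x ∈ Z
  · rw [hc a ha x hx, mul_inv_cancel_right]
  · have hx' : a * x * a⁻¹ ∉ Z := by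
      intro h1
      apply hx
      have h2 := hc a⁻¹ (A.inv_mem ha) _ h1
      have h3 : x = a⁻¹ * (a * x * a⁻¹) * a := by group
      rw [h2] at h3
      have h4 : x = a * x * a⁻¹ := by
        rw [inv_mul_cancel_right] at h3
        exact h3
      rw [h4]
      exact h1
    rw [hlam.1 x hx, hlam.1 _ hx']

private lemma y05_nrm {A Z : Subgroup G} (hc : ∀ a ∈ A, ∀ z ∈ Z, a * z = z * a) : Nrm A Z := by
  intro a ha z hz
  rw [hc a ha z hz, mul_inv_cancel_right]
  exact hz

/-- the order of a proper subgroup above `Z` -/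
private lemma y05_card {A B Z : Subgroup G} (hZB : Z ≤ B) (hBA : B < A) :
    Nat.card B + Nat.card Z ≤ Nat.card A := by
  obtain ⟨a, ha⟩ := Subgroup.card_dvd_of_le hZB
  obtain ⟨b, hb⟩ := Subgroup.card_dvd_of_le (hZB.trans hBA.le)
  have h1 : Nat.card B < Nat.card A := by
    have h2 : Nat.card B ≤ Nat.card A := Subgroup.card_le_of_le hBA.le
    rcases h2.lt_or_eq with h3 | h3
    · exact h3
    · exact absurd (Subgroup.eq_of_le_of_card_ge hBA.le h3.ge) hBA.ne
  rw [ha, hb] at h1
  have h4 : a < b := lt_of_mul_lt_mul_left h1 (Nat.zero_le _)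
  rw [ha, hb]
  calc Nat.card Z * a + Nat.card Z = Nat.card Z * (a + 1) := by ring
    _ ≤ Nat.card Z * b := Nat.mul_le_mul_left _ h4

theorem stmt_ramified {p n : ℕ} (hp : p.Prime) (ih : StmtS p n) {A H P Z L : Subgroup G}
    {lam : G → ℂ} (hs : Group.IsSolvable A) (h : Cpl p A H P)
    (hc : ∀ a ∈ A, ∀ z ∈ Z, a * z = z * a) (hlam : IsLin Z lam)
    (hf : ∀ z ∈ Z, lam z = 1 → z = 1) (hidx : Nat.card A ≤ (n + 1) * Nat.card Z)
    (hZL : Z < L) (hLH : L ≤ H) (hn : Nrm A L)
    (hcomm : ∀ x ∈ L, ∀ y ∈ L, x * y * x⁻¹ * y⁻¹ ∈ Z)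
    (hnc : ∃ x ∈ L, ∃ y ∈ L, x * y ≠ y * x)
    (hch : ∀ M : Subgroup G, Z ≤ M → M ≤ L → Nrm A M → M = Z ∨ M = L)
    (hOp : ∀ D : Subgroup G, D ≤ A → IsPGroup p D → Nrm A D → D = ⊥) :
    Nat.card (TSet A H Z lam) = Nat.card (IrrO (KK H P) (KK H P ⊓ Z) lam) := by
  have hHA : H ≤ A := h.1
  have hPA : P ≤ A := h.2.1
  have hLA : L ≤ A := hLH.trans hHA
  have hZH : Z ≤ H := hZL.le.trans hLH
  have hZA : Z ≤ A := hZH.trans hHA
  have hKH : KK H P ≤ H := inf_le_left
  have hKA : KK H P ≤ A := hKH.trans hHA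
  have hpL : ¬ p ∣ Nat.card L := fun hd => h.2.2.2.1 (hd.trans (Subgroup.card_dvd_of_le hLH))
  obtain ⟨d, r, hd0, hdL, hr, hi, hrZ, h0, hinv, hO⟩ :=
    exists_ramified hZL hLA hn hc hlam hf hcomm hnc hch
  have hpd : ¬ p ∣ d := fun hd => hpL (hd.trans hdL)
  obtain ⟨X, _, _, π, R, lamX, hX⟩ := exists_X hp hLA hn hr hi hinv hpL hpd
  -- `Z ≤ KK H P`
  have hZK : Z ≤ KK H P := by
    intro z hz
    refine Subgroup.mem_inf.mpr ⟨hZH hz, ?_⟩
    rw [Subgroup.mem_normalizer_iff]
    intro v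
    constructor
    · intro hv
      have h1 : z * v * z⁻¹ = v := by
        rw [← hc v (hPA hv) z hz, mul_inv_cancel_right]
      show z * v * z⁻¹ ∈ P
      rw [h1]
      exact hv
    · intro hv
      have hv' : z * v * z⁻¹ ∈ P := hv
      have h1 := hc _ (hPA hv') z hz
      have h2 : v = z * v * z⁻¹ := by
        have h3 : z⁻¹ * (z * v * z⁻¹ * z) = v := by group
        rw [h1, inv_mul_cancel_left] at h3
        exact h3.symm
      show v ∈ P
      rw [h2]
      exact hv'
  have hcK : KK H P ⊓ Z = Z := inf_eq_right.mpr hZK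
  have hn1 : 1 ≤ n := by
    have h1 := y05_card (le_refl Z) (hZL.trans_le hLA)
    have h2 : 0 < Nat.card Z := Nat.card_pos
    by_contra h3
    have h4 : n = 0 := by omega
    rw [h4] at hidx
    omega
  have hL2 : Nat.card Z + Nat.card Z ≤ Nat.card L := y05_card (le_refl Z) hZL
  have hidxL : Nat.card A ≤ n * Nat.card L := by nlinarith
  have hnPL : Nrm P L := fun v hv l hl => hn v (hPA hv) l hl
  have hKP : Nrm (KK H P) P := KK_nrm H P
  have hCK : ∀ l ∈ L, (∀ v ∈ P, v * l = l * v) → l ∈ KK H P := fun l hl hv =>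
    (mem_KK_iff_comm hp h hLH hnPL hl).mpr hv
  by_cases hP : P = ⊥
  · -- `A = H`
    have hcard := h.2.2.2.2
    rw [hP, Subgroup.card_bot, mul_one] at hcard
    have hAH : H = A := Subgroup.eq_of_le_of_card_ge hHA hcard.ge
    have hKKH : KK H P = H := by
      apply le_antisymm hKH
      intro x hx
      refine Subgroup.mem_inf.mpr ⟨hx, ?_⟩
      rw [hP, Subgroup.mem_normalizer_iff]
      intro v
      show v ∈ (⊥ : Subgroup G) ↔ x * v * x⁻¹ ∈ (⊥ : Subgroup G)
      rw [Subgroup.mem_bot, Subgroup.mem_bot]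
      constructor
      · rintro rfl
        group
      · intro h1
        rw [mul_inv_eq_one, mul_eq_left] at h1
        exact h1
    have hZZ : KK H P ⊓ Z = Z := hcK
    rw [hZZ, hKKH, ← hAH]
    have hset : TSet H H Z lam = IrrO H Z lam := by
      unfold TSet IrrO
      ext α
      constructor
      · rintro ⟨h1, h2, _⟩
        exact ⟨h1, h2⟩
      · rintro ⟨h1, h2⟩
        refine ⟨h1, h2, α, h1, ?_⟩
        funext x
        unfold res
        by_cases hx : x ∈ H
        · rw [if_pos hx]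
        · rw [if_neg hx, h1.1 x hx]
    rw [hset]
  · have hXA := stmt_X hp ih hX hr hi hn hLH le_rfl hs h hidxL hO
    by_cases hA2 : L ⊔ KK H P ⊔ P = A
    · -- case (2)
      have hKL : KK H P ⊓ L = Z := by
        apply le_antisymm
        · intro l hl
          have h1 := (mem_KK_iff_comm hp h hLH hnPL hl.2).mp hl.1
          exact centralizer_eq hp h hZL.le hLH hn hc hcomm hch hOp hA2.symm le_rfl hP
            (fun a ha b hb => P.mul_mem (P.mul_mem ha hb) (P.inv_mem ha)) hKP l hl.2 h1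
        · exact le_inf hZK hZL.le
      rw [hXA, hKL, hcK]
      have hKr : KK H P ≤ π.range := by rw [hX.range]; exact hKA
      have hZL' : Z.comap π ≤ L.comap π := Subgroup.comap_mono hZL.le
      have hcongr : IrrO ((KK H P).comap π) (Z.comap π) lamX =
          IrrO ((KK H P).comap π) (Z.comap π) (res (Z.comap π) lamX) :=
        y05_congr (fun x hx => by unfold res; rw [if_pos hx])
      rw [hcongr]
      have hcX : ∀ a ∈ A, ∀ z ∈ Z, a * z = z * a := hc
      apply card_irrO_compare π hKr hZK (fun a ha z hz => y05_nrm hc a (hKA ha) z hz) hlam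
        (fun a ha x => y05_inv hc hlam a (hKA ha) x) (hX.lin.res hZL')
      · intro a ha x
        have h1 : lamX (a * x * a⁻¹) = lamX x := hX.inv hr hn hd0 a (Subgroup.mem_top a) x
        have hπa : π a ∈ A := hKA ha
        unfold res
        by_cases hx : x ∈ Z.comap π
        · have hx' : a * x * a⁻¹ ∈ Z.comap π := by
            rw [Subgroup.mem_comap] at hx ⊢
            rw [map_mul, map_mul, map_inv]
            exact y05_nrm hc _ hπa _ hx
          rw [if_pos hx, if_pos hx', h1]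
        · have hx' : a * x * a⁻¹ ∉ Z.comap π := by
            intro h2
            apply hx
            rw [Subgroup.mem_comap] at h2 ⊢
            have h3 := y05_nrm hc _ (A.inv_mem hπa) _ h2
            rw [map_mul, map_mul, map_inv] at h3
            have h4 : (π a)⁻¹ * (π a * π x * (π a)⁻¹) * (π a)⁻¹⁻¹ = π x := by group
            rwa [h4] at h3
          rw [if_neg hx, if_neg hx']
      · intro x y hx hy hxy
        have hxy' : x * y * x⁻¹ * y⁻¹ ∈ Z.comap π := hxy
        have h1 := forms_equiv hp ih hs h hc hlam hf hidx hZL hLH hn hcomm hch hOp hX hr hd0 hi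
          hrZ h0 hO hA2.symm hP x y hx hy hxy
        unfold res
        rw [if_pos hxy']
        exact h1
    · -- case (1)
      have hle : L ⊔ KK H P ⊔ P ≤ A := sup_le (sup_le hLA hKA) hPA
      have hlt : L ⊔ KK H P ⊔ P < A := lt_of_le_of_ne hle hA2
      have hZ2 : Z ≤ L ⊔ KK H P ⊔ P := hZL.le.trans (le_sup_left.trans le_sup_left)
      have hcard2 := y05_card hZ2 hlt
      have hidx2 : Nat.card (L ⊔ KK H P ⊔ P : Subgroup G) ≤ n * Nat.card Z := by
        have h1 : (n + 1) * Nat.card Z = n * Nat.card Z + Nat.card Z := by ring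
        omega
      have hidx3 : Nat.card (L ⊔ KK H P ⊔ P : Subgroup G) ≤ n * Nat.card L :=
        (Subgroup.card_le_of_le hle).trans hidxL
      have hc2 : Cpl p (L ⊔ KK H P ⊔ P) (L ⊔ KK H P) P := h.sup hp hLH hn hKH le_rfl hKP
      have hK2 : KK (L ⊔ KK H P) P = KK H P := KK_sup hp h hLH hn hKH le_rfl hKP hCK
      have hs2 : Group.IsSolvable (L ⊔ KK H P ⊔ P : Subgroup G) := by
        haveI := hs
        exact Group.isSolvable_of_isSolvable_injective (f := Subgroup.inclusion hle)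
          (Subgroup.inclusion_injective hle)
      have hX2 := stmt_X hp ih hX hr hi hn le_sup_left hle hs2 hc2 hidx3 hO
      have hI := ih G (L ⊔ KK H P ⊔ P) (L ⊔ KK H P) P Z lam hs2 hc2 (hZL.le.trans le_sup_left)
        (fun a ha z hz => y05_nrm hc a (hle ha) z hz) hlam
        (fun a ha x => y05_inv hc hlam a (hle ha) x) hidx2
      rw [hK2] at hX2 hI
      rw [hXA, ← hX2, hI]

end Pool.Agent.CTab
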