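import Pool.Agent.CTab.Defs
import Pool.Agent.CTab.Q01
import Pool.Agent.CTab.Q04
import Pool.Agent.CTab.A05
import Pool.Agent.CTab.Y05
import Pool.Agent.CTab.G01
import Pool.Agent.CTab.G05

/-!
Assembly: `StmtS p n` for all `n` by induction. `StmtS p 0` is vacuous (`|A| ≤ 0` is impossible). Step: by `Q01` it is
enough to prove `StmtF p (n+1)`. If `Z = A` then `P = ⊥` (`p ∤ |Z|`), `A = H = Z` and both sets are equal. Otherwise take a
chief factor `L/Z` (`exists_chief`) with prime `l`. If `l = p`: `chief_p` and `stmt_normal_p`. If `l ≠ p`: `L ≤ H`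
(`chief_p'`, `Cpl.le_of_normal`); if `A` has a nontrivial normal `p`-subgroup use `stmt_normal_p`; if `L` is commutative
`stmt_comm`, otherwise `stmt_ramified`.
-/

set_option autoImplicit false

namespace Pool.Agent.CTab

open scoped Classical

variable {G : Type} [Group G] [Fintype G]

theorem stmtS {p : ℕ} (hp : p.Prime) (n : ℕ) : StmtS p n := by
  induction n with
  | zero =>
    intro G _ _ A H P Z lam _ _ _ _ _ _ hidx
    exfalso
    rw [zero_mul] at hidx
    have h1 : 0 < Nat.card A := Nat.card_pos
    omega
  | succ n ih =>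
    apply stmtS_of_stmtF hp
    intro G _ _ A H P Z lam hs h hZH hc hlam hf hidx
    have hHA : H ≤ A := h.1
    have hPA : P ≤ A := h.2.1
    have hpH : ¬ p ∣ Nat.card H := h.2.2.2.1
    have hpZ : ¬ p ∣ Nat.card Z := fun hd => hpH (hd.trans (Subgroup.card_dvd_of_le hZH))
    by_cases hZA : Z = A
    · have hHe : H = A := le_antisymm hHA (hZA ▸ hZH)
      have hPe : P = ⊥ := by
        rw [eq_bot_iff, ← h.inf hp]
        exact le_inf (by rw [hHe]; exact hPA) le_rfl
      have hK : KK H P = H := by
        unfold KK
        rw [hPe]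
        apply inf_eq_left.2
        intro x _
        rw [Subgroup.mem_normalizer_iff]
        intro y
        rw [Subgroup.mem_bot, Subgroup.mem_bot]
        constructor
        · rintro rfl
          group
        · intro hy
          have h1 : y = x⁻¹ * (x * y * x⁻¹) * x := by group
          rw [h1, hy]
          group
      have hT : TSet A H Z lam = IrrO (KK H P) (KK H P ⊓ Z) lam := by
        rw [hK, inf_eq_right.2 hZH, hHe]
        ext α
        constructor
        · rintro ⟨h1, h2, -⟩
          exact ⟨h1, h2⟩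
        · rintro ⟨h1, h2⟩
          refine ⟨h1, h2, α, h1, ?_⟩
          funext x
          unfold res
          by_cases hx : x ∈ A
          · rw [if_pos hx]
          · rw [if_neg hx, h1.1 x hx]
      rw [hT]
    · have hZle : Z ≤ A := hZH.trans hHA
      have hnZ : Nrm A Z := by
        intro a ha z hz
        rw [hc a ha z hz, mul_inv_cancel_right]
        exact hz
      obtain ⟨L, l, hl, hZL, hLA, hnL, hcomm, hpow, hch⟩ := exists_chief hs hZle hnZ hZA
      by_cases hlp : l = p
      · subst hlp
        obtain ⟨D, hD0, hDL, hDp, hDn⟩ := chief_p hp hZL hLA hnL hc hpZ hcomm hpow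
        exact stmt_normal_p hp ih hs h hZH hc hlam hidx (hDL.trans hLA) hDp hD0 hDn
      · have hpL : ¬ p ∣ Nat.card L := chief_p' hp hl hlp hZL.le
          (fun a ha z hz => hnZ a (hLA ha) z hz) hpZ hpow
        have hLH : L ≤ H := h.le_of_normal hp hLA hnL hpL
        by_cases hD : ∃ D : Subgroup G, D ≤ A ∧ IsPGroup p D ∧ Nrm A D ∧ D ≠ ⊥
        · obtain ⟨D, hDA, hDp, hDn, hD0⟩ := hD
          exact stmt_normal_p hp ih hs h hZH hc hlam hidx hDA hDp hD0 hDn
        · have hOp : ∀ D : Subgroup G, D ≤ A → IsPGroup p D → Nrm A D → D = ⊥ := by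
            intro D h1 h2 h3
            by_contra h4
            exact hD ⟨D, h1, h2, h3, h4⟩
          by_cases hL : ∀ x ∈ L, ∀ y ∈ L, x * y = y * x
          · exact stmt_comm hp ih hs h hc hlam hidx hZL hLH hnL hL
          · push Not at hL
            exact stmt_ramified hp ih hs h hc hlam hf hidx hZL hLH hnL hcomm hL hch hOp

/-- the consequence which is used: number of distinct irreducible restrictions to the `p`-complement -/
theorem card_tset_top {p : ℕ} (hp : p.Prime) {G : Type} [Group G] [Fintype G]
    (hs : Group.IsSolvable G) {H P : Subgroup G} (h : Cpl p ⊤ H P) :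
    Nat.card (TSet ⊤ H ⊥ (del : G → ℂ)) = Nat.card (IrrO (KK H P) ⊥ (del : G → ℂ)) := by
  have h1 : Group.IsSolvable (⊤ : Subgroup G) := by
    haveI := hs
    infer_instance
  have h2 : IsLin (⊥ : Subgroup G) (del : G → ℂ) := by
    refine ⟨fun x hx => ?_, ?_, fun x hx y hy => ?_⟩
    · unfold del
      rw [if_neg]
      intro h0
      exact hx (Subgroup.mem_bot.2 h0)
    · unfold del
      rw [if_pos rfl]
    · rw [Subgroup.mem_bot] at hx hy
      subst hx
      subst hy
      unfold del
      rw [mul_one, if_pos rfl, mul_one]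
  have h3 : Inv (⊤ : Subgroup G) (del : G → ℂ) := by
    intro a _ x
    unfold del
    by_cases hx : x = 1
    · subst hx
      rw [mul_one, mul_inv_cancel, if_pos rfl]
    · rw [if_neg hx, if_neg]
      intro h0
      apply hx
      have h4 : x = a⁻¹ * (a * x * a⁻¹) * a := by group
      rw [h4, h0]
      group
  have h4 := stmtS hp (Nat.card (⊤ : Subgroup G)) G ⊤ H P ⊥ del h1 h bot_le (by
    intro a _ z hz
    rw [Subgroup.mem_bot] at hz ⊢
    rw [hz, mul_one, mul_inv_cancel]) h2 h3 (by
    rw [Subgroup.card_bot, mul_one])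
  rw [h4, inf_bot_eq]

end Pool.Agent.CTab
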