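import Pool.Agent.CTab.Defs
import Pool.Agent.CTab.B01

/-!
Bridge between characters of the whole group as used in `TabIso` and `IsIr ⊤`.
-/

set_option autoImplicit false

namespace Pool.Agent.CTab

open scoped Classical

variable {G : Type} [Group G] [Fintype G]

theorem isIr_top_iff (f : G → ℂ) :
    IsIr (⊤ : Subgroup G) f ↔ ∃ V : FDRep ℂ G, CategoryTheory.Simple V ∧ V.character = f := by
  constructor
  · rintro ⟨-, V, hs, hV⟩
    let W : FDRep ℂ G :=
      FDRep.of (V.ρ.comp (Subgroup.topEquiv.symm : G ≃* (⊤ : Subgroup G)).toMonoidHom :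
        Representation ℂ G V)
    have hW : ∀ g : G, W.character g = f g := fun g => hV ⟨g, Subgroup.mem_top g⟩
    refine ⟨W, ?_, funext hW⟩
    rw [FDRep.simple_iff_char_is_norm_one] at hs ⊢
    have h1 : ∑ g : G, W.character g * W.character g⁻¹ =
        ∑ a : (⊤ : Subgroup G), V.character a * V.character a⁻¹ := by
      refine Fintype.sum_equiv (Subgroup.topEquiv.symm : G ≃* (⊤ : Subgroup G)).toEquiv _ _ ?_
      intro g
      rw [hW, hW]
      show f g * f g⁻¹ = V.character (⟨g, Subgroup.mem_top g⟩ : (⊤ : Subgroup G)) *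
        V.character (⟨g, Subgroup.mem_top g⟩ : (⊤ : Subgroup G))⁻¹
      rw [hV, hV]
      rfl
    rw [h1, hs, Subgroup.card_top]
  · rintro ⟨V, hs, hV⟩
    refine ⟨fun x hx => absurd (Subgroup.mem_top x) hx, ?_⟩
    let W : FDRep ℂ (⊤ : Subgroup G) :=
      FDRep.of (V.ρ.comp (⊤ : Subgroup G).subtype : Representation ℂ (⊤ : Subgroup G) V)
    have hW : ∀ a : (⊤ : Subgroup G), W.character a = f a := by
      intro a
      rw [← hV]
      rfl
    refine ⟨W, ?_, hW⟩
    rw [FDRep.simple_iff_char_is_norm_one] at hs ⊢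
    have h1 : ∑ g : G, V.character g * V.character g⁻¹ =
        ∑ a : (⊤ : Subgroup G), W.character a * W.character a⁻¹ := by
      refine Fintype.sum_equiv (Subgroup.topEquiv.symm : G ≃* (⊤ : Subgroup G)).toEquiv _ _ ?_
      intro g
      rw [hV]
      show f g * f g⁻¹ = W.character (⟨g, Subgroup.mem_top g⟩ : (⊤ : Subgroup G)) *
        W.character (⟨g, Subgroup.mem_top g⟩ : (⊤ : Subgroup G))⁻¹
      rw [hW, hW]
      rfl
    rw [← h1, hs, Subgroup.card_top]

end Pool.Agent.CTab
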