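import Pool.Agent.CTab.Defs
import Pool.Agent.CTab.V00
import Pool.Agent.CTab.B01
import Pool.Agent.CTab.B02
import Pool.Agent.CTab.B05
import Pool.Agent.CTab.B06

/-!
First consequences of `TabIso σ`. `tr σ f` transports a class function. `Rel σ g g'`: the classes of `g` and `g'`
correspond. Column orthogonality gives the centraliser orders; `Σ_x F x` of a class function is preserved because class
sizes are. The class of `1` is the only one on which every irreducible character takes its maximal absolute value with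
positive real value: if `Rel σ 1 g'` and `Rel σ g 1` then `χ'(1) = χ(g)`, `|χ(g)| ≤ χ(1) = χ'(g') ≤ χ'(1)`, so `χ'(g') =
χ'(1)` for all irreducible `χ'` and `g' = 1` (column orthogonality: `Σ χ'(g') conj χ'(1) = |G'|`).
-/

set_option autoImplicit false

namespace Pool.Agent.CTab

open scoped Classical

variable {G : Type} [Group G] [Fintype G]

def Rel {G' : Type} [Group G'] (σ : ConjClasses G ≃ ConjClasses G') (g : G) (g' : G') : Prop :=
  σ (ConjClasses.mk g) = ConjClasses.mk g'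

noncomputable def tr {G' : Type} [Group G'] (σ : ConjClasses G ≃ ConjClasses G') (f : G → ℂ) : G' → ℂ :=
  fun g' => f (Quotient.out (σ.symm (ConjClasses.mk g')))

private theorem V01_out (c : ConjClasses G) : ConjClasses.mk (Quotient.out c) = c :=
  Quotient.out_eq c

private theorem V01_cls {f : G → ℂ} (hf : ∀ a x, f (a * x * a⁻¹) = f x) {x y : G}
    (h : ConjClasses.mk x = ConjClasses.mk y) : f x = f y := by
  obtain ⟨c, hc⟩ := isConj_iff.1 (ConjClasses.mk_eq_mk_iff_isConj.1 h)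
  rw [← hc, hf]

private theorem V01_tr {G' : Type} [Group G'] {σ : ConjClasses G ≃ ConjClasses G'} {f : G → ℂ}
    (hf : ∀ a x, f (a * x * a⁻¹) = f x) {g : G} {g' : G'} (h : Rel σ g g') : tr σ f g' = f g := by
  unfold tr
  apply V01_cls hf
  rw [V01_out]
  unfold Rel at h
  rw [← h, Equiv.symm_apply_apply]

theorem tr_apply {G' : Type} [Group G'] {σ : ConjClasses G ≃ ConjClasses G'} {f : G → ℂ}
    (hf : Cls ⊤ f) {g : G} {g' : G'} (h : Rel σ g g') : tr σ f g' = f g :=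
  V01_tr (fun a x => hf.2 a (Subgroup.mem_top a) x) h

theorem rel_exists {G' : Type} [Group G'] (σ : ConjClasses G ≃ ConjClasses G') :
    (∀ g, ∃ g', Rel σ g g') ∧ ∀ g', ∃ g, Rel σ g g' := by
  constructor
  · intro g
    obtain ⟨g', hg'⟩ := ConjClasses.exists_rep (σ (ConjClasses.mk g))
    exact ⟨g', hg'.symm⟩
  · intro g'
    obtain ⟨g, hg⟩ := ConjClasses.exists_rep (σ.symm (ConjClasses.mk g'))
    refine ⟨g, ?_⟩
    unfold Rel
    rw [hg, Equiv.apply_symm_apply]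

theorem rel_symm {G' : Type} [Group G'] [Fintype G'] {σ : ConjClasses G ≃ ConjClasses G'} {g : G} {g' : G'} :
    Rel σ g g' ↔ Rel σ.symm g' g := by
  unfold Rel
  rw [Equiv.symm_apply_eq]
  exact eq_comm

private theorem V01_irr {G' : Type} [Group G'] [Fintype G'] {σ : ConjClasses G ≃ ConjClasses G'}
    (h : TabIso σ) {χ : G → ℂ} (hχ : IsIr (⊤ : Subgroup G) χ) :
    IsIr (⊤ : Subgroup G') (tr σ χ) := by
  rw [isIr_top_iff]
  apply (h (tr σ χ)).2
  refine ⟨χ, (isIr_top_iff χ).1 hχ, fun g g' hr => ?_⟩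
  exact (tr_apply hχ.isCh.cls hr).symm

theorem TabIso.symm {G' : Type} [Group G'] [Fintype G'] {σ : ConjClasses G ≃ ConjClasses G'}
    (h : TabIso σ) : TabIso σ.symm := by
  intro χ
  constructor
  · intro hχ
    have hχ' := (isIr_top_iff χ).2 hχ
    refine ⟨tr σ χ, (isIr_top_iff _).1 (V01_irr h hχ'), fun g' g hr => ?_⟩
    have hr' : Rel σ g g' := rel_symm.2 hr
    exact tr_apply hχ'.isCh.cls hr'
  · rintro ⟨ψ, hψ, hψ'⟩
    obtain ⟨χ₀, hχ₀, hχ₀'⟩ := (h ψ).1 hψ
    have : χ₀ = χ := by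
      funext g
      obtain ⟨g', hg'⟩ := (rel_exists σ).1 g
      rw [hχ₀' g g' hg']
      exact hψ' g' g (rel_symm.1 hg')
    rw [← this]
    exact hχ₀

theorem TabIso.irr {G' : Type} [Group G'] [Fintype G'] {σ : ConjClasses G ≃ ConjClasses G'}
    (h : TabIso σ) :
    (∀ χ, IsIr (⊤ : Subgroup G) χ → IsIr (⊤ : Subgroup G') (tr σ χ)) ∧
    (∀ ψ, IsIr (⊤ : Subgroup G') ψ → ∃ χ, IsIr (⊤ : Subgroup G) χ ∧ tr σ χ = ψ) ∧
    ∀ f f' : G → ℂ, Cls ⊤ f → Cls ⊤ f' → tr σ f = tr σ f' → f = f' := by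
  refine ⟨fun χ hχ => V01_irr h hχ, ?_, ?_⟩
  · intro ψ hψ
    obtain ⟨χ, hχ, hχ'⟩ := (h ψ).1 ((isIr_top_iff ψ).1 hψ)
    have hχ1 := (isIr_top_iff χ).2 hχ
    refine ⟨χ, hχ1, ?_⟩
    funext g'
    obtain ⟨g, hg⟩ := (rel_exists σ).2 g'
    rw [tr_apply hχ1.isCh.cls hg]
    exact hχ' g g' hg
  · intro f f' hf hf' hff
    funext g
    obtain ⟨g', hg'⟩ := (rel_exists σ).1 g
    rw [← tr_apply hf hg', ← tr_apply hf' hg', hff]

/-- sums over the irreducible characters correspond -/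
private theorem V01_sum {G' : Type} [Group G'] [Fintype G'] {σ : ConjClasses G ≃ ConjClasses G'}
    (h : TabIso σ) {x y : G} {x' y' : G'} (hx : Rel σ x x') (hy : Rel σ y y') :
    ∑ χ ∈ irr (⊤ : Subgroup G), χ x * (starRingEnd ℂ) (χ y) =
      ∑ ψ ∈ irr (⊤ : Subgroup G'), ψ x' * (starRingEnd ℂ) (ψ y') := by
  obtain ⟨i1, i2, i3⟩ := h.irr
  refine Finset.sum_bij (fun χ _ => tr σ χ) ?_ ?_ ?_ ?_
  · intro χ hχ
    exact mem_irr.2 (i1 χ (mem_irr.1 hχ))
  · intro χ hχ χ' hχ' he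
    exact i3 χ χ' (mem_irr.1 hχ).isCh.cls (mem_irr.1 hχ').isCh.cls he
  · intro ψ hψ
    obtain ⟨χ, hχ, he⟩ := i2 ψ (mem_irr.1 hψ)
    exact ⟨χ, mem_irr.2 hχ, he⟩
  · intro χ hχ
    rw [tr_apply (mem_irr.1 hχ).isCh.cls hx, tr_apply (mem_irr.1 hχ).isCh.cls hy]

private theorem V01_col (x y : G) :
    ∑ χ ∈ irr (⊤ : Subgroup G), χ x * (starRingEnd ℂ) (χ y) =
      (Nat.card {a : G // a * x * a⁻¹ = y} : ℂ) := by
  rw [col_orth (Subgroup.mem_top x) (Subgroup.mem_top y)]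
  congr 1
  apply Nat.card_congr
  exact Equiv.subtypeEquivRight fun a => by simp

theorem TabIso.centralizer {G' : Type} [Group G'] [Fintype G'] {σ : ConjClasses G ≃ ConjClasses G'}
    (h : TabIso σ) {g : G} {g' : G'} (hr : Rel σ g g') :
    Nat.card {a : G // a * g * a⁻¹ = g} = Nat.card {a : G' // a * g' * a⁻¹ = g'} := by
  have h1 := V01_sum h hr hr
  rw [V01_col, V01_col] at h1
  exact_mod_cast h1

private theorem V01_deg {χ : G → ℂ} (hχ : IsIr (⊤ : Subgroup G) χ) :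
    ∃ m : ℕ, χ 1 = m ∧ 0 < m := by
  obtain ⟨m, hm, hm'⟩ := hχ.isCh.deg
  refine ⟨m, hm, Nat.pos_of_ne_zero fun h0 => ?_⟩
  have h1 := (isIr_iff.1 hχ).2
  rw [hm' h0] at h1
  unfold ip at h1
  simp at h1

private theorem V01_one {G' : Type} [Group G'] [Fintype G'] {σ : ConjClasses G ≃ ConjClasses G'}
    (h : TabIso σ) {g' : G'} (hr : Rel σ 1 g') : g' = 1 := by
  obtain ⟨i1, i2, i3⟩ := h.irr
  -- the values are positive
  have hval : ∀ ψ ∈ irr (⊤ : Subgroup G'), ∃ k : ℕ, 0 < k ∧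
      ψ g' * (starRingEnd ℂ) (ψ 1) = k := by
    intro ψ hψ
    obtain ⟨χ, hχ, rfl⟩ := i2 ψ (mem_irr.1 hψ)
    obtain ⟨m, hm, hm0⟩ := V01_deg hχ
    obtain ⟨m', hm', hm0'⟩ := V01_deg (mem_irr.1 hψ)
    refine ⟨m * m', Nat.mul_pos hm0 hm0', ?_⟩
    rw [tr_apply hχ.isCh.cls hr, hm, hm']
    push_cast
    rw [Complex.conj_natCast]
  choose k hk hk' using hval
  have hsum : ∑ ψ ∈ irr (⊤ : Subgroup G'), ψ g' * (starRingEnd ℂ) (ψ 1) =
      ((∑ ψ ∈ (irr (⊤ : Subgroup G')).attach, k ψ.1 ψ.2 : ℕ) : ℂ) := by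
    rw [← Finset.sum_attach]
    push_cast
    exact Finset.sum_congr rfl fun ψ _ => hk' ψ.1 ψ.2
  have hne : (irr (⊤ : Subgroup G')).Nonempty := by
    by_contra hcon
    rw [Finset.not_nonempty_iff_eq_empty] at hcon
    have h1 := V01_col (1 : G') 1
    rw [hcon, Finset.sum_empty] at h1
    have h2 : Nat.card {a : G' // a * 1 * a⁻¹ = 1} = 0 := by exact_mod_cast h1.symm
    have h3 : Nonempty {a : G' // a * 1 * a⁻¹ = 1} := ⟨⟨1, by simp⟩⟩
    exact (Nat.card_pos (α := {a : G' // a * 1 * a⁻¹ = 1})).ne' h2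
  have hpos : 0 < ∑ ψ ∈ (irr (⊤ : Subgroup G')).attach, k ψ.1 ψ.2 := by
    apply Finset.sum_pos
    · intro ψ _
      exact hk ψ.1 ψ.2
    · obtain ⟨ψ, hψ⟩ := hne
      exact ⟨⟨ψ, hψ⟩, Finset.mem_attach _ _⟩
  rw [V01_col] at hsum
  have h2 : Nat.card {a : G' // a * g' * a⁻¹ = 1} ≠ 0 := by
    have h3 : Nat.card {a : G' // a * g' * a⁻¹ = 1} =
        ∑ ψ ∈ (irr (⊤ : Subgroup G')).attach, k ψ.1 ψ.2 := by exact_mod_cast hsum
    omega
  have h3 : Nonempty {a : G' // a * g' * a⁻¹ = 1} := by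
    by_contra hcon
    rw [not_nonempty_iff] at hcon
    exact h2 (Nat.card_of_isEmpty)
  obtain ⟨a, ha⟩ := h3
  have h4 : g' = a⁻¹ * (a * g' * a⁻¹) * a := by group
  rw [h4, ha]
  group

theorem TabIso.one {G' : Type} [Group G'] [Fintype G'] {σ : ConjClasses G ≃ ConjClasses G'}
    (h : TabIso σ) {g' : G'} : Rel σ 1 g' ↔ g' = 1 := by
  constructor
  · exact fun hr => V01_one h hr
  · rintro rfl
    obtain ⟨g', hg'⟩ := (rel_exists σ).1 1
    have := V01_one h hg'
    rw [this] at hg'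
    exact hg'

theorem TabIso.card {G' : Type} [Group G'] [Fintype G'] {σ : ConjClasses G ≃ ConjClasses G'}
    (h : TabIso σ) : Nat.card G = Nat.card G' := by
  have h1 := h.centralizer (h.one.2 rfl : Rel σ 1 (1 : G'))
  have e : ∀ (H : Type) [Group H], Nat.card {a : H // a * 1 * a⁻¹ = 1} = Nat.card H := by
    intro H _
    exact Nat.card_congr (Equiv.subtypeUnivEquiv fun a => by simp)
  rw [e, e] at h1
  exact h1

private theorem V01_orb (g : G) :
    Nat.card (ConjClasses.mk g).carrier * Nat.card {a : G // a * g * a⁻¹ = g} = Nat.card G := by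
  have h1 := MulAction.card_orbit_mul_card_stabilizer_eq_card_group (ConjAct G) g
  rw [← Nat.card_eq_fintype_card, ← Nat.card_eq_fintype_card, ← Nat.card_eq_fintype_card] at h1
  have e1 : Nat.card (MulAction.orbit (ConjAct G) g) = Nat.card (ConjClasses.mk g).carrier := by
    rw [ConjAct.orbit_eq_carrier_conjClasses]
  have e2 : Nat.card (MulAction.stabilizer (ConjAct G) g) = Nat.card {a : G // a * g * a⁻¹ = g} := by
    apply Nat.card_congr
    refine Equiv.subtypeEquiv ConjAct.ofConjAct.toEquiv fun a => ?_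
    rw [MulAction.mem_stabilizer_iff, ConjAct.smul_def]
    rfl
  have e3 : Nat.card (ConjAct G) = Nat.card G := Nat.card_congr ConjAct.ofConjAct.toEquiv
  rw [e1, e2, e3] at h1
  exact h1

theorem TabIso.carrier {G' : Type} [Group G'] [Fintype G'] {σ : ConjClasses G ≃ ConjClasses G'}
    (h : TabIso σ) (c : ConjClasses G) : Nat.card c.carrier = Nat.card (σ c).carrier := by
  obtain ⟨g, rfl⟩ := ConjClasses.exists_rep c
  obtain ⟨g', hg'⟩ := (rel_exists σ).1 g
  have h1 := V01_orb g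
  have h2 := V01_orb g'
  have h3 := h.centralizer hg'
  have h4 := h.card
  unfold Rel at hg'
  rw [hg']
  rw [← h3, ← h4, ← h1] at h2
  have hpos : 0 < Nat.card {a : G // a * g * a⁻¹ = g} := by
    have : Nonempty {a : G // a * g * a⁻¹ = g} := ⟨⟨1, by simp⟩⟩
    exact Nat.card_pos
  exact (Nat.eq_of_mul_eq_mul_right hpos h2).symm

private theorem V01_classes {F : G → ℂ} (hF : ∀ a x, F (a * x * a⁻¹) = F x) :
    ∑ x, F x = ∑ c : ConjClasses G, (Nat.card c.carrier : ℂ) * F (Quotient.out c) := by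
  rw [← Finset.sum_fiberwise (s := Finset.univ) (g := ConjClasses.mk) (f := F)]
  apply Finset.sum_congr rfl
  intro c _
  have h1 : ∀ x ∈ Finset.univ.filter (fun x => ConjClasses.mk x = c), F x = F (Quotient.out c) := by
    intro x hx
    apply V01_cls hF
    rw [(Finset.mem_filter.1 hx).2, V01_out]
  rw [Finset.sum_congr rfl h1, Finset.sum_const, nsmul_eq_mul]
  congr 2
  rw [Nat.card_eq_fintype_card, ← Set.toFinset_card]
  congr 1
  ext x
  rw [Set.mem_toFinset, ConjClasses.mem_carrier_iff_mk_eq, Finset.mem_filter]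
  simp

theorem TabIso.sum {G' : Type} [Group G'] [Fintype G'] {σ : ConjClasses G ≃ ConjClasses G'}
    (h : TabIso σ) {F : G → ℂ} (hF : ∀ a x, F (a * x * a⁻¹) = F x) :
    ∑ x, F x = ∑ x', tr σ F x' := by
  have hF' : ∀ a x, tr σ F (a * x * a⁻¹) = tr σ F x := by
    intro a x
    have : ConjClasses.mk (a * x * a⁻¹) = ConjClasses.mk x := by
      rw [ConjClasses.mk_eq_mk_iff_isConj]
      exact (isConj_iff.2 ⟨a, rfl⟩).symm
    unfold tr
    rw [this]
  rw [V01_classes hF, V01_classes hF', ← Equiv.sum_comp σ]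
  apply Finset.sum_congr rfl
  intro c _
  rw [← h.carrier c]
  congr 1
  have hr : Rel σ (Quotient.out c) (Quotient.out (σ c)) := by
    unfold Rel
    rw [V01_out, V01_out]
  exact (V01_tr hF hr).symm

end Pool.Agent.CTab
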