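import Pool.Agent.CTab.Defs
import Pool.Agent.CTab.V00
import Pool.Agent.CTab.V01
import Pool.Agent.CTab.B10
import Pool.Agent.CTab.B13
import Pool.Agent.CTab.B06

/-!
Normal subgroups and quotients are visible. For `N` normal in `G` put
`N' = {g' | ∀ χ irreducible for G with N in its kernel (χ n = χ 1), (tr σ χ) g' = (tr σ χ) 1}`. `g ∈ N` iff
`χ g = χ 1` for all irreducible `χ` with `N` in the kernel (these are the irreducible characters of `G ⧸ N`, `pull_isIr`,
`descend_irr`, which separate the classes of `G ⧸ N`, column orthogonality). Two elements of `G` have conjugate images in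
`G ⧸ N` iff these `χ` agree on them; this defines the bijection of classes of the quotients, compatible with characters.
-/

set_option autoImplicit false

namespace Pool.Agent.CTab

open scoped Classical

variable {G : Type} [Group G] [Fintype G]

private theorem v02_pull (N : Subgroup G) [N.Normal] [Fintype (G ⧸ N)] {θ : G ⧸ N → ℂ}
    (hθ : IsIr (⊤ : Subgroup (G ⧸ N)) θ) :
    IsIr (⊤ : Subgroup G) (fun x : G => θ (QuotientGroup.mk x)) ∧
      ∀ n ∈ N, θ (QuotientGroup.mk n) = θ (QuotientGroup.mk 1) := by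
  refine ⟨?_, fun n hn => ?_⟩
  · have h1 := pull_isIr (QuotientGroup.mk' N) (B := ⊤) (by
      rw [MonoidHom.range_eq_top.2 (QuotientGroup.mk'_surjective N)]) hθ
    rw [Subgroup.comap_top] at h1
    exact h1
  · rw [(QuotientGroup.eq_one_iff n).2 hn]
    rfl

private theorem v02_const {χ : G → ℂ} (hχ : IsIr (⊤ : Subgroup G) χ) {n : G} (hn : χ n = χ 1)
    (x : G) : χ (x * n) = χ x := by
  have h1 := hχ.isCh.scalar (Subgroup.mem_top n) (c := 1) (by simp) (by rw [hn, one_mul]) x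
  rw [h1, one_mul]

private theorem v02_desc (N : Subgroup G) [N.Normal] [Fintype (G ⧸ N)] {χ : G → ℂ}
    (hχ : IsIr (⊤ : Subgroup G) χ) (hN : ∀ n ∈ N, χ n = χ 1) :
    ∃ θ : G ⧸ N → ℂ, IsIr (⊤ : Subgroup (G ⧸ N)) θ ∧ ∀ x : G, χ x = θ (QuotientGroup.mk x) := by
  obtain ⟨θ, hθ, he⟩ := descend_irr (QuotientGroup.mk' N) (B := ⊤) (by
      rw [MonoidHom.range_eq_top.2 (QuotientGroup.mk'_surjective N)]) (g := χ)
      (by rw [Subgroup.comap_top]; exact hχ) (by
      intro k hk x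
      rw [QuotientGroup.ker_mk'] at hk
      exact v02_const hχ (hN k hk) x)
  exact ⟨θ, hθ, he⟩

private theorem v02_sep (N : Subgroup G) [N.Normal] [Fintype (G ⧸ N)] (x y : G) :
    (∀ χ : G → ℂ, IsIr (⊤ : Subgroup G) χ → (∀ n ∈ N, χ n = χ 1) → χ x = χ y) ↔
      ConjClasses.mk (QuotientGroup.mk x : G ⧸ N) = ConjClasses.mk (QuotientGroup.mk y : G ⧸ N) := by
  constructor
  · intro h
    have h1 := col_orth (A := (⊤ : Subgroup (G ⧸ N))) (x := QuotientGroup.mk x)
      (y := QuotientGroup.mk y) (Subgroup.mem_top _) (Subgroup.mem_top _)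
    have h2 := col_orth (A := (⊤ : Subgroup (G ⧸ N))) (x := QuotientGroup.mk y)
      (y := QuotientGroup.mk y) (Subgroup.mem_top _) (Subgroup.mem_top _)
    have h3 : ∑ χ ∈ irr (⊤ : Subgroup (G ⧸ N)), χ (QuotientGroup.mk x) *
        (starRingEnd ℂ) (χ (QuotientGroup.mk y)) =
        ∑ χ ∈ irr (⊤ : Subgroup (G ⧸ N)), χ (QuotientGroup.mk y) *
        (starRingEnd ℂ) (χ (QuotientGroup.mk y)) := by
      refine Finset.sum_congr rfl fun θ hθ => ?_
      obtain ⟨h4, h5⟩ := v02_pull N (mem_irr.1 hθ)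
      have h6 := h _ h4 h5
      rw [h6]
    rw [h1, h2] at h3
    have h4 : Nat.card {a : G ⧸ N // a ∈ (⊤ : Subgroup (G ⧸ N)) ∧
        a * (QuotientGroup.mk x) * a⁻¹ = QuotientGroup.mk y} =
        Nat.card {a : G ⧸ N // a ∈ (⊤ : Subgroup (G ⧸ N)) ∧
        a * (QuotientGroup.mk y) * a⁻¹ = QuotientGroup.mk y} := by exact_mod_cast h3
    have h5 : 0 < Nat.card {a : G ⧸ N // a ∈ (⊤ : Subgroup (G ⧸ N)) ∧
        a * (QuotientGroup.mk y) * a⁻¹ = QuotientGroup.mk y} := by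
      haveI : Nonempty {a : G ⧸ N // a ∈ (⊤ : Subgroup (G ⧸ N)) ∧
        a * (QuotientGroup.mk y) * a⁻¹ = QuotientGroup.mk y} :=
        ⟨⟨1, Subgroup.mem_top _, by rw [one_mul, inv_one, mul_one]⟩⟩
      exact Nat.card_pos
    rw [← h4] at h5
    obtain ⟨⟨a, -, ha⟩⟩ := (Nat.card_pos_iff.1 h5).1
    rw [ConjClasses.mk_eq_mk_iff_isConj, isConj_iff]
    exact ⟨a, ha⟩
  · intro h χ hχ hN
    obtain ⟨θ, hθ, he⟩ := v02_desc N hχ hN
    rw [ConjClasses.mk_eq_mk_iff_isConj, isConj_iff] at h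
    obtain ⟨a, ha⟩ := h
    rw [he, he, ← ha]
    exact (hθ.isCh.cls.2 a (Subgroup.mem_top a) _).symm

/-- membership in `N` is read off from the characters -/
private theorem v02_mem (N : Subgroup G) [N.Normal] [Fintype (G ⧸ N)] (x : G) :
    (∀ χ : G → ℂ, IsIr (⊤ : Subgroup G) χ → (∀ n ∈ N, χ n = χ 1) → χ x = χ 1) ↔ x ∈ N := by
  rw [v02_sep N x 1]
  constructor
  · intro h
    rw [ConjClasses.mk_eq_mk_iff_isConj, QuotientGroup.mk_one, isConj_one_left] at h
    exact (QuotientGroup.eq_one_iff x).1 h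
  · intro h
    rw [(QuotientGroup.eq_one_iff x).2 h]
    rfl

theorem TabIso.quotient {G' : Type} [Group G'] [Fintype G'] {σ : ConjClasses G ≃ ConjClasses G'}
    (h : TabIso σ) (N : Subgroup G) [N.Normal] :
    ∃ (N' : Subgroup G') (_ : N'.Normal) (σ' : ConjClasses (G ⧸ N) ≃ ConjClasses (G' ⧸ N')),
      Nat.card N = Nat.card N' ∧ (∀ g g', Rel σ g g' → (g ∈ N ↔ g' ∈ N')) ∧ TabIso σ' ∧
      ∀ g g', Rel σ g g' →
        σ' (ConjClasses.mk (QuotientGroup.mk g : G ⧸ N)) = ConjClasses.mk (QuotientGroup.mk g' : G' ⧸ N') := by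
  letI : Fintype (G ⧸ N) := Fintype.ofFinite _
  have hRex := (rel_exists σ).1
  have hRex' := (rel_exists σ).2
  have hone : Rel σ (1 : G) (1 : G') := (h.one).2 rfl
  have htr : ∀ χ : G → ℂ, IsIr (⊤ : Subgroup G) χ → ∀ g g', Rel σ g g' → tr σ χ g' = χ g :=
    fun χ hχ g g' hr => tr_apply hχ.isCh.cls hr
  obtain ⟨hirr, hsurj, hinj⟩ := h.irr
  -- the normal subgroup `N'`
  let N' : Subgroup G' :=
    { carrier := {g' | ∀ χ : G → ℂ, IsIr (⊤ : Subgroup G) χ → (∀ n ∈ N, χ n = χ 1) →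
        tr σ χ g' = tr σ χ 1}
      mul_mem' := by
        intro a b ha hb χ hχ hN
        rw [v02_const (hirr χ hχ) (hb χ hχ hN) a]
        exact ha χ hχ hN
      one_mem' := fun χ _ _ => rfl
      inv_mem' := by
        intro a ha χ hχ hN
        have h1 := v02_const (hirr χ hχ) (ha χ hχ hN) a⁻¹
        rw [inv_mul_cancel] at h1
        exact h1.symm }
  have hN'mem : ∀ g', g' ∈ N' ↔ ∀ χ : G → ℂ, IsIr (⊤ : Subgroup G) χ → (∀ n ∈ N, χ n = χ 1) →
      tr σ χ g' = tr σ χ 1 := fun g' => Iff.rfl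
  have hN'n : N'.Normal := by
    refine ⟨fun g' hg' a => ?_⟩
    rw [hN'mem] at hg' ⊢
    intro χ hχ hN
    rw [(hirr χ hχ).isCh.cls.2 a (Subgroup.mem_top a)]
    exact hg' χ hχ hN
  haveI := hN'n
  letI : Fintype (G' ⧸ N') := Fintype.ofFinite _
  have hmem : ∀ g g', Rel σ g g' → (g ∈ N ↔ g' ∈ N') := by
    intro g g' hr
    rw [← v02_mem N g, hN'mem]
    refine forall_congr' fun χ => forall_congr' fun hχ => forall_congr' fun hN => ?_
    rw [htr χ hχ g g' hr, htr χ hχ 1 1 hone]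
  -- the characters with `N` resp. `N'` in the kernel correspond
  have hfor : ∀ χ : G → ℂ, IsIr (⊤ : Subgroup G) χ → (∀ n ∈ N, χ n = χ 1) →
      IsIr (⊤ : Subgroup G') (tr σ χ) ∧ ∀ n ∈ N', tr σ χ n = tr σ χ 1 :=
    fun χ hχ hN => ⟨hirr χ hχ, fun n hn => (hN'mem n).1 hn χ hχ hN⟩
  have hback : ∀ ψ : G' → ℂ, IsIr (⊤ : Subgroup G') ψ → (∀ n ∈ N', ψ n = ψ 1) →
      ∃ χ, IsIr (⊤ : Subgroup G) χ ∧ (∀ n ∈ N, χ n = χ 1) ∧ tr σ χ = ψ := by
    intro ψ hψ hN
    obtain ⟨χ, hχ, he⟩ := hsurj ψ hψ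
    refine ⟨χ, hχ, fun n hn => ?_, he⟩
    obtain ⟨n', hn'⟩ := hRex n
    rw [← htr χ hχ n n' hn', ← htr χ hχ 1 1 hone, he]
    exact hN n' ((hmem n n' hn').1 hn)
  -- conjugacy in the quotients corresponds
  have hconj : ∀ x y x' y', Rel σ x x' → Rel σ y y' →
      (ConjClasses.mk (QuotientGroup.mk x : G ⧸ N) = ConjClasses.mk (QuotientGroup.mk y : G ⧸ N) ↔
      ConjClasses.mk (QuotientGroup.mk x' : G' ⧸ N') =
        ConjClasses.mk (QuotientGroup.mk y' : G' ⧸ N')) := by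
    intro x y x' y' hx hy
    rw [← v02_sep N x y, ← v02_sep N' x' y']
    constructor
    · intro h1 ψ hψ hN
      obtain ⟨χ, hχ, hχN, rfl⟩ := hback ψ hψ hN
      rw [htr χ hχ x x' hx, htr χ hχ y y' hy]
      exact h1 χ hχ hχN
    · intro h1 χ hχ hN
      obtain ⟨h2, h3⟩ := hfor χ hχ hN
      rw [← htr χ hχ x x' hx, ← htr χ hχ y y' hy]
      exact h1 _ h2 h3
  -- the bijection of classes
  have hrep : ∀ c : ConjClasses (G ⧸ N), ∃ x : G, ConjClasses.mk (QuotientGroup.mk x : G ⧸ N) = c := by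
    intro c
    obtain ⟨q, rfl⟩ := ConjClasses.exists_rep c
    obtain ⟨x, rfl⟩ := QuotientGroup.mk_surjective q
    exact ⟨x, rfl⟩
  have hrep' : ∀ c : ConjClasses (G' ⧸ N'),
      ∃ x : G', ConjClasses.mk (QuotientGroup.mk x : G' ⧸ N') = c := by
    intro c
    obtain ⟨q, rfl⟩ := ConjClasses.exists_rep c
    obtain ⟨x, rfl⟩ := QuotientGroup.mk_surjective q
    exact ⟨x, rfl⟩
  choose rep hrepe using hrep
  choose cor hcor using hRex
  let F : ConjClasses (G ⧸ N) → ConjClasses (G' ⧸ N') := fun c =>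
    ConjClasses.mk (QuotientGroup.mk (cor (rep c)) : G' ⧸ N')
  have hF : ∀ g g', Rel σ g g' → F (ConjClasses.mk (QuotientGroup.mk g : G ⧸ N)) =
      ConjClasses.mk (QuotientGroup.mk g' : G' ⧸ N') := by
    intro g g' hr
    exact (hconj _ g _ g' (hcor _) hr).1 (hrepe _)
  have hbij : Function.Bijective F := by
    constructor
    · intro a b hab
      have h1 := (hconj _ _ _ _ (hcor (rep a)) (hcor (rep b))).2 hab
      rw [hrepe, hrepe] at h1
      exact h1
    · intro c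
      obtain ⟨x', rfl⟩ := hrep' c
      obtain ⟨x, hx⟩ := hRex' x'
      exact ⟨_, hF x x' hx⟩
  refine ⟨N', hN'n, Equiv.ofBijective F hbij, ?_, hmem, ?_, hF⟩
  · -- cardinalities
    have h1 := h.sum (F := fun x => if x ∈ N then (1 : ℂ) else 0) (by
      intro a x
      have h2 : a * x * a⁻¹ ∈ N ↔ x ∈ N := by
        constructor
        · intro h3
          have h4 := (inferInstance : N.Normal).conj_mem _ h3 a⁻¹
          have h5 : a⁻¹ * (a * x * a⁻¹) * a⁻¹⁻¹ = x := by group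
          rwa [h5] at h4
        · intro h3
          exact (inferInstance : N.Normal).conj_mem _ h3 a
      by_cases h3 : x ∈ N
      · rw [if_pos h3, if_pos (h2.2 h3)]
      · rw [if_neg h3, if_neg (fun h' => h3 (h2.1 h'))])
    have h2 : ∀ x' : G', tr σ (fun x => if x ∈ N then (1 : ℂ) else 0) x' =
        if x' ∈ N' then 1 else 0 := by
      intro x'
      obtain ⟨x, hx⟩ := hRex' x'
      have h3 : tr σ (fun x => if x ∈ N then (1 : ℂ) else 0) x' = if x ∈ N then (1 : ℂ) else 0 := by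
        refine tr_apply (f := fun x => if x ∈ N then (1 : ℂ) else 0)
          ⟨fun x hx => absurd (Subgroup.mem_top x) hx, ?_⟩ hx
        intro a _ x
        have h2 : a * x * a⁻¹ ∈ N ↔ x ∈ N := by
          constructor
          · intro h3
            have h4 := (inferInstance : N.Normal).conj_mem _ h3 a⁻¹
            have h5 : a⁻¹ * (a * x * a⁻¹) * a⁻¹⁻¹ = x := by group
            rwa [h5] at h4
          · intro h3
            exact (inferInstance : N.Normal).conj_mem _ h3 a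
        by_cases h3 : x ∈ N
        · show (if a * x * a⁻¹ ∈ N then (1 : ℂ) else 0) = if x ∈ N then 1 else 0
          rw [if_pos h3, if_pos (h2.2 h3)]
        · show (if a * x * a⁻¹ ∈ N then (1 : ℂ) else 0) = if x ∈ N then 1 else 0
          rw [if_neg h3, if_neg (fun h' => h3 (h2.1 h'))]
      rw [h3]
      by_cases h4 : x ∈ N
      · rw [if_pos h4, if_pos ((hmem x x' hx).1 h4)]
      · rw [if_neg h4, if_neg (fun h' => h4 ((hmem x x' hx).2 h'))]
    rw [Finset.sum_congr rfl fun x' _ => h2 x', Finset.sum_boole, Finset.sum_boole,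
      ← Fintype.card_subtype, ← Fintype.card_subtype, ← Nat.card_eq_fintype_card,
      ← Nat.card_eq_fintype_card] at h1
    exact_mod_cast h1
  · -- `TabIso`
    intro θ'
    rw [← isIr_top_iff]
    constructor
    · intro hθ'
      obtain ⟨h1, h2⟩ := v02_pull N' hθ'
      obtain ⟨χ, hχ, hχN, he⟩ := hback _ h1 h2
      obtain ⟨θ, hθ, hθe⟩ := v02_desc N hχ hχN
      refine ⟨θ, (isIr_top_iff θ).1 hθ, ?_⟩
      intro q q' hq
      obtain ⟨g, rfl⟩ := QuotientGroup.mk_surjective q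
      have h3 : F (ConjClasses.mk (QuotientGroup.mk g : G ⧸ N)) = ConjClasses.mk q' := hq
      rw [hF g (cor g) (hcor g), ConjClasses.mk_eq_mk_iff_isConj, isConj_iff] at h3
      obtain ⟨a, ha⟩ := h3
      rw [← hθe, ← htr χ hχ g (cor g) (hcor g), he, ← ha]
      exact (hθ'.isCh.cls.2 a (Subgroup.mem_top a) _).symm
    · rintro ⟨θ, hθ, hc⟩
      rw [← isIr_top_iff] at hθ
      obtain ⟨h1, h2⟩ := v02_pull N hθ
      obtain ⟨h3, h4⟩ := hfor _ h1 h2
      obtain ⟨θ'', hθ'', he⟩ := v02_desc N' h3 h4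
      have h5 : θ'' = θ' := by
        funext q'
        obtain ⟨g', rfl⟩ := QuotientGroup.mk_surjective q'
        obtain ⟨g, hg⟩ := hRex' g'
        have h6 := hc (QuotientGroup.mk g) (QuotientGroup.mk g') (hF g g' hg)
        rw [← he, htr _ h1 g g' hg, ← h6]
      rw [← h5]
      exact hθ''

end Pool.Agent.CTab
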