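import Pool.Agent.CTab.Defs
import Pool.Agent.CTab.B01
import Pool.Agent.CTab.B08
import Pool.Agent.CTab.B11
import Pool.Agent.CTab.B12
import Pool.Agent.CTab.B02
import Pool.Agent.CTab.B03
import Pool.Agent.CTab.B04
import Pool.Agent.CTab.B09

/-!
Algebraic integers modulo a prime over `q`. Existence: a maximal ideal of `integralClosure ℤ ℂ` containing `q`
(`q` is not a unit there: `1/q` is not integral). Congruence: `x, y` commute, `y` of `q`-power order: restrict `χ` to the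
abelian group generated by `x, y`: `χ(x y) - χ(x)` is a sum of terms `μ(x)(μ(y) - 1)` (simultaneous diagonalisation), and
`(μ(y) - 1)^(q^k) ≡ μ(y)^(q^k) - 1 = 0`.
-/

set_option autoImplicit false

namespace Pool.Agent.CTab

open scoped Classical

variable {G : Type} [Group G] [Fintype G]

structure QIdeal (q : ℕ) (J : Set ℂ) : Prop where
  integral : ∀ a ∈ J, IsIntegral ℤ a
  add : ∀ a ∈ J, ∀ b ∈ J, a + b ∈ J
  mul : ∀ a ∈ J, ∀ b, IsIntegral ℤ b → b * a ∈ J
  prime : ∀ a b, IsIntegral ℤ a → IsIntegral ℤ b → a * b ∈ J → a ∈ J ∨ b ∈ J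
  mem : (q : ℂ) ∈ J
  one : (1 : ℂ) ∉ J

theorem exists_qideal {q : ℕ} (hq : q.Prime) : ∃ J, QIdeal q J := by
  have hne : Ideal.span {(q : integralClosure ℤ ℂ)} ≠ ⊤ := by
    intro h
    rw [Ideal.span_singleton_eq_top] at h
    obtain ⟨u, hu⟩ := h.exists_right_inv
    have h1 : (q : ℂ) * (u : ℂ) = 1 := by
      have := congrArg (fun z : integralClosure ℤ ℂ => (z : ℂ)) hu
      simpa using this
    have hq0 : (q : ℂ) ≠ 0 := by exact_mod_cast hq.ne_zero
    have h2 : (u : ℂ) = algebraMap ℚ ℂ ((q : ℚ)⁻¹) := by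
      rw [map_inv₀, map_natCast]
      exact eq_inv_of_mul_eq_one_right h1
    have h3 : IsIntegral ℤ ((q : ℚ)⁻¹) := by
      have h4 : IsIntegral ℤ (algebraMap ℚ ℂ ((q : ℚ)⁻¹)) := h2 ▸ u.2
      exact (isIntegral_algebraMap_iff (algebraMap ℚ ℂ).injective).mp h4
    obtain ⟨y, hy⟩ := IsIntegrallyClosed.isIntegral_iff.mp h3
    have hq0' : (q : ℚ) ≠ 0 := by exact_mod_cast hq.ne_zero
    have h5 : (y * q : ℚ) = 1 := by
      have h6 : (y : ℚ) = (q : ℚ)⁻¹ := by simpa using hy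
      rw [h6, inv_mul_cancel₀ hq0']
    have h7 : y * (q : ℤ) = 1 := by exact_mod_cast h5
    have h8 : (q : ℤ) ∣ 1 := ⟨y, by rw [← h7]; ring⟩
    exact hq.one_lt.ne' (by exact_mod_cast Int.eq_one_of_dvd_one (by positivity) h8)
  obtain ⟨M, hM, hle⟩ := Ideal.exists_le_maximal _ hne
  refine ⟨{a | ∃ b ∈ M, (b : ℂ) = a}, ?_, ?_, ?_, ?_, ?_, ?_⟩
  · rintro _ ⟨b, _, rfl⟩
    exact b.2
  · rintro _ ⟨a, ha, rfl⟩ _ ⟨b, hb, rfl⟩
    exact ⟨a + b, M.add_mem ha hb, by push_cast; rfl⟩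
  · rintro _ ⟨a, ha, rfl⟩ b hb
    exact ⟨⟨b, hb⟩ * a, M.mul_mem_left _ ha, by push_cast; rfl⟩
  · rintro a b ha hb ⟨c, hc, hcab⟩
    have h1 : c = (⟨a, ha⟩ : integralClosure ℤ ℂ) * ⟨b, hb⟩ := by
      apply Subtype.ext
      rw [hcab]
      rfl
    rw [h1] at hc
    rcases hM.isPrime.mem_or_mem hc with h | h
    · exact Or.inl ⟨_, h, rfl⟩
    · exact Or.inr ⟨_, h, rfl⟩
  · exact ⟨q, hle (Ideal.mem_span_singleton_self _), by push_cast; rfl⟩
  · rintro ⟨b, hb, hb1⟩
    have h1 : b = 1 := Subtype.ext hb1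
    rw [h1] at hb
    exact hM.ne_top ((Ideal.eq_top_iff_one M).mpr hb)

private lemma v03_zero {q : ℕ} {J : Set ℂ} (hJ : QIdeal q J) : (0 : ℂ) ∈ J := by
  have h1 := hJ.mul _ hJ.mem 0 isIntegral_zero
  rwa [zero_mul] at h1

/-- the ideal of the ring of algebraic integers -/
private def v03I {q : ℕ} {J : Set ℂ} (hJ : QIdeal q J) : Ideal (integralClosure ℤ ℂ) where
  carrier := {a | (a : ℂ) ∈ J}
  add_mem' := by
    intro a b ha hb
    exact hJ.add _ ha _ hb
  zero_mem' := v03_zero hJ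
  smul_mem' := by
    intro c a ha
    exact hJ.mul _ ha _ c.2

private lemma v03_mem {q : ℕ} {J : Set ℂ} (hJ : QIdeal q J) {a : integralClosure ℤ ℂ} :
    a ∈ v03I hJ ↔ (a : ℂ) ∈ J := Iff.rfl

private lemma v03_prime {q : ℕ} {J : Set ℂ} (hJ : QIdeal q J) : (v03I hJ).IsPrime := by
  refine ⟨?_, ?_⟩
  · intro h
    have h1 := (Ideal.eq_top_iff_one (v03I hJ)).mp h
    exact hJ.one h1
  · intro a b hab
    exact hJ.prime _ _ a.2 b.2 hab

private lemma v03_root {q : ℕ} (hq : q.Prime) {J : Set ℂ} (hJ : QIdeal q J) {z : ℂ} {k : ℕ}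
    (hz : z ^ q ^ k = 1) : z - 1 ∈ J := by
  have hzi : IsIntegral ℤ z :=
    IsIntegral.of_pow (pow_pos hq.pos k) (by rw [hz]; exact isIntegral_one)
  haveI := v03_prime hJ
  haveI : Fact q.Prime := ⟨hq⟩
  haveI : CharP (integralClosure ℤ ℂ ⧸ v03I hJ) q := by
    rw [CharP.charP_iff_prime_eq_zero hq]
    have h1 : ((q : integralClosure ℤ ℂ) : ℂ) ∈ J := by
      have := hJ.mem
      simpa using this
    have h2 : (Ideal.Quotient.mk (v03I hJ)) (q : integralClosure ℤ ℂ) = 0 :=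
      Ideal.Quotient.eq_zero_iff_mem.mpr h1
    rwa [map_natCast] at h2
  set w : integralClosure ℤ ℂ := ⟨z, hzi⟩ with hw
  have hw1 : w ^ q ^ k = 1 := Subtype.ext (by push_cast; exact hz)
  have h3 : ((Ideal.Quotient.mk (v03I hJ)) w - 1) ^ q ^ k = 0 := by
    rw [sub_pow_char_pow, ← map_pow, hw1, map_one, one_pow, sub_self]
  have h4 : (Ideal.Quotient.mk (v03I hJ)) (w - 1) = 0 := by
    rw [map_sub, map_one]
    exact pow_eq_zero_iff (pow_pos hq.pos k).ne' |>.mp h3
  have h5 := Ideal.Quotient.eq_zero_iff_mem.mp h4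
  exact h5

/-- irreducible characters of commutative subgroups are linear -/
private lemma v03_lin {C : Subgroup G} (hC : ∀ a ∈ C, ∀ b ∈ C, a * b = b * a) {χ : G → ℂ}
    (hχ : IsIr C χ) : IsLin C χ := by
  obtain ⟨d, r, hd, hr, htr⟩ := exists_mrep hχ.isCh
  have hres : res C (fun x => (r x).trace) = χ := by
    funext x
    unfold res
    by_cases hx : x ∈ C
    · rw [if_pos hx]
      exact htr x hx
    · rw [if_neg hx, hχ.isCh.1 x hx]
  have hi : IsIr C (res C (fun x => (r x).trace)) := by rw [hres]; exact hχ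
  have hsc : ∀ a ∈ C, ∃ c : ℂ, r a = c • (1 : Matrix (Fin d) (Fin d) ℂ) := by
    intro a ha
    apply schur hr hi
    intro b hb
    rw [← hr.2 a ha b hb, ← hr.2 b hb a ha, hC a ha b hb]
  obtain ⟨m, hm, hm1, _⟩ := hχ.deg_dvd
  have hdm : d = m := by
    have := hd.symm.trans hm1
    exact_mod_cast this
  have hd1 : d = 1 := by
    by_contra hne
    have h2 : 2 ≤ d := by omega
    have h3 := schur_entry hr hi (⟨0, by omega⟩ : Fin d) (⟨1, by omega⟩ : Fin d)
      (⟨0, by omega⟩ : Fin d) (⟨1, by omega⟩ : Fin d)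
    rw [if_pos rfl, if_pos rfl, mul_one, mul_one] at h3
    have h4 : (Nat.card C : ℂ) / d ≠ 0 := by
      apply div_ne_zero
      · exact_mod_cast Nat.card_pos.ne'
      · exact_mod_cast (by omega : d ≠ 0)
    apply h4
    rw [← h3]
    apply Finset.sum_eq_zero
    intro a _
    by_cases ha : a ∈ C
    · obtain ⟨c, hc⟩ := hsc a ha
      rw [if_pos ha, hc, Matrix.smul_apply, Matrix.one_apply_ne (by simp), smul_zero, zero_mul]
    · rw [if_neg ha]
  apply isLin_of_deg hχ.isCh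
  rw [hd, hd1, Nat.cast_one]

theorem QIdeal.int {q : ℕ} (hq : q.Prime) {J : Set ℂ} (hJ : QIdeal q J) {n : ℤ} :
    (n : ℂ) ∈ J ↔ (q : ℤ) ∣ n := by
  constructor
  · intro h
    by_contra hnd
    have hp : Prime (q : ℤ) := Nat.prime_iff_prime_int.mp hq
    have hcop : IsCoprime (q : ℤ) n := (hp.irreducible.coprime_iff_not_dvd).mpr hnd
    obtain ⟨a, b, hab⟩ := hcop
    apply hJ.one
    have h1 : (1 : ℂ) = (a : ℂ) * (q : ℂ) + (b : ℂ) * (n : ℂ) := by
      have := congrArg (fun z : ℤ => (z : ℂ)) hab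
      push_cast at this
      exact this.symm
    rw [h1]
    have hint : ∀ c : ℤ, IsIntegral ℤ (c : ℂ) := fun c => by
      have := isIntegral_algebraMap (R := ℤ) (A := ℂ) (x := c)
      simpa using this
    exact hJ.add _ (hJ.mul _ hJ.mem _ (hint a)) _ (hJ.mul _ h _ (hint b))
  · rintro ⟨m, rfl⟩
    have hint : IsIntegral ℤ (m : ℂ) := by
      have := isIntegral_algebraMap (R := ℤ) (A := ℂ) (x := m)
      simpa using this
    have h1 := hJ.mul _ hJ.mem _ hint
    have h2 : ((q : ℤ) * m : ℤ) = ((m : ℂ) * (q : ℂ)) := by push_cast; ring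
    rw [h2]
    exact h1

theorem congr_q {q : ℕ} (hq : q.Prime) {J : Set ℂ} (hJ : QIdeal q J) {f : G → ℂ}
    (hf : IsCh (⊤ : Subgroup G) f) {x y : G} (hxy : x * y = y * x) {k : ℕ} (hy : y ^ q ^ k = 1) :
    f (x * y) - f x ∈ J := by
  set C : Subgroup G := Subgroup.closure {x, y} with hCdef
  have hxC : x ∈ C := Subgroup.subset_closure (by simp)
  have hyC : y ∈ C := Subgroup.subset_closure (by simp)
  have hC : ∀ a ∈ C, ∀ b ∈ C, a * b = b * a := by
    have h1 : C ≤ Subgroup.centralizer {x, y} := by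
      rw [hCdef, Subgroup.closure_le]
      rintro a (rfl | rfl)
      · rw [SetLike.mem_coe, Subgroup.mem_centralizer_iff]
        rintro b (rfl | rfl)
        · rfl
        · exact hxy.symm
      · rw [SetLike.mem_coe, Subgroup.mem_centralizer_iff]
        rintro b (rfl | rfl)
        · exact hxy
        · rfl
    intro a ha b hb
    have h2 : C ≤ Subgroup.centralizer {a} := by
      rw [hCdef, Subgroup.closure_le]
      intro c hc
      rw [SetLike.mem_coe, Subgroup.mem_centralizer_iff]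
      rintro b rfl
      exact (Subgroup.mem_centralizer_iff.mp (h1 ha) c hc).symm
    exact Subgroup.mem_centralizer_iff.mp (h2 hb) a rfl
  have hg : IsCh C (res C f) := hf.res le_top
  have hdec := decomp hg
  have hval : ∀ z ∈ C, f z = ∑ χ ∈ irr C, ip C (res C f) χ * χ z := by
    intro z hz
    have h1 : res C f z = f z := by unfold res; rw [if_pos hz]
    rw [← h1]
    have h2 := congrFun hdec z
    rw [Finset.sum_apply] at h2
    exact h2
  rw [hval _ (C.mul_mem hxC hyC), hval _ hxC, ← Finset.sum_sub_distrib]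
  apply Finset.sum_induction _ (fun a => a ∈ J) (fun a b ha hb => hJ.add a ha b hb) (v03_zero hJ)
  intro χ hχ
  have hχi : IsIr C χ := mem_irr.mp hχ
  have hlin := v03_lin hC hχi
  obtain ⟨n, hn⟩ := ip_nat hg hχi.isCh
  have hyk : χ y ^ q ^ k = 1 := by
    rw [← hlin.pow_eq hyC, hy, hlin.2.1]
  have h3 := v03_root hq hJ hyk
  have h4 : ip C (res C f) χ * χ (x * y) - ip C (res C f) χ * χ x =
      ((n : ℂ) * χ x) * (χ y - 1) := by
    rw [hn, hlin.2.2 x hxC y hyC]; ring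
  rw [h4]
  refine hJ.mul _ h3 _ (IsIntegral.mul ?_ (hχi.isCh.integral x))
  have := isIntegral_algebraMap (R := ℤ) (A := ℂ) (x := (n : ℤ))
  simpa using this

end Pool.Agent.CTab
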