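import Pool.Agent.CTab.Defs
import Pool.Agent.CTab.V03
import Pool.Agent.CTab.B01
import Pool.Agent.CTab.B02
import Pool.Agent.CTab.B06
import Pool.Agent.CTab.B12
import Pool.Agent.CTab.B08

/-!
Separation modulo `q`: if `x`, `y` have order prime to `q` and `χ x ≡ χ y mod J` for all irreducible `χ`, they are
conjugate. Let `Q₀` be a Sylow `q`-subgroup of the centraliser of `x` and `a_χ = (1/|Q₀|) Σ_{u ∈ Q₀} conj χ(x u)`: it is an
algebraic integer (the complex conjugate of the trace of `x` on the fixed space of `Q₀`). By column orthogonality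
`Σ_χ a_χ χ(z) = (1/|Q₀|) Σ_{u ∈ Q₀} #{a | a z a⁻¹ = x u}`. For `z` of order prime to `q`, `x u` conjugate to `z` forces
`u = 1`. If `x, y` are not conjugate the sum is `0` for `z = y` and `|C_G(x)|/|Q₀|`, an integer prime to `q`, for `z = x`;
but the difference is `Σ a_χ (χ x - χ y) ∈ J`.
-/

set_option autoImplicit false

namespace Pool.Agent.CTab

open scoped Classical

variable {G : Type} [Group G] [Fintype G]

/-- a matrix with `M ^ (k + 1) = M` has integral trace -/
private theorem V04_trace {d : ℕ} (M : Matrix (Fin d) (Fin d) ℂ) {k : ℕ} (hk : 0 < k)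
    (hM : M ^ (k + 1) = M) : IsIntegral ℤ M.trace := by
  rw [Matrix.trace_eq_sum_roots_charpoly]
  refine IsIntegral.multiset_sum fun μ hμ => ?_
  have h2 : μ ∈ spectrum ℂ M :=
    Matrix.mem_spectrum_of_isRoot_charpoly (Polynomial.isRoot_of_mem_roots hμ)
  have h3 : μ ^ (k + 1) - μ = 0 := by
    by_contra hne
    have h4 := spectrum.subset_polynomial_aeval M (Polynomial.X ^ (k + 1) - Polynomial.X : Polynomial ℂ)
      ⟨μ, h2, rfl⟩
    have h5 : Polynomial.aeval M (Polynomial.X ^ (k + 1) - Polynomial.X : Polynomial ℂ) = 0 := by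
      rw [map_sub, map_pow, Polynomial.aeval_X, hM, sub_self]
    rw [h5, spectrum.mem_iff] at h4
    apply h4
    rw [sub_zero]
    simp only [Polynomial.eval_sub, Polynomial.eval_pow, Polynomial.eval_X]
    exact (IsUnit.mk0 _ hne).map _
  have h4 : μ * (μ ^ k - 1) = 0 := by
    rw [mul_sub, mul_one, ← pow_succ']
    exact h3
  rcases mul_eq_zero.1 h4 with h | h
  · rw [h]
    exact isIntegral_zero
  · exact IsIntegral.of_pow hk (by rw [sub_eq_zero.1 h]; exact isIntegral_one)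

private theorem V04_int {f : G → ℂ} (hf : IsCh (⊤ : Subgroup G) f) (Q : Subgroup G) {x : G}
    (hQ : ∀ u ∈ Q, x * u = u * x) :
    IsIntegral ℤ ((Nat.card Q : ℂ)⁻¹ * ∑ u : Q, f (x * u)) := by
  obtain ⟨d, r, -, hr, htr⟩ := exists_mrep hf
  have hmul : ∀ a b : G, r (a * b) = r a * r b :=
    fun a b => hr.2 a (Subgroup.mem_top a) b (Subgroup.mem_top b)
  have hc : (Nat.card Q : ℂ) ≠ 0 := by exact_mod_cast Nat.card_pos.ne'
  set E : Matrix (Fin d) (Fin d) ℂ := ∑ u : Q, r u with hE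
  have h1 : ∀ v : Q, r v * E = E := by
    intro v
    rw [hE, Finset.mul_sum]
    refine Fintype.sum_equiv (Equiv.mulLeft v) _ _ (fun u => ?_)
    rw [Equiv.coe_mulLeft, Subgroup.coe_mul, hmul]
  have hEE : E * E = (Nat.card Q : ℂ) • E := by
    have : E * E = ∑ v : Q, r v * E := by
      rw [← Finset.sum_mul]
    rw [this, Finset.sum_congr rfl (fun v _ => h1 v), Finset.sum_const, Finset.card_univ,
      Nat.card_eq_fintype_card, Nat.cast_smul_eq_nsmul]
  have hxE : r x * E = E * r x := by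
    rw [hE, Finset.mul_sum, Finset.sum_mul]
    refine Finset.sum_congr rfl (fun u _ => ?_)
    rw [← hmul, ← hmul, hQ u u.2]
  set e : Matrix (Fin d) (Fin d) ℂ := (Nat.card Q : ℂ)⁻¹ • E with he
  have hee : IsIdempotentElem e := by
    unfold IsIdempotentElem
    rw [he, smul_mul_smul_comm, hEE, smul_smul, mul_assoc, inv_mul_cancel₀ hc, mul_one]
  have hxe : Commute (r x) e := by
    unfold Commute SemiconjBy
    rw [he, mul_smul_comm, hxE, smul_mul_assoc]
  have hpow : ∀ n : ℕ, r (x ^ n) = r x ^ n := by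
    intro n
    induction n with
    | zero => rw [pow_zero, pow_zero, hr.1]
    | succ n ih => rw [pow_succ, pow_succ, hmul, ih]
  have hM : (r x * e) ^ (orderOf x + 1) = r x * e := by
    rw [hxe.mul_pow, hee.pow_succ_eq, pow_succ, ← hpow, pow_orderOf_eq_one, hr.1, one_mul]
  have htr' : (r x * e).trace = (Nat.card Q : ℂ)⁻¹ * ∑ u : Q, f (x * u) := by
    rw [he, mul_smul_comm, Matrix.trace_smul, smul_eq_mul, hE, Finset.mul_sum, Matrix.trace_sum]
    congr 1
    refine Finset.sum_congr rfl (fun u _ => ?_)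
    rw [← hmul, htr _ (Subgroup.mem_top _)]
  rw [← htr']
  exact V04_trace _ (orderOf_pos x) hM

private theorem V04_sylow (q : ℕ) (hq : q.Prime) (x : G) :
    ∃ Q : Subgroup G, (∀ u ∈ Q, x * u = u * x) ∧ (∀ u ∈ Q, ∃ k, u ^ q ^ k = 1) ∧
      ∃ m : ℕ, ¬ q ∣ m ∧
        Nat.card {a : G // a ∈ (⊤ : Subgroup G) ∧ a * x * a⁻¹ = x} = Nat.card Q * m := by
  have : Fact q.Prime := ⟨hq⟩
  obtain ⟨Q0⟩ : Nonempty (Sylow q (Subgroup.centralizer ({x} : Set G))) := inferInstance
  refine ⟨(Q0 : Subgroup (Subgroup.centralizer ({x} : Set G))).map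
    (Subgroup.centralizer ({x} : Set G)).subtype, ?_, ?_, (Q0 : Subgroup (Subgroup.centralizer ({x} : Set G))).index, ?_, ?_⟩
  · rintro _ ⟨u, -, rfl⟩
    exact (Subgroup.mem_centralizer_singleton_iff.1 u.2).symm
  · rintro _ ⟨u, hu, rfl⟩
    obtain ⟨k, hk⟩ := Q0.isPGroup' ⟨u, hu⟩
    refine ⟨k, ?_⟩
    rw [← map_pow]
    have : u ^ q ^ k = 1 := by
      have := congrArg Subtype.val hk
      simpa using this
    rw [this, map_one]
  · exact Q0.not_dvd_index
  · have h1 : Nat.card ((Q0 : Subgroup (Subgroup.centralizer ({x} : Set G))).map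
        (Subgroup.centralizer ({x} : Set G)).subtype) = Nat.card Q0 :=
      Nat.card_congr ((Q0 : Subgroup (Subgroup.centralizer ({x} : Set G))).equivMapOfInjective
        (Subgroup.centralizer ({x} : Set G)).subtype (Subgroup.subtype_injective _)).toEquiv.symm
    rw [h1]
    have h2 := Subgroup.card_mul_index (Q0 : Subgroup (Subgroup.centralizer ({x} : Set G)))
    refine Eq.trans ?_ h2.symm
    refine Nat.card_congr ⟨fun a => ⟨a.1, ?_⟩, fun a => ⟨a.1, Subgroup.mem_top _, ?_⟩,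
      fun a => rfl, fun a => rfl⟩
    · rw [Subgroup.mem_centralizer_singleton_iff]
      have := a.2.2
      rw [mul_inv_eq_iff_eq_mul] at this
      exact this
    · have := Subgroup.mem_centralizer_singleton_iff.1 a.2
      rw [mul_inv_eq_iff_eq_mul]
      exact this


omit [Fintype G] in
private theorem V04_one {q : ℕ} (hq : q.Prime) {x u : G} (hxu : x * u = u * x)
    (hx : ¬ q ∣ orderOf x) {k : ℕ} (hu : u ^ q ^ k = 1) (h : ¬ q ∣ orderOf (x * u)) : u = 1 := by
  have h1 : u ^ (orderOf x * orderOf (x * u)) = 1 := by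
    have h2 : (x * u) ^ (orderOf x * orderOf (x * u)) = 1 := by
      rw [mul_comm, pow_mul, pow_orderOf_eq_one, one_pow]
    have hcomm : Commute x u := hxu
    rw [hcomm.mul_pow, pow_mul x, pow_orderOf_eq_one, one_pow, one_mul] at h2
    exact h2
  have hcop : Nat.Coprime (orderOf x * orderOf (x * u)) (q ^ k) := by
    apply Nat.Coprime.pow_right
    rw [Nat.coprime_comm, Nat.Prime.coprime_iff_not_dvd hq]
    intro hd
    rcases (Nat.Prime.dvd_mul hq).1 hd with h' | h'
    · exact hx h'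
    · exact h h'
  have h3 := Nat.dvd_gcd (orderOf_dvd_of_pow_eq_one h1) (orderOf_dvd_of_pow_eq_one hu)
  rw [hcop, Nat.dvd_one, orderOf_eq_one_iff] at h3
  exact h3

theorem isConj_of_congr {q : ℕ} (hq : q.Prime) {J : Set ℂ} (hJ : QIdeal q J) {x y : G}
    (hx : ¬ q ∣ orderOf x) (hy : ¬ q ∣ orderOf y)
    (h : ∀ χ, IsIr (⊤ : Subgroup G) χ → χ x - χ y ∈ J) : IsConj x y := by
  by_contra hn
  obtain ⟨Q, hQ1, hQ2, m, hm, hcard⟩ := V04_sylow q hq x
  have hc : (Nat.card Q : ℂ) ≠ 0 := by exact_mod_cast Nat.card_pos.ne'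
  set a : (G → ℂ) → ℂ := fun χ =>
    (starRingEnd ℂ) ((Nat.card Q : ℂ)⁻¹ * ∑ u : Q, χ (x * u)) with ha
  have hord : ∀ b z : G, orderOf (b * z * b⁻¹) = orderOf z := by
    intro b z
    have := (MulAut.conj b).orderOf_eq z
    rwa [MulAut.conj_apply] at this
  have key : ∀ z : G, ∑ χ ∈ irr (⊤ : Subgroup G), a χ * χ z =
      (Nat.card Q : ℂ)⁻¹ * ∑ u : Q,
        (Nat.card {b : G // b ∈ (⊤ : Subgroup G) ∧ b * z * b⁻¹ = x * u} : ℂ) := by
    intro z
    rw [Finset.mul_sum]
    simp_rw [← col_orth (A := (⊤ : Subgroup G)) (Subgroup.mem_top z) (Subgroup.mem_top _),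
      Finset.mul_sum]
    rw [Finset.sum_comm]
    refine Finset.sum_congr rfl (fun χ _ => ?_)
    rw [ha]
    simp only [map_mul, map_inv₀, Complex.conj_natCast, map_sum]
    rw [mul_assoc, Finset.sum_mul, Finset.mul_sum]
    refine Finset.sum_congr rfl (fun u _ => ?_)
    ring
  have hy0 : ∑ χ ∈ irr (⊤ : Subgroup G), a χ * χ y = 0 := by
    rw [key y, Finset.sum_eq_zero, mul_zero]
    intro u _
    have : IsEmpty {b : G // b ∈ (⊤ : Subgroup G) ∧ b * y * b⁻¹ = x * u} := by
      refine ⟨fun b => ?_⟩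
      obtain ⟨b, -, hb⟩ := b
      obtain ⟨k, hk⟩ := hQ2 u u.2
      have hu : (u : G) = 1 := by
        refine V04_one hq (hQ1 u u.2) hx hk ?_
        rw [← hb, hord]
        exact hy
      rw [hu, mul_one] at hb
      exact hn (isConj_iff.2 ⟨b, hb⟩).symm
    rw [Nat.card_of_isEmpty, Nat.cast_zero]
  have hx0 : ∑ χ ∈ irr (⊤ : Subgroup G), a χ * χ x = m := by
    rw [key x, Finset.sum_eq_single (1 : Q)]
    · rw [Subgroup.coe_one, mul_one, hcard, Nat.cast_mul, ← mul_assoc, inv_mul_cancel₀ hc, one_mul]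
    · intro u _ hu1
      have : IsEmpty {b : G // b ∈ (⊤ : Subgroup G) ∧ b * x * b⁻¹ = x * u} := by
        refine ⟨fun b => ?_⟩
        obtain ⟨b, -, hb⟩ := b
        obtain ⟨k, hk⟩ := hQ2 u u.2
        have hu : (u : G) = 1 := by
          refine V04_one hq (hQ1 u u.2) hx hk ?_
          rw [← hb, hord]
          exact hx
        exact hu1 (Subtype.ext hu)
      rw [Nat.card_of_isEmpty, Nat.cast_zero]
    · intro h1
      exact absurd (Finset.mem_univ _) h1
  have hzero : (0 : ℂ) ∈ J := by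
    have h1 := hJ.mul _ hJ.mem 0 isIntegral_zero
    rwa [zero_mul] at h1
  have hmem : ∑ χ ∈ irr (⊤ : Subgroup G), a χ * (χ x - χ y) ∈ J := by
    refine Finset.sum_induction _ (fun z => z ∈ J) (fun p r hp hr => hJ.add p hp r hr) hzero ?_
    intro χ hχ
    have hχ' := mem_irr.1 hχ
    refine hJ.mul _ (h χ hχ') _ ?_
    exact (V04_int hχ'.isCh Q hQ1).map (starRingEnd ℂ).toIntAlgHom
  have hfin : ∑ χ ∈ irr (⊤ : Subgroup G), a χ * (χ x - χ y) = ((m : ℤ) : ℂ) := by
    simp_rw [mul_sub]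
    rw [Finset.sum_sub_distrib, hx0, hy0, sub_zero, Int.cast_natCast]
  rw [hfin, QIdeal.int hq hJ, Int.natCast_dvd_natCast] at hmem
  exact hm hmem

end Pool.Agent.CTab
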