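import Pool.Agent.CTab.Defs
import Pool.Agent.CTab.V00
import Pool.Agent.CTab.V01
import Pool.Agent.CTab.V03
import Pool.Agent.CTab.V04
import Pool.Agent.CTab.B12

/-!
`p`-regular classes are visible (G. Higman). Claim: `Rel σ g g'` and `p ∤ orderOf g` imply `p ∤ orderOf g'` (then use
`σ.symm`). Induction on `orderOf g`. If `g = 1` then `g' = 1`. Otherwise let `q ≠ p` be a prime dividing `orderOf g`,
`g = x y`, `x` the `q'`-part and `y` the `q`-part (powers of `g`), so `χ g ≡ χ x` modulo a `QIdeal` for all `χ`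
(`congr_q`); let `Rel σ x x'`; so `χ' g' ≡ χ' x'` for all irreducible `χ'` of `G'`; replace `g'` and `x'` by their
`q'`-parts (`congr_q` again), which are then conjugate (`isConj_of_congr`). By induction `p ∤ orderOf x'`, so the `q'`-part
of `g'` has order prime to `p`, hence so has `g'` (`q ≠ p`).
-/

set_option autoImplicit false

namespace Pool.Agent.CTab

open scoped Classical

variable {G : Type} [Group G] [Fintype G]

private lemma v05_dec {H : Type} [Group H] [Fintype H] {q : ℕ} (hq : q.Prime) (g : H) :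
    ∃ (x y : H) (k : ℕ), g = x * y ∧ x * y = y * x ∧ y ^ q ^ k = 1 ∧ ¬ q ∣ orderOf x ∧
      orderOf x ∣ orderOf g ∧ orderOf g ∣ orderOf x * q ^ k := by
  have hn : orderOf g ≠ 0 := (orderOf_pos g).ne'
  obtain ⟨k, m, hm, hnm⟩ := Nat.exists_eq_pow_mul_and_not_dvd hn q hq.ne_one
  have hcop : Nat.Coprime (q ^ k) m :=
    Nat.Coprime.pow_left k ((Nat.Prime.coprime_iff_not_dvd hq).mpr hm)
  have hbez : (1 : ℤ) = (q ^ k : ℕ) * Nat.gcdA (q ^ k) m + m * Nat.gcdB (q ^ k) m := by
    have h1 := Nat.gcd_eq_gcd_ab (q ^ k) m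
    rw [hcop] at h1
    exact_mod_cast h1
  set a := Nat.gcdA (q ^ k) m with ha
  set b := Nat.gcdB (q ^ k) m with hb
  have hg : g ^ ((q ^ k : ℕ) * m : ℤ) = 1 := by
    have h1 : ((q ^ k : ℕ) * m : ℤ) = ((q ^ k * m : ℕ) : ℤ) := by push_cast; ring
    rw [h1, zpow_natCast, ← hnm]
    exact pow_orderOf_eq_one g
  have hx : (g ^ ((q ^ k : ℕ) * a : ℤ)) ^ m = 1 := by
    rw [← zpow_natCast, ← zpow_mul]
    have h1 : ((q ^ k : ℕ) * a * (m : ℕ) : ℤ) = ((q ^ k : ℕ) * m) * a := by ring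
    rw [h1, zpow_mul, hg, one_zpow]
  have hy : (g ^ ((m : ℤ) * b)) ^ q ^ k = 1 := by
    rw [← zpow_natCast, ← zpow_mul]
    have h1 : ((m : ℤ) * b * ((q ^ k : ℕ) : ℤ)) = ((q ^ k : ℕ) * m) * b := by ring
    rw [h1, zpow_mul, hg, one_zpow]
  have hcomm : Commute (g ^ ((q ^ k : ℕ) * a : ℤ)) (g ^ ((m : ℤ) * b)) :=
    (Commute.refl g).zpow_zpow _ _
  have hprod : g = g ^ ((q ^ k : ℕ) * a : ℤ) * g ^ ((m : ℤ) * b) := by
    rw [← zpow_add, ← hbez, zpow_one]
  have hxm : orderOf (g ^ ((q ^ k : ℕ) * a : ℤ)) ∣ m := orderOf_dvd_of_pow_eq_one hx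
  refine ⟨g ^ ((q ^ k : ℕ) * a : ℤ), g ^ ((m : ℤ) * b), k, hprod, hcomm, hy, ?_, ?_, ?_⟩
  · intro h
    exact hm (h.trans hxm)
  · rw [hnm]
    exact hxm.trans (dvd_mul_left _ _)
  · apply orderOf_dvd_of_pow_eq_one
    have h2 : g ^ (orderOf (g ^ ((q ^ k : ℕ) * a : ℤ)) * q ^ k) =
        (g ^ ((q ^ k : ℕ) * a : ℤ) * g ^ ((m : ℤ) * b)) ^
          (orderOf (g ^ ((q ^ k : ℕ) * a : ℤ)) * q ^ k) := by
      rw [← hprod]
    rw [h2, hcomm.mul_pow, pow_mul, pow_orderOf_eq_one, one_pow, one_mul, pow_mul', hy,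
      one_pow]

private lemma v05_sub {q : ℕ} {J : Set ℂ} (hJ : QIdeal q J) {a b : ℂ} (ha : a ∈ J) (hb : b ∈ J) :
    a - b ∈ J := by
  have h1 : (-1 : ℂ) * b ∈ J := hJ.mul b hb (-1) (isIntegral_one.neg)
  have h2 := hJ.add a ha _ h1
  have h3 : a + -1 * b = a - b := by ring
  rwa [h3] at h2

private lemma v05_aux {p : ℕ} (hp : p.Prime) (n : ℕ) : ∀ {G G' : Type} [Group G] [Fintype G]
    [Group G'] [Fintype G'] {σ : ConjClasses G ≃ ConjClasses G'} (_ : TabIso σ) {g : G} {g' : G'}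
    (_ : Rel σ g g'), orderOf g = n → ¬ p ∣ orderOf g → ¬ p ∣ orderOf g' := by
  induction n using Nat.strong_induction_on with
  | _ n ih =>
    intro G G' _ _ _ _ σ h g g' hr hn hpg hpg'
    by_cases hg1 : orderOf g = 1
    · rw [orderOf_eq_one_iff] at hg1
      subst hg1
      have h1 := h.one.mp hr
      rw [h1, orderOf_one] at hpg'
      exact hp.one_lt.ne' (Nat.dvd_one.mp hpg')
    · obtain ⟨q, hq, hqd⟩ := Nat.exists_prime_and_dvd hg1
      have hqp : q ≠ p := by
        rintro rfl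
        exact hpg hqd
      obtain ⟨J, hJ⟩ := exists_qideal hq
      obtain ⟨x, y, k, hgxy, hxy, hy, hqx, hxg, _⟩ := v05_dec hq g
      obtain ⟨x', hx'⟩ := (rel_exists σ).1 x
      have hlt : orderOf x < n := by
        rw [← hn]
        apply lt_of_le_of_ne (Nat.le_of_dvd (orderOf_pos g) hxg)
        intro he
        exact hqx (he ▸ hqd)
      have hpx : ¬ p ∣ orderOf x := fun hd => hpg (hd.trans hxg)
      have hpx' := ih (orderOf x) hlt h hx' rfl hpx
      obtain ⟨u, v, l, hguv, huv, hv, hqu, hug, hgu⟩ := v05_dec hq g'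
      obtain ⟨a, b, m, hxab, hab, hb, hqa, hax, hxa⟩ := v05_dec hq x'
      have hconj : IsConj u a := by
        apply isConj_of_congr hq hJ hqu hqa
        intro ψ hψ
        obtain ⟨χ, hχ, rfl⟩ := h.irr.2.1 ψ hψ
        have hcls := hχ.isCh.cls
        have e1 : tr σ χ g' = χ g := tr_apply hcls hr
        have e2 : tr σ χ x' = χ x := tr_apply hcls hx'
        have c1 := congr_q hq hJ hχ.isCh hxy hy
        rw [← hgxy, ← e1, ← e2] at c1
        have c2 := congr_q hq hJ hψ.isCh huv hv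
        rw [← hguv] at c2
        have c3 := congr_q hq hJ hψ.isCh hab hb
        rw [← hxab] at c3
        have c4 := hJ.add _ (v05_sub hJ c1 c2) _ c3
        have c5 : tr σ χ g' - tr σ χ x' - (tr σ χ g' - tr σ χ u) + (tr σ χ x' - tr σ χ a) =
            tr σ χ u - tr σ χ a := by ring
        rwa [c5] at c4
      have hord : orderOf u = orderOf a := by
        obtain ⟨c, hc⟩ := isConj_iff.mp hconj
        rw [← hc, orderOf_eq_orderOf_iff]
        intro j
        rw [conj_pow]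
        constructor
        · intro h1
          rw [h1]; group
        · intro h1
          have h2 : c⁻¹ * (c * u ^ j * c⁻¹) * c = u ^ j := by group
          rw [← h2, h1]; group
      have hpu : ¬ p ∣ orderOf u := by
        rw [hord]
        exact fun hd => hpx' (hd.trans hax)
      rcases (Nat.Prime.dvd_mul hp).mp (hpg'.trans hgu) with h1 | h1
      · exact hpu h1
      · exact hqp ((Nat.prime_dvd_prime_iff_eq hp hq).mp (hp.dvd_of_dvd_pow h1)).symm

theorem TabIso.p_regular {G' : Type} [Group G'] [Fintype G'] {σ : ConjClasses G ≃ ConjClasses G'}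
    (h : TabIso σ) {p : ℕ} (hp : p.Prime) {g : G} {g' : G'} (hr : Rel σ g g') :
    p ∣ orderOf g ↔ p ∣ orderOf g' := by
  constructor
  · intro h1
    by_contra h2
    exact v05_aux hp _ h.symm (rel_symm.mp hr) rfl h2 h1
  · intro h1
    by_contra h2
    exact v05_aux hp _ h hr rfl h2 h1

end Pool.Agent.CTab
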