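import Pool.Agent.CTab.Defs
import Pool.Agent.CTab.G01

/-!
Counting elements conjugated into the complement `H`, relative to a normal subgroup `M` (pure group theory; write
`n(g) = #{a | a⁻¹ g a ∈ H}`). (a) `M ≤ H`: `n(g) = |M| n̄(ḡ)`. (b) `M` a commutative normal `p`-subgroup, `p ∤ orderOf g`:
`n(g) = n̄(ḡ) |C_M(g)|`: for a coset `a M` with `a⁻¹ g a ∈ H M`, say `y = a⁻¹ g a = h m`, the elements `m₁ ∈ M` with
`m₁⁻¹ y m₁ ∈ H` are those with `m₁⁻¹ y m₁ = h`; there is one because two elements of order prime to `p` in the same coset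
of the commutative normal `p`-group `M` are `M`-conjugate; so there are `|C_M(y)| = |C_M(g)|`. (c) centralisers:
`C_{G/M}(ḡ)` is the image of `C_G(g)` by the same fact. (d) if `p ∣ orderOf g` then `n(g) = 0`.
-/

set_option autoImplicit false

namespace Pool.Agent.CTab

open scoped Classical

variable {G : Type} [Group G] [Fintype G]

private theorem v06_conj {M : Subgroup G} (hn : M.Normal) (hab : ∀ x ∈ M, ∀ y ∈ M, x * y = y * x)
    {n : ℕ} (hnM : Nat.Coprime n (Nat.card M)) {x y : G} (hx : x ^ n = 1) (hy : y ^ n = 1)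
    (hxy : x⁻¹ * y ∈ M) : ∃ m ∈ M, m * x * m⁻¹ = y := by
  letI : CommGroup M := { (inferInstance : Group M) with
    mul_comm := fun a b => Subtype.ext (hab a a.2 b b.2) }
  -- the cocycle
  have hmem : ∀ i : ℕ, (x ^ i)⁻¹ * y ^ i ∈ M := by
    intro i
    induction i with
    | zero => simp
    | succ i ih =>
      have h1 : (x ^ (i + 1))⁻¹ * y ^ (i + 1) =
          (x⁻¹ * ((x ^ i)⁻¹ * y ^ i) * x⁻¹⁻¹) * (x⁻¹ * y) := by
        rw [pow_succ, pow_succ]
        group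
      rw [h1]
      exact M.mul_mem (hn.conj_mem _ ih x⁻¹) hxy
  let c : ℕ → M := fun i => ⟨(x ^ i)⁻¹ * y ^ i, hmem i⟩
  let σ : M →* M :=
    { toFun := fun m => ⟨x⁻¹ * m * x⁻¹⁻¹, hn.conj_mem _ m.2 x⁻¹⟩
      map_one' := by
        apply Subtype.ext
        simp
      map_mul' := by
        intro a b
        apply Subtype.ext
        show x⁻¹ * ((a : G) * b) * x⁻¹⁻¹ = (x⁻¹ * a * x⁻¹⁻¹) * (x⁻¹ * b * x⁻¹⁻¹)
        group }
  have hc0 : c 0 = 1 := by
    apply Subtype.ext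
    show (x ^ 0)⁻¹ * y ^ 0 = 1
    simp
  have hcn : c n = 1 := by
    apply Subtype.ext
    show (x ^ n)⁻¹ * y ^ n = 1
    rw [hx, hy]
    simp
  have hcs : ∀ i, c (i + 1) = σ (c i) * c 1 := by
    intro i
    apply Subtype.ext
    show (x ^ (i + 1))⁻¹ * y ^ (i + 1) = (x⁻¹ * ((x ^ i)⁻¹ * y ^ i) * x⁻¹⁻¹) * ((x ^ 1)⁻¹ * y ^ 1)
    rw [pow_succ, pow_succ]
    group
  have hD : ∏ i ∈ Finset.range n, c i = σ (∏ i ∈ Finset.range n, c i) * c 1 ^ n := by
    have h1 : ∏ i ∈ Finset.range n, c (i + 1) = ∏ i ∈ Finset.range n, c i := by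
      have h2 := Finset.prod_range_succ c n
      have h3 := Finset.prod_range_succ' c n
      rw [hcn, mul_one] at h2
      rw [hc0, mul_one] at h3
      exact h3.symm.trans h2
    rw [← h1]
    conv_lhs => rw [Finset.prod_congr rfl fun i _ => hcs i]
    rw [Finset.prod_mul_distrib, Finset.prod_const, Finset.card_range, h1, map_prod]
  set D : M := ∏ i ∈ Finset.range n, c i with hDdef
  have hcn1 : c 1 ^ n = (σ D)⁻¹ * D := by
    rw [eq_inv_mul_iff_mul_eq]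
    exact hD.symm
  obtain ⟨k, hk⟩ := exists_pow_eq_self_of_coprime (x := c 1) (n := n)
    (Nat.Coprime.coprime_dvd_right (orderOf_dvd_natCard (c 1)) hnM)
  have hfin : c 1 = (σ (D ^ k))⁻¹ * D ^ k := by
    rw [← hk, hcn1, mul_pow, inv_pow, map_pow]
  have hG : (x ^ 1)⁻¹ * y ^ 1 =
      (x⁻¹ * ((D ^ k : M) : G) * x⁻¹⁻¹)⁻¹ * ((D ^ k : M) : G) := congrArg Subtype.val hfin
  refine ⟨((D ^ k : M) : G)⁻¹, M.inv_mem (D ^ k : M).2, ?_⟩
  have h5 : y = x * ((x ^ 1)⁻¹ * y ^ 1) := by group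
  rw [h5, hG]
  group

private theorem v06_orderOf_conj (a g : G) : orderOf (a⁻¹ * g * a) = orderOf g := by
  rw [orderOf_eq_orderOf_iff]
  intro j
  have h0 : (a⁻¹ * g * a) ^ j = a⁻¹ * g ^ j * a := by
    have := conj_pow (i := j) (a := a⁻¹) (b := g)
    rwa [inv_inv] at this
  rw [h0]
  constructor
  · intro h1
    have h2 : a * (a⁻¹ * g ^ j * a) * a⁻¹ = g ^ j := by group
    rw [← h2, h1]
    group
  · intro h1
    rw [h1]
    group

/-- counting over the fibres of the quotient map -/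
private theorem v06_fib (M : Subgroup G) (P : G → Prop) (Q : G ⧸ M → Prop) (k : ℕ)
    (h1 : ∀ a, P a → Q (QuotientGroup.mk a))
    (h2 : ∀ b, Q b → Nat.card {a : G // (QuotientGroup.mk a : G ⧸ M) = b ∧ P a} = k) :
    Nat.card {a : G // P a} = Nat.card {b : G ⧸ M // Q b} * k := by
  have e : {a : G // P a} ≃ (Σ b : {b : G ⧸ M // Q b},
      {a : G // (QuotientGroup.mk a : G ⧸ M) = b ∧ P a}) :=
    { toFun := fun a => ⟨⟨QuotientGroup.mk a.1, h1 a.1 a.2⟩, ⟨a.1, rfl, a.2⟩⟩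
      invFun := fun z => ⟨z.2.1, z.2.2.2⟩
      left_inv := by
        rintro ⟨a, ha⟩
        rfl
      right_inv := by
        rintro ⟨⟨b, hb⟩, ⟨a, ha, ha'⟩⟩
        simp only at ha
        subst ha
        rfl }
  haveI : Fintype {b : G ⧸ M // Q b} := Fintype.ofFinite _
  rw [Nat.card_congr e, Nat.card_sigma, Finset.sum_congr rfl fun b _ => h2 b.1 b.2,
    Finset.sum_const, Finset.card_univ, smul_eq_mul, Nat.card_eq_fintype_card]

/-- a fibre which is a coset of the centraliser -/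
private theorem v06_fibC {M : Subgroup G} (hn : M.Normal) (P : G → Prop) {g a1 : G}
    (hP : ∀ a, (QuotientGroup.mk a : G ⧸ M) = QuotientGroup.mk a1 →
      (P a ↔ (a * a1⁻¹) * g = g * (a * a1⁻¹))) :
    Nat.card {a : G // (QuotientGroup.mk a : G ⧸ M) = QuotientGroup.mk a1 ∧ P a} =
      Nat.card {m : G // m ∈ M ∧ m * g = g * m} := by
  haveI := hn
  have hmk : ∀ a, (QuotientGroup.mk a : G ⧸ M) = QuotientGroup.mk a1 ↔ a * a1⁻¹ ∈ M := by
    intro a
    rw [eq_comm, QuotientGroup.eq]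
    constructor
    · intro h
      have := hn.conj_mem _ h a1
      have e : a1 * (a1⁻¹ * a) * a1⁻¹ = a * a1⁻¹ := by group
      rwa [e] at this
    · intro h
      have := hn.conj_mem _ h a1⁻¹
      have e : a1⁻¹ * (a * a1⁻¹) * a1⁻¹⁻¹ = a1⁻¹ * a := by group
      rwa [e] at this
  apply Nat.card_congr
  refine
    { toFun := fun a => ⟨a.1 * a1⁻¹, (hmk a.1).mp a.2.1, (hP a.1 a.2.1).mp a.2.2⟩
      invFun := fun m => ⟨m.1 * a1, ?_, ?_⟩
      left_inv := ?_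
      right_inv := ?_ }
  · rw [hmk, mul_inv_cancel_right]
    exact m.2.1
  · have h1 : (QuotientGroup.mk (m.1 * a1) : G ⧸ M) = QuotientGroup.mk a1 := by
      rw [hmk, mul_inv_cancel_right]
      exact m.2.1
    rw [hP _ h1, mul_inv_cancel_right]
    exact m.2.2
  · rintro ⟨a, ha⟩
    apply Subtype.ext
    show a * a1⁻¹ * a1 = a
    group
  · rintro ⟨m, hm⟩
    apply Subtype.ext
    show m * a1 * a1⁻¹ = m
    group

private theorem v06_coprime {p : ℕ} (hp : p.Prime) {M : Subgroup G} (hM : IsPGroup p M) {n : ℕ}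
    (hn : ¬ p ∣ n) : Nat.Coprime n (Nat.card M) := by
  haveI : Fact p.Prime := ⟨hp⟩
  obtain ⟨k, hk⟩ := (IsPGroup.iff_card).1 hM
  rw [hk]
  exact ((Nat.Prime.coprime_iff_not_dvd hp).2 hn).symm.pow_right k

theorem conj_in_coset {p : ℕ} (hp : p.Prime) {M : Subgroup G} (hn : M.Normal)
    (hM : IsPGroup p M) (hab : ∀ x ∈ M, ∀ y ∈ M, x * y = y * x) {x y : G} (hx : ¬ p ∣ orderOf x)
    (hy : ¬ p ∣ orderOf y) (hxy : x⁻¹ * y ∈ M) : ∃ m ∈ M, m * x * m⁻¹ = y := by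
  have h1 : ¬ p ∣ orderOf x * orderOf y := by
    rw [hp.dvd_mul]
    push Not
    exact ⟨hx, hy⟩
  refine v06_conj hn hab (v06_coprime hp hM h1) ?_ ?_ hxy
  · rw [pow_mul, pow_orderOf_eq_one, one_pow]
  · rw [mul_comm, pow_mul, pow_orderOf_eq_one, one_pow]

theorem card_conj_p' {p : ℕ} (hp : p.Prime) {H P M : Subgroup G} [hn : M.Normal]
    (h : Cpl p ⊤ H P) (hM : M ≤ H) (g : G) :
    Nat.card {a : G // a⁻¹ * g * a ∈ H} = Nat.card M *
      Nat.card {a : G ⧸ M // a⁻¹ * (QuotientGroup.mk g : G ⧸ M) * a ∈ H.map (QuotientGroup.mk' M)} := by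
  have hiff : ∀ a : G, (QuotientGroup.mk a : G ⧸ M)⁻¹ * QuotientGroup.mk g * QuotientGroup.mk a ∈
      H.map (QuotientGroup.mk' M) ↔ a⁻¹ * g * a ∈ H := by
    intro a
    constructor
    · rintro ⟨x, hx, hxe⟩
      have h1 : (QuotientGroup.mk x : G ⧸ M) = QuotientGroup.mk (a⁻¹ * g * a) := hxe
      rw [QuotientGroup.eq] at h1
      have h2 : a⁻¹ * g * a = x * (x⁻¹ * (a⁻¹ * g * a)) := by group
      rw [h2]
      exact H.mul_mem hx (hM h1)
    · intro h1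
      exact ⟨a⁻¹ * g * a, h1, rfl⟩
  rw [mul_comm]
  apply v06_fib M (fun a => a⁻¹ * g * a ∈ H)
    (fun b => b⁻¹ * (QuotientGroup.mk g : G ⧸ M) * b ∈ H.map (QuotientGroup.mk' M)) (Nat.card M)
  · intro a ha
    exact (hiff a).mpr ha
  · intro b hb
    obtain ⟨a1, rfl⟩ := QuotientGroup.mk_surjective b
    apply Nat.card_congr
    refine
      { toFun := fun a => ⟨a1⁻¹ * a.1, QuotientGroup.eq.mp a.2.1.symm⟩
        invFun := fun m => ⟨a1 * m.1, ?_, ?_⟩
        left_inv := ?_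
        right_inv := ?_ }
    · rw [eq_comm, QuotientGroup.eq, inv_mul_cancel_left]
      exact m.2
    · have h1 : (QuotientGroup.mk (a1 * m.1) : G ⧸ M) = QuotientGroup.mk a1 := by
        rw [eq_comm, QuotientGroup.eq, inv_mul_cancel_left]
        exact m.2
      rw [← hiff, h1]
      exact hb
    · rintro ⟨a, ha⟩
      apply Subtype.ext
      show a1 * (a1⁻¹ * a) = a
      group
    · rintro ⟨m, hm⟩
      apply Subtype.ext
      show a1⁻¹ * (a1 * m) = m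
      group

theorem card_conj_p {p : ℕ} (hp : p.Prime) {H P M : Subgroup G} [hn : M.Normal]
    (h : Cpl p ⊤ H P) (hM : IsPGroup p M) (hab : ∀ x ∈ M, ∀ y ∈ M, x * y = y * x) {g : G}
    (hg : ¬ p ∣ orderOf g) :
    Nat.card {a : G // a⁻¹ * g * a ∈ H} =
      Nat.card {a : G ⧸ M // a⁻¹ * (QuotientGroup.mk g : G ⧸ M) * a ∈ H.map (QuotientGroup.mk' M)} *
      Nat.card {m : G // m ∈ M ∧ m * g = g * m} := by
  have hHM : H ⊓ M = ⊥ := by
    rw [inf_comm]
    apply Subgroup.inf_eq_bot_of_coprime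
    exact (v06_coprime hp hM h.2.2.2.1).symm
  apply v06_fib M (fun a => a⁻¹ * g * a ∈ H)
    (fun b => b⁻¹ * (QuotientGroup.mk g : G ⧸ M) * b ∈ H.map (QuotientGroup.mk' M))
    (Nat.card {m : G // m ∈ M ∧ m * g = g * m})
  · intro a ha
    exact ⟨a⁻¹ * g * a, ha, rfl⟩
  · intro b hb
    obtain ⟨a0, rfl⟩ := QuotientGroup.mk_surjective b
    obtain ⟨x, hx, hxe⟩ := hb
    have h1 : (QuotientGroup.mk x : G ⧸ M) = QuotientGroup.mk (a0⁻¹ * g * a0) := hxe
    have h2 := QuotientGroup.eq.mp h1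
    have hox : ¬ p ∣ orderOf x := by
      intro hd
      apply h.2.2.2.1
      have h3 := orderOf_dvd_natCard (⟨x, hx⟩ : H)
      rw [Subgroup.orderOf_mk] at h3
      exact hd.trans h3
    obtain ⟨m₀, hm₀, hm₀'⟩ := conj_in_coset hp hn hM hab hox
      (by rw [v06_orderOf_conj]; exact hg) h2
    have ha1 : (a0 * m₀)⁻¹ * g * (a0 * m₀) = x := by
      have e : (a0 * m₀)⁻¹ * g * (a0 * m₀) = m₀⁻¹ * (a0⁻¹ * g * a0) * m₀ := by group
      rw [e, ← hm₀']
      group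
    have hmk : (QuotientGroup.mk a0 : G ⧸ M) = QuotientGroup.mk (a0 * m₀) := by
      rw [QuotientGroup.eq, inv_mul_cancel_left]
      exact hm₀
    rw [hmk]
    apply v06_fibC hn
    intro a ha
    have h4 : a⁻¹ * g * a ∈ H ↔ a⁻¹ * g * a = x := by
      constructor
      · intro h5
        have h6 : (QuotientGroup.mk (a⁻¹ * g * a) : G ⧸ M) = QuotientGroup.mk x := by
          have e1 : (QuotientGroup.mk (a⁻¹ * g * a) : G ⧸ M) =
              (QuotientGroup.mk a : G ⧸ M)⁻¹ * QuotientGroup.mk g * QuotientGroup.mk a := rfl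
          have e2 : (QuotientGroup.mk (a0⁻¹ * g * a0) : G ⧸ M) =
              (QuotientGroup.mk a0 : G ⧸ M)⁻¹ * QuotientGroup.mk g * QuotientGroup.mk a0 := rfl
          rw [h1, e1, e2, ha, ← hmk]
        have h7 := QuotientGroup.eq.mp h6
        have h8 : (a⁻¹ * g * a)⁻¹ * x ∈ H ⊓ M := ⟨H.mul_mem (H.inv_mem h5) hx, h7⟩
        rw [hHM, Subgroup.mem_bot] at h8
        exact (inv_mul_eq_one.mp h8)
      · intro h5
        rw [h5]
        exact hx
    show a⁻¹ * g * a ∈ H ↔ _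
    rw [h4, ← ha1]
    constructor
    · intro h5
      have h6 : a * (a⁻¹ * g * a) * (a0 * m₀)⁻¹ =
          a * ((a0 * m₀)⁻¹ * g * (a0 * m₀)) * (a0 * m₀)⁻¹ := by rw [h5]
      have e1 : a * (a⁻¹ * g * a) * (a0 * m₀)⁻¹ = g * (a * (a0 * m₀)⁻¹) := by group
      have e2 : a * ((a0 * m₀)⁻¹ * g * (a0 * m₀)) * (a0 * m₀)⁻¹ = a * (a0 * m₀)⁻¹ * g := by group
      rw [e1, e2] at h6
      exact h6.symm
    · intro h5
      have h6 : a⁻¹ * (g * (a * (a0 * m₀)⁻¹)) * (a0 * m₀) =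
          a⁻¹ * (a * (a0 * m₀)⁻¹ * g) * (a0 * m₀) := by rw [h5]
      have e1 : a⁻¹ * (g * (a * (a0 * m₀)⁻¹)) * (a0 * m₀) = a⁻¹ * g * a := by group
      have e2 : a⁻¹ * (a * (a0 * m₀)⁻¹ * g) * (a0 * m₀) = (a0 * m₀)⁻¹ * g * (a0 * m₀) := by group
      rw [e1, e2] at h6
      exact h6

theorem card_centralizer {p : ℕ} (hp : p.Prime) {M : Subgroup G} [hn : M.Normal]
    (hM : IsPGroup p M) (hab : ∀ x ∈ M, ∀ y ∈ M, x * y = y * x) {g : G}
    (hg : ¬ p ∣ orderOf g) :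
    Nat.card {a : G // a * g * a⁻¹ = g} =
      Nat.card {a : G ⧸ M // a * (QuotientGroup.mk g : G ⧸ M) * a⁻¹ = (QuotientGroup.mk g : G ⧸ M)} *
      Nat.card {m : G // m ∈ M ∧ m * g = g * m} := by
  apply v06_fib M (fun a => a * g * a⁻¹ = g)
    (fun b => b * (QuotientGroup.mk g : G ⧸ M) * b⁻¹ = (QuotientGroup.mk g : G ⧸ M))
    (Nat.card {m : G // m ∈ M ∧ m * g = g * m})
  · intro a ha
    have e1 : (QuotientGroup.mk (a * g * a⁻¹) : G ⧸ M) =
        (QuotientGroup.mk a : G ⧸ M) * QuotientGroup.mk g * (QuotientGroup.mk a)⁻¹ := rfl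
    show (QuotientGroup.mk a : G ⧸ M) * QuotientGroup.mk g * (QuotientGroup.mk a)⁻¹ = _
    rw [← e1, ha]
  · intro b hb
    obtain ⟨a0, rfl⟩ := QuotientGroup.mk_surjective b
    have h1 : (QuotientGroup.mk g : G ⧸ M) = QuotientGroup.mk (a0 * g * a0⁻¹) := hb.symm
    have h2 := QuotientGroup.eq.mp h1
    have ho : orderOf (a0 * g * a0⁻¹) = orderOf g := by
      have := v06_orderOf_conj a0⁻¹ g
      rwa [inv_inv] at this
    obtain ⟨m₀, hm₀, hm₀'⟩ := conj_in_coset hp hn hM hab hg (by rw [ho]; exact hg) h2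
    have ha1 : (m₀⁻¹ * a0) * g * (m₀⁻¹ * a0)⁻¹ = g := by
      have e : (m₀⁻¹ * a0) * g * (m₀⁻¹ * a0)⁻¹ = m₀⁻¹ * (a0 * g * a0⁻¹) * m₀ := by group
      rw [e, ← hm₀']
      group
    have hmk : (QuotientGroup.mk a0 : G ⧸ M) = QuotientGroup.mk (m₀⁻¹ * a0) := by
      rw [QuotientGroup.eq]
      have := hn.conj_mem _ (M.inv_mem hm₀) a0⁻¹
      have e : a0⁻¹ * m₀⁻¹ * a0⁻¹⁻¹ = a0⁻¹ * (m₀⁻¹ * a0) := by group
      rwa [e] at this
    rw [hmk]
    apply v06_fibC hn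
    intro a _
    have hc : (m₀⁻¹ * a0) * g = g * (m₀⁻¹ * a0) := by
      rw [mul_inv_eq_iff_eq_mul] at ha1
      exact ha1
    obtain ⟨a1, ha1'⟩ : ∃ a1, a1 = m₀⁻¹ * a0 := ⟨_, rfl⟩
    rw [← ha1'] at hc ⊢
    have hci : a1⁻¹ * g = g * a1⁻¹ := by
      have : a1⁻¹ * (a1 * g) * a1⁻¹ = a1⁻¹ * (g * a1) * a1⁻¹ := by rw [hc]
      have e1 : a1⁻¹ * (a1 * g) * a1⁻¹ = g * a1⁻¹ := by group
      have e2 : a1⁻¹ * (g * a1) * a1⁻¹ = a1⁻¹ * g := by group
      rw [e1, e2] at this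
      exact this.symm
    show a * g * a⁻¹ = g ↔ _
    rw [mul_inv_eq_iff_eq_mul, mul_assoc a a1⁻¹ g, hci, ← mul_assoc, ← mul_assoc]
    exact (mul_left_inj a1⁻¹).symm

theorem card_conj_zero {p : ℕ} (hp : p.Prime) {H P : Subgroup G}
    (h : Cpl p ⊤ H P) {g : G} (hg : p ∣ orderOf g) : Nat.card {a : G // a⁻¹ * g * a ∈ H} = 0 := by
  have : IsEmpty {a : G // a⁻¹ * g * a ∈ H} := by
    constructor
    rintro ⟨a, ha⟩
    apply h.2.2.2.1
    have h3 := orderOf_dvd_natCard (⟨a⁻¹ * g * a, ha⟩ : H)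
    rw [Subgroup.orderOf_mk, v06_orderOf_conj] at h3
    exact hg.trans h3
  exact Nat.card_of_isEmpty

end Pool.Agent.CTab
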