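import Pool.Agent.CTab.Defs
import Pool.Agent.CTab.V01
import Pool.Agent.CTab.V02
import Pool.Agent.CTab.V05
import Pool.Agent.CTab.V06
import Pool.Agent.CTab.G01
import Pool.Agent.CTab.G03
import Pool.Agent.CTab.G05

/-!
Minimal normal subgroups of solvable groups, and the visibility of solvability and of commutativity of a minimal normal
subgroup. `exists_minNormal`: `exists_chief` with `A = ⊤`, `Z = ⊥`. `comm_corr`: `M'` has prime power order, so its centre is
nontrivial and normal in `G'`; the corresponding normal subgroup of `G` (apply `TabIso.quotient` to `σ.symm`) is contained in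
`M` and nontrivial, so it is `M`, and the centre of `M'` has the order of `M'`. `TabIso.solvable`: induction on the order.
-/

set_option autoImplicit false

namespace Pool.Agent.CTab

open scoped Classical

variable {G : Type} [Group G] [Fintype G]

theorem exists_minNormal (G : Type) [Group G] [Fintype G] (hs : Group.IsSolvable G) (hne : Nontrivial G) :
    ∃ (M : Subgroup G) (l : ℕ), M.Normal ∧ M ≠ ⊥ ∧ l.Prime ∧ IsPGroup l M ∧
      (∀ x ∈ M, ∀ y ∈ M, x * y = y * x) ∧
      ∀ N : Subgroup G, N.Normal → N ≤ M → N = ⊥ ∨ N = M := by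
  have hsT : Group.IsSolvable (⊤ : Subgroup G) := by
    haveI := hs
    infer_instance
  have hnB : Nrm (⊤ : Subgroup G) ⊥ := by
    intro a _ x hx
    rw [Subgroup.mem_bot] at hx ⊢
    rw [hx, mul_one, mul_inv_cancel]
  have hne' : (⊥ : Subgroup G) ≠ ⊤ := bot_ne_top
  obtain ⟨M, l, hl, hM0, _, hMn, hcomm, hpow, hmin⟩ := exists_chief hsT bot_le hnB hne'
  refine ⟨M, l, ?_, hM0.ne', hl, ?_, ?_, ?_⟩
  · exact ⟨fun x hx g => hMn g (Subgroup.mem_top g) x hx⟩
  · intro x
    refine ⟨1, ?_⟩
    rw [pow_one]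
    apply Subtype.ext
    exact Subgroup.mem_bot.mp (hpow x x.2)
  · intro x hx y hy
    have h1 := Subgroup.mem_bot.mp (hcomm x hx y hy)
    rw [mul_inv_eq_one, mul_inv_eq_iff_eq_mul] at h1
    exact h1
  · intro N hN hNM
    exact hmin N bot_le hNM (fun a _ x hx => hN.conj_mem x hx a)

theorem comm_corr {G' : Type} [Group G'] [Fintype G'] {σ : ConjClasses G ≃ ConjClasses G'}
    (h : TabIso σ) {M : Subgroup G} {M' : Subgroup G'} (hn : M.Normal) (hn' : M'.Normal) {l : ℕ}
    (hl : l.Prime) (hM : IsPGroup l M) (hcard : Nat.card M = Nat.card M')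
    (hc : ∀ g g', Rel σ g g' → (g ∈ M ↔ g' ∈ M'))
    (hmin : ∀ N : Subgroup G, N.Normal → N ≤ M → N = ⊥ ∨ N = M) :
    IsPGroup l M' ∧ ∀ x ∈ M', ∀ y ∈ M', x * y = y * x := by
  haveI : Fact l.Prime := ⟨hl⟩
  obtain ⟨k, hk⟩ := (IsPGroup.iff_card).1 hM
  have hM' : IsPGroup l M' := IsPGroup.iff_card.2 ⟨k, by rw [← hcard, hk]⟩
  refine ⟨hM', ?_⟩
  by_cases hb : M' = ⊥
  · intro x hx y hy
    rw [hb, Subgroup.mem_bot] at hx hy
    rw [hx, hy]
  haveI : Nontrivial M' := (Subgroup.nontrivial_iff_ne_bot M').mpr hb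
  have hcn := hM'.center_nontrivial
  -- the centre of `M'`
  let C' : Subgroup G' := (Subgroup.center M').map M'.subtype
  have hC'M : C' ≤ M' := by
    rintro _ ⟨x, _, rfl⟩
    exact x.2
  have hC'mem : ∀ x (hx : x ∈ M'), x ∈ C' ↔ ∀ y ∈ M', y * x = x * y := by
    intro x hx
    constructor
    · rintro ⟨z, hz, hzx⟩ y hy
      have h1 := (Subgroup.mem_center_iff.mp hz) ⟨y, hy⟩
      have h2 : y * (z : G') = z * y := congrArg Subtype.val h1
      have h3 : (z : G') = x := hzx
      rwa [h3] at h2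
    · intro h1
      refine ⟨⟨x, hx⟩, ?_, rfl⟩
      rw [SetLike.mem_coe, Subgroup.mem_center_iff]
      intro y
      exact Subtype.ext (h1 y y.2)
  haveI hC'n : C'.Normal := by
    constructor
    intro x hx g
    have hxM := hC'M hx
    have hgx := hn'.conj_mem x hxM g
    rw [hC'mem _ hgx]
    intro y hy
    have hy' := hn'.conj_mem y hy g⁻¹
    have h1 := (hC'mem x hxM).mp hx _ hy'
    have e1 : y * (g * x * g⁻¹) = g * (g⁻¹ * y * g⁻¹⁻¹ * x) * g⁻¹ := by group
    have e2 : g * x * g⁻¹ * y = g * (x * (g⁻¹ * y * g⁻¹⁻¹)) * g⁻¹ := by group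
    rw [e1, e2, h1]
  have hC'0 : C' ≠ ⊥ := by
    intro h0
    obtain ⟨z, hz⟩ := exists_ne (1 : Subgroup.center M')
    apply hz
    have h1 : ((z : M') : G') ∈ C' := ⟨z, z.2, rfl⟩
    rw [h0, Subgroup.mem_bot] at h1
    exact Subtype.ext (Subtype.ext h1)
  -- the corresponding subgroup of `G`
  obtain ⟨C, hCn, _, hCcard, hCrel, _, _⟩ := h.symm.quotient C'
  have hCM : C ≤ M := by
    intro g hg
    obtain ⟨g', hr⟩ := (rel_exists σ).1 g
    have h1 : g' ∈ C' := (hCrel g' g (rel_symm.mp hr)).mpr hg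
    exact (hc g g' hr).mpr (hC'M h1)
  have hCne : C ≠ ⊥ := by
    intro h0
    rw [h0, Subgroup.card_bot] at hCcard
    exact hC'0 (Subgroup.card_eq_one.mp hCcard)
  have hCeq : C = M := by
    rcases hmin C hCn hCM with h1 | h1
    · exact absurd h1 hCne
    · exact h1
  have hC'eq : C' = M' := by
    apply Subgroup.eq_of_le_of_card_ge hC'M
    rw [hCcard, hCeq, hcard]
  intro x hx y hy
  have h1 : y ∈ C' := by rw [hC'eq]; exact hy
  exact (hC'mem y hy).mp h1 x hx

theorem TabIso.solvable {G' : Type} [Group G'] [Fintype G'] {σ : ConjClasses G ≃ ConjClasses G'}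
    (h : TabIso σ) (hs : Group.IsSolvable G) : Group.IsSolvable G' := by
  have key : ∀ (n : ℕ) (G G' : Type) [Group G] [Fintype G] [Group G'] [Fintype G']
      (σ : ConjClasses G ≃ ConjClasses G'), Nat.card G ≤ n → TabIso σ → Group.IsSolvable G →
      Group.IsSolvable G' := by
    intro n
    induction n with
    | zero =>
      intro G G' _ _ _ _ σ hc
      exact absurd hc (Nat.not_le.mpr Nat.card_pos)
    | succ n ih =>
      intro G G' _ _ _ _ σ hc h hs
      by_cases hnt : Nontrivial G
      swap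
      · have h1 : Subsingleton G := not_nontrivial_iff_subsingleton.mp hnt
        have h2 : Nat.card G' = 1 := by
          rw [← h.card, Nat.card_eq_one_iff_unique]
          exact ⟨h1, ⟨1⟩⟩
        haveI h3 : Subsingleton G' := (Nat.card_eq_one_iff_unique.mp h2).1
        exact Group.isSolvable_of_comm (fun a b => Subsingleton.elim _ _)
      obtain ⟨M, l, hMn, hM0, hl, hMl, hMab, hmin⟩ := exists_minNormal G hs hnt
      haveI := hMn
      obtain ⟨M', hMn', σ', hcM, hmem, h', hσ'⟩ := h.quotient M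
      haveI := hMn'
      obtain ⟨hMl', hMab'⟩ := comm_corr h hMn hMn' hl hMl hcM hmem hmin
      haveI : Fintype (G ⧸ M) := Fintype.ofFinite _
      haveI : Fintype (G' ⧸ M') := Fintype.ofFinite _
      have hcard : Nat.card (G ⧸ M) ≤ n := by
        have h1 : Nat.card M * Nat.card (G ⧸ M) = Nat.card G := M.card_mul_index
        have h2 : 1 < Nat.card M := by
          haveI : Nontrivial M := (Subgroup.nontrivial_iff_ne_bot M).mpr hM0
          exact Finite.one_lt_card
        have h3 : 0 < Nat.card (G ⧸ M) := Nat.card_pos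
        have h4 : Nat.card (G ⧸ M) < Nat.card M * Nat.card (G ⧸ M) := by nlinarith
        omega
      have hsq : Group.IsSolvable (G ⧸ M) :=
        haveI := hs
        Group.isSolvable_of_surjective (QuotientGroup.mk'_surjective M)
      have hq := ih (G ⧸ M) (G' ⧸ M') σ' hcard h' hsq
      haveI := hq
      haveI : Group.IsSolvable M' :=
        Group.isSolvable_of_comm (fun a b => Subtype.ext (hMab' a a.2 b b.2))
      exact Group.isSolvable_of_ker_le_range M'.subtype (QuotientGroup.mk' M')
        (by rw [QuotientGroup.ker_mk', Subgroup.range_subtype])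
  exact key (Nat.card G) G G' σ le_rfl h hs

end Pool.Agent.CTab
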