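import Pool.Agent.CTab.Defs
import Pool.Agent.CTab.V01
import Pool.Agent.CTab.V02
import Pool.Agent.CTab.V05
import Pool.Agent.CTab.V06
import Pool.Agent.CTab.V07
import Pool.Agent.CTab.G01
import Pool.Agent.CTab.G03

/-!
The function `g ↦ #{a | a⁻¹ g a ∈ H}` (`|H|` times the permutation character on `G/H`) is visible. Induction on `|G|`
with a minimal normal subgroup `M` (`exists_minNormal`), `M'`, `G/M`, `G'/M'` from `TabIso.quotient`, `comm_corr`,
complements `H.map`, `P.map` (`Cpl.map_p`, `Cpl.map_p'`; `M ≤ H` or `M ≤ P` by `Cpl.le_of_normal(_p)`). Case `l ≠ p`: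
`card_conj_p'`. Case `l = p`: if `p ∣ orderOf g` both sides are `0` (`TabIso.p_regular`, `card_conj_zero`); otherwise
`card_conj_p` and `|C_M(g)| = |C_G(g)| / |C_{G/M}(ḡ)|` (`card_centralizer`) is visible (`TabIso.centralizer` for `σ` and for
the quotient).
-/

set_option autoImplicit false

namespace Pool.Agent.CTab

open scoped Classical

variable {G : Type} [Group G] [Fintype G]

theorem card_conj_visible {p : ℕ} (hp : p.Prime) :
    ∀ (n : ℕ) (G G' : Type) [Group G] [Fintype G] [Group G'] [Fintype G']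
      (σ : ConjClasses G ≃ ConjClasses G'), Nat.card G ≤ n → TabIso σ → Group.IsSolvable G →
      Group.IsSolvable G' →
      ∀ (H P : Subgroup G) (H' P' : Subgroup G'), Cpl p ⊤ H P → Cpl p ⊤ H' P' →
      ∀ g g', Rel σ g g' →
        Nat.card {a : G // a⁻¹ * g * a ∈ H} = Nat.card {a : G' // a⁻¹ * g' * a ∈ H'} := by
  intro n
  induction n with
  | zero =>
    intro G G' _ _ _ _ σ hc
    exact absurd hc (Nat.not_le.mpr Nat.card_pos)
  | succ n ih =>
    intro G G' _ _ _ _ σ hc h hs hs' H P H' P' hC hC' g g' hr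
    by_cases hnt : Nontrivial G
    swap
    · have h1 : Subsingleton G := not_nontrivial_iff_subsingleton.mp hnt
      have h2 : Nat.card G' = 1 := by
        rw [← h.card, Nat.card_eq_one_iff_unique]
        exact ⟨h1, ⟨1⟩⟩
      have h3 : Subsingleton G' := (Nat.card_eq_one_iff_unique.mp h2).1
      have e1 : Nat.card {a : G // a⁻¹ * g * a ∈ H} = 1 := by
        rw [Nat.card_eq_one_iff_unique]
        refine ⟨inferInstance, ⟨⟨1, ?_⟩⟩⟩
        rw [Subsingleton.elim ((1 : G)⁻¹ * g * 1) 1]
        exact H.one_mem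
      have e2 : Nat.card {a : G' // a⁻¹ * g' * a ∈ H'} = 1 := by
        rw [Nat.card_eq_one_iff_unique]
        refine ⟨inferInstance, ⟨⟨1, ?_⟩⟩⟩
        rw [Subsingleton.elim ((1 : G')⁻¹ * g' * 1) 1]
        exact H'.one_mem
      rw [e1, e2]
    obtain ⟨M, l, hMn, hM0, hl, hMl, hMab, hmin⟩ := exists_minNormal G hs hnt
    haveI := hMn
    obtain ⟨M', hMn', σ', hcM, hmem, h', hσ'⟩ := h.quotient M
    haveI := hMn'
    obtain ⟨hMl', hMab'⟩ := comm_corr h hMn hMn' hl hMl hcM hmem hmin
    haveI : Fintype (G ⧸ M) := Fintype.ofFinite _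
    haveI : Fintype (G' ⧸ M') := Fintype.ofFinite _
    have hcard : Nat.card (G ⧸ M) ≤ n := by
      have h1 : Nat.card M * Nat.card (G ⧸ M) = Nat.card G := M.card_mul_index
      have h2 : 1 < Nat.card M := by
        haveI : Nontrivial M := (Subgroup.nontrivial_iff_ne_bot M).mpr hM0
        exact Finite.one_lt_card
      have h3 : 0 < Nat.card (G ⧸ M) := Nat.card_pos
      have h4 : Nat.card (G ⧸ M) < Nat.card M * Nat.card (G ⧸ M) := by nlinarith
      omega
    have hsq : Group.IsSolvable (G ⧸ M) := inferInstance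
    have hsq' : Group.IsSolvable (G' ⧸ M') := inferInstance
    have hker : (QuotientGroup.mk' M).ker = M := QuotientGroup.ker_mk' M
    have hker' : (QuotientGroup.mk' M').ker = M' := QuotientGroup.ker_mk' M'
    have hsur : Function.Surjective (QuotientGroup.mk' M) := QuotientGroup.mk'_surjective M
    have hsur' : Function.Surjective (QuotientGroup.mk' M') := QuotientGroup.mk'_surjective M'
    have hN : Nrm ⊤ M := fun a _ m hm => hMn.conj_mem m hm a
    have hN' : Nrm ⊤ M' := fun a _ m hm => hMn'.conj_mem m hm a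
    have hrq : Rel σ' (QuotientGroup.mk g : G ⧸ M) (QuotientGroup.mk g' : G' ⧸ M') := hσ' g g' hr
    by_cases hlp : l = p
    · subst hlp
      by_cases hpg : l ∣ orderOf g
      · rw [card_conj_zero hl hC hpg, card_conj_zero hl hC' ((h.p_regular hl hr).mp hpg)]
      · have hpg' : ¬ l ∣ orderOf g' := fun hd => hpg ((h.p_regular hl hr).mpr hd)
        have hMP : M ≤ P := hC.le_of_normal_p hl le_top hN hMl
        have hMP' : M' ≤ P' := hC'.le_of_normal_p hl le_top hN' hMl'
        have hI := ih (G ⧸ M) (G' ⧸ M') σ' hcard h' hsq hsq' (H.map (QuotientGroup.mk' M))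
          (P.map (QuotientGroup.mk' M)) (H'.map (QuotientGroup.mk' M'))
          (P'.map (QuotientGroup.mk' M')) (hC.map_p hl _ hsur (hker.le.trans hMP))
          (hC'.map_p hl _ hsur' (hker'.le.trans hMP')) _ _ hrq
        have c1 := card_centralizer hl hMl hMab hpg
        have c2 := card_centralizer hl hMl' hMab' hpg'
        have c3 := h.centralizer hr
        have c4 := h'.centralizer hrq
        have c5 : 0 < Nat.card {a : G' ⧸ M' // a * (QuotientGroup.mk g' : G' ⧸ M') * a⁻¹ =
            (QuotientGroup.mk g' : G' ⧸ M')} := by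
          haveI : Nonempty {a : G' ⧸ M' // a * (QuotientGroup.mk g' : G' ⧸ M') * a⁻¹ =
            (QuotientGroup.mk g' : G' ⧸ M')} := ⟨⟨1, by rw [one_mul, inv_one, mul_one]⟩⟩
          exact Nat.card_pos
        have c6 : Nat.card {m : G // m ∈ M ∧ m * g = g * m} =
            Nat.card {m : G' // m ∈ M' ∧ m * g' = g' * m} := by
          rw [c1, c2, c4] at c3
          exact Nat.eq_of_mul_eq_mul_left c5 c3
        rw [card_conj_p hl hC hMl hMab hpg, card_conj_p hl hC' hMl' hMab' hpg', hI, c6]
    · have hnd : ¬ p ∣ Nat.card M := by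
        haveI : Fact l.Prime := ⟨hl⟩
        obtain ⟨k, hk⟩ := (IsPGroup.iff_card).1 hMl
        rw [hk]
        intro hd
        exact hlp ((Nat.prime_dvd_prime_iff_eq hp hl).mp (hp.dvd_of_dvd_pow hd)).symm
      have hnd' : ¬ p ∣ Nat.card M' := hcM ▸ hnd
      have hMH : M ≤ H := hC.le_of_normal hp le_top hN hnd
      have hMH' : M' ≤ H' := hC'.le_of_normal hp le_top hN' hnd'
      have hI := ih (G ⧸ M) (G' ⧸ M') σ' hcard h' hsq hsq' (H.map (QuotientGroup.mk' M))
        (P.map (QuotientGroup.mk' M)) (H'.map (QuotientGroup.mk' M'))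
        (P'.map (QuotientGroup.mk' M')) (hC.map_p' hp _ hsur (hker.le.trans hMH))
        (hC'.map_p' hp _ hsur' (hker'.le.trans hMH')) _ _ hrq
      rw [card_conj_p' hp hC hMH g, card_conj_p' hp hC' hMH' g', hI, hcM]

end Pool.Agent.CTab
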