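import Pool.Agent.CTab.Defs
import Pool.Agent.CTab.V00
import Pool.Agent.CTab.V01
import Pool.Agent.CTab.B01
import Pool.Agent.CTab.B02
import Pool.Agent.CTab.B03

/-!
The number of distinct irreducible restrictions to the complement is visible, given that `g ↦ #{a | a⁻¹ g a ∈ H}` is.
For class functions `χ, ψ` of `G`: `ip H (res H χ) (res H ψ) = (|H| |G|)⁻¹ Σ_x χ x conj(ψ x) #{a | a⁻¹ x a ∈ H}`, which is
preserved by `TabIso.sum`. `res H χ ↦ res H' (tr σ χ)` is a well defined bijection: `res H χ` is irreducible iff its norm is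
one (`isIr_iff`), and two irreducible restrictions are equal iff their inner product is not zero (`ip_irr`).
-/

set_option autoImplicit false

namespace Pool.Agent.CTab

open scoped Classical

variable {G : Type} [Group G] [Fintype G]

/-- the function `y ↦ #{a | a⁻¹ y a ∈ H}` -/
private noncomputable def v09N (H : Subgroup G) (y : G) : ℂ := (Nat.card {a : G // a⁻¹ * y * a ∈ H} : ℂ)

private lemma v09N_sum (H : Subgroup G) (y : G) :
    v09N H y = ∑ a : G, if a⁻¹ * y * a ∈ H then (1 : ℂ) else 0 := by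
  unfold v09N
  rw [Finset.sum_boole, ← Fintype.card_subtype, ← Nat.card_eq_fintype_card]

private lemma v09N_conj (H : Subgroup G) (b y : G) : v09N H (b * y * b⁻¹) = v09N H y := by
  rw [v09N_sum, v09N_sum]
  rw [← Equiv.sum_comp (Equiv.mulLeft b)]
  apply Finset.sum_congr rfl
  intro a _
  have h1 : (b * a)⁻¹ * (b * y * b⁻¹) * (b * a) = a⁻¹ * y * a := by group
  rw [Equiv.coe_mulLeft, h1]

private lemma v09_ip (H : Subgroup G) {χ ψ : G → ℂ} (hχ : Cls ⊤ χ) (hψ : Cls ⊤ ψ) :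
    ip H (res H χ) (res H ψ) = (Nat.card H : ℂ)⁻¹ * ((Nat.card G : ℂ)⁻¹ *
      ∑ y, χ y * (starRingEnd ℂ) (ψ y) * v09N H y) := by
  have hG : (Nat.card G : ℂ) ≠ 0 := by exact_mod_cast Nat.card_pos.ne'
  unfold ip
  congr 1
  rw [eq_inv_mul_iff_mul_eq₀ hG]
  have h1 : ∀ x, res H χ x * (starRingEnd ℂ) (res H ψ x) =
      if x ∈ H then χ x * (starRingEnd ℂ) (ψ x) else 0 := by
    intro x
    unfold res
    by_cases hx : x ∈ H
    · rw [if_pos hx, if_pos hx, if_pos hx]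
    · rw [if_neg hx, if_neg hx, if_neg hx, zero_mul]
  have h2 : ∀ a : G, ∑ x, res H χ x * (starRingEnd ℂ) (res H ψ x) =
      ∑ y, χ y * (starRingEnd ℂ) (ψ y) * (if a⁻¹ * y * a ∈ H then (1 : ℂ) else 0) := by
    intro a
    rw [← Equiv.sum_comp (MulAut.conj a⁻¹).toEquiv]
    apply Finset.sum_congr rfl
    intro y _
    have h3 : (MulAut.conj a⁻¹).toEquiv y = a⁻¹ * y * a := by
      show a⁻¹ * y * a⁻¹⁻¹ = a⁻¹ * y * a
      rw [inv_inv]
    have h4 : χ (a⁻¹ * y * a) = χ y := by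
      have := hχ.2 a⁻¹ (Subgroup.mem_top _) y
      rwa [inv_inv] at this
    have h5 : ψ (a⁻¹ * y * a) = ψ y := by
      have := hψ.2 a⁻¹ (Subgroup.mem_top _) y
      rwa [inv_inv] at this
    rw [h1, h3, h4, h5]
    by_cases hy : a⁻¹ * y * a ∈ H
    · rw [if_pos hy, if_pos hy, mul_one]
    · rw [if_neg hy, if_neg hy, mul_zero]
  have h6 : (Nat.card G : ℂ) * ∑ x, res H χ x * (starRingEnd ℂ) (res H ψ x) =
      ∑ _a : G, ∑ x, res H χ x * (starRingEnd ℂ) (res H ψ x) := by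
    rw [Finset.sum_const, Finset.card_univ, nsmul_eq_mul, Nat.card_eq_fintype_card]
  rw [h6, Finset.sum_congr rfl fun a _ => h2 a, Finset.sum_comm]
  apply Finset.sum_congr rfl
  intro y _
  rw [v09N_sum, Finset.mul_sum]

private lemma v09_key {G' : Type} [Group G'] [Fintype G'] {σ : ConjClasses G ≃ ConjClasses G'}
    (h : TabIso σ) {H : Subgroup G} {H' : Subgroup G'} (hH : Nat.card H = Nat.card H')
    (hv : ∀ g g', Rel σ g g' →
      Nat.card {a : G // a⁻¹ * g * a ∈ H} = Nat.card {a : G' // a⁻¹ * g' * a ∈ H'})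
    {χ ψ : G → ℂ} (hχ : Cls ⊤ χ) (hψ : Cls ⊤ ψ) (hχ' : Cls ⊤ (tr σ χ)) (hψ' : Cls ⊤ (tr σ ψ)) :
    ip H' (res H' (tr σ χ)) (res H' (tr σ ψ)) = ip H (res H χ) (res H ψ) := by
  rw [v09_ip H hχ hψ, v09_ip H' hχ' hψ', hH, h.card]
  have hF : ∀ a x, χ (a * x * a⁻¹) * (starRingEnd ℂ) (ψ (a * x * a⁻¹)) * v09N H (a * x * a⁻¹) =
      χ x * (starRingEnd ℂ) (ψ x) * v09N H x := by
    intro a x
    rw [v09N_conj, hχ.2 a (Subgroup.mem_top _) x, hψ.2 a (Subgroup.mem_top _) x]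
  have hs := h.sum (F := fun y => χ y * (starRingEnd ℂ) (ψ y) * v09N H y) hF
  rw [hs]
  congr 2
  apply Finset.sum_congr rfl
  intro x' _
  obtain ⟨x, hx⟩ := (rel_exists σ).2 x'
  have hFc : Cls ⊤ (fun y => χ y * (starRingEnd ℂ) (ψ y) * v09N H y) :=
    ⟨fun y hy => absurd (Subgroup.mem_top y) hy, fun a _ y => hF a y⟩
  rw [tr_apply hFc hx, tr_apply hχ hx, tr_apply hψ hx]
  unfold v09N
  rw [hv x x' hx]

private lemma v09_over (H : Subgroup G) (α : G → ℂ) : Over (⊥ : Subgroup G) (del : G → ℂ) α := by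
  intro x n hn
  rw [Subgroup.mem_bot] at hn
  subst hn
  unfold del
  rw [if_pos rfl, mul_one, mul_one]

theorem card_tset_visible {G' : Type} [Group G'] [Fintype G'] {σ : ConjClasses G ≃ ConjClasses G'}
    (h : TabIso σ) {H : Subgroup G} {H' : Subgroup G'} (hH : Nat.card H = Nat.card H')
    (hv : ∀ g g', Rel σ g g' →
      Nat.card {a : G // a⁻¹ * g * a ∈ H} = Nat.card {a : G' // a⁻¹ * g' * a ∈ H'}) :
    Nat.card (TSet ⊤ H ⊥ (del : G → ℂ)) = Nat.card (TSet ⊤ H' ⊥ (del : G' → ℂ)) := by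
  have hirr' : ∀ χ, IsIr (⊤ : Subgroup G) χ → IsIr (⊤ : Subgroup G') (tr σ χ) := h.irr.1
  have key : ∀ χ ψ, IsIr (⊤ : Subgroup G) χ → IsIr (⊤ : Subgroup G) ψ →
      ip H' (res H' (tr σ χ)) (res H' (tr σ ψ)) = ip H (res H χ) (res H ψ) :=
    fun χ ψ h1 h2 => v09_key h hH hv h1.isCh.cls h2.isCh.cls (hirr' χ h1).isCh.cls
      (hirr' ψ h2).isCh.cls
  have hchoose : ∀ α : TSet ⊤ H ⊥ (del : G → ℂ), ∃ χ, IsIr (⊤ : Subgroup G) χ ∧ res H χ = α.1 :=
    fun α => α.2.2.2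
  choose f hf1 hf2 using hchoose
  have hir : ∀ α : TSet ⊤ H ⊥ (del : G → ℂ), IsIr H' (res H' (tr σ (f α))) := by
    intro α
    rw [isIr_iff]
    refine ⟨(hirr' _ (hf1 α)).isCh.res le_top, ?_⟩
    rw [key _ _ (hf1 α) (hf1 α), hf2]
    exact (isIr_iff.mp α.2.1).2
  let F : TSet ⊤ H ⊥ (del : G → ℂ) → TSet ⊤ H' ⊥ (del : G' → ℂ) := fun α =>
    ⟨res H' (tr σ (f α)), hir α, v09_over H' _, tr σ (f α), hirr' _ (hf1 α), rfl⟩
  apply Nat.card_eq_of_bijective F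
  constructor
  · intro α β hαβ
    have h1 : res H' (tr σ (f α)) = res H' (tr σ (f β)) := congrArg Subtype.val hαβ
    have h2 := key _ _ (hf1 α) (hf1 β)
    rw [hf2, hf2, ip_irr α.2.1 β.2.1, ip_irr (hir α) (hir β), if_pos h1] at h2
    by_contra hne
    have hne' : α.1 ≠ β.1 := fun h3 => hne (Subtype.ext h3)
    rw [if_neg hne'] at h2
    exact one_ne_zero h2
  · rintro ⟨α', hα', _, ψ, hψ, rfl⟩
    obtain ⟨χ, hχ, rfl⟩ := h.irr.2.1 ψ hψ
    have hα : IsIr H (res H χ) := by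
      rw [isIr_iff]
      refine ⟨hχ.isCh.res le_top, ?_⟩
      rw [← key _ _ hχ hχ]
      exact (isIr_iff.mp hα').2
    let α : TSet ⊤ H ⊥ (del : G → ℂ) := ⟨res H χ, hα, v09_over H _, χ, hχ, rfl⟩
    refine ⟨α, ?_⟩
    apply Subtype.ext
    show res H' (tr σ (f α)) = res H' (tr σ χ)
    have h2 := key _ _ (hf1 α) hχ
    have h3 : res H (f α) = res H χ := hf2 α
    rw [h3, (isIr_iff.mp hα).2, ip_irr (hir α) hα'] at h2
    by_contra hne
    rw [if_neg hne] at h2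
    exact zero_ne_one h2

end Pool.Agent.CTab
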