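import Pool.Agent.CTab.Defs
import Pool.Agent.CTab.V01
import Pool.Agent.CTab.G01
import Pool.Agent.CTab.G02

/-!
Classes of `p'`-size inside a normal subgroup `M ≤ H`. Let `K = KK H P`, `C = K ⊓ M = C_M(P)`. `P` acts on such a class,
whose size is prime to `p`, so it meets `C`; two elements of `C` conjugate in `G` are conjugate in `K` (`Cpl.conj_mul`
with `S` = the centraliser of one of them: `a = s k`). So these classes correspond to the `K`-orbits on `C`, counted by
Burnside's lemma. Second statement: the number of these classes is visible.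
-/

set_option autoImplicit false

namespace Pool.Agent.CTab

open scoped Classical

variable {G : Type} [Group G] [Fintype G]

private theorem v10_size (g : G) :
    Nat.card (ConjClasses.mk g).carrier * Nat.card (Subgroup.centralizer {g} : Subgroup G) =
      Nat.card G := by
  rw [← ConjAct.orbit_eq_carrier_conjClasses, Subgroup.nat_card_centralizer_nat_card_stabilizer,
    Nat.card_coe_set_eq, ← MulAction.index_stabilizer, mul_comm]
  exact Subgroup.card_mul_index _

private theorem v10_sub {M : Subgroup G} (hn : M.Normal) (g : G) :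
    (ConjClasses.mk g).carrier ⊆ (M : Set G) ↔ g ∈ M := by
  constructor
  · intro h
    exact h (ConjClasses.mem_carrier_mk)
  · intro h x hx
    rw [ConjClasses.mem_carrier_iff_mk_eq, ConjClasses.mk_eq_mk_iff_isConj, isConj_iff] at hx
    obtain ⟨c, hc⟩ := hx
    have h1 : x = c⁻¹ * g * c⁻¹⁻¹ := by rw [← hc]; group
    rw [SetLike.mem_coe, h1]
    exact hn.conj_mem g h c⁻¹

theorem card_classes {p : ℕ} (hp : p.Prime) {H P M : Subgroup G} (h : Cpl p ⊤ H P) (hn : M.Normal)
    (hM : M ≤ H) :
    Nat.card {c : ConjClasses G // c.carrier ⊆ (M : Set G) ∧ ¬ p ∣ Nat.card c.carrier} *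
        Nat.card (KK H P) =
      Nat.card {xc : G × G // xc.1 ∈ KK H P ∧ xc.2 ∈ KK H P ⊓ M ∧ xc.1 * xc.2 = xc.2 * xc.1} := by
  haveI : Fact p.Prime := ⟨hp⟩
  have hP : IsPGroup p P := h.2.2.1
  have hpH : ¬ p ∣ Nat.card H := h.2.2.2.1
  have hcard : Nat.card H * Nat.card P = Nat.card G := by
    rw [h.2.2.2.2, Subgroup.card_top]
  have hMP : Nrm P M := fun a _ m hm => hn.conj_mem m hm a
  have hC : ∀ c, c ∈ M → (c ∈ KK H P ↔ ∀ v ∈ P, v * c = c * v) := fun c hc =>
    mem_KK_iff_comm hp h hM hMP hc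
  have hact : ∀ k ∈ KK H P, ∀ c ∈ KK H P ⊓ M, k * c * k⁻¹ ∈ KK H P ⊓ M := by
    intro k hk c hc
    obtain ⟨h1, h2⟩ := Subgroup.mem_inf.1 hc
    exact Subgroup.mem_inf.2 ⟨(KK H P).mul_mem ((KK H P).mul_mem hk h1) ((KK H P).inv_mem hk),
      hn.conj_mem c h2 k⟩
  letI act : MulAction (KK H P) (KK H P ⊓ M : Subgroup G) :=
    { smul := fun k c => ⟨(k : G) * c * (k : G)⁻¹, hact k k.2 c c.2⟩
      one_smul := by
        intro c
        apply Subtype.ext
        show ((1 : KK H P) : G) * c * ((1 : KK H P) : G)⁻¹ = c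
        simp
      mul_smul := by
        intro a b c
        apply Subtype.ext
        show ((a * b : KK H P) : G) * c * ((a * b : KK H P) : G)⁻¹ =
          (a : G) * ((b : G) * c * (b : G)⁻¹) * (a : G)⁻¹
        rw [Subgroup.coe_mul]
        group }
  have hsm : ∀ (k : KK H P) (c : (KK H P ⊓ M : Subgroup G)),
      ((k • c : (KK H P ⊓ M : Subgroup G)) : G) = (k : G) * c * (k : G)⁻¹ := fun k c => rfl
  have hgood : ∀ c : (KK H P ⊓ M : Subgroup G), (ConjClasses.mk (c : G)).carrier ⊆ (M : Set G) ∧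
      ¬ p ∣ Nat.card (ConjClasses.mk (c : G)).carrier := by
    intro c
    obtain ⟨h1, h2⟩ := Subgroup.mem_inf.1 c.2
    refine ⟨(v10_sub hn _).2 h2, fun hd => hpH (hd.trans ?_)⟩
    have h3 := v10_size (c : G)
    have hPc : P ≤ Subgroup.centralizer {(c : G)} := by
      intro v hv
      rw [Subgroup.mem_centralizer_singleton_iff]
      exact ((hC _ h2).1 h1 v hv)
    obtain ⟨m, hm⟩ := Subgroup.card_dvd_of_le hPc
    have hPpos : 0 < Nat.card P := Nat.card_pos
    refine ⟨m, ?_⟩
    apply Nat.eq_of_mul_eq_mul_right hPpos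
    rw [hcard, ← h3, hm]
    ring
  let F : Quotient (MulAction.orbitRel (KK H P) (KK H P ⊓ M : Subgroup G)) →
      {c : ConjClasses G // c.carrier ⊆ (M : Set G) ∧ ¬ p ∣ Nat.card c.carrier} :=
    Quotient.lift (fun c => ⟨ConjClasses.mk (c : G), hgood c⟩) (by
      intro a b hab
      apply Subtype.ext
      show ConjClasses.mk (a : G) = ConjClasses.mk (b : G)
      rw [ConjClasses.mk_eq_mk_iff_isConj, isConj_comm, isConj_iff]
      obtain ⟨k, hk⟩ := hab
      exact ⟨k, congrArg Subtype.val hk⟩)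
  have hF : Function.Bijective F := by
    constructor
    · intro a b
      refine Quotient.inductionOn₂ a b ?_
      intro a b hab
      have h1 : ConjClasses.mk (a : G) = ConjClasses.mk (b : G) := congrArg Subtype.val hab
      rw [ConjClasses.mk_eq_mk_iff_isConj, isConj_comm, isConj_iff] at h1
      obtain ⟨g, hg⟩ := h1
      obtain ⟨ha1, ha2⟩ := Subgroup.mem_inf.1 a.2
      obtain ⟨hb1, hb2⟩ := Subgroup.mem_inf.1 b.2
      obtain ⟨s, hs, k, hk, hgk⟩ := h.conj_mul hp (S := Subgroup.centralizer {(a : G)})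
        (by
          intro v hv
          rw [Subgroup.mem_centralizer_singleton_iff]
          exact (hC _ ha2).1 ha1 v hv) le_top (Subgroup.mem_top g) (by
          intro v hv
          rw [Subgroup.mem_centralizer_singleton_iff, ← hg]
          have h2 := (hC _ hb2).1 hb1 v hv
          calc g * v * g⁻¹ * (g * b * g⁻¹) = g * (v * b) * g⁻¹ := by group
            _ = g * (b * v) * g⁻¹ := by rw [h2]
            _ = g * b * g⁻¹ * (g * v * g⁻¹) := by group)
      apply Quotient.sound
      refine ⟨⟨k, hk⟩, ?_⟩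
      apply Subtype.ext
      show k * b * k⁻¹ = a
      rw [Subgroup.mem_centralizer_singleton_iff] at hs
      rw [hgk] at hg
      have h3 : k * b * k⁻¹ = s⁻¹ * (s * k * b * (s * k)⁻¹) * s := by group
      rw [h3, hg, mul_assoc, ← hs]
      group
    · rintro ⟨c, hcM, hcp⟩
      obtain ⟨g, rfl⟩ := ConjClasses.exists_rep c
      letI actP : MulAction P (ConjClasses.mk g).carrier :=
        { smul := fun v x => ⟨(v : G) * x * (v : G)⁻¹, by
            rw [ConjClasses.mem_carrier_iff_mk_eq]
            have h1 := x.2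
            rw [ConjClasses.mem_carrier_iff_mk_eq] at h1
            refine Eq.trans ?_ h1
            rw [ConjClasses.mk_eq_mk_iff_isConj, isConj_comm, isConj_iff]
            exact ⟨v, rfl⟩⟩
          one_smul := by
            intro c
            apply Subtype.ext
            show ((1 : P) : G) * c * ((1 : P) : G)⁻¹ = c
            simp
          mul_smul := by
            intro a b c
            apply Subtype.ext
            show ((a * b : P) : G) * c * ((a * b : P) : G)⁻¹ =
              (a : G) * ((b : G) * c * (b : G)⁻¹) * (a : G)⁻¹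
            rw [Subgroup.coe_mul]
            group }
      obtain ⟨⟨c, hc⟩, hfix⟩ := hP.nonempty_fixed_point_of_prime_not_dvd_card
        (ConjClasses.mk g).carrier hcp
      have hcM' : c ∈ M := hcM hc
      have hcK : c ∈ KK H P := by
        rw [hC c hcM']
        intro v hv
        have h1 : v * c * v⁻¹ = c := congrArg Subtype.val (hfix ⟨v, hv⟩)
        calc v * c = (v * c * v⁻¹) * v := by group
          _ = c * v := by rw [h1]
      refine ⟨Quotient.mk _ ⟨c, Subgroup.mem_inf.2 ⟨hcK, hcM'⟩⟩, ?_⟩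
      apply Subtype.ext
      show ConjClasses.mk c = ConjClasses.mk g
      rwa [ConjClasses.mem_carrier_iff_mk_eq] at hc
  have e1 := Nat.card_congr (Equiv.ofBijective F hF)
  have e2 := Nat.card_congr (MulAction.sigmaFixedByEquivOrbitsProdGroup (KK H P)
    (KK H P ⊓ M : Subgroup G))
  rw [Nat.card_prod] at e2
  rw [← e1, ← e2]
  refine Nat.card_congr
    { toFun := fun z => ⟨((z.1 : G), ((z.2 : (KK H P ⊓ M : Subgroup G)) : G)), z.1.2,
        (z.2 : (KK H P ⊓ M : Subgroup G)).2, ?_⟩
      invFun := fun z => ⟨⟨z.1.1, z.2.1⟩, ⟨⟨z.1.2, z.2.2.1⟩, ?_⟩⟩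
      left_inv := fun z => rfl
      right_inv := fun z => rfl }
  · have h1 : ((z.1 : KK H P) • (z.2 : (KK H P ⊓ M : Subgroup G))) = z.2 := z.2.2
    have h2 : (z.1 : G) * ((z.2 : (KK H P ⊓ M : Subgroup G)) : G) * (z.1 : G)⁻¹ =
        ((z.2 : (KK H P ⊓ M : Subgroup G)) : G) := congrArg Subtype.val h1
    show (z.1 : G) * ((z.2 : (KK H P ⊓ M : Subgroup G)) : G) =
      ((z.2 : (KK H P ⊓ M : Subgroup G)) : G) * (z.1 : G)
    exact mul_inv_eq_iff_eq_mul.1 h2
  · apply Subtype.ext
    show z.1.1 * z.1.2 * z.1.1⁻¹ = z.1.2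
    exact mul_inv_eq_iff_eq_mul.2 z.2.2.2

theorem card_classes_visible {G' : Type} [Group G'] [Fintype G'] {σ : ConjClasses G ≃ ConjClasses G'}
    (h : TabIso σ) {p : ℕ} {M : Subgroup G} {M' : Subgroup G'} (hn : M.Normal) (hn' : M'.Normal)
    (hc : ∀ g g', Rel σ g g' → (g ∈ M ↔ g' ∈ M')) :
    Nat.card {c : ConjClasses G // c.carrier ⊆ (M : Set G) ∧ ¬ p ∣ Nat.card c.carrier} =
      Nat.card {c : ConjClasses G' // c.carrier ⊆ (M' : Set G') ∧ ¬ p ∣ Nat.card c.carrier} := by
  refine Nat.card_congr (Equiv.subtypeEquiv σ ?_)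
  intro c
  rw [← h.carrier c]
  refine and_congr ?_ Iff.rfl
  obtain ⟨g, rfl⟩ := ConjClasses.exists_rep c
  obtain ⟨g', hg'⟩ := ConjClasses.exists_rep (σ (ConjClasses.mk g))
  rw [← hg', v10_sub hn, v10_sub hn']
  exact hc g g' hg'.symm

end Pool.Agent.CTab
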