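import Pool.Agent.CTab.Defs
import Pool.Agent.CTab.S01
import Pool.Agent.CTab.V02
import Pool.Agent.CTab.V07
import Pool.Agent.CTab.V08
import Pool.Agent.CTab.V09
import Pool.Agent.CTab.V10
import Pool.Agent.CTab.F01
import Pool.Agent.CTab.G01
import Pool.Agent.CTab.G02
import Pool.Agent.CTab.G03
import Pool.Agent.CTab.C07

/-!
Induction on `|G|`: if `KK H P` is commutative then so is `KK H' P'`, and the orders agree. `G` trivial: clear. `M` minimal
normal of prime `l`, `M'`, `G/M`, `G'/M'` (`TabIso.quotient`, `comm_corr`). `l = p`: `M ≤ P`, `KK_comap_p`: the image of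
`KK H P` in `G/M` is `KK` of the images and `KK H P ⊓ M = ⊥`; same for `G'`; use the induction hypothesis. `l ≠ p`:
`M ≤ H`, `KK_comap_p'`: the image of `KK H P` is `KK` of the images, with kernel `C = KK H P ⊓ M`; the induction hypothesis
gives that commutators of `KK H' P'` are in `C' = KK H' P' ⊓ M'` and `|K|/|C| = |K'|/|C'|`. Apply `final_step` with
`t` = the number of `TSet` (`card_tset_top`, `card_irrO_bot`, `card_conj_visible`, `card_tset_visible`; `|H| = |H'|` since
`|G| = |G'|`) and `m` = the number of classes of `card_classes` / `card_classes_visible`.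
-/

set_option autoImplicit false

namespace Pool.Agent.CTab

open scoped Classical

variable {G : Type} [Group G] [Fintype G]

private lemma f02_map {G₂ : Type} [Group G₂] [Fintype G₂] (φ : G →* G₂)
    (hs : Function.Surjective φ) {K : Subgroup G} {K₂ : Subgroup G₂}
    (h : K₂.comap φ = K ⊔ φ.ker) : K.map φ = K₂ := by
  have h1 : (K₂.comap φ).map φ = K₂ := Subgroup.map_comap_eq_self_of_surjective hs K₂
  rw [← h1, h, Subgroup.map_sup]
  have h2 : φ.ker.map φ = ⊥ := by
    rw [Subgroup.map_eq_bot_iff]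
  rw [h2, sup_bot_eq]

/-- the complements have the same order -/
private lemma f02_card {G' : Type} [Group G'] [Fintype G'] {p : ℕ} (hp : p.Prime)
    (hGG : Nat.card G = Nat.card G') {H P : Subgroup G} {H' P' : Subgroup G'}
    (h : Cpl p ⊤ H P) (h' : Cpl p ⊤ H' P') : Nat.card H = Nat.card H' := by
  haveI : Fact p.Prime := ⟨hp⟩
  obtain ⟨a, ha⟩ := (IsPGroup.iff_card).1 h.2.2.1
  obtain ⟨b, hb⟩ := (IsPGroup.iff_card).1 h'.2.2.1
  have h1 := h.2.2.2.2
  have h2 := h'.2.2.2.2
  rw [Subgroup.card_top] at h1 h2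
  have c1 : Nat.Coprime (Nat.card H) (Nat.card P') := by
    rw [hb]
    exact ((Nat.Prime.coprime_iff_not_dvd hp).2 h.2.2.2.1).symm.pow_right b
  have c2 : Nat.Coprime (Nat.card H') (Nat.card P) := by
    rw [ha]
    exact ((Nat.Prime.coprime_iff_not_dvd hp).2 h'.2.2.2.1).symm.pow_right a
  apply Nat.dvd_antisymm
  · apply c1.dvd_of_dvd_mul_right
    rw [h2, ← hGG, ← h1]
    exact dvd_mul_right _ _
  · apply c2.dvd_of_dvd_mul_right
    rw [h1, hGG, ← h2]
    exact dvd_mul_right _ _

/-- commutators of elements whose images commute -/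
private lemma f02_comm {G₂ : Type} [Group G₂] (φ : G →* G₂) {K : Subgroup G}
    (h : ∀ x ∈ K.map φ, ∀ y ∈ K.map φ, x * y = y * x) :
    ∀ x ∈ K, ∀ y ∈ K, x * y * x⁻¹ * y⁻¹ ∈ K ⊓ φ.ker := by
  intro x hx y hy
  refine Subgroup.mem_inf.mpr ⟨K.mul_mem (K.mul_mem (K.mul_mem hx hy) (K.inv_mem hx))
    (K.inv_mem hy), ?_⟩
  rw [MonoidHom.mem_ker, map_mul, map_mul, map_mul, map_inv, map_inv,
    h (φ x) ⟨x, hx, rfl⟩ (φ y) ⟨y, hy, rfl⟩]
  group

theorem abel_transfer {p : ℕ} (hp : p.Prime) :
    ∀ (n : ℕ) (G G' : Type) [Group G] [Fintype G] [Group G'] [Fintype G']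
      (σ : ConjClasses G ≃ ConjClasses G'), Nat.card G ≤ n → TabIso σ → Group.IsSolvable G →
      Group.IsSolvable G' →
      ∀ (H P : Subgroup G) (H' P' : Subgroup G'), Cpl p ⊤ H P → Cpl p ⊤ H' P' →
      (∀ x ∈ KK H P, ∀ y ∈ KK H P, x * y = y * x) →
      (∀ x ∈ KK H' P', ∀ y ∈ KK H' P', x * y = y * x) ∧ Nat.card (KK H P) = Nat.card (KK H' P') := by
  intro n
  induction n with
  | zero =>
    intro G G' _ _ _ _ σ hc
    exact absurd hc (Nat.not_le.mpr Nat.card_pos)
  | succ n ih =>
    intro G G' _ _ _ _ σ hc h hs hs' H P H' P' hC hC' hK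
    by_cases hnt : Nontrivial G
    swap
    · have h1 : Subsingleton G := not_nontrivial_iff_subsingleton.mp hnt
      have h2 : Nat.card G' = 1 := by
        rw [← h.card, Nat.card_eq_one_iff_unique]
        exact ⟨h1, ⟨1⟩⟩
      have h3 : Subsingleton G' := (Nat.card_eq_one_iff_unique.mp h2).1
      refine ⟨fun x _ y _ => Subsingleton.elim _ _, ?_⟩
      rw [Subsingleton.elim (KK H P) ⊥, Subsingleton.elim (KK H' P') ⊥, Subgroup.card_bot,
        Subgroup.card_bot]
    obtain ⟨M, l, hMn, hM0, hl, hMl, hMab, hmin⟩ := exists_minNormal G hs hnt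
    haveI := hMn
    obtain ⟨M', hMn', σ', hcM, hmem, h', hσ'⟩ := h.quotient M
    haveI := hMn'
    obtain ⟨hMl', hMab'⟩ := comm_corr h hMn hMn' hl hMl hcM hmem hmin
    haveI : Fintype (G ⧸ M) := Fintype.ofFinite _
    haveI : Fintype (G' ⧸ M') := Fintype.ofFinite _
    have hcard : Nat.card (G ⧸ M) ≤ n := by
      have h1 : Nat.card M * Nat.card (G ⧸ M) = Nat.card G := M.card_mul_index
      have h2 : 1 < Nat.card M := by
        haveI : Nontrivial M := (Subgroup.nontrivial_iff_ne_bot M).mpr hM0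
        exact Finite.one_lt_card
      have h3 : 0 < Nat.card (G ⧸ M) := Nat.card_pos
      have h4 : Nat.card (G ⧸ M) < Nat.card M * Nat.card (G ⧸ M) := by nlinarith
      omega
    have hsq : Group.IsSolvable (G ⧸ M) := inferInstance
    have hsq' : Group.IsSolvable (G' ⧸ M') := inferInstance
    have hker : (QuotientGroup.mk' M).ker = M := QuotientGroup.ker_mk' M
    have hker' : (QuotientGroup.mk' M').ker = M' := QuotientGroup.ker_mk' M'
    have hsur : Function.Surjective (QuotientGroup.mk' M) := QuotientGroup.mk'_surjective M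
    have hsur' : Function.Surjective (QuotientGroup.mk' M') := QuotientGroup.mk'_surjective M'
    have hN : Nrm ⊤ M := fun a _ m hm => hMn.conj_mem m hm a
    have hN' : Nrm ⊤ M' := fun a _ m hm => hMn'.conj_mem m hm a
    have hKH : KK H P ≤ H := inf_le_left
    have hKH' : KK H' P' ≤ H' := inf_le_left
    have cK := G03.card_map_mul (QuotientGroup.mk' M) (KK H P)
    have cK' := G03.card_map_mul (QuotientGroup.mk' M') (KK H' P')
    rw [hker] at cK
    rw [hker'] at cK'
    by_cases hlp : l = p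
    · subst hlp
      have hMP : M ≤ P := hC.le_of_normal_p hl le_top hN hMl
      have hMP' : M' ≤ P' := hC'.le_of_normal_p hl le_top hN' hMl'
      have hkP : (QuotientGroup.mk' M).ker ≤ P := hker.le.trans hMP
      have hkP' : (QuotientGroup.mk' M').ker ≤ P' := hker'.le.trans hMP'
      have hm1 := f02_map (QuotientGroup.mk' M) hsur
        (KK_comap_p hl (QuotientGroup.mk' M) (H := H) hC.2.2.1 hkP)
      have hm2 := f02_map (QuotientGroup.mk' M') hsur'
        (KK_comap_p hl (QuotientGroup.mk' M') (H := H') hC'.2.2.1 hkP')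
      obtain ⟨i1, i2⟩ := ih (G ⧸ M) (G' ⧸ M') σ' hcard h' hsq hsq' (H.map (QuotientGroup.mk' M))
        (P.map (QuotientGroup.mk' M)) (H'.map (QuotientGroup.mk' M'))
        (P'.map (QuotientGroup.mk' M')) (hC.map_p hl _ hsur hkP) (hC'.map_p hl _ hsur' hkP') (by
          rw [← hm1]
          rintro _ ⟨x, hx, rfl⟩ _ ⟨y, hy, rfl⟩
          rw [← map_mul, ← map_mul, hK x hx y hy])
      rw [← hm1, ← hm2] at i2
      rw [← hm2] at i1
      have b1 : KK H P ⊓ M = ⊥ := by
        apply le_bot_iff.mp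
        rw [← hC.inf hl]
        exact inf_le_inf hKH hMP
      have b2 : KK H' P' ⊓ M' = ⊥ := by
        apply le_bot_iff.mp
        rw [← hC'.inf hl]
        exact inf_le_inf hKH' hMP'
      rw [b1, Subgroup.card_bot, mul_one] at cK
      rw [b2, Subgroup.card_bot, mul_one] at cK'
      refine ⟨?_, by rw [← cK, ← cK', i2]⟩
      intro x hx y hy
      have h1 := f02_comm (QuotientGroup.mk' M') i1 x hx y hy
      rw [hker', b2, Subgroup.mem_bot, mul_inv_eq_one, mul_inv_eq_iff_eq_mul] at h1
      exact h1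
    · have hnd : ¬ p ∣ Nat.card M := by
        haveI : Fact l.Prime := ⟨hl⟩
        obtain ⟨k, hk⟩ := (IsPGroup.iff_card).1 hMl
        rw [hk]
        intro hd
        exact hlp ((Nat.prime_dvd_prime_iff_eq hp hl).mp (hp.dvd_of_dvd_pow hd)).symm
      have hnd' : ¬ p ∣ Nat.card M' := hcM ▸ hnd
      have hMH : M ≤ H := hC.le_of_normal hp le_top hN hnd
      have hMH' : M' ≤ H' := hC'.le_of_normal hp le_top hN' hnd'
      have hkH : (QuotientGroup.mk' M).ker ≤ H := hker.le.trans hMH
      have hkH' : (QuotientGroup.mk' M').ker ≤ H' := hker'.le.trans hMH'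
      have hm1 := f02_map (QuotientGroup.mk' M) hsur
        (KK_comap_p' hp (QuotientGroup.mk' M) hC.2.2.1 hkH (by rw [hker]; exact hnd))
      have hm2 := f02_map (QuotientGroup.mk' M') hsur'
        (KK_comap_p' hp (QuotientGroup.mk' M') hC'.2.2.1 hkH' (by rw [hker']; exact hnd'))
      obtain ⟨i1, i2⟩ := ih (G ⧸ M) (G' ⧸ M') σ' hcard h' hsq hsq' (H.map (QuotientGroup.mk' M))
        (P.map (QuotientGroup.mk' M)) (H'.map (QuotientGroup.mk' M'))
        (P'.map (QuotientGroup.mk' M')) (hC.map_p' hp _ hsur hkH) (hC'.map_p' hp _ hsur' hkH') (by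
          rw [← hm1]
          rintro _ ⟨x, hx, rfl⟩ _ ⟨y, hy, rfl⟩
          rw [← map_mul, ← map_mul, hK x hx y hy])
      rw [← hm1, ← hm2] at i2
      rw [← hm2] at i1
      have hcom := f02_comm (QuotientGroup.mk' M') i1
      rw [hker'] at hcom
      have hk : Nat.card (KK H P) * Nat.card (KK H' P' ⊓ M' : Subgroup G') =
          Nat.card (KK H' P') * Nat.card (KK H P ⊓ M : Subgroup G) := by
        rw [← cK, ← cK', i2]
        ring
      have hv := card_conj_visible hp (Nat.card G) G G' σ le_rfl h hs hs' H P H' P' hC hC'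
      have hHH := f02_card hp h.card hC hC'
      have ht := card_irrO_bot (KK H P)
      have ht' := card_irrO_bot (KK H' P')
      rw [← card_tset_top hp hs hC] at ht
      rw [← card_tset_top hp hs' hC', ← card_tset_visible h hHH hv] at ht'
      have hm := card_classes hp hC hMn hMH
      have hm' := card_classes hp hC' hMn' hMH'
      rw [← card_classes_visible (p := p) h hMn hMn' hmem] at hm'
      exact final_step (K := KK H P) (C := KK H P ⊓ M) (K' := KK H' P') (C' := KK H' P' ⊓ M')
        inf_le_left hK inf_le_left (fun a ha c hc' => Subgroup.mem_inf.mpr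
          ⟨(KK H' P').mul_mem ((KK H' P').mul_mem ha hc'.1) ((KK H' P').inv_mem ha),
            hMn'.conj_mem c hc'.2 a⟩) hcom
        (fun x hx y hy => hMab' x hx.2 y hy.2) hk ht ht' hm hm'

end Pool.Agent.CTab
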