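import Pool.Agent.CTab.Defs
import Pool.Agent.CTab.F02
import Pool.Agent.CTab.G04
import Pool.Agent.CTab.V01
import Pool.Agent.CTab.V07
import Pool.Agent.CTab.G02

/-!
Final statement. For a Sylow subgroup `P` take a complement `H` (`exists_cpl`); `N_G(P) = P · KK H P`
(`Cpl.normalizer_mul`), so commutators of `N_G(P)` lie in `P` iff `KK H P` is commutative (`H ⊓ P = ⊥`). Apply
`abel_transfer` for `σ` and for `σ.symm`.
-/

set_option autoImplicit false

namespace Pool.Agent.CTab

open scoped Classical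

variable {G : Type} [Group G] [Fintype G]

theorem abel_iff {p : ℕ} (hp : p.Prime) {H P : Subgroup G} (h : Cpl p ⊤ H P) :
    (∀ a ∈ Subgroup.normalizer (P : Set G), ∀ b ∈ Subgroup.normalizer (P : Set G),
      a * b * a⁻¹ * b⁻¹ ∈ P) ↔ ∀ x ∈ KK H P, ∀ y ∈ KK H P, x * y = y * x := by
  sorry

theorem main (G G' : Type) [Group G] [Group G'] [Finite G] [Finite G'] (hs : Group.IsSolvable G)
    (hσ : ∃ σ : ConjClasses G ≃ ConjClasses G', TabIso σ) (p : ℕ) (hp : p.Prime)
    (P : Sylow p G) (Q : Sylow p G') :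
    ((∀ a ∈ Subgroup.normalizer (((P : Subgroup G)) : Set G),
        ∀ b ∈ Subgroup.normalizer (((P : Subgroup G)) : Set G),
          a * b * a⁻¹ * b⁻¹ ∈ (P : Subgroup G)) ↔
      (∀ a ∈ Subgroup.normalizer (((Q : Subgroup G')) : Set G'),
        ∀ b ∈ Subgroup.normalizer (((Q : Subgroup G')) : Set G'),
          a * b * a⁻¹ * b⁻¹ ∈ (Q : Subgroup G'))) := by
  sorry

end Pool.Agent.CTab
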